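import Mathlib

/-!
Propositional formulas over {∧, ∨, ¬}, schematic (Frege) rules, Frege refutations.
-/

set_option linter.unusedSectionVars false

namespace Fr56

/-- propositional formulas with variables in `V` over the connectives `¬, ∧, ∨` -/
inductive Fm (V : Type) : Type where
  | var (v : V) : Fm V
  | neg (f : Fm V) : Fm V
  | and (f g : Fm V) : Fm V
  | or (f g : Fm V) : Fm V

namespace Fm

variable {V W : Type}

/-- truth value under an assignment -/
def eval (x : V → Bool) : Fm V → Bool
  | var v => x v
  | neg f => !(eval x f)
  | and f g => eval x f && eval x g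
  | or f g => eval x f || eval x g

/-- size: number of symbols (variable occurrences and connectives) -/
def size : Fm V → ℕ
  | var _ => 1
  | neg f => size f + 1
  | and f g => size f + size g + 1
  | or f g => size f + size g + 1

/-- number of leaves (variable occurrences) -/
def leaves : Fm V → ℕ
  | var _ => 1
  | neg f => leaves f
  | and f g => leaves f + leaves g
  | or f g => leaves f + leaves g

/-- simultaneous substitution of formulas for variables -/
def subst (σ : V → Fm W) : Fm V → Fm W
  | var v => σ v
  | neg f => neg (subst σ f)
  | and f g => and (subst σ f) (subst σ g)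
  | or f g => or (subst σ f) (subst σ g)

/-- renaming of variables -/
def map (σ : V → W) : Fm V → Fm W
  | var v => var (σ v)
  | neg f => neg (map σ f)
  | and f g => and (map σ f) (map σ g)
  | or f g => or (map σ f) (map σ g)

/-- list of all subformulas (with multiplicity), the formula itself included -/
def subs : Fm V → List (Fm V)
  | var v => [var v]
  | neg f => neg f :: subs f
  | and f g => and f g :: (subs f ++ subs g)
  | or f g => or f g :: (subs f ++ subs g)

/-- the variables occurring in a formula -/
def vars : Fm V → Set V
  | var v => {v}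
  | neg f => vars f
  | and f g => vars f ∪ vars g
  | or f g => vars f ∪ vars g

/-- unsatisfiability -/
def Unsat (f : Fm V) : Prop := ∀ x : V → Bool, f.eval x = false

/-- `f` is a disjunction of `k` literals -/
inductive IsClause : ℕ → Fm V → Prop
  | pos (v : V) : IsClause 1 (var v)
  | neg (v : V) : IsClause 1 (neg (var v))
  | or {m n : ℕ} {f g : Fm V} (hf : IsClause m f) (hg : IsClause n g) : IsClause (m + n) (or f g)

/-- `f` is a conjunction of clauses of width at most `k` -/
inductive IsCNF (k : ℕ) : Fm V → Prop
  | clause {m : ℕ} {f : Fm V} (hm : m ≤ k) (hf : IsClause m f) : IsCNF k f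
  | and {f g : Fm V} (hf : IsCNF k f) (hg : IsCNF k g) : IsCNF k (and f g)

/-- disjunction of a nonempty list -/
def disj (d : Fm V) : List (Fm V) → Fm V
  | [] => d
  | [f] => f
  | f :: g :: l => or f (disj d (g :: l))

/-- conjunction of a nonempty list -/
def conj (d : Fm V) : List (Fm V) → Fm V
  | [] => d
  | [f] => f
  | f :: g :: l => and f (conj d (g :: l))

@[simp] theorem leaves_pos (f : Fm V) : 1 ≤ f.leaves := by
  induction f with
  | var v => simp [leaves]
  | neg f ih => simpa [leaves] using ih
  | and f g ihf ihg => simp only [leaves]; omega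
  | or f g ihf ihg => simp only [leaves]; omega

theorem leaves_le_size (f : Fm V) : f.leaves ≤ f.size := by
  induction f with
  | var v => simp [leaves, size]
  | neg f ih => simp only [leaves, size]; omega
  | and f g ihf ihg => simp only [leaves, size]; omega
  | or f g ihf ihg => simp only [leaves, size]; omega

@[simp] theorem size_map (σ : V → W) (f : Fm V) : (f.map σ).size = f.size := by
  induction f with
  | var v => rfl
  | neg f ih => simp [map, size, ih]
  | and f g ihf ihg => simp [map, size, ihf, ihg]
  | or f g ihf ihg => simp [map, size, ihf, ihg]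

@[simp] theorem leaves_map (σ : V → W) (f : Fm V) : (f.map σ).leaves = f.leaves := by
  induction f with
  | var v => rfl
  | neg f ih => simp [map, leaves, ih]
  | and f g ihf ihg => simp [map, leaves, ihf, ihg]
  | or f g ihf ihg => simp [map, leaves, ihf, ihg]

theorem eval_map (σ : V → W) (f : Fm V) (x : W → Bool) : (f.map σ).eval x = f.eval (x ∘ σ) := by
  induction f with
  | var v => rfl
  | neg f ih => simp [map, eval, ih]
  | and f g ihf ihg => simp [map, eval, ihf, ihg]
  | or f g ihf ihg => simp [map, eval, ihf, ihg]

theorem eval_subst (σ : V → Fm W) (f : Fm V) (x : W → Bool) :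
    (f.subst σ).eval x = f.eval (fun v => (σ v).eval x) := by
  induction f with
  | var v => rfl
  | neg f ih => simp [subst, eval, ih]
  | and f g ihf ihg => simp [subst, eval, ihf, ihg]
  | or f g ihf ihg => simp [subst, eval, ihf, ihg]

theorem eval_congr {f : Fm V} {x y : V → Bool} (h : ∀ v ∈ f.vars, x v = y v) :
    f.eval x = f.eval y := by
  induction f with
  | var v => exact h v rfl
  | neg f ih => simp only [eval]; rw [ih h]
  | and f g ihf ihg =>
    simp only [eval]
    rw [ihf fun v hv => h v (Or.inl hv), ihg fun v hv => h v (Or.inr hv)]
  | or f g ihf ihg =>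
    simp only [eval]
    rw [ihf fun v hv => h v (Or.inl hv), ihg fun v hv => h v (Or.inr hv)]

theorem self_mem_subs (f : Fm V) : f ∈ f.subs := by
  cases f <;> simp [subs]

theorem length_subs (f : Fm V) : f.subs.length = f.size := by
  induction f with
  | var v => rfl
  | neg f ih => simp [subs, size, ih]
  | and f g ihf ihg => simp [subs, size, ihf, ihg]
  | or f g ihf ihg => simp [subs, size, ihf, ihg]

theorem subs_trans {f g h : Fm V} (hfg : f ∈ g.subs) (hgh : g ∈ h.subs) : f ∈ h.subs := by
  induction h with
  | var v =>
    simp only [subs, List.mem_singleton] at hgh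
    subst hgh
    exact hfg
  | neg h ih =>
    simp only [subs, List.mem_cons] at hgh ⊢
    rcases hgh with rfl | hgh
    · simpa [subs] using hfg
    · exact Or.inr (ih hgh)
  | and h1 h2 ih1 ih2 =>
    simp only [subs, List.mem_cons, List.mem_append] at hgh ⊢
    rcases hgh with rfl | hgh | hgh
    · simpa [subs] using hfg
    · exact Or.inr (Or.inl (ih1 hgh))
    · exact Or.inr (Or.inr (ih2 hgh))
  | or h1 h2 ih1 ih2 =>
    simp only [subs, List.mem_cons, List.mem_append] at hgh ⊢
    rcases hgh with rfl | hgh | hgh
    · simpa [subs] using hfg
    · exact Or.inr (Or.inl (ih1 hgh))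
    · exact Or.inr (Or.inr (ih2 hgh))

theorem size_le_of_mem_subs {f g : Fm V} (h : f ∈ g.subs) : f.size ≤ g.size := by
  induction g with
  | var v => simp only [subs, List.mem_singleton] at h; subst h; rfl
  | neg g ih =>
    simp only [subs, List.mem_cons] at h
    rcases h with rfl | h
    · rfl
    · have := ih h; simp only [size]; omega
  | and g1 g2 ih1 ih2 =>
    simp only [subs, List.mem_cons, List.mem_append] at h
    rcases h with rfl | h | h
    · rfl
    · have := ih1 h; simp only [size]; omega
    · have := ih2 h; simp only [size]; omega
  | or g1 g2 ih1 ih2 =>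
    simp only [subs, List.mem_cons, List.mem_append] at h
    rcases h with rfl | h | h
    · rfl
    · have := ih1 h; simp only [size]; omega
    · have := ih2 h; simp only [size]; omega

end Fm

/-- a schematic rule: from the substitution instances of `hyps` infer that of `concl` -/
structure Rule where
  hyps : List (Fm ℕ)
  concl : Fm ℕ

/-- soundness of a rule -/
def Rule.Sound (r : Rule) : Prop :=
  ∀ x : ℕ → Bool, (∀ A ∈ r.hyps, A.eval x = true) → r.concl.eval x = true

/-- `π` is a derivation from the axiom `F` by the rules in `R`: each line is `F`, or a substitution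
instance of the conclusion of a rule whose correspondingly substituted hypotheses are all
earlier lines. -/
def IsDerivation {V : Type} (R : List Rule) (F : Fm V) (π : List (Fm V)) : Prop :=
  ∀ i (hi : i < π.length), π[i] = F ∨ ∃ r ∈ R, ∃ σ : ℕ → Fm V, π[i] = r.concl.subst σ ∧
    ∀ A ∈ r.hyps, ∃ j, ∃ hj : j < i, π[j] = A.subst σ

end Fr56
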