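import Mathlib

/-!
The numerical estimate.
-/

namespace Fr56

/-- the constant `T` of the sensitivity bound -/
noncomputable def TT (n : ℕ) : ℝ :=
  ((8 / 9 : ℝ) ^ (2240 * n) + 9 / ((2 ^ (400 * n) : ℕ) : ℝ)) * (2 * (2 ^ (3200 * n) : ℕ)) +
    2 ^ (2240 * n) / 8

/-- the constant `lam` of the sensitivity bound -/
noncomputable def ll (n : ℕ) : ℝ := 1 / (1152 * ((2 ^ (400 * n) : ℕ) : ℝ) * 2 ^ (2240 * n))

private lemma num_TT_le (n : ℕ) : TT n ≤ 2 ^ (2827 * n + 5) := by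
  have h1 : (8 / 9 : ℝ) ^ (2240 * n) ≤ 1 / 2 ^ (373 * n) := by
    have h2 : (8 / 9 : ℝ) ^ (2240 * n) ≤ (8 / 9 : ℝ) ^ (6 * (373 * n)) := by
      apply pow_le_pow_of_le_one (by norm_num) (by norm_num)
      omega
    refine h2.trans ?_
    rw [pow_mul, ← one_div_pow]
    exact pow_le_pow_left₀ (by norm_num) (by norm_num) _
  unfold TT
  push_cast
  have h3 : ((8 / 9 : ℝ) ^ (2240 * n) + 9 / (2 ^ (400 * n) : ℝ)) * (2 * (2 : ℝ) ^ (3200 * n)) ≤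
      (1 / 2 ^ (373 * n) + 9 / (2 ^ (400 * n) : ℝ)) * (2 * (2 : ℝ) ^ (3200 * n)) := by
    apply mul_le_mul_of_nonneg_right _ (by positivity)
    linarith
  have e1 : (1 / 2 ^ (373 * n) : ℝ) * (2 * (2 : ℝ) ^ (3200 * n)) = 2 * 2 ^ (2827 * n) := by
    have : (2 : ℝ) ^ (3200 * n) = 2 ^ (373 * n) * 2 ^ (2827 * n) := by
      rw [← pow_add]; congr 1; ring
    rw [this]
    field_simp
  have e2 : (9 / (2 ^ (400 * n) : ℝ)) * (2 * (2 : ℝ) ^ (3200 * n)) = 18 * 2 ^ (2800 * n) := by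
    have : (2 : ℝ) ^ (3200 * n) = 2 ^ (400 * n) * 2 ^ (2800 * n) := by
      rw [← pow_add]; congr 1; ring
    rw [this]
    field_simp
    norm_num
  have e3 : (2 : ℝ) ^ (2800 * n) ≤ 2 ^ (2827 * n) :=
    pow_le_pow_right₀ (by norm_num) (by omega)
  have e4 : (2 : ℝ) ^ (2240 * n) ≤ 2 ^ (2827 * n) :=
    pow_le_pow_right₀ (by norm_num) (by omega)
  have e5 : (2 : ℝ) ^ (2827 * n + 5) = 32 * 2 ^ (2827 * n) := by
    rw [pow_add]; ring
  rw [e5]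
  rw [add_mul (1 / (2 : ℝ) ^ (373 * n)), e1, e2] at h3
  have : (0 : ℝ) < 2 ^ (2827 * n) := by positivity
  have : (0 : ℝ) < 2 ^ (2240 * n) := by positivity
  linarith

private lemma num_TT_ge (n : ℕ) : 18 * (2 : ℝ) ^ (2800 * n) ≤ TT n := by
  unfold TT
  push_cast
  have e2 : (9 / (2 ^ (400 * n) : ℝ)) * (2 * (2 : ℝ) ^ (3200 * n)) = 18 * 2 ^ (2800 * n) := by
    have : (2 : ℝ) ^ (3200 * n) = 2 ^ (400 * n) * 2 ^ (2800 * n) := by
      rw [← pow_add]; congr 1; ring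
    rw [this]
    field_simp
    norm_num
  rw [add_mul, e2]
  have : (0 : ℝ) ≤ (8 / 9) ^ (2240 * n) * (2 * 2 ^ (3200 * n)) := by positivity
  have : (0 : ℝ) ≤ 2 ^ (2240 * n) / 8 := by positivity
  linarith

private lemma num_ll_TT (n : ℕ) (hn : 1 ≤ n) : (2 : ℝ) ^ (160 * n - 6) ≤ ll n * TT n := by
  have h1 := num_TT_ge n
  have h2 : 0 < ll n := by unfold ll; positivity
  have h3 : ll n * (18 * (2 : ℝ) ^ (2800 * n)) = 2 ^ (160 * n - 6) := by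
    unfold ll
    push_cast
    have e1 : (2 : ℝ) ^ (2800 * n) = 2 ^ (400 * n) * 2 ^ (2240 * n) * (2 ^ (160 * n - 6) * 64) := by
      have : (64 : ℝ) = 2 ^ 6 := by norm_num
      rw [this, ← pow_add, ← pow_add, ← pow_add]
      congr 1
      omega
    rw [e1]
    field_simp
    norm_num
  rw [← h3]
  exact mul_le_mul_of_nonneg_left h1 h2.le

private lemma num_exp (n : ℕ) (hn : 1 ≤ n) :
    Real.exp (- ll n * TT n) ≤ 1 / 2 ^ (2 ^ (160 * n - 6)) := by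
  have h1 := num_ll_TT n hn
  have h2 : - ll n * TT n ≤ -((2 ^ (160 * n - 6) : ℕ) : ℝ) := by
    push_cast
    linarith
  refine (Real.exp_le_exp.mpr h2).trans ?_
  rw [Real.exp_neg, ← one_div]
  apply one_div_le_one_div_of_le (by positivity)
  have h3 : ((2 ^ (160 * n - 6) : ℕ) : ℝ) = ((2 ^ (160 * n - 6) : ℕ) : ℝ) * 1 := by ring
  rw [h3, Real.exp_nat_mul]
  exact pow_le_pow_left₀ (by norm_num) (by have := Real.add_one_le_exp (1 : ℝ); linarith) _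

private lemma num_W (n : ℕ) (hn : 1 ≤ n) :
    ((2 ^ (1080 * n + 2) : ℕ) : ℝ) * ((2 * ((2 ^ (3200 * n) : ℕ) : ℝ) / 2 ^ (4000 * n)) ^ 2 +
          1024 * (2 * TT n / 2 ^ (4000 * n))) ≤ 2 ^ 19 / 2 ^ (93 * n) := by
  have h1 := num_TT_le n
  push_cast
  have e1 : (2 * (2 : ℝ) ^ (3200 * n) / 2 ^ (4000 * n)) ^ 2 = 4 / 2 ^ (1600 * n) := by
    have e : (2 : ℝ) ^ (4000 * n) = 2 ^ (3200 * n) * 2 ^ (800 * n) := by
      rw [← pow_add]; congr 1; ring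
    have e' : (2 : ℝ) ^ (1600 * n) = 2 ^ (800 * n) * 2 ^ (800 * n) := by
      rw [← pow_add]; congr 1; ring
    rw [e, e']
    field_simp
    norm_num
  have e2 : 1024 * (2 * TT n / (2 : ℝ) ^ (4000 * n)) ≤ 2 ^ 16 / 2 ^ (1173 * n) := by
    have e3 : 1024 * (2 * TT n / (2 : ℝ) ^ (4000 * n)) ≤
        1024 * (2 * 2 ^ (2827 * n + 5) / (2 : ℝ) ^ (4000 * n)) := by
      gcongr
    refine e3.trans (le_of_eq ?_)
    have e : (2 : ℝ) ^ (4000 * n) = 2 ^ (2827 * n) * 2 ^ (1173 * n) := by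
      rw [← pow_add]; congr 1; ring
    rw [e, pow_add]
    field_simp
    norm_num
  rw [e1]
  have e4 : (4 : ℝ) / 2 ^ (1600 * n) ≤ 2 ^ 16 / 2 ^ (1173 * n) := by
    have : (1 : ℝ) / 2 ^ (1600 * n) ≤ 1 / 2 ^ (1173 * n) :=
      one_div_le_one_div_of_le (by positivity) (pow_le_pow_right₀ (by norm_num) (by omega))
    calc (4 : ℝ) / 2 ^ (1600 * n) = 4 * (1 / 2 ^ (1600 * n)) := by ring
      _ ≤ 4 * (1 / 2 ^ (1173 * n)) := by linarith
      _ ≤ 2 ^ 16 * (1 / 2 ^ (1173 * n)) := by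
          apply mul_le_mul_of_nonneg_right _ (by positivity); norm_num
      _ = _ := by ring
  calc (2 : ℝ) ^ (1080 * n + 2) * (4 / 2 ^ (1600 * n) + 1024 * (2 * TT n / 2 ^ (4000 * n)))
      ≤ 2 ^ (1080 * n + 2) * (2 ^ 16 / 2 ^ (1173 * n) + 2 ^ 16 / 2 ^ (1173 * n)) := by
        apply mul_le_mul_of_nonneg_left _ (by positivity)
        linarith
    _ = 2 ^ 19 / 2 ^ (93 * n) := by
        have e : (2 : ℝ) ^ (1173 * n) = 2 ^ (1080 * n) * 2 ^ (93 * n) := by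
          rw [← pow_add]; congr 1; ring
        rw [e, pow_add]
        field_simp
        norm_num

private lemma num_lt_pow (n : ℕ) : n < 2 ^ n := Nat.lt_two_pow_self

theorem numeric : ∃ n0 : ℕ, ∀ n ≥ n0,
    (((2 ^ (2 ^ n) + 1) * 2 ^ (4280 * n) : ℕ) : ℝ) *
      ((((4 ^ n : ℕ) : ℝ) ^ 2 + 1) ^ (5 * 2 ^ n) * 2 ^ (45 * 2 ^ n) *
        (2 * ((4 ^ n : ℕ) : ℝ) ^ 2)) *
      ((((2 ^ (1080 * n + 2) : ℕ) : ℝ) * ((2 * ((2 ^ (3200 * n) : ℕ) : ℝ) / 2 ^ (4000 * n)) ^ 2 +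
          1024 * (2 * TT n / 2 ^ (4000 * n)))) ^ (2 ^ n) +
        ((2 ^ (1080 * n + 2) : ℕ) : ℝ) * (1024 * Real.exp (- ll n * TT n))) < 1 := by
  refine ⟨20, fun n hn => ?_⟩
  have hn1 : 1 ≤ n := by omega
  set k := 2 ^ n with hk
  have hk20 : 2 ^ 20 ≤ k := by
    rw [hk]; exact Nat.pow_le_pow_right (by norm_num) hn
  have hkn : n < k := num_lt_pow n
  set E := k * (20 * n + 51) + 4284 * n + 2 with hE
  -- the prefactor
  have hA : (((2 ^ k + 1) * 2 ^ (4280 * n) : ℕ) : ℝ) ≤ 2 ^ (k + 1 + 4280 * n) := by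
    push_cast
    have h1 : (1 : ℝ) ≤ 2 ^ k := one_le_pow₀ (by norm_num)
    rw [pow_add, pow_add, pow_one]
    apply mul_le_mul_of_nonneg_right _ (by positivity)
    linarith
  have hB : ((((4 ^ n : ℕ) : ℝ) ^ 2 + 1) ^ (5 * k) * 2 ^ (45 * k) *
        (2 * ((4 ^ n : ℕ) : ℝ) ^ 2)) ≤ 2 ^ ((4 * n + 1) * (5 * k) + 45 * k + (4 * n + 1)) := by
    have h4 : (((4 ^ n : ℕ) : ℝ) ^ 2) = 2 ^ (4 * n) := by
      push_cast
      have : (4 : ℝ) = 2 ^ 2 := by norm_num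
      rw [this, ← pow_mul, ← pow_mul]
      congr 1
      ring
    rw [h4]
    have h5 : (2 : ℝ) ^ (4 * n) + 1 ≤ 2 ^ (4 * n + 1) := by
      have h1 : (1 : ℝ) ≤ 2 ^ (4 * n) := one_le_pow₀ (by norm_num)
      rw [pow_add, pow_one]
      linarith
    have h6 : ((2 : ℝ) ^ (4 * n) + 1) ^ (5 * k) ≤ 2 ^ ((4 * n + 1) * (5 * k)) := by
      rw [pow_mul (2 : ℝ) (4 * n + 1)]
      exact pow_le_pow_left₀ (by positivity) h5 _
    have h7 : (2 : ℝ) * 2 ^ (4 * n) = 2 ^ (4 * n + 1) := by rw [pow_add]; ring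
    rw [h7, pow_add (2 : ℝ) ((4 * n + 1) * (5 * k) + 45 * k), pow_add (2 : ℝ) _ (45 * k)]
    gcongr
  have hAB : (((2 ^ k + 1) * 2 ^ (4280 * n) : ℕ) : ℝ) *
      ((((4 ^ n : ℕ) : ℝ) ^ 2 + 1) ^ (5 * k) * 2 ^ (45 * k) *
        (2 * ((4 ^ n : ℕ) : ℝ) ^ 2)) ≤ 2 ^ E := by
    calc _ ≤ (2 : ℝ) ^ (k + 1 + 4280 * n) *
        2 ^ ((4 * n + 1) * (5 * k) + 45 * k + (4 * n + 1)) :=
          mul_le_mul hA hB (by positivity) (by positivity)
      _ = 2 ^ E := by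
          rw [← pow_add]
          congr 1
          rw [hE]
          ring
  have hTT : 0 ≤ TT n := le_trans (by positivity) (num_TT_ge n)
  have hW1 := num_W n hn1
  have hW0 : 0 ≤ ((2 ^ (1080 * n + 2) : ℕ) : ℝ) *
      ((2 * ((2 ^ (3200 * n) : ℕ) : ℝ) / 2 ^ (4000 * n)) ^ 2 +
          1024 * (2 * TT n / 2 ^ (4000 * n))) := by positivity
  have hW := pow_le_pow_left₀ hW0 hW1 k
  have hX := num_exp n hn1
  have hX' : ((2 ^ (1080 * n + 2) : ℕ) : ℝ) * (1024 * Real.exp (- ll n * TT n)) ≤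
      2 ^ (1080 * n + 12) / 2 ^ (2 ^ (160 * n - 6)) := by
    calc ((2 ^ (1080 * n + 2) : ℕ) : ℝ) * (1024 * Real.exp (- ll n * TT n))
        ≤ ((2 ^ (1080 * n + 2) : ℕ) : ℝ) * (1024 * (1 / 2 ^ (2 ^ (160 * n - 6)))) := by gcongr
      _ = _ := by
          push_cast
          rw [pow_add _ _ 12, pow_add _ _ 2]
          ring
  -- exponents
  have hx1 : E + 19 * k + 2 ≤ 93 * n * k := by
    have h1 : 4284 * n + 4 ≤ k * n := by
      have : 4285 ≤ k := le_trans (by norm_num) hk20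
      calc 4284 * n + 4 ≤ 4285 * n := by omega
        _ ≤ k * n := Nat.mul_le_mul_right _ this
    have h2 : 70 * k ≤ 70 * (k * n) / 20 + 70 * (k * n) / 20 + 70 * k := by omega
    have h3 : 20 * k ≤ k * n := by
      calc 20 * k = k * 20 := by ring
        _ ≤ k * n := Nat.mul_le_mul_left _ hn
    rw [hE]
    have h4 : k * (20 * n + 51) = 20 * (k * n) + 51 * k := by ring
    have h5 : 93 * n * k = 93 * (k * n) := by ring
    rw [h4, h5]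
    omega
  have hx2 : E + (1080 * n + 12) + 2 ≤ 2 ^ (160 * n - 6) := by
    have h1 : 2 ^ (3 * n) ≤ 2 ^ (160 * n - 6) := Nat.pow_le_pow_right (by norm_num) (by omega)
    have h2 : 2 ^ (3 * n) = k * k * k := by
      rw [hk, ← pow_add, ← pow_add]; congr 1; ring
    rw [h2] at h1
    refine le_trans ?_ h1
    rw [hE]
    have h3 : k * n ≤ k * k := Nat.mul_le_mul_left _ hkn.le
    have h4 : k * (20 * n + 51) = 20 * (k * n) + 51 * k := by ring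
    rw [h4]
    have h5 : k * 1048576 ≤ k * k := Nat.mul_le_mul_left _ (by simpa using hk20)
    have h6 : (k * k) * 1048576 ≤ (k * k) * k := Nat.mul_le_mul_left _ (by simpa using hk20)
    omega
  have hfirst : (2 : ℝ) ^ E * (2 ^ 19 / 2 ^ (93 * n)) ^ k ≤ 1 / 4 := by
    rw [div_pow, ← pow_mul, ← pow_mul, ← mul_div_assoc, ← pow_add, div_le_iff₀ (by positivity)]
    have h1 : (2 : ℝ) ^ (E + 19 * k + 2) ≤ 2 ^ (93 * n * k) :=
      pow_le_pow_right₀ (by norm_num) hx1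
    rw [pow_add _ _ 2] at h1
    linarith
  have hsecond : (2 : ℝ) ^ E * (2 ^ (1080 * n + 12) / 2 ^ (2 ^ (160 * n - 6))) ≤ 1 / 4 := by
    rw [← mul_div_assoc, ← pow_add, div_le_iff₀ (by positivity)]
    have h1 : (2 : ℝ) ^ (E + (1080 * n + 12) + 2) ≤ 2 ^ (2 ^ (160 * n - 6)) :=
      pow_le_pow_right₀ (by norm_num) hx2
    rw [pow_add _ _ 2] at h1
    linarith
  calc _ ≤ (2 : ℝ) ^ E * ((2 ^ 19 / 2 ^ (93 * n)) ^ k +
        2 ^ (1080 * n + 12) / 2 ^ (2 ^ (160 * n - 6))) := by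
        apply mul_le_mul hAB (add_le_add hW hX') (by positivity) (by positivity)
    _ = 2 ^ E * (2 ^ 19 / 2 ^ (93 * n)) ^ k +
        2 ^ E * (2 ^ (1080 * n + 12) / 2 ^ (2 ^ (160 * n - 6))) := by ring
    _ ≤ 1 / 4 + 1 / 4 := add_le_add hfirst hsecond
    _ < 1 := by norm_num

end Fr56
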