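import Mathlib

section

/-!
A bounded-difference inequality for exponential moments on finite product spaces.
-/

set_option linter.unusedSectionVars false

namespace Fr56

open Finset Function

variable {X Ω : Type} [DecidableEq X] [Fintype X] [Fintype Ω] [Nonempty Ω]

theorem sum_update (x : X) (h : (X → Ω) → ℝ) :
    ∑ ω, ∑ s, h (update ω x s) = Fintype.card Ω * ∑ ω, h ω := by
  classical
  set φ : (X → Ω) × Ω → (X → Ω) × Ω := fun p => (update p.1 x p.2, p.1 x) with hφ
  have hinv : Function.Involutive φ := by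
    intro p
    simp [hφ]
  rw [← Finset.sum_product' (f := fun ω s => h (update ω x s)), Finset.univ_product_univ]
  rw [← Equiv.sum_comp (Function.Involutive.toPerm φ hinv)
    (fun p : (X → Ω) × Ω => h (update p.1 x p.2))]
  have : ∀ p : (X → Ω) × Ω, h (update (Function.Involutive.toPerm φ hinv p).1 x
      (Function.Involutive.toPerm φ hinv p).2) = h p.1 := by
    intro p
    simp [hφ]
  simp only [this]
  rw [← Finset.univ_product_univ, Finset.sum_product' (f := fun ω (_ : Ω) => h ω)]
  simp [Finset.mul_sum]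

/-- average over one coordinate -/
noncomputable def avg (x : X) (h : (X → Ω) → ℝ) (ω : X → Ω) : ℝ :=
  (∑ s, h (update ω x s)) / Fintype.card Ω

/-- average over a list of coordinates -/
noncomputable def avgL : List X → ((X → Ω) → ℝ) → (X → Ω) → ℝ
  | [], h => h
  | x :: l, h => avg x (avgL l h)

theorem card_pos' : (0 : ℝ) < Fintype.card Ω := by exact_mod_cast Fintype.card_pos

theorem sum_avg (x : X) (h : (X → Ω) → ℝ) : ∑ ω, avg x h ω = ∑ ω, h ω := by
  have := sum_update x h
  unfold avg
  rw [← Finset.sum_div, this]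
  have := card_pos' (Ω := Ω)
  field_simp

theorem sum_avgL (l : List X) (h : (X → Ω) → ℝ) : ∑ ω, avgL l h ω = ∑ ω, h ω := by
  induction l with
  | nil => rfl
  | cons x l ih => simp only [avgL, sum_avg, ih]

theorem avgL_update (l : List X) (h : (X → Ω) → ℝ) (ω : X → Ω) (x : X) (hx : x ∈ l) (s : Ω) :
    avgL l h (update ω x s) = avgL l h ω := by
  induction l generalizing ω with
  | nil => simp at hx
  | cons y l ih =>
    simp only [avgL, avg]
    by_cases hxy : x = y
    · subst hxy
      simp
    · have hx' : x ∈ l := by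
        rcases List.mem_cons.1 hx with h | h
        · exact absurd h hxy
        · exact h
      congr 1
      refine Finset.sum_congr rfl fun t _ => ?_
      rw [Function.update_comm hxy, ih _ hx']

theorem const_of_update (H : (X → Ω) → ℝ) (hH : ∀ ω x s, H (update ω x s) = H ω) (ω ω' : X → Ω) :
    H ω = H ω' := by
  have : ∀ S : Finset X, H (S.piecewise ω' ω) = H ω := by
    intro S
    induction S using Finset.induction_on with
    | empty => simp
    | insert j S hj ih => rw [Finset.piecewise_insert, hH, ih]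
  have h1 := this Finset.univ
  rw [Finset.piecewise_univ] at h1
  exact h1.symm

theorem avg_diff (y : X) (h : (X → Ω) → ℝ) (c : X → ℝ)
    (hc : ∀ ω x s, |h (update ω x s) - h ω| ≤ c x) (ω : X → Ω) (x : X) (s : Ω) :
    |avg y h (update ω x s) - avg y h ω| ≤ c x := by
  have hpos := card_pos' (Ω := Ω)
  unfold avg
  by_cases hxy : x = y
  · subst hxy
    simp only [update_idem, sub_self, abs_zero]
    exact (abs_nonneg _).trans (hc ω x s)
  · rw [← sub_div, ← Finset.sum_sub_distrib, abs_div, abs_of_pos hpos, div_le_iff₀ hpos]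
    refine (Finset.abs_sum_le_sum_abs _ _).trans ?_
    have : ∀ t : Ω, |h (update (update ω x s) y t) - h (update ω y t)| ≤ c x := by
      intro t
      rw [Function.update_comm hxy]
      exact hc _ _ _
    refine (Finset.sum_le_sum fun t _ => this t).trans ?_
    simp [mul_comm]

theorem avgL_diff (l : List X) (h : (X → Ω) → ℝ) (c : X → ℝ)
    (hc : ∀ ω x s, |h (update ω x s) - h ω| ≤ c x) (ω : X → Ω) (x : X) (s : Ω) :
    |avgL l h (update ω x s) - avgL l h ω| ≤ c x := by
  induction l generalizing ω x s with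
  | nil => exact hc ω x s
  | cons y l ih => exact avg_diff y _ c (fun ω x s => ih ω x s) ω x s

theorem exp_le_quad {u : ℝ} (hu : |u| ≤ 1) : Real.exp u ≤ 1 + u + u ^ 2 := by
  have := Real.abs_exp_sub_one_sub_id_le hu
  have := (abs_le.1 this).2
  linarith

theorem single_mgf (Z : Ω → ℝ) (c μ : ℝ) (hμ0 : 0 ≤ μ) (hc : ∀ s t, |Z s - Z t| ≤ c)
    (hμ : μ * c ≤ 1) :
    (∑ s, Real.exp (μ * Z s)) / Fintype.card Ω ≤
      Real.exp (μ * ((∑ s, Z s) / Fintype.card Ω) + μ ^ 2 * c ^ 2) := by
  have hpos := card_pos' (Ω := Ω)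
  set m : ℝ := (∑ s, Z s) / Fintype.card Ω with hm
  have hc0 : 0 ≤ c := (abs_nonneg _).trans (hc (Classical.arbitrary Ω) (Classical.arbitrary Ω))
  have hdev : ∀ s, |Z s - m| ≤ c := by
    intro s
    have h1 : Z s - m = (∑ t, (Z s - Z t)) / Fintype.card Ω := by
      rw [Finset.sum_sub_distrib, sub_div, hm]
      simp
    rw [h1, abs_div, abs_of_pos hpos, div_le_iff₀ hpos]
    refine (Finset.abs_sum_le_sum_abs _ _).trans ?_
    refine (Finset.sum_le_sum fun t _ => hc s t).trans ?_
    simp [mul_comm]
  have hexp : ∀ s, Real.exp (μ * Z s) ≤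
      Real.exp (μ * m) * (1 + μ * (Z s - m) + μ ^ 2 * c ^ 2) := by
    intro s
    have h1 : Real.exp (μ * Z s) = Real.exp (μ * m) * Real.exp (μ * (Z s - m)) := by
      rw [← Real.exp_add]; ring_nf
    rw [h1]
    refine mul_le_mul_of_nonneg_left ?_ (Real.exp_pos _).le
    have h2 : |μ * (Z s - m)| ≤ μ * c := by
      rw [abs_mul, abs_of_nonneg hμ0]
      exact mul_le_mul_of_nonneg_left (hdev s) hμ0
    have h3 := exp_le_quad (h2.trans hμ)
    have h4 : (μ * (Z s - m)) ^ 2 ≤ μ ^ 2 * c ^ 2 := by
      rw [← mul_pow]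
      exact sq_le_sq' (by linarith [(abs_le.1 h2).1]) (abs_le.1 h2).2
    linarith
  have hsum : (∑ s, Real.exp (μ * Z s)) / Fintype.card Ω ≤
      Real.exp (μ * m) * (1 + μ ^ 2 * c ^ 2) := by
    rw [div_le_iff₀ hpos]
    refine (Finset.sum_le_sum fun s _ => hexp s).trans ?_
    rw [← Finset.mul_sum, Finset.sum_add_distrib, Finset.sum_add_distrib, ← Finset.mul_sum,
      Finset.sum_sub_distrib]
    have h5 : ∑ s, Z s = m * Fintype.card Ω := by
      rw [hm]; field_simp
    rw [h5]
    simp only [Finset.sum_const, Finset.card_univ, nsmul_eq_mul, mul_one]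
    apply le_of_eq
    ring
  refine hsum.trans ?_
  rw [Real.exp_add]
  refine mul_le_mul_of_nonneg_left ?_ (Real.exp_pos _).le
  have := Real.add_one_le_exp (μ ^ 2 * c ^ 2)
  linarith

theorem avgL_exp (l : List X) (h : (X → Ω) → ℝ) (c : X → ℝ)
    (hc : ∀ ω x s, |h (update ω x s) - h ω| ≤ c x) (μ : ℝ) (hμ0 : 0 ≤ μ)
    (hμ : ∀ x, μ * c x ≤ 1) (ω : X → Ω) :
    avgL l (fun ω => Real.exp (μ * h ω)) ω ≤
      Real.exp (μ * avgL l h ω + μ ^ 2 * (l.map fun x => c x ^ 2).sum) := by
  have hpos := card_pos' (Ω := Ω)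
  induction l generalizing ω with
  | nil => simp [avgL]
  | cons x l ih =>
    simp only [avgL, avg, List.map_cons, List.sum_cons]
    have h1 : (∑ s, avgL l (fun ω => Real.exp (μ * h ω)) (update ω x s)) / (Fintype.card Ω : ℝ) ≤
        (∑ s, Real.exp (μ * avgL l h (update ω x s)) *
          Real.exp (μ ^ 2 * (l.map fun x => c x ^ 2).sum)) / (Fintype.card Ω : ℝ) := by
      gcongr with s _
      rw [← Real.exp_add]
      exact ih _
    refine h1.trans ?_
    rw [← Finset.sum_mul, mul_div_right_comm]
    have h2 := single_mgf (fun s => avgL l h (update ω x s)) (c x) μ hμ0 (by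
      intro s t
      have := avgL_diff l h c hc (update ω x t) x s
      simpa using this) (hμ x)
    refine (mul_le_mul_of_nonneg_right h2 (Real.exp_pos _).le).trans ?_
    rw [← Real.exp_add]
    apply le_of_eq
    congr 1
    ring

/-- **bounded differences**: exponential moments of a function of independent coordinates -/
theorem mcdiarmid_mgf (h : (X → Ω) → ℝ) (c : X → ℝ)
    (hc : ∀ ω x s, |h (update ω x s) - h ω| ≤ c x) (μ : ℝ) (hμ0 : 0 ≤ μ)
    (hμ : ∀ x, μ * c x ≤ 1) :
    ∑ ω, Real.exp (μ * h ω) ≤ (Fintype.card (X → Ω) : ℝ) *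
      Real.exp (μ * ((∑ ω, h ω) / Fintype.card (X → Ω)) + μ ^ 2 * ∑ x, c x ^ 2) := by
  classical
  set l := (Finset.univ : Finset X).toList with hl
  have hmem : ∀ x, x ∈ l := by intro x; simp [hl]
  have hconst : ∀ ω ω' : X → Ω, avgL l h ω = avgL l h ω' :=
    const_of_update _ (fun ω x s => avgL_update l h ω x (hmem x) s)
  have hpos : (0 : ℝ) < Fintype.card (X → Ω) := by exact_mod_cast Fintype.card_pos
  have hval : ∀ ω : X → Ω, avgL l h ω = (∑ ω, h ω) / Fintype.card (X → Ω) := by
    intro ω
    rw [eq_div_iff hpos.ne', ← sum_avgL l h, Finset.sum_congr rfl (fun ω' _ => hconst ω' ω)]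
    simp [mul_comm]
  rw [← sum_avgL l]
  have h1 : ∀ ω : X → Ω, avgL l (fun ω => Real.exp (μ * h ω)) ω ≤
      Real.exp (μ * ((∑ ω, h ω) / Fintype.card (X → Ω)) + μ ^ 2 * ∑ x, c x ^ 2) := by
    intro ω
    refine (avgL_exp l h c hc μ hμ0 hμ ω).trans ?_
    rw [hval]
    apply le_of_eq
    congr 2
    rw [hl, Finset.sum_map_toList]
  refine (Finset.sum_le_sum fun ω _ => h1 ω).trans ?_
  simp

end Fr56
end

section

/-!
Uniform probability on a finite type.
-/

set_option linter.unusedSectionVars false

namespace Fr56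

open Finset
open scoped Classical

/-- probability of an event under the uniform distribution -/
noncomputable def pr {Ω : Type} [Fintype Ω] (P : Ω → Prop) : ℝ :=
  ((univ.filter P).card : ℝ) / Fintype.card Ω

/-- the event `P` depends only on the coordinates in `S` -/
def DepOn {I A : Type} (S : Set I) (P : (I → A) → Prop) : Prop :=
  ∀ a b : I → A, (∀ i ∈ S, a i = b i) → (P a ↔ P b)

variable {Ω : Type} [Fintype Ω]

theorem pr_nonneg (P : Ω → Prop) : 0 ≤ pr P := by unfold pr; positivity

theorem pr_le_one (P : Ω → Prop) : pr P ≤ 1 := by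
  unfold pr
  apply div_le_one_of_le₀
  · exact_mod_cast Finset.card_le_univ _
  · positivity

theorem pr_mono {P Q : Ω → Prop} (h : ∀ ω, P ω → Q ω) : pr P ≤ pr Q := by
  unfold pr
  gcongr with ω
  exact h ω

theorem pr_congr {P Q : Ω → Prop} (h : ∀ ω, P ω ↔ Q ω) : pr P = pr Q :=
  le_antisymm (pr_mono fun ω => (h ω).1) (pr_mono fun ω => (h ω).2)

theorem pr_false : pr (fun _ : Ω => False) = 0 := by simp [pr]

theorem pr_eq (P : Ω → Prop) [DecidablePred P] :
    pr P = ((univ.filter P).card : ℝ) / Fintype.card Ω := by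
  unfold pr
  congr!

/-- union bound -/
theorem pr_exists_le {ι : Type} (s : Finset ι) (P : ι → Ω → Prop) :
    pr (fun ω => ∃ i ∈ s, P i ω) ≤ ∑ i ∈ s, pr (P i) := by
  unfold pr
  rw [← Finset.sum_div]
  apply div_le_div_of_nonneg_right _ (Nat.cast_nonneg _)
  have h1 : (univ.filter (fun ω => ∃ i ∈ s, P i ω)) ⊆ s.biUnion (fun i => univ.filter (P i)) := by
    intro ω hω
    rw [Finset.mem_filter] at hω
    obtain ⟨_, i, hi, h⟩ := hω
    exact Finset.mem_biUnion.2 ⟨i, hi, Finset.mem_filter.2 ⟨Finset.mem_univ _, h⟩⟩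
  have h2 := (Finset.card_le_card h1).trans Finset.card_biUnion_le
  rw [← Nat.cast_sum, Nat.cast_le]
  refine le_trans (le_of_eq ?_) (h2.trans (le_of_eq ?_))
  · congr!
  · congr!

theorem pr_or_le (P Q : Ω → Prop) : pr (fun ω => P ω ∨ Q ω) ≤ pr P + pr Q := by
  rw [pr_eq (fun ω => P ω ∨ Q ω), pr_eq P, pr_eq Q, ← add_div]
  apply div_le_div_of_nonneg_right _ (Nat.cast_nonneg _)
  rw [Finset.filter_or]
  exact_mod_cast Finset.card_union_le _ _

/-- if the probability is `< 1` then some outcome avoids the event -/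
theorem exists_of_pr_lt_one [Nonempty Ω] {P : Ω → Prop} (h : pr P < 1) : ∃ ω, ¬ P ω := by
  by_contra hcon
  push Not at hcon
  have h1 : (1 : ℝ) = pr P := by
    unfold pr
    rw [Finset.filter_true_of_mem (fun ω _ => hcon ω), Finset.card_univ, div_self]
    exact_mod_cast Fintype.card_ne_zero
  rw [← h1] at h
  exact lt_irrefl _ h

/-- independence of events depending on disjoint sets of coordinates -/
theorem pr_indep {I A : Type} [Fintype I] [Fintype A] [Nonempty A] {S T : Set I}
    (hST : Disjoint S T) {P Q : (I → A) → Prop} (hP : DepOn S P) (hQ : DepOn T Q) :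
    pr (fun a => P a ∧ Q a) = pr P * pr Q := by
  have hdis : ∀ i, i ∈ S → i ∉ T := fun i h1 h2 => Set.disjoint_left.1 hST h1 h2
  let φ : (I → A) × (I → A) → (I → A) × (I → A) := fun p =>
    (fun i => if i ∈ T then p.2 i else p.1 i, fun i => if i ∈ T then p.1 i else p.2 i)
  have hφ : ∀ p, φ (φ p) = p := by
    intro p
    apply Prod.ext
    · funext i
      simp only [φ]
      split_ifs <;> rfl
    · funext i
      simp only [φ]
      split_ifs <;> rfl
  have hinj : Function.Injective φ := fun p q h => by rw [← hφ p, ← hφ q, h]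
  set U : Finset ((I → A) × (I → A)) :=
    (univ.filter (fun a : I → A => P a ∧ Q a)) ×ˢ (univ : Finset (I → A)) with hU
  set W : Finset ((I → A) × (I → A)) :=
    (univ.filter (fun a : I → A => P a)) ×ˢ (univ.filter (fun a : I → A => Q a)) with hW
  have hmaps1 : U.image φ ⊆ W := by
    intro q hq
    obtain ⟨p, hp, rfl⟩ := Finset.mem_image.1 hq
    rw [hU, Finset.mem_product, Finset.mem_filter] at hp
    rw [hW, Finset.mem_product, Finset.mem_filter, Finset.mem_filter]
    refine ⟨⟨Finset.mem_univ _, ?_⟩, ⟨Finset.mem_univ _, ?_⟩⟩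
    · refine (hP _ _ ?_).1 hp.1.2.1
      intro i hi
      simp only [φ]
      rw [if_neg (hdis i hi)]
    · refine (hQ _ _ ?_).1 hp.1.2.2
      intro i hi
      simp only [φ]
      rw [if_pos hi]
  have hmaps2 : W.image φ ⊆ U := by
    intro q hq
    obtain ⟨p, hp, rfl⟩ := Finset.mem_image.1 hq
    rw [hW, Finset.mem_product, Finset.mem_filter, Finset.mem_filter] at hp
    rw [hU, Finset.mem_product, Finset.mem_filter]
    refine ⟨⟨Finset.mem_univ _, ?_, ?_⟩, Finset.mem_univ _⟩
    · refine (hP _ _ ?_).1 hp.1.2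
      intro i hi
      simp only [φ]
      rw [if_neg (hdis i hi)]
    · refine (hQ _ _ ?_).1 hp.2.2
      intro i hi
      simp only [φ]
      rw [if_pos hi]
  have hcard : U.card = W.card := by
    apply le_antisymm
    · rw [← Finset.card_image_of_injective U hinj]
      exact Finset.card_le_card hmaps1
    · rw [← Finset.card_image_of_injective W hinj]
      exact Finset.card_le_card hmaps2
  rw [hU, hW, Finset.card_product, Finset.card_product, Finset.card_univ] at hcard
  have hcard' : ((univ.filter (fun a : I → A => P a ∧ Q a)).card : ℝ) *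
      (Fintype.card (I → A) : ℝ) =
      ((univ.filter (fun a : I → A => P a)).card : ℝ) *
        ((univ.filter (fun a : I → A => Q a)).card : ℝ) := by
    exact_mod_cast hcard
  have hpos : (Fintype.card (I → A) : ℝ) ≠ 0 := by exact_mod_cast Fintype.card_ne_zero
  rw [pr_eq (fun a => P a ∧ Q a), pr_eq P, pr_eq Q, div_mul_div_comm,
    eq_div_iff (mul_ne_zero hpos hpos), ← hcard', ← mul_assoc, div_mul_cancel₀ _ hpos]

/-- probability that one coordinate has a given value -/
theorem pr_coord {I A : Type} [Fintype I] [Fintype A] [Nonempty A] (i : I) (w : A) :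
    pr (fun a : I → A => a i = w) = 1 / Fintype.card A := by
  have h1 : (univ.filter (fun a : I → A => a i = w)) =
      Fintype.piFinset (fun j => if j = i then ({w} : Finset A) else univ) := by
    ext a
    rw [Finset.mem_filter, Fintype.mem_piFinset]
    constructor
    · rintro ⟨_, h⟩ j
      split_ifs with hj
      · rw [Finset.mem_singleton, hj, h]
      · exact Finset.mem_univ _
    · intro h
      have := h i
      rw [if_pos rfl, Finset.mem_singleton] at this
      exact ⟨Finset.mem_univ _, this⟩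
  have h2 : (univ.filter (fun a : I → A => a i = w)).card * Fintype.card A =
      Fintype.card (I → A) := by
    rw [h1, Fintype.card_piFinset, Fintype.card_fun, ← Finset.card_univ (α := I),
      ← Finset.prod_const, ← Finset.mul_prod_erase univ _ (Finset.mem_univ i),
      ← Finset.mul_prod_erase univ (fun _ => Fintype.card A) (Finset.mem_univ i), if_pos rfl,
      Finset.card_singleton, one_mul, mul_comm]
    congr 1
    refine Finset.prod_congr rfl (fun j hj => ?_)
    rw [if_neg (Finset.ne_of_mem_erase hj), Finset.card_univ]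
  have hA : (Fintype.card A : ℝ) ≠ 0 := by exact_mod_cast Fintype.card_ne_zero
  have hΩ : (Fintype.card (I → A) : ℝ) ≠ 0 := by exact_mod_cast Fintype.card_ne_zero
  unfold pr
  rw [div_eq_div_iff hΩ hA, one_mul]
  exact_mod_cast h2

/-- exponential Markov plus Jensen: if `f ≥ 0` has small exponential moment then it is rarely large.
`g β` is the average over `s` of `h β s`. -/
theorem jensen_markov {Bt St : Type} [Fintype Bt] [Fintype St] [Nonempty St] (h : Bt → St → ℝ)
    (lam T K : ℝ) (hlam : 0 ≤ lam) (hK0 : 0 ≤ K)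
    (hK : ∀ s, ∑ β, Real.exp (lam * h β s) ≤ K * Fintype.card Bt) :
    pr (fun β : Bt => T < (∑ s, h β s) / Fintype.card St) ≤ K * Real.exp (- lam * T) := by
  have hSt : (0 : ℝ) < Fintype.card St := by exact_mod_cast Fintype.card_pos
  -- Jensen
  have hj : ∀ β, Real.exp (lam * ((∑ s, h β s) / Fintype.card St)) ≤
      (∑ s, Real.exp (lam * h β s)) / Fintype.card St := by
    intro β
    have h1 := convexOn_exp.map_sum_le (t := (univ : Finset St))
      (w := fun _ => 1 / (Fintype.card St : ℝ)) (p := fun s => lam * h β s)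
      (fun _ _ => by positivity) (by
        rw [Finset.sum_const, Finset.card_univ, nsmul_eq_mul]
        field_simp) (fun _ _ => Set.mem_univ _)
    simp only [smul_eq_mul] at h1
    rw [← Finset.mul_sum, ← Finset.mul_sum, ← Finset.mul_sum] at h1
    have e1 : lam * ((∑ s, h β s) / Fintype.card St) =
        1 / (Fintype.card St : ℝ) * (lam * ∑ s, h β s) := by ring
    have e2 : (∑ s, Real.exp (lam * h β s)) / Fintype.card St =
        1 / (Fintype.card St : ℝ) * ∑ s, Real.exp (lam * h β s) := by ring
    rw [e1, e2]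
    exact h1
  have hsum : ∑ β, Real.exp (lam * ((∑ s, h β s) / Fintype.card St)) ≤
      K * Fintype.card Bt := by
    calc ∑ β, Real.exp (lam * ((∑ s, h β s) / Fintype.card St))
        ≤ ∑ β, (∑ s, Real.exp (lam * h β s)) / Fintype.card St :=
          Finset.sum_le_sum (fun β _ => hj β)
      _ = (∑ s, ∑ β, Real.exp (lam * h β s)) / Fintype.card St := by
          rw [← Finset.sum_div, Finset.sum_comm]
      _ ≤ (∑ _s : St, K * Fintype.card Bt) / Fintype.card St := by
          apply div_le_div_of_nonneg_right _ hSt.le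
          exact Finset.sum_le_sum (fun s _ => hK s)
      _ = K * Fintype.card Bt := by
          rw [Finset.sum_const, Finset.card_univ, nsmul_eq_mul]
          field_simp
  set B := univ.filter (fun β : Bt => T < (∑ s, h β s) / Fintype.card St) with hB
  have hmark : (B.card : ℝ) * Real.exp (lam * T) ≤ K * Fintype.card Bt := by
    calc (B.card : ℝ) * Real.exp (lam * T) = ∑ _β ∈ B, Real.exp (lam * T) := by
          rw [Finset.sum_const, nsmul_eq_mul]
      _ ≤ ∑ β ∈ B, Real.exp (lam * ((∑ s, h β s) / Fintype.card St)) := by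
          apply Finset.sum_le_sum
          intro β hβ
          apply Real.exp_le_exp.2
          exact mul_le_mul_of_nonneg_left (Finset.mem_filter.1 hβ).2.le hlam
      _ ≤ ∑ β, Real.exp (lam * ((∑ s, h β s) / Fintype.card St)) :=
          Finset.sum_le_sum_of_subset_of_nonneg (Finset.filter_subset _ _)
            (fun _ _ _ => (Real.exp_pos _).le)
      _ ≤ _ := hsum
  unfold pr
  rw [← hB]
  rcases Nat.eq_zero_or_pos (Fintype.card Bt) with h0 | h0
  · rw [h0, Nat.cast_zero, div_zero]
    exact mul_nonneg hK0 (Real.exp_pos _).le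
  · have h0' : (0 : ℝ) < Fintype.card Bt := by exact_mod_cast h0
    rw [div_le_iff₀ h0', neg_mul, Real.exp_neg]
    have h3 := Real.exp_pos (lam * T)
    have h4 : K * (Real.exp (lam * T))⁻¹ * Fintype.card Bt =
        (K * Fintype.card Bt) / Real.exp (lam * T) := by
      rw [div_eq_mul_inv]; ring
    rw [h4, le_div_iff₀ h3]
    exact hmark

end Fr56
end
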