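import Pool.Agent.Lib.MP_51bb46_lc.B.NF
import Pool.Agent.Lib.MP_51bb46_lc.B.Prob

/-!
Sensitivity of formulas: definitions.
-/

set_option linter.unusedSectionVars false

namespace Fr56

open Finset Function

variable {X : Type} [DecidableEq X]

/-- flip one variable -/
def flip (x : X) (α : X → Bool) : X → Bool := update α x (!(α x))

/-- sensitivity of a function at a point -/
def sensf [Fintype X] (f : (X → Bool) → Bool) (α : X → Bool) : ℕ :=
  (univ.filter fun x => f (flip x α) ≠ f α).card

/-- sensitivity of a formula at a point -/
def SF.sens [Fintype X] (g : SF X) (α : X → Bool) : ℕ := sensf (fun β => g.eval β) α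

/-- the restriction described by `ω`: `(ω x).1 = true` means that `x` stays alive, otherwise `x` is
set to `(ω x).2` -/
def rho (ω : X → Bool × Bool) (x : X) : Option Bool := if (ω x).1 then none else some (ω x).2

/-- the event that the killer `κ` fires -/
def fires (κ : Option (X × Bool)) (ω : X → Bool × Bool) : Bool :=
  match κ with
  | none => false
  | some (x, b) => !(ω x).1 && ((ω x).2 == b)

/-- is the leaf with variable `x` counted, given its designated killer -/
def cnt (x : X) (κ : Option (X × Bool)) (ω : X → Bool × Bool) : ℕ :=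
  if (ω x).1 && !(fires κ ω) then 1 else 0

/-- upper bound for the number of leaves after restriction; `κ` is a killer of the whole formula -/
def NF.Y : NF X → Option (X × Bool) → (X → Bool × Bool) → ℕ
  | .lit x _, κ, ω => cnt x κ ω
  | .node o (.lit x b) (.lit y c), _, ω =>
      cnt x (some (y, c == !o)) ω + cnt y (some (x, b == !o)) ω
  | .node o (.lit x b) (.node o' l r), κ, ω =>
      cnt x κ ω + NF.Y (.node o' l r) (some (x, b == !o)) ω
  | .node o (.node o' l r) (.lit y c), κ, ω =>
      cnt y κ ω + NF.Y (.node o' l r) (some (y, c == !o)) ω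
  | .node _ (.node o₁ l₁ r₁) (.node o₂ l₂ r₂), κ, ω =>
      NF.Y (.node o₁ l₁ r₁) κ ω + NF.Y (.node o₂ l₂ r₂) none ω

/-- `Claim lam A a`: exponential moment bound for the sensitivity of all formulas -/
def Claim (lam A a : ℝ) : Prop :=
  ∀ (X : Type) [Fintype X] [DecidableEq X] (g : SF X),
    ∑ α : X → Bool, Real.exp (lam * (g.sens α : ℝ)) ≤
      2 ^ Fintype.card X * Real.exp (lam * (A * g.leaves + a))

end Fr56
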