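import Pool.Agent.Lib.MP_51bb46_lc.B.Pieces
import Pool.Agent.Lib.MP_51bb46_lc.B.Sens

section

/-!
Fragments: number, size, conversion to negation normal form.
-/

set_option linter.unusedSectionVars false

namespace Fr56

open Finset

variable {X : Type}

private theorem pcs_inv_aux (l a b v1 v2 L1 L2 : ℕ) (s t : Bool)
    (h1 : l * a + (if s then l else 0) + 2 * v1 ≤ 2 * L1)
    (h2 : l * b + (if t then l else 0) + 2 * v2 ≤ 2 * L2)
    (hc : ((s && t) || decide (l ≤ v1 + v2)) = true) :
    l * (1 + (a + b)) + l + 2 * 0 ≤ 2 * (L1 + L2) := by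
  have e : l * (1 + (a + b)) = l + l * a + l * b := by ring
  rw [e]
  cases s <;> cases t <;> simp at hc h1 h2 <;> omega

private theorem pcs_inv_aux' (l a b v1 v2 L1 L2 : ℕ) (s t : Bool)
    (h1 : l * a + (if s then l else 0) + 2 * v1 ≤ 2 * L1)
    (h2 : l * b + (if t then l else 0) + 2 * v2 ≤ 2 * L2)
    (hc : ¬ ((s && t) || decide (l ≤ v1 + v2)) = true) :
    l * (a + b) + (if (s || t) then l else 0) + 2 * (v1 + v2) ≤ 2 * (L1 + L2) := by
  have e : l * (a + b) = l * a + l * b := by ring
  rw [e]
  cases s <;> cases t <;> simp at hc h1 h2 ⊢ <;> omega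

private theorem pcs_inv (l : ℕ) (f : Fm X) :
    l * (pcs l f).length + (if hasHole (top l f) then l else 0) + 2 * vl (top l f) ≤
      2 * f.leaves := by
  induction f with
  | var x => simp [pcs, top, hasHole, vl, Fm.leaves]
  | neg f ih => simpa [pcs, top, hasHole, vl, Fm.leaves] using ih
  | and f g ihf ihg =>
    by_cases hc : cut l (top l f) (top l g) = true
    · have := pcs_inv_aux l _ _ _ _ _ _ _ _ ihf ihg hc
      simp only [pcs, top, if_pos hc, hasHole, vl, Fm.leaves, List.length_append,
        List.length_cons, List.length_nil, if_true]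
      simpa using this
    · have := pcs_inv_aux' l _ _ _ _ _ _ _ _ ihf ihg hc
      simp only [pcs, top, if_neg hc, hasHole, vl, Fm.leaves, List.nil_append,
        List.length_append]
      exact this
  | or f g ihf ihg =>
    by_cases hc : cut l (top l f) (top l g) = true
    · have := pcs_inv_aux l _ _ _ _ _ _ _ _ ihf ihg hc
      simp only [pcs, top, if_pos hc, hasHole, vl, Fm.leaves, List.length_append,
        List.length_cons, List.length_nil, if_true]
      simpa using this
    · have := pcs_inv_aux' l _ _ _ _ _ _ _ _ ihf ihg hc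
      simp only [pcs, top, if_neg hc, hasHole, vl, Fm.leaves, List.nil_append,
        List.length_append]
      exact this

/-- few pieces -/
theorem length_pcs (l : ℕ) (f : Fm X) : l * (pcs l f).length ≤ 2 * f.leaves := by
  have := pcs_inv l f
  omega

private theorem vl_top_lt (l : ℕ) (hl : 2 ≤ l) (f : Fm X) : vl (top l f) < l := by
  induction f with
  | var x => simp only [top, vl]; omega
  | neg f ih => simpa [top, vl] using ih
  | and f g ihf ihg =>
    by_cases hc : cut l (top l f) (top l g) = true
    · simp only [top, if_pos hc, vl]; omega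
    · simp only [top, if_neg hc, vl]
      simp only [cut, Bool.or_eq_true, decide_eq_true_eq, not_or] at hc
      omega
  | or f g ihf ihg =>
    by_cases hc : cut l (top l f) (top l g) = true
    · simp only [top, if_pos hc, vl]; omega
    · simp only [top, if_neg hc, vl]
      simp only [cut, Bool.or_eq_true, decide_eq_true_eq, not_or] at hc
      omega

private theorem vl2_lab (b : Bool) (t : Fm (Option X)) : vl2 (lab b t) = vl t := by
  unfold lab
  induction t with
  | var x => cases x <;> rfl
  | neg f ih => simpa [Fm.map, vl2, vl] using ih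
  | and f g ihf ihg => simp only [Fm.map, vl2, vl, ihf, ihg]
  | or f g ihf ihg => simp only [Fm.map, vl2, vl, ihf, ihg]

/-- fragments are small -/
theorem vl2_le (l : ℕ) (hl : 2 ≤ l) (f : Fm X) : ∀ R ∈ frags l f, vl2 R ≤ 2 * l := by
  have hp : ∀ f : Fm X, ∀ R ∈ pcs l f, vl2 R ≤ 2 * l := by
    intro f
    induction f with
    | var x => intro R hR; simp [pcs] at hR
    | neg f ih => intro R hR; exact ih R (by simpa [pcs] using hR)
    | and f g ihf ihg =>
      intro R hR
      simp only [pcs, List.mem_append] at hR
      rcases hR with hR | hR | hR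
      · by_cases hc : cut l (top l f) (top l g) = true
        · rw [if_pos hc, List.mem_singleton] at hR
          subst hR
          simp only [vl2, vl2_lab]
          have h1 := vl_top_lt l hl f
          have h2 := vl_top_lt l hl g
          omega
        · rw [if_neg hc] at hR
          simp at hR
      · exact ihf R hR
      · exact ihg R hR
    | or f g ihf ihg =>
      intro R hR
      simp only [pcs, List.mem_append] at hR
      rcases hR with hR | hR | hR
      · by_cases hc : cut l (top l f) (top l g) = true
        · rw [if_pos hc, List.mem_singleton] at hR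
          subst hR
          simp only [vl2, vl2_lab]
          have h1 := vl_top_lt l hl f
          have h2 := vl_top_lt l hl g
          omega
        · rw [if_neg hc] at hR
          simp at hR
      · exact ihf R hR
      · exact ihg R hR
  intro R hR
  unfold frags at hR
  rw [List.mem_cons] at hR
  rcases hR with rfl | hR
  · rw [vl2_lab]
    have := vl_top_lt l hl f
    omega
  · exact hp f R hR

private theorem vl_map_some (f : Fm X) : vl (f.map some) = f.leaves := by
  induction f with
  | var x => rfl
  | neg f ih => simpa [Fm.map, vl, Fm.leaves] using ih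
  | and f g ihf ihg => simp only [Fm.map, vl, Fm.leaves, ihf, ihg]
  | or f g ihf ihg => simp only [Fm.map, vl, Fm.leaves, ihf, ihg]

private theorem hasHole_map_some (f : Fm X) : hasHole (f.map some) = false := by
  induction f with
  | var x => rfl
  | neg f ih => simpa [Fm.map, hasHole] using ih
  | and f g ihf ihg => simp only [Fm.map, hasHole, ihf, ihg, Bool.or_false]
  | or f g ihf ihg => simp only [Fm.map, hasHole, ihf, ihg, Bool.or_false]

/-- a formula with less than `l` leaves is its own top -/
theorem top_small (l : ℕ) (f : Fm X) (hf : f.leaves < l) : top l f = f.map some ∧ pcs l f = [] := by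
  induction f with
  | var x => exact ⟨rfl, rfl⟩
  | neg f ih =>
    obtain ⟨h1, h2⟩ := ih hf
    exact ⟨by simp only [top, Fm.map, h1], by simp only [pcs, h2]⟩
  | and f g ihf ihg =>
    simp only [Fm.leaves] at hf
    obtain ⟨h1, h2⟩ := ihf (by omega)
    obtain ⟨h3, h4⟩ := ihg (by omega)
    have hc : ¬ cut l (top l f) (top l g) = true := by
      rw [h1, h3]
      simp only [cut, hasHole_map_some, vl_map_some, Bool.and_false, Bool.false_or,
        decide_eq_true_eq]
      omega
    refine ⟨?_, ?_⟩
    · simp only [top, if_neg hc, Fm.map]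
      rw [h1, h3]
    · simp only [pcs, if_neg hc, h2, h4, List.append_nil]
  | or f g ihf ihg =>
    simp only [Fm.leaves] at hf
    obtain ⟨h1, h2⟩ := ihf (by omega)
    obtain ⟨h3, h4⟩ := ihg (by omega)
    have hc : ¬ cut l (top l f) (top l g) = true := by
      rw [h1, h3]
      simp only [cut, hasHole_map_some, vl_map_some, Bool.and_false, Bool.false_or,
        decide_eq_true_eq]
      omega
    refine ⟨?_, ?_⟩
    · simp only [top, if_neg hc, Fm.map]
      rw [h1, h3]
    · simp only [pcs, if_neg hc, h2, h4, List.append_nil]

private theorem vars_lab (b : Bool) (t : Fm (Option X)) (x : X)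
    (h : Sum.inl x ∈ (lab b t).vars) : some x ∈ t.vars := by
  unfold lab at h
  induction t with
  | var y =>
    cases y with
    | none => exact absurd h (by simp [Fm.map, Fm.vars])
    | some y =>
      simp only [Fm.map, Fm.vars, Set.mem_singleton_iff, Sum.inl.injEq] at h
      subst h
      exact rfl
  | neg f ih => exact ih h
  | and f g ihf ihg =>
    rcases h with h | h
    · exact Or.inl (ihf h)
    · exact Or.inr (ihg h)
  | or f g ihf ihg =>
    rcases h with h | h
    · exact Or.inl (ihf h)
    · exact Or.inr (ihg h)

private theorem vars_top (l : ℕ) (f : Fm X) (x : X) (h : some x ∈ (top l f).vars) :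
    x ∈ f.vars := by
  induction f with
  | var y =>
    simp only [top, Fm.vars, Set.mem_singleton_iff, Option.some.injEq] at h
    subst h
    exact rfl
  | neg f ih => exact ih h
  | and f g ihf ihg =>
    by_cases hc : cut l (top l f) (top l g) = true
    · simp only [top, if_pos hc] at h
      exact absurd h (by simp [Fm.vars])
    · simp only [top, if_neg hc] at h
      rcases h with h | h
      · exact Or.inl (ihf h)
      · exact Or.inr (ihg h)
  | or f g ihf ihg =>
    by_cases hc : cut l (top l f) (top l g) = true
    · simp only [top, if_pos hc] at h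
      exact absurd h (by simp [Fm.vars])
    · simp only [top, if_neg hc] at h
      rcases h with h | h
      · exact Or.inl (ihf h)
      · exact Or.inr (ihg h)

/-- variables of fragments are variables of the formula -/
theorem vars_frags (l : ℕ) (f : Fm X) : ∀ R ∈ frags l f, ∀ x, Sum.inl x ∈ R.vars → x ∈ f.vars := by
  have hp : ∀ f : Fm X, ∀ R ∈ pcs l f, ∀ x, Sum.inl x ∈ R.vars → x ∈ f.vars := by
    intro f
    induction f with
    | var x => intro R hR; simp [pcs] at hR
    | neg f ih => intro R hR; exact ih R (by simpa [pcs] using hR)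
    | and f g ihf ihg =>
      intro R hR x hx
      simp only [pcs, List.mem_append] at hR
      rcases hR with hR | hR | hR
      · by_cases hc : cut l (top l f) (top l g) = true
        · rw [if_pos hc, List.mem_singleton] at hR
          subst hR
          rcases hx with hx | hx
          · exact Or.inl (vars_top l f x (vars_lab _ _ _ hx))
          · exact Or.inr (vars_top l g x (vars_lab _ _ _ hx))
        · rw [if_neg hc] at hR
          simp at hR
      · exact Or.inl (ihf R hR x hx)
      · exact Or.inr (ihg R hR x hx)
    | or f g ihf ihg =>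
      intro R hR x hx
      simp only [pcs, List.mem_append] at hR
      rcases hR with hR | hR | hR
      · by_cases hc : cut l (top l f) (top l g) = true
        · rw [if_pos hc, List.mem_singleton] at hR
          subst hR
          rcases hx with hx | hx
          · exact Or.inl (vars_top l f x (vars_lab _ _ _ hx))
          · exact Or.inr (vars_top l g x (vars_lab _ _ _ hx))
        · rw [if_neg hc] at hR
          simp at hR
      · exact Or.inl (ihf R hR x hx)
      · exact Or.inr (ihg R hR x hx)
  intro R hR x hx
  unfold frags at hR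
  rw [List.mem_cons] at hR
  rcases hR with rfl | hR
  · exact vars_top l f x (vars_lab _ _ _ hx)
  · exact hp f R hR x hx

/-- push negations down (`n = true`: negate) and substitute -/
private def toSF {I : Type} (u : X → Bool) (z : Bool → Bool)
    (m : X → Option I) : Bool → Fm (X ⊕ Bool) → SF I
  | n, .var (.inl x) => match m x with
    | some i => .inr (.lit i (xor n (!(u x))))
    | none => .inl (xor n (u x))
  | n, .var (.inr b) => .inl (xor n (z b))
  | n, .neg f => toSF u z m (!n) f
  | n, .and f g => SF.mk (!n) (toSF u z m n f) (toSF u z m n g)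
  | n, .or f g => SF.mk n (toSF u z m n f) (toSF u z m n g)

private theorem leaves_toSF {I : Type} [DecidableEq I] (u : X → Bool) (z : Bool → Bool)
    (m : X → Option I) (R : Fm (X ⊕ Bool)) :
    ∀ n : Bool, (toSF u z m n R).leaves ≤ vl2 R := by
  induction R with
  | var v =>
    intro n
    cases v with
    | inl x =>
      simp only [toSF, vl2]
      cases m x <;> simp [SF.leaves, NF.leaves]
    | inr b => simp [toSF, vl2, SF.leaves]
  | neg f ih => intro n; simpa [toSF, vl2] using ih (!n)
  | and f g ihf ihg =>
    intro n
    simp only [toSF, vl2]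
    exact (SF.leaves_mk _ _ _).trans (add_le_add (ihf n) (ihg n))
  | or f g ihf ihg =>
    intro n
    simp only [toSF, vl2]
    exact (SF.leaves_mk _ _ _).trans (add_le_add (ihf n) (ihg n))

private theorem eval_toSF {I : Type} [DecidableEq I] (u : X → Bool) (z : Bool → Bool)
    (m : X → Option I) (y : I → Bool) (R : Fm (X ⊕ Bool)) :
    ∀ n : Bool, (toSF u z m n R).eval y = xor n
      (R.eval (Sum.elim (fun x => xor (u x) (match m x with | some i => y i | none => false)) z)) := by
  induction R with
  | var v =>
    intro n
    cases v with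
    | inl x =>
      simp only [toSF, Fm.eval, Sum.elim_inl]
      cases m x with
      | none => simp [SF.eval]
      | some i =>
        simp only [SF.eval, NF.eval]
        cases n <;> cases u x <;> cases y i <;> rfl
    | inr b => simp [toSF, SF.eval, Fm.eval]
  | neg f ih =>
    intro n
    simp only [toSF, Fm.eval]
    rw [ih]
    cases n <;> cases (f.eval (Sum.elim (fun x => xor (u x)
      (match m x with | some i => y i | none => false)) z)) <;> rfl
  | and f g ihf ihg =>
    intro n
    simp only [toSF, Fm.eval]
    rw [SF.eval_mk, ihf, ihg]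
    cases n <;> cases (f.eval (Sum.elim (fun x => xor (u x)
      (match m x with | some i => y i | none => false)) z)) <;>
      cases (g.eval (Sum.elim (fun x => xor (u x)
      (match m x with | some i => y i | none => false)) z)) <;> rfl
  | or f g ihf ihg =>
    intro n
    simp only [toSF, Fm.eval]
    rw [SF.eval_mk, ihf, ihg]
    cases n <;> cases (f.eval (Sum.elim (fun x => xor (u x)
      (match m x with | some i => y i | none => false)) z)) <;>
      cases (g.eval (Sum.elim (fun x => xor (u x)
      (match m x with | some i => y i | none => false)) z)) <;> rfl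

/-- substituting literals and constants for the leaves of a fragment gives a formula in negation
normal form that is not larger: `m x` tells which new variable flips the variable `x` -/
theorem exists_sf {I : Type} [DecidableEq I] (R : Fm (X ⊕ Bool)) (u : X → Bool) (z : Bool → Bool)
    (m : X → Option I) : ∃ g : SF I, g.leaves ≤ vl2 R ∧
      ∀ y : I → Bool, g.eval y =
        R.eval (Sum.elim (fun x => xor (u x) (match m x with | some i => y i | none => false)) z) := by
  refine ⟨toSF u z m false R, leaves_toSF u z m R false, fun y => ?_⟩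
  rw [eval_toSF]
  simp

end Fr56
end

section

section

/-!
The leaf count bound `Y` after a random restriction that keeps each variable with probability 1/2.
-/

set_option linter.unusedSectionVars false

namespace Fr56

open Finset Function

variable {X : Type} [DecidableEq X]

/-- a literal after restriction, if the killer does not fire -/
theorem leaves_res_lit (x : X) (b : Bool) (κ : Option (X × Bool)) (ω : X → Bool × Bool)
    (hκ : fires κ ω = false) : ((NF.lit x b).res (rho ω)).leaves ≤ cnt x κ ω := by
  simp only [NF.res, rho, cnt, hκ]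
  cases h : (ω x).1 <;> simp [SF.leaves, NF.leaves]

/-- a literal whose killing event fires becomes the controlling constant -/
theorem res_lit_fires (o : Bool) (x : X) (b : Bool) (ω : X → Bool × Bool)
    (h : fires (some (x, b == !o)) ω = true) : (NF.lit x b).res (rho ω) = .inl (!o) := by
  simp only [fires] at h
  simp only [NF.res, rho]
  cases h1 : (ω x).1
  · cases h2 : (ω x).2 <;> cases b <;> cases o <;> simp_all
  · simp [h1] at h

theorem leaves_mk_ctrl_left (o : Bool) (r : SF X) : (SF.mk o (.inl (!o)) r).leaves = 0 := by
  cases o <;> simp [SF.mk, SF.leaves]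

theorem leaves_mk_ctrl_right (o : Bool) (l : SF X) : (SF.mk o l (.inl (!o))).leaves = 0 := by
  cases l with
  | inl c => cases c <;> cases o <;> simp [SF.mk, SF.leaves]
  | inr l => cases o <;> simp [SF.mk, SF.leaves]

/-- `Y` bounds the number of leaves after restriction (unless the killer fires) -/
theorem leaves_res_le_Y (g : NF X) (κ : Option (X × Bool)) (ω : X → Bool × Bool)
    (hκ : fires κ ω = false) : (g.res (rho ω)).leaves ≤ g.Y κ ω := by
  induction g generalizing κ with
  | lit x b => exact leaves_res_lit x b κ ω hκ
  | node o l r ihl ihr =>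
    rcases l with ⟨x, b⟩ | ⟨o₁, l₁, r₁⟩
    · cases h1 : fires (some (x, b == !o)) ω with
      | true =>
        have h2 := res_lit_fires o x b ω h1
        have h3 : ((NF.node o (NF.lit x b) r).res (rho ω)).leaves = 0 := by
          rw [NF.res, h2, leaves_mk_ctrl_left]
        rw [h3]; exact Nat.zero_le _
      | false =>
        rcases r with ⟨y, c⟩ | ⟨o₂, l₂, r₂⟩
        · cases h4 : fires (some (y, c == !o)) ω with
          | true =>
            have h2 := res_lit_fires o y c ω h4
            have h3 : ((NF.node o (NF.lit x b) (NF.lit y c)).res (rho ω)).leaves = 0 := by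
              rw [NF.res, h2, leaves_mk_ctrl_right]
            rw [h3]; exact Nat.zero_le _
          | false =>
            rw [NF.res, NF.Y]
            exact (SF.leaves_mk _ _ _).trans
              (Nat.add_le_add (leaves_res_lit x b _ ω h4) (leaves_res_lit y c _ ω h1))
        · rw [NF.res, NF.Y]
          exact (SF.leaves_mk _ _ _).trans
            (Nat.add_le_add (leaves_res_lit x b _ ω hκ) (ihr _ h1))
    · rcases r with ⟨y, c⟩ | ⟨o₂, l₂, r₂⟩
      · cases h4 : fires (some (y, c == !o)) ω with
        | true =>
          have h2 := res_lit_fires o y c ω h4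
          have h3 : ((NF.node o (NF.node o₁ l₁ r₁) (NF.lit y c)).res (rho ω)).leaves = 0 := by
            rw [NF.res, h2, leaves_mk_ctrl_right]
          rw [h3]; exact Nat.zero_le _
        | false =>
          rw [NF.res, NF.Y, Nat.add_comm (cnt y κ ω)]
          exact (SF.leaves_mk _ _ _).trans
            (Nat.add_le_add (ihl _ h4) (leaves_res_lit y c _ ω hκ))
      · rw [NF.res, NF.Y]
        exact (SF.leaves_mk _ _ _).trans
          (Nat.add_le_add (ihl _ hκ) (ihr _ rfl))

/-- indicator that the killer has variable `x` -/
def kocc (x : X) (κ : Option (X × Bool)) : ℝ :=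
  match κ with
  | none => 0
  | some (y, _) => if y = x then 1 else 0

theorem kocc_nonneg (x : X) (κ : Option (X × Bool)) : 0 ≤ kocc x κ := by
  rcases κ with _ | ⟨y, b⟩
  · simp [kocc]
  · simp only [kocc]; split_ifs <;> norm_num

theorem cnt_cast_cases (y : X) (κ : Option (X × Bool)) (ω : X → Bool × Bool) :
    (cnt y κ ω : ℝ) = 0 ∨ (cnt y κ ω : ℝ) = 1 := by
  unfold cnt
  split_ifs
  · right; simp
  · left; simp

theorem cnt_diff (y : X) (κ : Option (X × Bool)) (ω : X → Bool × Bool) (x : X) (s : Bool × Bool) :
    |(cnt y κ (update ω x s) : ℝ) - cnt y κ ω| ≤ (if y = x then 1 else 0) + kocc x κ := by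
  have hle : |(cnt y κ (update ω x s) : ℝ) - cnt y κ ω| ≤ 1 := by
    rcases cnt_cast_cases y κ (update ω x s) with h | h <;>
      rcases cnt_cast_cases y κ ω with h' | h' <;> rw [h, h'] <;> norm_num
  by_cases hy : y = x
  · have := kocc_nonneg x κ
    simp only [hy, if_true] at *
    linarith
  · by_cases hk : kocc x κ = 1
    · rw [hk]
      simp only [hy, if_false]
      linarith
    · have h1 : (update ω x s) y = ω y := update_of_ne hy _ _
      have h2 : fires κ (update ω x s) = fires κ ω := by
        rcases κ with _ | ⟨z, b⟩
        · rfl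
        · have hz : z ≠ x := by
            intro hz
            apply hk
            simp [kocc, hz]
          simp only [fires, update_of_ne hz]
      have h3 : cnt y κ (update ω x s) = cnt y κ ω := by
        simp only [cnt, h1, h2]
      rw [h3]
      simp only [sub_self, abs_zero, hy, if_false]
      have := kocc_nonneg x κ
      linarith

theorem abs_add_sub_add_le (a b c d : ℝ) : |a + b - (c + d)| ≤ |a - c| + |b - d| := by
  have : a + b - (c + d) = (a - c) + (b - d) := by ring
  rw [this]
  exact abs_add_le _ _

theorem Y_diff' (g : NF X) (κ : Option (X × Bool)) (ω : X → Bool × Bool) (x : X)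
    (s : Bool × Bool) :
    |(g.Y κ (update ω x s) : ℝ) - g.Y κ ω| ≤ 2 * g.occ x + kocc x κ := by
  induction g generalizing κ with
  | lit y b =>
    have h := cnt_diff y κ ω x s
    simp only [NF.Y, NF.occ]
    refine h.trans ?_
    split_ifs <;> simp
  | node o l r ihl ihr =>
    rcases l with ⟨y, b⟩ | ⟨o₁, l₁, r₁⟩
    · rcases r with ⟨z, c⟩ | ⟨o₂, l₂, r₂⟩
      · have h1 := cnt_diff y (some (z, c == !o)) ω x s
        have h2 := cnt_diff z (some (y, b == !o)) ω x s
        simp only [NF.Y, NF.occ, Nat.cast_add]
        refine (abs_add_sub_add_le _ _ _ _).trans ?_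
        have := kocc_nonneg x κ
        simp only [kocc] at h1 h2
        push_cast
        split_ifs at * <;> linarith
      · have h1 := cnt_diff y κ ω x s
        have h2 := ihr (some (y, b == !o))
        simp only [NF.Y, NF.occ, Nat.cast_add] at h2 ⊢
        refine (abs_add_sub_add_le _ _ _ _).trans ?_
        simp only [kocc] at h2
        push_cast at h2 ⊢
        split_ifs at * <;> linarith
    · rcases r with ⟨z, c⟩ | ⟨o₂, l₂, r₂⟩
      · have h1 := cnt_diff z κ ω x s
        have h2 := ihl (some (z, c == !o))
        simp only [NF.Y, NF.occ, Nat.cast_add] at h2 ⊢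
        refine (abs_add_sub_add_le _ _ _ _).trans ?_
        simp only [kocc] at h2
        push_cast at h2 ⊢
        split_ifs at * <;> linarith
      · have h1 := ihl κ
        have h2 := ihr none
        have h0 : kocc x (none : Option (X × Bool)) = 0 := rfl
        rw [h0] at h2
        rw [NF.Y, NF.Y, NF.occ]
        push_cast
        refine (abs_add_sub_add_le _ _ _ _).trans ?_
        linarith

/-- changing one coordinate changes `Y` by at most twice the number of occurrences -/
theorem Y_diff (g : NF X) (ω : X → Bool × Bool) (x : X) (s : Bool × Bool) :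
    |(g.Y none (update ω x s) : ℝ) - g.Y none ω| ≤ 2 * g.occ x := by
  have h := Y_diff' g none ω x s
  have h0 : kocc x (none : Option (X × Bool)) = 0 := rfl
  rw [h0, add_zero] at h
  exact h

theorem sum_cnt_none [Fintype X] (x : X) :
    ∑ ω : X → Bool × Bool, (cnt x none ω : ℝ) = (Fintype.card (X → Bool × Bool) : ℝ) * (8 / 16) := by
  have h := sum_update (Ω := Bool × Bool) x (fun ω => (cnt x none ω : ℝ))
  have h1 : ∀ ω : X → Bool × Bool, ∑ s : Bool × Bool, (cnt x none (update ω x s) : ℝ) = 2 := by
    intro ω
    have h5 : (univ.filter fun x : Bool × Bool => x.1 = true).card = 2 := by decide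
    simp [cnt, fires, h5]
  simp only [h1] at h
  simp only [Finset.sum_const, Finset.card_univ, nsmul_eq_mul, Fintype.card_prod,
    Fintype.card_bool] at h
  push_cast at h ⊢
  linarith

theorem sum_fires [Fintype X] (y : X) (c : Bool) :
    ∑ ω : X → Bool × Bool, (if fires (some (y, c)) ω = true then (0 : ℝ) else 1) =
      (Fintype.card (X → Bool × Bool) : ℝ) * (3 / 4) := by
  have h := sum_update (Ω := Bool × Bool) y
    (fun ω => (if fires (some (y, c)) ω = true then (0 : ℝ) else 1))
  have h1 : ∀ ω : X → Bool × Bool, ∑ s : Bool × Bool,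
      (if fires (some (y, c)) (update ω y s) = true then (0 : ℝ) else 1) = 3 := by
    intro ω
    cases c <;> simp [fires, Fintype.sum_prod_type] <;> norm_num
  simp only [h1] at h
  simp only [Finset.sum_const, Finset.card_univ, nsmul_eq_mul, Fintype.card_prod,
    Fintype.card_bool] at h
  push_cast at h ⊢
  linarith

theorem sum_cnt_some [Fintype X] (x y : X) (hxy : x ≠ y) (c : Bool) :
    ∑ ω : X → Bool × Bool, (cnt x (some (y, c)) ω : ℝ) =
      (Fintype.card (X → Bool × Bool) : ℝ) * (6 / 16) := by
  have h := sum_update (Ω := Bool × Bool) x (fun ω => (cnt x (some (y, c)) ω : ℝ))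
  have h1 : ∀ ω : X → Bool × Bool, ∑ s : Bool × Bool,
      (cnt x (some (y, c)) (update ω x s) : ℝ) =
        2 * (if fires (some (y, c)) ω = true then (0 : ℝ) else 1) := by
    intro ω
    have h2 : ∀ s, fires (some (y, c)) (update ω x s) = fires (some (y, c)) ω := by
      intro s
      simp only [fires, update_of_ne (Ne.symm hxy)]
    simp only [cnt, h2, update_self]
    have h5 : (univ.filter fun x : Bool × Bool => x.1 = true).card = 2 := by decide
    cases fires (some (y, c)) ω <;> simp [h5]
  simp only [h1] at h
  rw [← Finset.mul_sum, sum_fires] at h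
  simp only [Fintype.card_prod, Fintype.card_bool] at h
  push_cast at h ⊢
  linarith

/-- the two bounds for nodes -/
theorem Y_expect_node [Fintype X] (g : NF X) (hg : g.Reduced) :
    (∀ x b, g ≠ NF.lit x b) →
    (∑ ω : X → Bool × Bool, (g.Y none ω : ℝ) ≤
      (Fintype.card (X → Bool × Bool) : ℝ) * ((7 * g.leaves - 1) / 16)) ∧
    (∀ y c, g.occ y = 0 → ∑ ω : X → Bool × Bool, (g.Y (some (y, c)) ω : ℝ) ≤
      (Fintype.card (X → Bool × Bool) : ℝ) * ((7 * g.leaves - 2) / 16)) := by
  have hC : (0 : ℝ) ≤ (Fintype.card (X → Bool × Bool) : ℝ) := Nat.cast_nonneg _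
  set C : ℝ := (Fintype.card (X → Bool × Bool) : ℝ) with hCdef
  induction g with
  | lit x b => intro h; exact absurd rfl (h x b)
  | node o l r ihl ihr =>
    intro _
    obtain ⟨hl, hr, hA, hB⟩ := hg
    rcases l with ⟨x, b⟩ | ⟨o₁, l₁, r₁⟩
    · rcases r with ⟨z, c⟩ | ⟨o₂, l₂, r₂⟩
      · have hne : z ≠ x := by
          have := hA x b rfl
          simpa [NF.occ] using this
        have h1 := sum_cnt_some x z (Ne.symm hne) (c == !o)
        have h2 := sum_cnt_some z x hne (b == !o)
        rw [← hCdef] at h1 h2
        have key : ∀ κ : Option (X × Bool), ∑ ω : X → Bool × Bool,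
            ((NF.node o (NF.lit x b) (NF.lit z c)).Y κ ω : ℝ) = C * (12 / 16) := by
          intro κ
          simp only [NF.Y, Nat.cast_add, Finset.sum_add_distrib]
          rw [h1, h2]; ring
        refine ⟨?_, ?_⟩
        · rw [key]
          simp only [NF.leaves]
          push_cast
          nlinarith
        · intro y d _
          rw [key]
          simp only [NF.leaves]
          push_cast
          nlinarith
      · have hr' := ihr hr (fun x b => by simp)
        have hocc := hA x b rfl
        have h2 := hr'.2 x (b == !o) hocc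
        refine ⟨?_, ?_⟩
        · have h1 := sum_cnt_none x
          rw [← hCdef] at h1
          rw [show (∑ ω : X → Bool × Bool,
            ((NF.node o (NF.lit x b) (NF.node o₂ l₂ r₂)).Y none ω : ℝ)) =
            ∑ ω : X → Bool × Bool, (cnt x none ω : ℝ) +
            ∑ ω : X → Bool × Bool, ((NF.node o₂ l₂ r₂).Y (some (x, b == !o)) ω : ℝ) by
              simp only [NF.Y, Nat.cast_add, Finset.sum_add_distrib]]
          rw [h1]
          rw [show ((NF.node o (NF.lit x b) (NF.node o₂ l₂ r₂)).leaves) =
            1 + (NF.node o₂ l₂ r₂).leaves from rfl]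
          push_cast
          nlinarith
        · intro y d hy
          have hyx : x ≠ y := by
            intro h
            subst h
            simp [NF.occ] at hy
          have h1 := sum_cnt_some x y hyx d
          rw [← hCdef] at h1
          rw [show (∑ ω : X → Bool × Bool,
            ((NF.node o (NF.lit x b) (NF.node o₂ l₂ r₂)).Y (some (y, d)) ω : ℝ)) =
            ∑ ω : X → Bool × Bool, (cnt x (some (y, d)) ω : ℝ) +
            ∑ ω : X → Bool × Bool, ((NF.node o₂ l₂ r₂).Y (some (x, b == !o)) ω : ℝ) by
              simp only [NF.Y, Nat.cast_add, Finset.sum_add_distrib]]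
          rw [h1]
          rw [show ((NF.node o (NF.lit x b) (NF.node o₂ l₂ r₂)).leaves) =
            1 + (NF.node o₂ l₂ r₂).leaves from rfl]
          push_cast
          nlinarith
    · have hl' := ihl hl (fun x b => by simp)
      rcases r with ⟨z, c⟩ | ⟨o₂, l₂, r₂⟩
      · have hocc := hB z c rfl
        have h2 := hl'.2 z (c == !o) hocc
        refine ⟨?_, ?_⟩
        · have h1 := sum_cnt_none z
          rw [← hCdef] at h1
          rw [show (∑ ω : X → Bool × Bool,
            ((NF.node o (NF.node o₁ l₁ r₁) (NF.lit z c)).Y none ω : ℝ)) =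
            ∑ ω : X → Bool × Bool, (cnt z none ω : ℝ) +
            ∑ ω : X → Bool × Bool, ((NF.node o₁ l₁ r₁).Y (some (z, c == !o)) ω : ℝ) by
              simp only [NF.Y, Nat.cast_add, Finset.sum_add_distrib]]
          rw [h1]
          rw [show ((NF.node o (NF.node o₁ l₁ r₁) (NF.lit z c)).leaves) =
            (NF.node o₁ l₁ r₁).leaves + 1 from rfl]
          push_cast
          nlinarith
        · intro y d hy
          have hyx : z ≠ y := by
            intro h
            subst h
            simp [NF.occ] at hy
          have h1 := sum_cnt_some z y hyx d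
          rw [← hCdef] at h1
          rw [show (∑ ω : X → Bool × Bool,
            ((NF.node o (NF.node o₁ l₁ r₁) (NF.lit z c)).Y (some (y, d)) ω : ℝ)) =
            ∑ ω : X → Bool × Bool, (cnt z (some (y, d)) ω : ℝ) +
            ∑ ω : X → Bool × Bool, ((NF.node o₁ l₁ r₁).Y (some (z, c == !o)) ω : ℝ) by
              simp only [NF.Y, Nat.cast_add, Finset.sum_add_distrib]]
          rw [h1]
          rw [show ((NF.node o (NF.node o₁ l₁ r₁) (NF.lit z c)).leaves) =
            (NF.node o₁ l₁ r₁).leaves + 1 from rfl]
          push_cast
          nlinarith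
      · have hr' := ihr hr (fun x b => by simp)
        refine ⟨?_, ?_⟩
        · rw [show (∑ ω : X → Bool × Bool,
            ((NF.node o (NF.node o₁ l₁ r₁) (NF.node o₂ l₂ r₂)).Y none ω : ℝ)) =
            ∑ ω : X → Bool × Bool, ((NF.node o₁ l₁ r₁).Y none ω : ℝ) +
            ∑ ω : X → Bool × Bool, ((NF.node o₂ l₂ r₂).Y none ω : ℝ) by
              rw [← Finset.sum_add_distrib]
              refine Finset.sum_congr rfl fun ω _ => ?_
              rw [NF.Y]; push_cast; rfl]
          rw [show ((NF.node o (NF.node o₁ l₁ r₁) (NF.node o₂ l₂ r₂)).leaves) =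
            (NF.node o₁ l₁ r₁).leaves + (NF.node o₂ l₂ r₂).leaves from rfl]
          have h1 := hl'.1
          have h2 := hr'.1
          push_cast
          nlinarith
        · intro y d hy
          have hy1 : (NF.node o₁ l₁ r₁).occ y = 0 := by
            rw [NF.occ] at hy; omega
          rw [show (∑ ω : X → Bool × Bool,
            ((NF.node o (NF.node o₁ l₁ r₁) (NF.node o₂ l₂ r₂)).Y (some (y, d)) ω : ℝ)) =
            ∑ ω : X → Bool × Bool, ((NF.node o₁ l₁ r₁).Y (some (y, d)) ω : ℝ) +
            ∑ ω : X → Bool × Bool, ((NF.node o₂ l₂ r₂).Y none ω : ℝ) by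
              rw [← Finset.sum_add_distrib]
              refine Finset.sum_congr rfl fun ω _ => ?_
              rw [NF.Y]; push_cast; rfl]
          rw [show ((NF.node o (NF.node o₁ l₁ r₁) (NF.node o₂ l₂ r₂)).leaves) =
            (NF.node o₁ l₁ r₁).leaves + (NF.node o₂ l₂ r₂).leaves from rfl]
          have h1 := hl'.2 y d hy1
          have h2 := hr'.1
          push_cast
          nlinarith

/-- the expectation of `Y` for a reduced formula -/
theorem Y_expect [Fintype X] (g : NF X) (hg : g.Reduced) :
    (∑ ω : X → Bool × Bool, (g.Y none ω : ℝ)) / Fintype.card (X → Bool × Bool) ≤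
      (7 * g.leaves + 1) / 16 := by
  have hC : (0 : ℝ) < (Fintype.card (X → Bool × Bool) : ℝ) := by
    exact_mod_cast Fintype.card_pos
  rw [div_le_iff₀ hC]
  rcases g with ⟨x, b⟩ | ⟨o, l, r⟩
  · have h1 := sum_cnt_none x
    simp only [NF.Y]
    rw [h1]
    simp only [NF.leaves]
    push_cast
    nlinarith
  · have h := (Y_expect_node (NF.node o l r) hg (fun x b => by simp)).1
    refine h.trans ?_
    nlinarith

end Fr56
end

section

/-!
Exponential moments of the sensitivity of De Morgan formulas.
-/

set_option linter.unusedSectionVars false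

namespace Fr56

open Finset Function

variable {X : Type} [DecidableEq X] [Fintype X]

/-- swapping argument: if `G β α` depends only on `β` inside `S` and only on `α` outside `S` then the
diagonal sum is the average of the double sum -/
theorem diag_sum (S : Finset X) (G : (X → Bool) → (X → Bool) → ℝ)
    (h1 : ∀ β β' α, (∀ x ∈ S, β x = β' x) → G β α = G β' α)
    (h2 : ∀ β α α', (∀ x ∉ S, α x = α' x) → G β α = G β α') :
    2 ^ Fintype.card X * ∑ α, G α α = ∑ β, ∑ α, G β α := by
  classical
  set φ : (X → Bool) × (X → Bool) → (X → Bool) × (X → Bool) :=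
    fun p => (S.piecewise p.1 p.2, S.piecewise p.2 p.1) with hφ
  have hinv : Function.Involutive φ := by
    intro p
    apply Prod.ext
    · funext x
      by_cases hx : x ∈ S <;> simp [hφ, hx]
    · funext x
      by_cases hx : x ∈ S <;> simp [hφ, hx]
  have hG : ∀ p : (X → Bool) × (X → Bool), G p.1 p.2 = G (φ p).1 (φ p).1 := by
    intro p
    have e1 : G p.1 p.2 = G (φ p).1 p.2 := by
      apply h1
      intro x hx
      simp [hφ, hx]
    have e2 : G (φ p).1 p.2 = G (φ p).1 (φ p).1 := by
      apply h2
      intro x hx
      simp [hφ, hx]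
    rw [e1, e2]
  rw [← Finset.sum_product' (f := fun β α => G β α), Finset.univ_product_univ]
  rw [Finset.sum_congr rfl (fun p _ => hG p)]
  have hperm := Equiv.sum_comp (Function.Involutive.toPerm φ hinv)
    (fun p : (X → Bool) × (X → Bool) => G p.1 p.1)
  simp only [Function.Involutive.coe_toPerm] at hperm
  rw [hperm]
  rw [← Finset.univ_product_univ, Finset.sum_product' (f := fun α (_ : X → Bool) => G α α)]
  simp [Finset.mul_sum]

/-- the sensitivity is at most the number of leaves -/
theorem SF.sens_le (g : SF X) (α : X → Bool) : g.sens α ≤ g.leaves := by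
  unfold SF.sens sensf
  have h1 : (univ.filter fun x => g.eval (flip x α) ≠ g.eval α) ⊆
      univ.filter fun x => g.occ x ≠ 0 := by
    intro x hx
    simp only [mem_filter, mem_univ, true_and] at hx ⊢
    intro h0
    apply hx
    cases g with
    | inl c => rfl
    | inr g =>
      simp only [SF.eval]
      apply NF.eval_congr
      intro y hy
      unfold flip
      rw [Function.update_of_ne]
      rintro rfl
      exact hy h0
  refine (Finset.card_le_card h1).trans ?_
  rw [← SF.sum_occ, Finset.card_eq_sum_ones, Finset.sum_filter]
  apply Finset.sum_le_sum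
  intro x _
  split_ifs with h
  · omega
  · omega

theorem card_bool_fun : (Fintype.card (X → Bool) : ℝ) = 2 ^ Fintype.card X := by
  simp

theorem claim_base (lam : ℝ) (hlam : 0 ≤ lam) : Claim lam 1 0 := by
  intro X _ _ g
  have h1 : ∀ α : X → Bool, Real.exp (lam * (g.sens α : ℝ)) ≤
      Real.exp (lam * (1 * g.leaves + 0)) := by
    intro α
    apply Real.exp_le_exp.2
    apply mul_le_mul_of_nonneg_left _ hlam
    rw [one_mul, add_zero]
    exact_mod_cast g.sens_le α
  refine (Finset.sum_le_sum fun α _ => h1 α).trans ?_
  rw [Finset.sum_const, nsmul_eq_mul, Finset.card_univ, card_bool_fun]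

theorem claim_inl (lam B : ℝ) (hlam : 0 ≤ lam) (hB : 0 ≤ B) (c : Bool) :
    ∑ α : X → Bool, Real.exp (lam * (SF.sens (Sum.inl c : SF X) α : ℝ)) ≤
      2 ^ Fintype.card X * Real.exp (lam * B) := by
  have h1 : ∀ α : X → Bool, Real.exp (lam * (SF.sens (Sum.inl c : SF X) α : ℝ)) ≤
      Real.exp (lam * B) := by
    intro α
    apply Real.exp_le_exp.2
    apply mul_le_mul_of_nonneg_left _ hlam
    have : SF.sens (Sum.inl c : SF X) α = 0 := by
      have := SF.sens_le (Sum.inl c : SF X) α
      simpa [SF.leaves] using this
    rw [this]
    simpa using hB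
  refine (Finset.sum_le_sum fun α _ => h1 α).trans ?_
  rw [Finset.sum_const, nsmul_eq_mul, Finset.card_univ, card_bool_fun]

/-- the restriction that keeps the variables with `q x = true` alive and sets the others to `β` -/
def rq (q β : X → Bool) (x : X) : Option Bool := if q x then none else some (β x)

theorem eval_rq (g : NF X) (q β γ : X → Bool) :
    (g.res (rq q β)).eval γ = g.eval (fun x => if q x then γ x else β x) := by
  rw [NF.eval_res]
  congr 1
  funext x
  unfold rq
  by_cases h : q x <;> simp [h]

theorem sens_congr (g : NF X) (s : SF X) (q β : X → Bool)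
    (hs : ∀ γ, s.eval γ = g.eval (fun x => if q x then γ x else β x)) (α α' : X → Bool)
    (h : ∀ x, q x = true → α x = α' x) : s.sens α = s.sens α' := by
  unfold SF.sens sensf
  have e : ∀ γ γ' : X → Bool, (∀ x, q x = true → γ x = γ' x) → s.eval γ = s.eval γ' := by
    intro γ γ' h
    rw [hs, hs]
    congr 1
    funext x
    by_cases hx : q x
    · simp [hx, h x hx]
    · simp [hx]
  have e1 := e α α' h
  have e2 : ∀ x, s.eval (flip x α) = s.eval (flip x α') := by
    intro x
    apply e
    intro y hy
    unfold flip
    by_cases hxy : y = x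
    · subst hxy
      simp [h y hy]
    · rw [Function.update_of_ne hxy, Function.update_of_ne hxy, h y hy]
  simp only [e1, e2]

theorem sens_local (g : NF X) (s : SF X) (q α : X → Bool)
    (hs : ∀ γ, s.eval γ = g.eval (fun x => if q x then γ x else α x)) :
    (univ.filter fun x => q x = true ∧ g.eval (flip x α) ≠ g.eval α).card ≤ s.sens α := by
  unfold SF.sens sensf
  apply Finset.card_le_card
  intro x hx
  simp only [mem_filter, mem_univ, true_and] at hx ⊢
  rw [hs, hs]
  have e1 : (fun y => if q y then flip x α y else α y) = flip x α := by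
    funext y
    by_cases hy : q y
    · simp [hy]
    · have : y ≠ x := by
        rintro rfl
        exact hy hx.1
      simp only [hy]
      unfold flip
      rw [Function.update_of_ne this]
      simp
  have e2 : (fun y => if q y then α y else α y) = α := by
    funext y
    simp
  rw [e1, e2]
  exact hx.2

/-- number of `q` containing a given variable -/
theorem card_q (x : X) : (univ.filter fun q : X → Bool => q x = true).card * 2 =
    2 ^ Fintype.card X := by
  classical
  have h1 : (univ.filter fun q : X → Bool => q x = true).card =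
      (univ.filter fun q : X → Bool => ¬ q x = true).card := by
    apply Finset.card_bij (fun q _ => flip x q)
    · intro q hq
      simp only [mem_filter, mem_univ, true_and] at hq ⊢
      simp [flip, hq]
    · intro q _ q' _ h
      funext y
      have := congrFun h y
      by_cases hy : y = x
      · subst hy
        simpa [flip] using this
      · simpa [flip, hy] using this
    · intro q hq
      simp only [mem_filter, mem_univ, true_and] at hq
      refine ⟨flip x q, ?_, ?_⟩
      · simp [flip, hq]
      · funext y
        by_cases hy : y = x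
        · subst hy
          simp [flip]
        · simp [flip, hy]
  have h2 := Finset.card_filter_add_card_filter_not (s := (univ : Finset (X → Bool)))
    (fun q : X → Bool => q x = true)
  have h3 : (univ : Finset (X → Bool)).card = 2 ^ Fintype.card X := by simp
  omega

theorem sens_inr (g : NF X) (α : X → Bool) : SF.sens (Sum.inr g : SF X) α =
    (univ.filter fun x => g.eval (flip x α) ≠ g.eval α).card := rfl

theorem sens_avg (g : NF X) (α : X → Bool) :
    ∑ q : X → Bool, ((univ.filter fun x => q x = true ∧ g.eval (flip x α) ≠ g.eval α).card : ℝ) =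
      2 ^ Fintype.card X / 2 * (SF.sens (Sum.inr g : SF X) α : ℝ) := by
  have h1 : ∀ q : X → Bool,
      ((univ.filter fun x => q x = true ∧ g.eval (flip x α) ≠ g.eval α).card : ℝ) =
      ∑ x ∈ univ.filter (fun x => g.eval (flip x α) ≠ g.eval α), if q x = true then (1 : ℝ) else 0 := by
    intro q
    rw [← Finset.sum_filter, Finset.filter_filter, Finset.sum_const, nsmul_eq_mul, mul_one]
    congr 2
    ext x
    simp only [mem_filter, mem_univ, true_and]
    tauto
  rw [Finset.sum_congr rfl (fun q _ => h1 q), Finset.sum_comm]
  have h2 : ∀ x : X, ∑ q : X → Bool, (if q x = true then (1 : ℝ) else 0) =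
      2 ^ Fintype.card X / 2 := by
    intro x
    rw [← Finset.sum_filter, Finset.sum_const, nsmul_eq_mul, mul_one]
    have := card_q x
    rw [eq_div_iff two_ne_zero]
    exact_mod_cast this
  rw [Finset.sum_congr rfl (fun x _ => h2 x), Finset.sum_const, nsmul_eq_mul, sens_inr]
  ring

theorem jensen_q (F : (X → Bool) → ℝ) :
    Real.exp ((∑ q, F q) / 2 ^ Fintype.card X) ≤ (∑ q, Real.exp (F q)) / 2 ^ Fintype.card X := by
  have h := convexOn_exp.map_sum_le (t := (univ : Finset (X → Bool)))
    (w := fun _ => 1 / (2 : ℝ) ^ Fintype.card X) (p := F)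
    (fun _ _ => by positivity) (by
      rw [Finset.sum_const, nsmul_eq_mul, Finset.card_univ, card_bool_fun]
      field_simp) (fun _ _ => Set.mem_univ _)
  simp only [smul_eq_mul] at h
  rw [← Finset.mul_sum, ← Finset.mul_sum] at h
  calc Real.exp ((∑ q, F q) / 2 ^ Fintype.card X) =
      Real.exp (1 / (2 : ℝ) ^ Fintype.card X * ∑ q, F q) := by congr 1; ring
    _ ≤ _ := h
    _ = _ := by ring

/-- the step for reduced formulas without heavy variables -/
theorem light_step (lam A a : ℝ) (h : ℕ) (hlam : 0 ≤ lam) (hA : 0 ≤ A) (ha : 0 ≤ a)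
    (hsmall : lam * A * h ≤ 1 / 1152) (hc : Claim (2 * lam) A a) (g : SF X) (hg : g.Reduced)
    (hocc : ∀ x, g.occ x ≤ h) :
    ∑ α : X → Bool, Real.exp (lam * (g.sens α : ℝ)) ≤
      2 ^ Fintype.card X * Real.exp (lam * (8 / 9 * A * g.leaves + (2 * a + A / 8))) := by
  classical
  cases g with
  | inl c =>
    apply claim_inl lam _ hlam
    positivity
  | inr g =>
    simp only [SF.Reduced] at hg
    simp only [SF.occ] at hocc
    have hN : (0 : ℝ) < 2 ^ Fintype.card X := by positivity
    set T : (X → Bool) → (X → Bool) → ℕ := fun q α =>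
      (univ.filter fun x => q x = true ∧ g.eval (flip x α) ≠ g.eval α).card with hT
    -- step 1: Jensen
    have s1 : ∀ α : X → Bool, Real.exp (lam * (SF.sens (Sum.inr g : SF X) α : ℝ)) ≤
        (∑ q, Real.exp (2 * lam * (T q α : ℝ))) / 2 ^ Fintype.card X := by
      intro α
      refine le_trans (le_of_eq ?_) (jensen_q (fun q => 2 * lam * (T q α : ℝ)))
      congr 1
      rw [← Finset.mul_sum, sens_avg]
      field_simp
    -- step 2: fixed q
    have s2 : ∀ q : X → Bool, ∑ α : X → Bool, Real.exp (2 * lam * (T q α : ℝ)) ≤
        ∑ β : X → Bool, Real.exp (2 * lam * (A * (g.res (rq q β)).leaves + a)) := by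
      intro q
      have e1 : ∑ α : X → Bool, Real.exp (2 * lam * (T q α : ℝ)) ≤
          ∑ α : X → Bool, Real.exp (2 * lam * ((g.res (rq q α)).sens α : ℝ)) := by
        apply Finset.sum_le_sum
        intro α _
        apply Real.exp_le_exp.2
        apply mul_le_mul_of_nonneg_left _ (by positivity)
        exact_mod_cast sens_local g _ q α (fun γ => eval_rq g q α γ)
      have e2 := diag_sum (univ.filter fun x => ¬ q x = true)
        (fun β α => Real.exp (2 * lam * ((g.res (rq q β)).sens α : ℝ))) (by
          intro β β' α hβ
          have : rq q β = rq q β' := by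
            funext x
            unfold rq
            by_cases hx : q x
            · simp [hx]
            · simp only [hx]
              rw [hβ x (by simp [hx])]
          simp only [this]) (by
          intro β α α' hα
          have := sens_congr g (g.res (rq q β)) q β (fun γ => eval_rq g q β γ) α α' (by
            intro x hx
            apply hα
            simp [hx])
          simp only [this])
      have e3 : ∑ β : X → Bool, ∑ α : X → Bool,
          Real.exp (2 * lam * ((g.res (rq q β)).sens α : ℝ)) ≤
          ∑ β : X → Bool, 2 ^ Fintype.card X *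
            Real.exp (2 * lam * (A * (g.res (rq q β)).leaves + a)) :=
        Finset.sum_le_sum fun β _ => hc X (g.res (rq q β))
      rw [← Finset.mul_sum] at e3
      rw [← e2] at e3
      exact e1.trans (le_of_mul_le_mul_left e3 hN)
    -- step 3: the double sum
    have s3 : ∑ q : X → Bool, ∑ β : X → Bool,
        Real.exp (2 * lam * (A * (g.res (rq q β)).leaves + a)) ≤
        ∑ ω : X → Bool × Bool, Real.exp (2 * lam * a) *
          Real.exp (2 * lam * A * (g.Y none ω : ℝ)) := by
      rw [← Finset.sum_product' (f := fun q β => Real.exp (2 * lam *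
        (A * (g.res (rq q β)).leaves + a))), Finset.univ_product_univ]
      have e1 : ∑ p : (X → Bool) × (X → Bool), Real.exp (2 * lam *
          (A * (g.res (rq p.1 p.2)).leaves + a)) =
          ∑ ω : X → Bool × Bool, Real.exp (2 * lam *
          (A * (g.res (rho ω)).leaves + a)) := by
        refine (Fintype.sum_equiv (Equiv.mk (fun (ω : X → Bool × Bool) =>
          ((fun x => (ω x).1, fun x => (ω x).2) : (X → Bool) × (X → Bool)))
          (fun p x => (p.1 x, p.2 x)) (fun _ => rfl) (fun _ => rfl)) _ _ ?_).symm
        intro ω
        rfl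
      rw [e1]
      apply Finset.sum_le_sum
      intro ω _
      rw [← Real.exp_add]
      apply Real.exp_le_exp.2
      have e2 : ((g.res (rho ω)).leaves : ℝ) ≤ (g.Y none ω : ℝ) := by
        exact_mod_cast leaves_res_le_Y g none ω rfl
      have e3 : 2 * lam * A * ((g.res (rho ω)).leaves : ℝ) ≤ 2 * lam * A * (g.Y none ω : ℝ) :=
        mul_le_mul_of_nonneg_left e2 (by positivity)
      linarith
    -- step 4: bounded differences
    have hoccR : ∀ x, (g.occ x : ℝ) ≤ h := fun x => by exact_mod_cast hocc x
    have s4 := mcdiarmid_mgf (fun ω : X → Bool × Bool => (g.Y none ω : ℝ))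
      (fun x => 2 * (g.occ x : ℝ)) (fun ω x s => Y_diff g ω x s) (2 * lam * A) (by positivity) (by
        intro x
        have h1 : 2 * lam * A * (2 * (g.occ x : ℝ)) ≤ 2 * lam * A * (2 * (h : ℝ)) :=
          mul_le_mul_of_nonneg_left (by linarith [hoccR x]) (by positivity)
        linarith)
    have s5 := Y_expect g hg
    have s6 : ∑ x, (2 * (g.occ x : ℝ)) ^ 2 ≤ 4 * (h : ℝ) * (g.leaves : ℝ) := by
      have h1 : ∀ x, (2 * (g.occ x : ℝ)) ^ 2 ≤ 4 * (h : ℝ) * (g.occ x : ℝ) := by
        intro x
        have h2 : (g.occ x : ℝ) * (g.occ x : ℝ) ≤ h * (g.occ x : ℝ) :=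
          mul_le_mul_of_nonneg_right (hoccR x) (by positivity)
        linarith
      refine (Finset.sum_le_sum fun x _ => h1 x).trans ?_
      rw [← Finset.mul_sum, ← g.sum_occ]
      push_cast
      exact le_rfl
    have hcard : (Fintype.card (X → Bool × Bool) : ℝ) =
        2 ^ Fintype.card X * 2 ^ Fintype.card X := by
      rw [Fintype.card_fun, Fintype.card_prod, Fintype.card_bool]
      push_cast
      rw [← mul_pow]
      norm_num
    have s7 : 2 * lam * A * ((∑ ω : X → Bool × Bool, (g.Y none ω : ℝ)) /
        Fintype.card (X → Bool × Bool)) + (2 * lam * A) ^ 2 * ∑ x, (2 * (g.occ x : ℝ)) ^ 2 ≤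
        2 * lam * A * (4 / 9 * g.leaves + 1 / 16) := by
      have h1 : 2 * lam * A * ((∑ ω : X → Bool × Bool, (g.Y none ω : ℝ)) /
          Fintype.card (X → Bool × Bool)) ≤ 2 * lam * A * ((7 * g.leaves + 1) / 16) :=
        mul_le_mul_of_nonneg_left s5 (by positivity)
      have h2 : (2 * lam * A) ^ 2 * ∑ x, (2 * (g.occ x : ℝ)) ^ 2 ≤
          (2 * lam * A) ^ 2 * (4 * h * g.leaves) :=
        mul_le_mul_of_nonneg_left s6 (by positivity)
      have h3 : (2 * lam * A) ^ 2 * (4 * h * g.leaves) =
          8 * (lam * A * h) * (2 * lam * A * g.leaves) := by ring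
      have h4 : 8 * (lam * A * h) * (2 * lam * A * g.leaves) ≤
          8 * (1 / 1152) * (2 * lam * A * g.leaves) := by
        apply mul_le_mul_of_nonneg_right _ (by positivity)
        linarith
      have h5 : 2 * lam * A * (4 / 9 * g.leaves + 1 / 16) =
          2 * lam * A * ((7 * g.leaves + 1) / 16) + 8 * (1 / 1152) * (2 * lam * A * g.leaves) := by
        ring
      linarith
    -- conclusion
    calc ∑ α : X → Bool, Real.exp (lam * (SF.sens (Sum.inr g : SF X) α : ℝ))
        ≤ ∑ α : X → Bool, (∑ q, Real.exp (2 * lam * (T q α : ℝ))) / 2 ^ Fintype.card X :=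
          Finset.sum_le_sum fun α _ => s1 α
      _ = (∑ q : X → Bool, ∑ α : X → Bool, Real.exp (2 * lam * (T q α : ℝ))) /
          2 ^ Fintype.card X := by
          rw [← Finset.sum_div, Finset.sum_comm]
      _ ≤ (∑ q : X → Bool, ∑ β : X → Bool,
          Real.exp (2 * lam * (A * (g.res (rq q β)).leaves + a))) / 2 ^ Fintype.card X := by
          apply div_le_div_of_nonneg_right _ hN.le
          exact Finset.sum_le_sum fun q _ => s2 q
      _ ≤ (∑ ω : X → Bool × Bool, Real.exp (2 * lam * a) *
          Real.exp (2 * lam * A * (g.Y none ω : ℝ))) / 2 ^ Fintype.card X :=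
          div_le_div_of_nonneg_right s3 hN.le
      _ ≤ (Real.exp (2 * lam * a) * (2 ^ Fintype.card X * 2 ^ Fintype.card X *
          Real.exp (2 * lam * A * (4 / 9 * g.leaves + 1 / 16)))) / 2 ^ Fintype.card X := by
          apply div_le_div_of_nonneg_right _ hN.le
          rw [← Finset.mul_sum]
          apply mul_le_mul_of_nonneg_left _ (Real.exp_pos _).le
          exact s4.trans (mul_le_mul hcard.le (Real.exp_le_exp.2 s7) (Real.exp_pos _).le
            (by positivity))
      _ = 2 ^ Fintype.card X * (Real.exp (2 * lam * a) *
          Real.exp (2 * lam * A * (4 / 9 * g.leaves + 1 / 16))) := by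
          field_simp
      _ = _ := by
          rw [← Real.exp_add]
          congr 2
          simp only [SF.leaves]
          ring

/-- the step -/
theorem claim_step (lam A a : ℝ) (h : ℕ) (hh : 0 < h) (hlam : 0 ≤ lam) (hA : 0 ≤ A) (ha : 0 ≤ a)
    (hsmall : lam * A * h ≤ 1 / 1152) (hc : Claim (2 * lam) A a) :
    Claim lam (1 / h + 8 / 9 * A) (2 * a + A / 8) := by
  intro X _ _ g
  classical
  cases g with
  | inl c =>
    apply claim_inl lam _ hlam
    positivity
  | inr g =>
    have hN : (0 : ℝ) < 2 ^ Fintype.card X := by positivity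
    -- the light variables
    set q : X → Bool := fun x => decide (g.occ x ≤ h) with hq
    set H : Finset X := univ.filter fun x => ¬ q x = true with hH
    have hHcard : (H.card : ℝ) ≤ g.leaves / h := by
      rw [le_div_iff₀ (by exact_mod_cast hh)]
      have h1 : H.card * h ≤ g.leaves := by
        rw [← g.sum_occ, ← smul_eq_mul, ← Finset.sum_const]
        calc ∑ _x ∈ H, h ≤ ∑ x ∈ H, g.occ x := by
              apply Finset.sum_le_sum
              intro x hx
              simp only [hH, hq, mem_filter, mem_univ, true_and, decide_eq_true_eq] at hx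
              omega
          _ ≤ ∑ x, g.occ x := Finset.sum_le_sum_of_subset (Finset.subset_univ _)
      exact_mod_cast h1
    -- reduced forms
    have hred : ∀ s : SF X, ∃ s' : SF X, (∀ α, s'.eval α = s.eval α) ∧
        (∀ x, s'.occ x ≤ s.occ x) ∧ s'.Reduced := by
      intro s
      cases s with
      | inl c => exact ⟨Sum.inl c, fun _ => rfl, fun _ => le_rfl, trivial⟩
      | inr g =>
        obtain ⟨s', h1, h2, h3⟩ := exists_reduced g
        exact ⟨s', h1, h2, h3⟩
    choose red hr1 hr2 hr3 using hred
    have hev : ∀ β γ : X → Bool, (red (g.res (rq q β))).eval γ =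
        g.eval (fun x => if q x then γ x else β x) := by
      intro β γ
      rw [hr1, eval_rq]
    have hoc : ∀ β x, (red (g.res (rq q β))).occ x ≤ h := by
      intro β x
      refine (hr2 _ x).trans ((NF.occ_res _ _ _).trans ?_)
      unfold rq
      by_cases hx : g.occ x ≤ h
      · simp [hq, hx]
      · simp [hq, hx]
    have hlv : ∀ β, ((red (g.res (rq q β))).leaves : ℝ) ≤ g.leaves := by
      intro β
      have : (red (g.res (rq q β))).leaves ≤ g.leaves := by
        rw [← SF.sum_occ, ← NF.sum_occ]
        exact Finset.sum_le_sum fun x _ => (hr2 _ x).trans (NF.occ_res_le _ _ _)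
      exact_mod_cast this
    have s1 : ∀ α : X → Bool, (SF.sens (Sum.inr g : SF X) α : ℝ) ≤
        g.leaves / h + (red (g.res (rq q α))).sens α := by
      intro α
      have h1 := sens_local g _ q α (fun γ => hev α γ)
      have h2 : SF.sens (Sum.inr g : SF X) α ≤ H.card +
          (univ.filter fun x => q x = true ∧ g.eval (flip x α) ≠ g.eval α).card := by
        rw [sens_inr]
        refine le_trans (Finset.card_le_card ?_) (Finset.card_union_le _ _)
        intro x hx
        rw [Finset.mem_filter] at hx
        simp only [hH, mem_union, mem_filter, mem_univ, true_and]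
        by_cases hx' : q x = true
        · right
          exact ⟨hx', hx.2⟩
        · left
          exact hx'
      have h3 : SF.sens (Sum.inr g : SF X) α ≤ H.card + (red (g.res (rq q α))).sens α := by
        omega
      have h4 : (SF.sens (Sum.inr g : SF X) α : ℝ) ≤
          H.card + (red (g.res (rq q α))).sens α := by exact_mod_cast h3
      linarith
    have s2 := diag_sum H
      (fun β α => Real.exp (lam * ((red (g.res (rq q β))).sens α : ℝ))) (by
        intro β β' α hβ
        have : rq q β = rq q β' := by
          funext x
          unfold rq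
          by_cases hx : q x
          · simp [hx]
          · simp only [hx]
            rw [hβ x (by simp [hH, hx])]
        simp only [this]) (by
        intro β α α' hα
        have := sens_congr g (red (g.res (rq q β))) q β (hev β) α α' (by
          intro x hx
          apply hα
          simp [hH, hx])
        simp only [this])
    have s3 : ∑ β : X → Bool, ∑ α : X → Bool,
        Real.exp (lam * ((red (g.res (rq q β))).sens α : ℝ)) ≤
        ∑ _β : X → Bool, 2 ^ Fintype.card X *
          Real.exp (lam * (8 / 9 * A * g.leaves + (2 * a + A / 8))) := by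
      apply Finset.sum_le_sum
      intro β _
      refine (light_step lam A a h hlam hA ha hsmall hc _ (hr3 _) (hoc β)).trans ?_
      apply mul_le_mul_of_nonneg_left _ hN.le
      apply Real.exp_le_exp.2
      apply mul_le_mul_of_nonneg_left _ hlam
      have := mul_le_mul_of_nonneg_left (hlv β) (show (0 : ℝ) ≤ 8 / 9 * A by positivity)
      linarith
    rw [← s2, Finset.sum_const, nsmul_eq_mul, Finset.card_univ, card_bool_fun] at s3
    have s4 := le_of_mul_le_mul_left s3 hN
    calc ∑ α : X → Bool, Real.exp (lam * (SF.sens (Sum.inr g : SF X) α : ℝ))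
        ≤ ∑ α : X → Bool, Real.exp (lam * (g.leaves / h)) *
          Real.exp (lam * ((red (g.res (rq q α))).sens α : ℝ)) := by
          apply Finset.sum_le_sum
          intro α _
          rw [← Real.exp_add]
          apply Real.exp_le_exp.2
          rw [← mul_add]
          exact mul_le_mul_of_nonneg_left (s1 α) hlam
      _ = Real.exp (lam * (g.leaves / h)) *
          ∑ α : X → Bool, Real.exp (lam * ((red (g.res (rq q α))).sens α : ℝ)) := by
          rw [← Finset.mul_sum]
      _ ≤ Real.exp (lam * (g.leaves / h)) * (2 ^ Fintype.card X *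
          Real.exp (lam * (8 / 9 * A * g.leaves + (2 * a + A / 8)))) :=
          mul_le_mul_of_nonneg_left s4 (Real.exp_pos _).le
      _ = 2 ^ Fintype.card X * (Real.exp (lam * (g.leaves / h)) *
          Real.exp (lam * (8 / 9 * A * g.leaves + (2 * a + A / 8)))) := by ring
      _ = _ := by
          rw [← Real.exp_add]
          congr 2
          simp only [SF.leaves]
          ring

theorem Claim.mono {lam A a A' a' : ℝ} (hlam : 0 ≤ lam) (hA : A ≤ A') (ha : a ≤ a')
    (hc : Claim lam A a) : Claim lam A' a' := by
  intro X _ _ g
  refine (hc X g).trans ?_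
  apply mul_le_mul_of_nonneg_left _ (by positivity)
  apply Real.exp_le_exp.2
  apply mul_le_mul_of_nonneg_left _ hlam
  have : A * (g.leaves : ℝ) ≤ A' * g.leaves := mul_le_mul_of_nonneg_right hA (by positivity)
  linarith

/-- **exponential moments of the sensitivity** -/
theorem claim_final (r h : ℕ) (hh : 9 ≤ h) :
    Claim (1 / (1152 * h * 2 ^ r)) ((8 / 9) ^ r + 9 / h) (2 ^ r / 8) := by
  have hR : (9 : ℝ) ≤ h := by exact_mod_cast hh
  have hpos : (0 : ℝ) < h := by linarith
  have key : ∀ r : ℕ, ∃ A a : ℝ, 0 ≤ A ∧ A ≤ 1 ∧ A ≤ (8 / 9) ^ r + 9 / h ∧ 0 ≤ a ∧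
      a ≤ (2 ^ r - 1) / 8 ∧ Claim (1 / (1152 * h * 2 ^ r)) A a := by
    intro r
    induction r with
    | zero =>
      refine ⟨1, 0, by norm_num, le_rfl, ?_, le_rfl, by norm_num, claim_base _ (by positivity)⟩
      have : (0 : ℝ) ≤ 9 / h := by positivity
      simpa using this
    | succ r ih =>
      obtain ⟨A, a, h1, h2, h3, h4, h5, h6⟩ := ih
      have h7 : (1 : ℝ) / h ≤ 1 / 9 := by
        apply one_div_le_one_div_of_le (by norm_num) hR
      have h8 : (0 : ℝ) ≤ 1 / h := by positivity
      refine ⟨1 / h + 8 / 9 * A, 2 * a + A / 8, by positivity, by linarith, ?_, by positivity, ?_, ?_⟩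
      · have : (9 : ℝ) / h = 9 * (1 / h) := by ring
        rw [this] at h3 ⊢
        rw [pow_succ]
        linarith
      · rw [pow_succ]
        linarith
      · apply claim_step _ A a h (by omega) (by positivity) h1 h4
        · have h9 : (1 : ℝ) ≤ 2 ^ (r + 1) := one_le_pow₀ (by norm_num)
          have e1 : 1 / (1152 * (h : ℝ) * 2 ^ (r + 1)) * A * h = A / (1152 * 2 ^ (r + 1)) := by
            field_simp
          rw [e1]
          apply div_le_div₀ (by norm_num) h2 (by norm_num)
          linarith
        · have e2 : 2 * (1 / (1152 * (h : ℝ) * 2 ^ (r + 1))) = 1 / (1152 * h * 2 ^ r) := by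
            rw [pow_succ]
            field_simp
          rw [e2]
          exact h6
  obtain ⟨A, a, _, _, h3, _, h5, h6⟩ := key r
  apply h6.mono (by positivity) h3
  linarith

end Fr56
end
end
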