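import Pool.Agent.Lib.MP_51bb46_lc.S.DT
import Pool.Agent.Lib.MP_51bb46_lc.B.Defs

section

/-!
Real polynomials of low degree in the bits, spanned by characters.
-/

set_option linter.unusedSectionVars false

namespace FrS

open Finset
open scoped Classical

variable {ε : Type}

/-- sign of a bit -/
noncomputable def sg (a : ZMod 2) : ℝ := if a = 0 then 1 else -1

/-- character -/
noncomputable def chi (κ : Finset ε) (x : ε → ZMod 2) : ℝ := ∏ z ∈ κ, sg (x z)

/-- polynomials of degree at most `d` -/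
noncomputable def Pol (ε : Type) (d : ℕ) : Submodule ℝ ((ε → ZMod 2) → ℝ) :=
  Submodule.span ℝ {f | ∃ κ : Finset ε, κ.card ≤ d ∧ f = chi κ}

/-- a filtered algebra of functions -/
structure Filt {X : Type} (P : ℕ → Submodule ℝ (X → ℝ)) : Prop where
  mono : ∀ a b, a ≤ b → P a ≤ P b
  one : (1 : X → ℝ) ∈ P 0
  mul : ∀ a b f g, f ∈ P a → g ∈ P b → f * g ∈ P (a + b)

theorem sg_zero : sg 0 = 1 := by simp [sg]

theorem sg_ne {b : ZMod 2} (h : b ≠ 0) : sg b = -1 := by simp [sg, h]

theorem sg_add (a b : ZMod 2) : sg (a + b) = sg a * sg b := by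
  by_cases ha : a = 0
  · rw [ha, zero_add, sg_zero, one_mul]
  · by_cases hb : b = 0
    · rw [hb, add_zero, sg_zero, mul_one]
    · have h1 : ∀ a b : ZMod 2, a ≠ 0 → b ≠ 0 → a + b = 0 := by decide
      rw [h1 a b ha hb, sg_zero, sg_ne ha, sg_ne hb]
      norm_num

theorem sg_sq (a : ZMod 2) : sg a * sg a = 1 := by
  unfold sg
  split_ifs <;> norm_num

theorem chi_add (κ : Finset ε) (x y : ε → ZMod 2) : chi κ (x + y) = chi κ x * chi κ y := by
  unfold chi
  rw [← Finset.prod_mul_distrib]
  exact Finset.prod_congr rfl fun z _ => sg_add _ _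

theorem chi_sq (κ : Finset ε) (x : ε → ZMod 2) : chi κ x * chi κ x = 1 := by
  unfold chi
  rw [← Finset.prod_mul_distrib]
  exact Finset.prod_eq_one fun z _ => sg_sq _

theorem chi_mul (κ κ' : Finset ε) (x : ε → ZMod 2) :
    chi κ x * chi κ' x = chi (symmDiff κ κ') x := by
  have hsq : chi (κ ∩ κ') x * chi (κ ∩ κ') x = 1 := chi_sq _ x
  unfold chi at *
  have hK : ∏ z ∈ κ, sg (x z) = (∏ z ∈ κ \ κ', sg (x z)) * ∏ z ∈ κ ∩ κ', sg (x z) := by
    rw [← Finset.prod_union (Finset.disjoint_sdiff_inter κ κ'), Finset.sdiff_union_inter]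
  have hL : ∏ z ∈ κ', sg (x z) = (∏ z ∈ κ' \ κ, sg (x z)) * ∏ z ∈ κ ∩ κ', sg (x z) := by
    rw [Finset.inter_comm κ κ', ← Finset.prod_union (Finset.disjoint_sdiff_inter κ' κ),
      Finset.sdiff_union_inter]
  have hsym : ∏ z ∈ symmDiff κ κ', sg (x z) =
      (∏ z ∈ κ \ κ', sg (x z)) * ∏ z ∈ κ' \ κ, sg (x z) := by
    have hd : Disjoint (κ \ κ') (κ' \ κ) := by
      rw [Finset.disjoint_left]
      intro z hz hz'
      exact (Finset.mem_sdiff.1 hz).2 (Finset.mem_sdiff.1 hz').1
    rw [← Finset.prod_union hd]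
    rfl
  rw [hK, hL, hsym]
  calc (∏ z ∈ κ \ κ', sg (x z)) * (∏ z ∈ κ ∩ κ', sg (x z)) *
        ((∏ z ∈ κ' \ κ, sg (x z)) * ∏ z ∈ κ ∩ κ', sg (x z))
      = (∏ z ∈ κ \ κ', sg (x z)) * (∏ z ∈ κ' \ κ, sg (x z)) *
        ((∏ z ∈ κ ∩ κ', sg (x z)) * ∏ z ∈ κ ∩ κ', sg (x z)) := by ring
    _ = _ := by rw [hsq, mul_one]

/-- `chi κ z = -1` forces `z` to be nonzero somewhere on `κ` -/
theorem exists_of_chi_ne_one {κ : Finset ε} {z : ε → ZMod 2} (h : chi κ z ≠ 1) :
    ∃ e ∈ κ, z e ≠ 0 := by
  by_contra hcon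
  push Not at hcon
  apply h
  unfold chi
  exact Finset.prod_eq_one fun e he => by rw [hcon e he, sg_zero]

theorem chi_mem_Pol {κ : Finset ε} {d : ℕ} (h : κ.card ≤ d) : chi κ ∈ Pol ε d :=
  Submodule.subset_span ⟨κ, h, rfl⟩

theorem filt_Pol : Filt (Pol ε) where
  mono := by
    intro a b hab
    apply Submodule.span_mono
    rintro f ⟨K, hK, rfl⟩
    exact ⟨K, hK.trans hab, rfl⟩
  one := by
    have e : (1 : (ε → ZMod 2) → ℝ) = chi ∅ := by
      funext x
      simp [chi]
    rw [e]
    exact chi_mem_Pol (by simp)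
  mul := by
    intro a b f g hf hg
    have h1 : f * g ∈ Pol ε a * Pol ε b := Submodule.mul_mem_mul hf hg
    have h2 : Pol ε a * Pol ε b ≤ Pol ε (a + b) := by
      unfold Pol
      rw [Submodule.span_mul_span, Submodule.span_le]
      rintro _ ⟨_, ⟨K, hK, rfl⟩, _, ⟨L, hL, rfl⟩, rfl⟩
      apply Submodule.subset_span
      refine ⟨symmDiff K L, ?_, ?_⟩
      · have h3 : symmDiff K L ⊆ K ∪ L := by
          intro z hz
          rw [Finset.mem_symmDiff] at hz
          rw [Finset.mem_union]
          tauto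
        have h4 := (Finset.card_le_card h3).trans (Finset.card_union_le K L)
        omega
      · funext x
        simp only [Pi.mul_apply]
        exact chi_mul K L x
    exact h2 h1

/-- the value of a decision tree of depth `k` is a polynomial of degree at most `k` -/
theorem dt_mem {k : ℕ} (A : DT ε Bool) (h : A.depth ≤ k) :
    (fun x => if A.val x = true then (1 : ℝ) else 0) ∈ Pol ε k := by
  induction A generalizing k with
  | leaf a =>
    have h1 : (1 : (ε → ZMod 2) → ℝ) ∈ Pol ε k := filt_Pol.mono 0 k (Nat.zero_le k) filt_Pol.one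
    by_cases ha : a = true
    · have e : (fun x => if (DT.leaf a : DT ε Bool).val x = true then (1 : ℝ) else 0) =
          (1 : (ε → ZMod 2) → ℝ) := by
        funext x
        simp [DT.val, ha]
      rw [e]
      exact h1
    · have e : (fun x => if (DT.leaf a : DT ε Bool).val x = true then (1 : ℝ) else 0) =
          (0 : (ε → ZMod 2) → ℝ) := by
        funext x
        simp [DT.val, ha]
      rw [e]
      exact Submodule.zero_mem _
  | node e l r ihl ihr =>
    simp only [DT.depth] at h
    obtain ⟨k, rfl⟩ : ∃ j, k = j + 1 := ⟨k - 1, by omega⟩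
    have hl := ihl (k := k) (by omega)
    have hr := ihr (k := k) (by omega)
    have hs : chi {e} ∈ Pol ε 1 := chi_mem_Pol (by simp)
    have h1 : (1 : (ε → ZMod 2) → ℝ) ∈ Pol ε 1 := filt_Pol.mono 0 1 (Nat.zero_le 1) filt_Pol.one
    have ha : ((1 / 2 : ℝ) • (1 + chi {e}) : (ε → ZMod 2) → ℝ) ∈ Pol ε 1 :=
      Submodule.smul_mem _ _ (Submodule.add_mem _ h1 hs)
    have hb : ((1 / 2 : ℝ) • (1 - chi {e}) : (ε → ZMod 2) → ℝ) ∈ Pol ε 1 :=
      Submodule.smul_mem _ _ (Submodule.sub_mem _ h1 hs)
    have h2 := filt_Pol.mul 1 k _ _ ha hl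
    have h3 := filt_Pol.mul 1 k _ _ hb hr
    rw [Nat.add_comm 1 k] at h2 h3
    have h4 := Submodule.add_mem _ h2 h3
    have e1 : (fun x => if (DT.node e l r).val x = true then (1 : ℝ) else 0) =
        (1 / 2 : ℝ) • (1 + chi {e}) * (fun x => if l.val x = true then (1 : ℝ) else 0) +
        (1 / 2 : ℝ) • (1 - chi {e}) * (fun x => if r.val x = true then (1 : ℝ) else 0) := by
      funext x
      simp only [Pi.add_apply, Pi.mul_apply, Pi.smul_apply, Pi.one_apply, Pi.sub_apply,
        smul_eq_mul, chi, Finset.prod_singleton]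
      by_cases hx : x e = 0
      · have h5 : (DT.node e l r).val x = l.val x := by simp [DT.val, hx]
        rw [h5, hx, sg_zero]
        ring
      · have h5 : (DT.node e l r).val x = r.val x := by simp [DT.val, hx]
        rw [h5, sg_ne hx]
        ring
    rw [e1]
    exact h4

end FrS
end

section

/-!
Soundness of schematic rules in an abstract local semantics.
-/

set_option linter.unusedSectionVars false

namespace Fr56

open Finset
open scoped Classical

/-- An abstract local semantics for formulas over `X`.  `J` is a set of points, `Y` a set of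
assignments; `Ok U y` says that `(U, y)` is a state. -/
structure Sem (X J Y : Type) where
  Agree : Finset J → Y → Y → Prop
  Ok : Finset J → Y → Prop
  Quiet : Fm X → Finset J → Y → Prop
  val : Fm X → Finset J → Y → Bool
  /-- states with more than `cap` points are not considered -/
  cap : ℕ
  /-- the number of points that suffice to make a formula quiet -/
  w : ℕ
  /-- the formulas that can be made quiet -/
  good : Set (Fm X)
  agree_refl : ∀ U y, Agree U y y
  agree_trans : ∀ U y y' y'', Agree U y y' → Agree U y' y'' → Agree U y y''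
  agree_mono : ∀ U U' y y', U ⊆ U' → Agree U' y y' → Agree U y y'
  ok_mono : ∀ U U' y, U ⊆ U' → Ok U' y → Ok U y
  ok_empty : ∃ y, Ok ∅ y
  mono : ∀ f U U' y y', U ⊆ U' → U'.card ≤ cap → Quiet f U y → Agree U y y' → Ok U' y' →
    Quiet f U' y' ∧ val f U' y' = val f U y
  val_neg : ∀ f U y, U.card ≤ cap → Ok U y → Quiet f U y → Quiet (.neg f) U y →
    val (.neg f) U y = !(val f U y)
  val_and : ∀ f g U y, U.card ≤ cap → Ok U y → Quiet f U y → Quiet g U y → Quiet (.and f g) U y →
    val (.and f g) U y = (val f U y && val g U y)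
  val_or : ∀ f g U y, U.card ≤ cap → Ok U y → Quiet f U y → Quiet g U y → Quiet (.or f g) U y →
    val (.or f g) U y = (val f U y || val g U y)
  extend : ∀ f ∈ good, ∀ U y, U.card + w ≤ cap → Ok U y →
    ∃ W y', W.card ≤ w ∧ Quiet f W y' ∧ Agree U y y' ∧ Ok (U ∪ W) y'

namespace Sem

variable {X J Y : Type} (S : Sem X J Y)

/-- locally true formulas -/
def True' (f : Fm X) : Prop := ∀ U y, U.card ≤ S.w → S.Ok U y → S.Quiet f U y → S.val f U y = true

/-- simultaneous extension for a list of formulas -/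
theorem extend_list (L : List (Fm X)) (hL : ∀ f ∈ L, f ∈ S.good) (U : Finset J) (y : Y)
    (hU : U.card + L.length * S.w ≤ S.cap) (hok : S.Ok U y) :
    ∃ U' y', U ⊆ U' ∧ U'.card ≤ U.card + L.length * S.w ∧ S.Ok U' y' ∧ S.Agree U y y' ∧
      ∀ f ∈ L, ∃ W, W ⊆ U' ∧ W.card ≤ S.w ∧ S.Quiet f W y' := by
  induction L with
  | nil =>
    exact ⟨U, y, Finset.Subset.refl U, by simp, hok, S.agree_refl U y, by simp⟩
  | cons f L ih =>
    have hlen : (f :: L).length * S.w = L.length * S.w + S.w := by
      rw [List.length_cons]; ring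
    rw [hlen] at hU
    obtain ⟨U', y', hUU', hc', hok', hag', hq'⟩ :=
      ih (fun g hg => hL g (List.mem_cons_of_mem _ hg)) (by omega)
    obtain ⟨W, y'', hW, hqW, hagW, hokW⟩ :=
      S.extend f (hL f List.mem_cons_self) U' y' (by omega) hok'
    have hcard : (U' ∪ W).card ≤ U'.card + W.card := Finset.card_union_le _ _
    refine ⟨U' ∪ W, y'', hUU'.trans Finset.subset_union_left, by rw [hlen]; omega, hokW,
      S.agree_trans U y y' y'' hag' (S.agree_mono U U' y' y'' hUU' hagW), ?_⟩
    intro g hg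
    rcases List.mem_cons.1 hg with rfl | hg
    · exact ⟨W, Finset.subset_union_right, hW, hqW⟩
    · obtain ⟨V, hV, hVc, hVq⟩ := hq' g hg
      refine ⟨V, hV.trans Finset.subset_union_left, hVc, ?_⟩
      have hVcap : V.card ≤ S.cap := by
        have := Finset.card_le_card hV
        omega
      exact (S.mono g V V y' y'' (Finset.Subset.refl V) hVcap hVq (S.agree_mono V U' y' y'' hV hagW)
        (S.ok_mono V (U' ∪ W) y'' (hV.trans Finset.subset_union_left) hokW)).1

/-- at a state where all instances of subformulas of a schematic formula are quiet, the local value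
is computed by the truth tables -/
theorem val_subst (A : Fm ℕ) (σ : ℕ → Fm X) (U : Finset J) (y : Y) (hU : U.card ≤ S.cap)
    (hok : S.Ok U y) (hq : ∀ B ∈ A.subs, S.Quiet (B.subst σ) U y) :
    S.val (A.subst σ) U y = A.eval (fun v => S.val (σ v) U y) := by
  induction A with
  | var v => rfl
  | neg A ih =>
    have h1 := ih (fun B hB => hq B (by simp only [Fm.subs, List.mem_cons]; exact Or.inr hB))
    have h2 : S.Quiet (.neg (A.subst σ)) U y := hq (.neg A) (Fm.self_mem_subs _)
    have h3 : S.Quiet (A.subst σ) U y :=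
      hq A (by simp only [Fm.subs, List.mem_cons]; exact Or.inr (Fm.self_mem_subs _))
    change S.val (.neg (A.subst σ)) U y = !(A.eval (fun v => S.val (σ v) U y))
    rw [S.val_neg _ U y hU hok h3 h2, h1]
  | and A B ihA ihB =>
    have h1 := ihA (fun C hC => hq C (by
      simp only [Fm.subs, List.mem_cons, List.mem_append]; exact Or.inr (Or.inl hC)))
    have h1' := ihB (fun C hC => hq C (by
      simp only [Fm.subs, List.mem_cons, List.mem_append]; exact Or.inr (Or.inr hC)))
    have h2 : S.Quiet (.and (A.subst σ) (B.subst σ)) U y := hq (.and A B) (Fm.self_mem_subs _)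
    have h3 : S.Quiet (A.subst σ) U y := hq A (by
      simp only [Fm.subs, List.mem_cons, List.mem_append]
      exact Or.inr (Or.inl (Fm.self_mem_subs _)))
    have h4 : S.Quiet (B.subst σ) U y := hq B (by
      simp only [Fm.subs, List.mem_cons, List.mem_append]
      exact Or.inr (Or.inr (Fm.self_mem_subs _)))
    change S.val (.and (A.subst σ) (B.subst σ)) U y =
      (A.eval (fun v => S.val (σ v) U y) && B.eval (fun v => S.val (σ v) U y))
    rw [S.val_and _ _ U y hU hok h3 h4 h2, h1, h1']
  | or A B ihA ihB =>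
    have h1 := ihA (fun C hC => hq C (by
      simp only [Fm.subs, List.mem_cons, List.mem_append]; exact Or.inr (Or.inl hC)))
    have h1' := ihB (fun C hC => hq C (by
      simp only [Fm.subs, List.mem_cons, List.mem_append]; exact Or.inr (Or.inr hC)))
    have h2 : S.Quiet (.or (A.subst σ) (B.subst σ)) U y := hq (.or A B) (Fm.self_mem_subs _)
    have h3 : S.Quiet (A.subst σ) U y := hq A (by
      simp only [Fm.subs, List.mem_cons, List.mem_append]
      exact Or.inr (Or.inl (Fm.self_mem_subs _)))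
    have h4 : S.Quiet (B.subst σ) U y := hq B (by
      simp only [Fm.subs, List.mem_cons, List.mem_append]
      exact Or.inr (Or.inr (Fm.self_mem_subs _)))
    change S.val (.or (A.subst σ) (B.subst σ)) U y =
      (A.eval (fun v => S.val (σ v) U y) || B.eval (fun v => S.val (σ v) U y))
    rw [S.val_or _ _ U y hU hok h3 h4 h2, h1, h1']

/-- number of subformula occurrences in a rule -/
def _root_.Fr56.Rule.nodes (r : Rule) : ℕ := (r.hyps.map Fm.size).sum + r.concl.size

/-- sound rules preserve local truth -/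
theorem rule_sound (r : Rule) (hr : r.Sound) (σ : ℕ → Fm X) (hcap : (r.nodes + 1) * S.w ≤ S.cap)
    (hgood : ∀ A ∈ r.concl :: r.hyps, ∀ B ∈ A.subs, B.subst σ ∈ S.good)
    (hyp : ∀ A ∈ r.hyps, S.True' (A.subst σ)) : S.True' (r.concl.subst σ) := by
  intro U y hUw hok hquiet
  set As : List (Fm ℕ) := r.concl :: r.hyps with hAs
  set L : List (Fm X) := As.flatMap (fun A => A.subs.map (Fm.subst σ)) with hLdef
  have hLlen : L.length = r.nodes := by
    rw [hLdef, List.length_flatMap, hAs]
    simp only [List.length_map, Fm.length_subs, List.map_cons, List.sum_cons, Rule.nodes]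
    rw [Nat.add_comm]
  have hmem : ∀ A ∈ As, ∀ B ∈ A.subs, B.subst σ ∈ L := by
    intro A hA B hB
    rw [hLdef, List.mem_flatMap]
    exact ⟨A, hA, List.mem_map_of_mem hB⟩
  have hLgood : ∀ f ∈ L, f ∈ S.good := by
    intro f hf
    rw [hLdef, List.mem_flatMap] at hf
    obtain ⟨A, hA, hf⟩ := hf
    obtain ⟨B, hB, rfl⟩ := List.mem_map.1 hf
    exact hgood A hA B hB
  have hcap2 : U.card + L.length * S.w ≤ S.cap := by
    rw [hLlen]
    have : (r.nodes + 1) * S.w = r.nodes * S.w + S.w := by ring
    omega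
  obtain ⟨U', y', hUU', hc', hok', hag', hq'⟩ := S.extend_list L hLgood U y hcap2 hok
  have hcU' : U'.card ≤ S.cap := hc'.trans hcap2
  have hquiet' : ∀ A ∈ As, ∀ B ∈ A.subs, S.Quiet (B.subst σ) U' y' := by
    intro A hA B hB
    obtain ⟨W, hW, hWc, hWq⟩ := hq' _ (hmem A hA B hB)
    exact (S.mono _ W U' y' y' hW hcU' hWq (S.agree_refl _ _) hok').1
  have hhyp : ∀ A ∈ r.hyps, A.eval (fun v => S.val (σ v) U' y') = true := by
    intro A hA
    have hA' : A ∈ As := by rw [hAs]; exact List.mem_cons_of_mem _ hA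
    rw [← S.val_subst A σ U' y' hcU' hok' (hquiet' A hA')]
    obtain ⟨W, hW, hWc, hWq⟩ := hq' _ (hmem A hA' A (Fm.self_mem_subs A))
    rw [(S.mono _ W U' y' y' hW hcU' hWq (S.agree_refl _ _) hok').2]
    exact hyp A hA W y' hWc (S.ok_mono W U' y' hW hok') hWq
  have hconcl := hr _ hhyp
  have hC : r.concl ∈ As := by rw [hAs]; exact List.mem_cons_self
  rw [← S.val_subst r.concl σ U' y' hcU' hok' (hquiet' _ hC)] at hconcl
  rw [← (S.mono _ U U' y y' hUU' hcU' hquiet hag' hok').2]
  exact hconcl

/-- conjunctions of locally true formulas are locally true -/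
theorem and_true (hcap : 4 * S.w ≤ S.cap) (f g : Fm X) (hf : f ∈ S.good) (hg : g ∈ S.good)
    (hfg : Fm.and f g ∈ S.good) (h1 : S.True' f) (h2 : S.True' g) : S.True' (Fm.and f g) := by
  intro U y hUw hok hquiet
  have hlist : ∀ F ∈ [f, g, Fm.and f g], F ∈ S.good := by
    intro F hF
    simp only [List.mem_cons, List.not_mem_nil, or_false] at hF
    rcases hF with rfl | rfl | rfl
    · exact hf
    · exact hg
    · exact hfg
  have hcap2 : U.card + [f, g, Fm.and f g].length * S.w ≤ S.cap := by
    have : [f, g, Fm.and f g].length = 3 := rfl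
    rw [this]
    omega
  obtain ⟨U', y', hUU', hc', hok', hag', hq'⟩ := S.extend_list _ hlist U y hcap2 hok
  have hcU' : U'.card ≤ S.cap := hc'.trans hcap2
  obtain ⟨W1, hW1, hW1c, hW1q⟩ := hq' f (by simp)
  obtain ⟨W2, hW2, hW2c, hW2q⟩ := hq' g (by simp)
  have a1 := S.mono _ W1 U' y' y' hW1 hcU' hW1q (S.agree_refl _ _) hok'
  have a2 := S.mono _ W2 U' y' y' hW2 hcU' hW2q (S.agree_refl _ _) hok'
  have a3 := S.mono _ U U' y y' hUU' hcU' hquiet hag' hok'
  rw [← a3.2, S.val_and f g U' y' hcU' hok' a1.1 a2.1 a3.1, a1.2, a2.2,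
    h1 W1 y' hW1c (S.ok_mono W1 U' y' hW1 hok') hW1q,
    h2 W2 y' hW2c (S.ok_mono W2 U' y' hW2 hok') hW2q]
  rfl

/-- an instance of a contradiction is not locally true -/
theorem not_true_of_unsat (b : Fm ℕ) (hb : b.Unsat) (σ : ℕ → Fm X)
    (hcap : (b.size + 1) * S.w ≤ S.cap)
    (hgood : ∀ B ∈ b.subs, B.subst σ ∈ S.good) : ¬ S.True' (b.subst σ) := by
  intro htrue
  obtain ⟨y, hok⟩ := S.ok_empty
  set L : List (Fm X) := b.subs.map (Fm.subst σ) with hLdef
  have hLlen : L.length = b.size := by rw [hLdef, List.length_map, Fm.length_subs]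
  have hLgood : ∀ f ∈ L, f ∈ S.good := by
    intro f hf
    rw [hLdef] at hf
    obtain ⟨B, hB, rfl⟩ := List.mem_map.1 hf
    exact hgood B hB
  have hcap2 : (∅ : Finset J).card + L.length * S.w ≤ S.cap := by
    rw [hLlen, Finset.card_empty]
    have : (b.size + 1) * S.w = b.size * S.w + S.w := by ring
    omega
  obtain ⟨U', y', hUU', hc', hok', hag', hq'⟩ := S.extend_list L hLgood ∅ y hcap2 hok
  have hcU' : U'.card ≤ S.cap := hc'.trans hcap2
  have hmem : ∀ B ∈ b.subs, B.subst σ ∈ L := by
    intro B hB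
    rw [hLdef]
    exact List.mem_map_of_mem hB
  have hquiet' : ∀ B ∈ b.subs, S.Quiet (B.subst σ) U' y' := by
    intro B hB
    obtain ⟨W, hW, hWc, hWq⟩ := hq' _ (hmem B hB)
    exact (S.mono _ W U' y' y' hW hcU' hWq (S.agree_refl _ _) hok').1
  obtain ⟨W, hW, hWc, hWq⟩ := hq' _ (hmem b (Fm.self_mem_subs b))
  have h1 := htrue W y' hWc (S.ok_mono W U' y' hW hok') hWq
  rw [← (S.mono _ W U' y' y' hW hcU' hWq (S.agree_refl _ _) hok').2,
    S.val_subst b σ U' y' hcU' hok' hquiet', hb] at h1
  exact Bool.false_ne_true h1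

/-- substitution maps subformulas to subformulas -/
theorem _root_.Fr56.subst_mem_subs {V W : Type} {A B : Fm V} (h : B ∈ A.subs) (σ : V → Fm W) :
    B.subst σ ∈ (A.subst σ).subs := by
  induction A with
  | var v =>
    simp only [Fm.subs, List.mem_singleton] at h
    subst h
    exact Fm.self_mem_subs _
  | neg A ih =>
    simp only [Fm.subs, List.mem_cons] at h
    rcases h with rfl | h
    · exact Fm.self_mem_subs _
    · simp only [Fm.subst, Fm.subs, List.mem_cons]
      exact Or.inr (ih h)
  | and A1 A2 ih1 ih2 =>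
    simp only [Fm.subs, List.mem_cons, List.mem_append] at h
    rcases h with rfl | h | h
    · exact Fm.self_mem_subs _
    · simp only [Fm.subst, Fm.subs, List.mem_cons, List.mem_append]
      exact Or.inr (Or.inl (ih1 h))
    · simp only [Fm.subst, Fm.subs, List.mem_cons, List.mem_append]
      exact Or.inr (Or.inr (ih2 h))
  | or A1 A2 ih1 ih2 =>
    simp only [Fm.subs, List.mem_cons, List.mem_append] at h
    rcases h with rfl | h | h
    · exact Fm.self_mem_subs _
    · simp only [Fm.subst, Fm.subs, List.mem_cons, List.mem_append]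
      exact Or.inr (Or.inl (ih1 h))
    · simp only [Fm.subst, Fm.subs, List.mem_cons, List.mem_append]
      exact Or.inr (Or.inr (ih2 h))

/-- renaming is a substitution -/
theorem _root_.Fr56.map_eq_subst {V W : Type} (τ : V → W) (A : Fm V) :
    A.map τ = A.subst (fun v => .var (τ v)) := by
  induction A with
  | var v => rfl
  | neg A ih => simp only [Fm.map, Fm.subst, ih]
  | and A B ihA ihB => simp only [Fm.map, Fm.subst, ihA, ihB]
  | or A B ihA ihB => simp only [Fm.map, Fm.subst, ihA, ihB]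

/-- **abstract lower bound**: there is no refutation all of whose formulas can be made quiet -/
theorem no_refutation (R : List Rule) (hR : ∀ r ∈ R, r.Sound) (F : Fm X) (hF : S.True' F)
    (b : Fm ℕ) (hb : b.Unsat) (τ : ℕ → X) (π : List (Fm X)) (hπ : IsDerivation R F π)
    (hlast : b.map τ ∈ π)
    (hgood : ∀ A ∈ π, ∀ B ∈ A.subs, B ∈ S.good)
    (hcap : ∀ r ∈ R, (r.nodes + 1) * S.w ≤ S.cap) (hcap' : (b.size + 1) * S.w ≤ S.cap) : False := by
  have key : ∀ i (hi : i < π.length), S.True' π[i] := by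
    intro i
    induction i using Nat.strong_induction_on with
    | _ i ih =>
      intro hi
      rcases hπ i hi with h | ⟨r, hr, σ, hσ, hhyps⟩
      · rw [h]; exact hF
      · rw [hσ]
        refine S.rule_sound r (hR r hr) σ (hcap r hr) ?_ ?_
        · intro A hA B hB
          rcases List.mem_cons.1 hA with rfl | hA
          · exact hgood _ (List.getElem_mem hi) _ (by rw [hσ]; exact subst_mem_subs hB σ)
          · obtain ⟨j, hj, hjA⟩ := hhyps A hA
            exact hgood _ (List.getElem_mem (hj.trans hi)) _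
              (by rw [hjA]; exact subst_mem_subs hB σ)
        · intro A hA
          obtain ⟨j, hj, hjA⟩ := hhyps A hA
          rw [← hjA]
          exact ih j hj (hj.trans hi)
  obtain ⟨i, hi, hib⟩ := List.getElem_of_mem hlast
  have h1 := key i hi
  rw [hib, map_eq_subst] at h1
  refine S.not_true_of_unsat b hb (fun v => .var (τ v)) hcap' ?_ h1
  intro B hB
  refine hgood _ hlast _ ?_
  rw [map_eq_subst]
  exact subst_mem_subs hB _

end Sem

end Fr56
end
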