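import Pool.Agent.Lib.MP_51bb46_lc.B.Graph

/-!
The host graph: every vertex `v` of the base graph is replaced by the `2^D` centers `(v, w)`,
`w : Fin D → ZMod 2`, and every edge by a butterfly network of depth `D`.
-/

set_option linter.unusedSectionVars false

namespace Fr56

open Finset
open scoped Classical

/-- bit vectors -/
abbrev A (D : ℕ) := Fin D → ZMod 2

/-- host edges = propositional variables: `(e, i, w, d)` is the edge of the butterfly of `e` that
joins the vertex `w` at level `i` and the vertex `w + d δ_i` at level `i + 1` -/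
@[ext] structure Xt (M D : ℕ) where
  e : Ed M
  i : Fin D
  w : A D
  d : ZMod 2

/-- host vertices: centers and middle vertices (those with level `0` are not used) -/
inductive HV (M D : ℕ)
  | cen (v : Vt M) (w : A D)
  | mid (e : Ed M) (i : Fin D) (w : A D)

/-- `Xt` as a product -/
def Xt.equiv (M D : ℕ) : Ed M × Fin D × A D × ZMod 2 ≃ Xt M D where
  toFun q := ⟨q.1, q.2.1, q.2.2.1, q.2.2.2⟩
  invFun x := (x.e, x.i, x.w, x.d)
  left_inv _ := rfl
  right_inv _ := rfl

/-- `HV` as a sum -/
def HV.equiv (M D : ℕ) : (Vt M × A D) ⊕ (Ed M × Fin D × A D) ≃ HV M D where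
  toFun q := match q with
    | .inl q => .cen q.1 q.2
    | .inr q => .mid q.1 q.2.1 q.2.2
  invFun h := match h with
    | .cen v w => .inl (v, w)
    | .mid e i w => .inr (e, i, w)
  left_inv q := by cases q <;> rfl
  right_inv h := by cases h <;> rfl

noncomputable instance (M D : ℕ) : DecidableEq (Xt M D) := Classical.decEq _
noncomputable instance (M D : ℕ) : DecidableEq (HV M D) := Classical.decEq _
noncomputable instance (M D : ℕ) [NeZero M] : Fintype (Xt M D) := Fintype.ofEquiv _ (Xt.equiv M D)
noncomputable instance (M D : ℕ) [NeZero M] : Fintype (HV M D) := Fintype.ofEquiv _ (HV.equiv M D)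

/-- the host vertex in the butterfly of `e` at level `i` (`0 ≤ i ≤ D`) -/
def hv {M D : ℕ} (e : Ed M) (i : ℕ) (w : A D) : HV M D :=
  if i = 0 then .cen (src e) w
  else if h : i < D then .mid e ⟨i, h⟩ w else .cen (tgt e) w

/-- lower endpoint of a host edge -/
def hsrc {M D : ℕ} (x : Xt M D) : HV M D := hv x.e x.i x.w

/-- upper endpoint of a host edge -/
def htgt {M D : ℕ} (x : Xt M D) : HV M D := hv x.e (x.i + 1) (x.w + Pi.single x.i x.d)

/-- first `i` coordinates from `b`, the others from `a` -/
def mix {D : ℕ} (i : ℕ) (a b : A D) : A D := fun k => if k.val < i then b k else a k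

/-- the host edge `x` lies on the path of its base edge `e` from `(src e, a (src e))` to
`(tgt e, a (tgt e))` -/
def live {M D : ℕ} (a : Vt M → A D) (x : Xt M D) : Prop :=
  x.w = mix x.i (a (src x.e)) (a (tgt x.e)) ∧ x.d = a (src x.e) x.i + a (tgt x.e) x.i

/-- the lift of a base assignment along the paths chosen by `a` -/
noncomputable def Pth {M D : ℕ} (a : Vt M → A D) (y : Ed M → ZMod 2) : Xt M D → ZMod 2 :=
  fun x => if live a x then y x.e else 0

section
variable {M D : ℕ} [NeZero M]

/-- boundary map of the host graph -/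
noncomputable def hbd (x : Xt M D → ZMod 2) (h : HV M D) : ZMod 2 :=
  ∑ u, ((if hsrc u = h then x u else 0) + (if htgt u = h then x u else 0))

/-- indicator of a host vertex -/
noncomputable def hpt (h : HV M D) : HV M D → ZMod 2 := Pi.single h 1

/-- the center chosen by `a` over `v` -/
def ctr (a : Vt M → A D) (v : Vt M) : HV M D := .cen v (a v)

/-- the assignments with given boundary -/
abbrev Coset (κ : HV M D → ZMod 2) := {β : Xt M D → ZMod 2 // hbd β = κ}

end

end Fr56
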