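import Pool.Agent.Lib.MP_51bb46_lc.B.Defs
import Pool.Agent.Lib.MP_51bb46_lc.B.Host

/-!
The Tseitin CNF of the host graph.
-/

set_option linter.unusedSectionVars false

namespace Fr56

open Finset
open scoped Classical

/-- truth value of a bit -/
def tb (c : ZMod 2) : Bool := decide (c ≠ 0)

variable {M D : ℕ} [NeZero M]

/-- the host edges at a host vertex -/
noncomputable def star (h : HV M D) : Finset (Xt M D) :=
  univ.filter fun u => hsrc u = h ∨ htgt u = h

/-- charge: `1` at `h0`, `0` elsewhere -/
noncomputable def chg (h0 h : HV M D) : ZMod 2 := if h = h0 then 1 else 0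

/-- the clause that excludes the pattern `T` on the edges at `h` -/
noncomputable def clause (u0 : Xt M D) (h : HV M D) (T : Finset (Xt M D)) : Fm (Xt M D) :=
  Fm.disj (.var u0) ((star h).toList.map fun u => if u ∈ T then Fm.neg (.var u) else Fm.var u)

/-- all clauses: patterns of wrong parity at vertices of positive degree -/
noncomputable def clauses (h0 : HV M D) : Finset (HV M D × Finset (Xt M D)) :=
  univ.filter fun p => p.2 ⊆ star p.1 ∧ (star p.1).Nonempty ∧ (p.2.card : ZMod 2) ≠ chg h0 p.1

/-- the Tseitin CNF of the host graph with charge `1` at `h0` -/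
noncomputable def Fts (u0 : Xt M D) (h0 : HV M D) : Fm (Xt M D) :=
  Fm.conj (.var u0) ((clauses h0).toList.map fun p => clause u0 p.1 p.2)

end Fr56
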