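import Pool.Agent.Lib.MP_51bb46_lc.B.Pieces
import Pool.Agent.Lib.MP_51bb46_lc.B.Tseitin

/-!
Local semantics: definitions.
-/

set_option linter.unusedSectionVars false

namespace Fr56

open Finset
open scoped Classical

section
variable {M D : ℕ} [NeZero M]

/-- evaluation of a fragment with hole values `z` at the host assignment `x` -/
def ev (x : Xt M D → ZMod 2) (z : Bool → Bool) (R : Fm (Xt M D ⊕ Bool)) : Bool :=
  R.eval (Sum.elim (fun u => tb (x u)) z)

/-- base edges on which (the restriction of) `R` can depend -/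
def Live (a : Vt M → A D) (R : Fm (Xt M D ⊕ Bool)) : Set (Ed M) :=
  {e | ∃ u : Xt M D, Sum.inl u ∈ R.vars ∧ u.e = e ∧ live a u}

/-- live edges not touching `U` -/
def Lam (a : Vt M → A D) (U : Finset (J M)) (R : Fm (Xt M D ⊕ Bool)) : Set (Ed M) :=
  {e | e ∈ Live a R ∧ e ∉ inc U}

/-- coarse points of `Lam` -/
noncomputable def cLam (a : Vt M → A D) (U : Finset (J M)) (R : Fm (Xt M D ⊕ Bool)) :
    Finset (J M) := univ.filter fun p => ∃ e ∈ Lam a U R, p ∈ crs e

/-- `(U, y)` is a state: `y` violates the base parities exactly at `v0` and at some `t` over the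
free points of `U` -/
def Ok (v0 : Vt M) (U : Finset (J M)) (y : Ed M → ZMod 2) : Prop :=
  ∃ t : Vt M, bd y = pt v0 + pt t ∧ Free U t.1

/-- agreement on the edges touching `U` -/
def Agree (U : Finset (J M)) (y y' : Ed M → ZMod 2) : Prop := ∀ e ∈ inc U, y e = y' e

/-- test assignments for the fragment `R` at the state `(U, y)` -/
def Test (v0 : Vt M) (a : Vt M → A D) (U : Finset (J M)) (y : Ed M → ZMod 2)
    (R : Fm (Xt M D ⊕ Bool)) (y' : Ed M → ZMod 2) : Prop :=
  Agree U y y' ∧ Ok v0 (U ∪ cLam a U R) y'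

/-- quietness of a fragment -/
def QuietR (v0 : Vt M) (α : Xt M D → ZMod 2) (a : Vt M → A D) (R : Fm (Xt M D ⊕ Bool))
    (U : Finset (J M)) (y : Ed M → ZMod 2) : Prop :=
  (∀ e ∈ Lam a U R, ∀ f ∈ Lam a U R, ¬ VDisj e f) ∧
  ∀ y1 y2, Test v0 a U y R y1 → Test v0 a U y R y2 → ∀ z,
    ev (α + Pth a y1) z R = ev (α + Pth a y2) z R

/-- quietness of a formula (`l` is the threshold of the decomposition into fragments) -/
def Quiet (l : ℕ) (v0 : Vt M) (α : Xt M D → ZMod 2) (a : Vt M → A D) (f : Fm (Xt M D))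
    (U : Finset (J M)) (y : Ed M → ZMod 2) : Prop :=
  ∀ R ∈ frags l f, QuietR v0 α a R U y

/-- local value of a fragment -/
noncomputable def cval (v0 : Vt M) (α : Xt M D → ZMod 2) (a : Vt M → A D)
    (U : Finset (J M)) (y : Ed M → ZMod 2) (R : Fm (Xt M D ⊕ Bool)) (z : Bool → Bool) : Bool :=
  decide (∃ y', Test v0 a U y R y' ∧ ev (α + Pth a y') z R = true)

/-- local value of a formula -/
noncomputable def val (l : ℕ) (v0 : Vt M) (α : Xt M D → ZMod 2) (a : Vt M → A D)
    (f : Fm (Xt M D)) (U : Finset (J M)) (y : Ed M → ZMod 2) : Bool :=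
  fval l (cval v0 α a U y) f

/-- M-step: two vertex-disjoint live edges are revealed -/
def StepM (a : Vt M → A D) (R : Fm (Xt M D ⊕ Bool)) (U U' : Finset (J M)) : Prop :=
  ∃ e ∈ Live a R, ∃ f ∈ Live a R, VDisj e f ∧ e ∉ inc U ∧ f ∉ inc U ∧ U' = U ∪ (crs e ∪ crs f)

/-- S-step: the star of a sensitive point is revealed -/
def StepS (a : Vt M → A D) (β : Xt M D → ZMod 2) (R : Fm (Xt M D ⊕ Bool))
    (U U' : Finset (J M)) : Prop :=
  ∃ (p : J M) (σ : Finset (Bool × Bool)) (z : Bool → Bool), p ∉ U ∧ (∀ δ ∈ σ, nb p δ ∉ U) ∧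
    U' = U ∪ Nb p ∧ ev β z R ≠ ev (β + Pth a (Dcl p σ)) z R

/-- chain of `k` steps from `U` to `W` -/
def Chain (Rs : Finset (Fm (Xt M D ⊕ Bool))) (a : Vt M → A D) (β : Xt M D → ZMod 2) :
    ℕ → Finset (J M) → Finset (J M) → Prop
  | 0, U, W => U = W
  | k + 1, U, W => ∃ R ∈ Rs, ∃ U', (StepM a R U U' ∨ StepS a β R U U') ∧ Chain Rs a β k U' W

/-- chain for the base assignment `y`; in S-steps all live edges become revealed -/
def LChain (Rs : Finset (Fm (Xt M D ⊕ Bool))) (a : Vt M → A D) (α : Xt M D → ZMod 2)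
    (y : Ed M → ZMod 2) : ℕ → Finset (J M) → Finset (J M) → Prop
  | 0, U, W => U = W
  | k + 1, U, W => ∃ R ∈ Rs, ∃ U',
      (StepM a R U U' ∨ (StepS a (α + Pth a y) R U U' ∧ Live a R ⊆ inc U')) ∧
      LChain Rs a α y k U' W

/-- no state supports a chain of length `k` -/
def NoChain (l k : ℕ) (v0 : Vt M) (α : Xt M D → ZMod 2) (a : Vt M → A D)
    (f : Fm (Xt M D)) : Prop :=
  ∀ W y, Ok v0 W y → ¬ LChain (frags l f).toFinset a α y k ∅ W

end

end Fr56
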