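import Pool.Agent.Lib.MP_51bb46_lc.B.Pieces

/-!
Values computed through fragments.
-/

set_option linter.unusedSectionVars false

namespace Fr56

open Finset

variable {X : Type}

/-- the hole value depends only on the local values of the pieces -/
private theorem hval_congr (l : ℕ) (c c' : Fm (X ⊕ Bool) → (Bool → Bool) → Bool) (f : Fm X)
    (h : ∀ R ∈ pcs l f, c R = c' R) : hval l c f = hval l c' f := by
  induction f with
  | var x => rfl
  | neg f ih => exact ih h
  | and f g ihf ihg =>
    have hf := ihf fun R hR => h R (by
      simp only [pcs, List.mem_append]; exact Or.inr (Or.inl hR))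
    have hg := ihg fun R hR => h R (by
      simp only [pcs, List.mem_append]; exact Or.inr (Or.inr hR))
    simp only [hval]
    rw [hf, hg]
    split_ifs with h1 h2
    · rw [h _ (by simp [pcs, h1])]
    · rfl
    · rfl
  | or f g ihf ihg =>
    have hf := ihf fun R hR => h R (by
      simp only [pcs, List.mem_append]; exact Or.inr (Or.inl hR))
    have hg := ihg fun R hR => h R (by
      simp only [pcs, List.mem_append]; exact Or.inr (Or.inr hR))
    simp only [hval]
    rw [hf, hg]
    split_ifs with h1 h2
    · rw [h _ (by simp [pcs, h1])]
    · rfl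
    · rfl

/-- the value depends only on the local values of the fragments -/
theorem fval_congr (l : ℕ) (c c' : Fm (X ⊕ Bool) → (Bool → Bool) → Bool) (f : Fm X)
    (h : ∀ R ∈ frags l f, c R = c' R) : fval l c f = fval l c' f := by
  unfold fval
  rw [hval_congr l c c' f (fun R hR => h R (List.mem_cons_of_mem _ hR)),
    h _ List.mem_cons_self]

private theorem lab_eval (b : Bool) (t : Fm (Option X)) (u : X → Bool) (z : Bool → Bool) :
    (lab b t).eval (Sum.elim u z) = t.eval (fun o => o.elim (z b) u) := by
  unfold lab
  rw [Fm.eval_map]
  congr 1
  funext o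
  cases o <;> rfl

private theorem eval_noHole (t : Fm (Option X)) (u : X → Bool) (a a' : Bool)
    (h : hasHole t = false) :
    t.eval (fun o => o.elim a u) = t.eval (fun o => o.elim a' u) := by
  induction t with
  | var o =>
    cases o with
    | none => simp [hasHole] at h
    | some x => rfl
  | neg f ih => simp only [Fm.eval]; rw [ih h]
  | and f g ihf ihg =>
    simp only [hasHole, Bool.or_eq_false_iff] at h
    simp only [Fm.eval]
    rw [ihf h.1, ihg h.2]
  | or f g ihf ihg =>
    simp only [hasHole, Bool.or_eq_false_iff] at h
    simp only [Fm.eval]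
    rw [ihf h.1, ihg h.2]

private theorem fval_eq (l : ℕ) (c : Fm (X ⊕ Bool) → (Bool → Bool) → Bool) (u : X → Bool) (f : Fm X)
    (h : LocAt c u (lab false (top l f))) :
    fval l c f = (top l f).eval (fun o => o.elim (hval l c f) u) := by
  unfold fval
  rw [h, lab_eval]

theorem fval_neg (l : ℕ) (c : Fm (X ⊕ Bool) → (Bool → Bool) → Bool) (u : X → Bool) (f : Fm X)
    (h1 : LocAt c u (lab false (top l f))) (h2 : LocAt c u (lab false (top l (.neg f)))) :
    fval l c (.neg f) = !(fval l c f) := by
  rw [fval_eq l c u f h1, fval_eq l c u _ h2]
  rfl

theorem fval_and (l : ℕ) (c : Fm (X ⊕ Bool) → (Bool → Bool) → Bool) (u : X → Bool) (f g : Fm X)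
    (h1 : LocAt c u (lab false (top l f))) (h2 : LocAt c u (lab false (top l g)))
    (h3 : LocAt c u (lab false (top l (.and f g))))
    (h4 : cut l (top l f) (top l g) = true →
      LocAt c u (Fm.and (lab false (top l f)) (lab true (top l g)))) :
    fval l c (.and f g) = (fval l c f && fval l c g) := by
  rw [fval_eq l c u f h1, fval_eq l c u g h2, fval_eq l c u _ h3]
  by_cases hc : cut l (top l f) (top l g) = true
  · simp only [top, hc, if_true, Fm.eval, hval, Option.elim]
    rw [h4 hc]
    simp only [Fm.eval]
    rw [lab_eval, lab_eval]
    rfl
  · have hh : (hasHole (top l f) && hasHole (top l g)) = false := by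
      by_contra hne
      rw [Bool.not_eq_false] at hne
      exact hc (by simp [cut, hne])
    simp only [top, hc, hval]
    by_cases hf : hasHole (top l f) = true
    · have hg : hasHole (top l g) = false := by simpa [hf] using hh
      simp only [hf, if_true, Bool.false_eq_true, if_false, Fm.eval]
      rw [eval_noHole (top l g) u (hval l c f) (hval l c g) hg]
    · have hf' : hasHole (top l f) = false := by simpa using hf
      simp only [hf', Bool.false_eq_true, if_false, Fm.eval]
      rw [eval_noHole (top l f) u (hval l c g) (hval l c f) hf']

theorem fval_or (l : ℕ) (c : Fm (X ⊕ Bool) → (Bool → Bool) → Bool) (u : X → Bool) (f g : Fm X)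
    (h1 : LocAt c u (lab false (top l f))) (h2 : LocAt c u (lab false (top l g)))
    (h3 : LocAt c u (lab false (top l (.or f g))))
    (h4 : cut l (top l f) (top l g) = true →
      LocAt c u (Fm.or (lab false (top l f)) (lab true (top l g)))) :
    fval l c (.or f g) = (fval l c f || fval l c g) := by
  rw [fval_eq l c u f h1, fval_eq l c u g h2, fval_eq l c u _ h3]
  by_cases hc : cut l (top l f) (top l g) = true
  · simp only [top, hc, if_true, Fm.eval, hval, Option.elim]
    rw [h4 hc]
    simp only [Fm.eval]
    rw [lab_eval, lab_eval]
    rfl
  · have hh : (hasHole (top l f) && hasHole (top l g)) = false := by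
      by_contra hne
      rw [Bool.not_eq_false] at hne
      exact hc (by simp [cut, hne])
    simp only [top, hc, hval]
    by_cases hf : hasHole (top l f) = true
    · have hg : hasHole (top l g) = false := by simpa [hf] using hh
      simp only [hf, if_true, Bool.false_eq_true, if_false, Fm.eval]
      rw [eval_noHole (top l g) u (hval l c f) (hval l c g) hg]
    · have hf' : hasHole (top l f) = false := by simpa using hf
      simp only [hf', Bool.false_eq_true, if_false, Fm.eval]
      rw [eval_noHole (top l f) u (hval l c g) (hval l c f) hf']

private theorem hasHole_map_some (f : Fm X) : hasHole (f.map some) = false := by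
  induction f with
  | var x => rfl
  | neg f ih => exact ih
  | and f g ihf ihg => simp [Fm.map, hasHole, ihf, ihg]
  | or f g ihf ihg => simp [Fm.map, hasHole, ihf, ihg]

private theorem vl_map_some (f : Fm X) : vl (f.map some) = f.leaves := by
  induction f with
  | var x => rfl
  | neg f ih => exact ih
  | and f g ihf ihg => simp [Fm.map, vl, Fm.leaves, ihf, ihg]
  | or f g ihf ihg => simp [Fm.map, vl, Fm.leaves, ihf, ihg]

private theorem top_small (l : ℕ) (f : Fm X) (hf : f.leaves < l) : top l f = f.map some := by
  induction f with
  | var x => rfl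
  | neg f ih => simp only [top, Fm.map]; rw [ih hf]
  | and f g ihf ihg =>
    simp only [Fm.leaves] at hf
    simp only [top, Fm.map]
    rw [ihf (by omega), ihg (by omega), if_neg]
    simp only [cut, hasHole_map_some, vl_map_some]
    simp
    omega
  | or f g ihf ihg =>
    simp only [Fm.leaves] at hf
    simp only [top, Fm.map]
    rw [ihf (by omega), ihg (by omega), if_neg]
    simp only [cut, hasHole_map_some, vl_map_some]
    simp
    omega

/-- a small formula has its true value -/
theorem fval_small (l : ℕ) (c : Fm (X ⊕ Bool) → (Bool → Bool) → Bool) (u : X → Bool) (f : Fm X)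
    (hf : f.leaves < l) (h1 : LocAt c u (lab false (top l f))) : fval l c f = f.eval u := by
  rw [fval_eq l c u f h1, top_small l f hf, Fm.eval_map]
  rfl

end Fr56
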