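import Pool.Agent.Lib.MP_51bb46_lc.B.Graph
import Pool.Agent.Lib.MP_51bb46_lc.B.Host
import Pool.Agent.Lib.MP_51bb46_lc.B.Local
import Pool.Agent.Lib.MP_51bb46_lc.B.PiecesB
import Pool.Agent.Lib.MP_51bb46_lc.B.Tseitin

section

/-!
Base graph: boundary map, free points, paths.
-/

set_option linter.unusedSectionVars false

namespace Fr56

open Finset
open scoped Classical

section
variable {M : ℕ} [NeZero M]

theorem bd_add (y z : Ed M → ZMod 2) : bd (y + z) = bd y + bd z := by
  funext v
  simp only [bd, Pi.add_apply]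
  rw [← Finset.sum_add_distrib]
  refine Finset.sum_congr rfl fun e _ => ?_
  split_ifs <;> ring

theorem bd_zero : bd (0 : Ed M → ZMod 2) = 0 := by
  funext v
  simp [bd]

theorem bd_single (e : Ed M) : bd (Pi.single e 1) = pt (src e) + pt (tgt e) := by
  funext v
  simp only [bd, Pi.add_apply, pt]
  rw [Finset.sum_eq_single e]
  · rw [Pi.single_eq_same, Pi.single_apply, Pi.single_apply]
    congr 1
    · by_cases h : src e = v
      · rw [if_pos h, if_pos h.symm]
      · rw [if_neg h, if_neg (fun h' => h h'.symm)]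
    · by_cases h : tgt e = v
      · rw [if_pos h, if_pos h.symm]
      · rw [if_neg h, if_neg (fun h' => h h'.symm)]
  · intro f _ hf
    rw [Pi.single_eq_of_ne hf]
    simp
  · intro h
    exact absurd (mem_univ e) h

theorem bd_sum {ι : Type} (s : Finset ι) (y : ι → Ed M → ZMod 2) :
    bd (∑ i ∈ s, y i) = ∑ i ∈ s, bd (y i) := by
  induction s using Finset.induction_on with
  | empty => simp [bd_zero]
  | insert a s ha ih => rw [Finset.sum_insert ha, Finset.sum_insert ha, bd_add, ih]

theorem not_free_of_mem {U : Finset (J M)} {p : J M} (h : p ∈ U) : ¬ Free U p := by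
  rintro (hf | hf)
  · exact hf p h rfl
  · exact hf p h rfl

theorem Free.mono {U U' : Finset (J M)} (h : U ⊆ U') {p : J M} (hp : Free U' p) : Free U p := by
  rcases hp with hp | hp
  · exact Or.inl fun q hq => hp q (h hq)
  · exact Or.inr fun q hq => hp q (h hq)

private theorem exists_col (U : Finset (J M)) (hU : U.card < M) (g : J M → ZMod M) :
    ∃ x : ZMod M, ∀ q ∈ U, g q ≠ x := by
  have h1 : (U.image g).card < (univ : Finset (ZMod M)).card := by
    rw [Finset.card_univ, ZMod.card]
    exact lt_of_le_of_lt card_image_le hU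
  obtain ⟨x, _, hx⟩ := Finset.exists_mem_notMem_of_card_lt_card h1
  exact ⟨x, fun q hq h => hx (mem_image.2 ⟨q, hq, h⟩)⟩

theorem exists_free (U : Finset (J M)) (hU : U.card < M) : ∃ p, Free U p := by
  obtain ⟨x, hx⟩ := exists_col U hU Prod.fst
  exact ⟨(x, 0), Or.inl hx⟩

/-- connectedness over the free points -/
private def Conn (U : Finset (J M)) (s t : Vt M) : Prop :=
  ∃ γ : Ed M → ZMod 2, bd γ = pt s + pt t ∧
      ∀ e, γ e ≠ 0 → Free U (src e).1 ∧ Free U (tgt e).1

private theorem z2_add_self {β : Type} (f : β → ZMod 2) : f + f = 0 := by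
  funext b
  exact CharTwo.add_self_eq_zero (f b)

private theorem Conn.refl (U : Finset (J M)) (s : Vt M) : Conn U s s :=
  ⟨0, by rw [bd_zero, z2_add_self], fun e he => absurd rfl he⟩

private theorem Conn.symm {U : Finset (J M)} {s t : Vt M} (h : Conn U s t) : Conn U t s := by
  obtain ⟨γ, h1, h2⟩ := h
  exact ⟨γ, by rw [h1, add_comm], h2⟩

private theorem Conn.trans {U : Finset (J M)} {s t r : Vt M} (h : Conn U s t)
    (h' : Conn U t r) : Conn U s r := by
  obtain ⟨γ, h1, h2⟩ := h
  obtain ⟨γ', h1', h2'⟩ := h'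
  refine ⟨γ + γ', ?_, ?_⟩
  · rw [bd_add, h1, h1']
    calc pt s + pt t + (pt t + pt r) = pt s + (pt t + pt t) + pt r := by abel
      _ = pt s + pt r := by rw [z2_add_self, add_zero]
  · intro e he
    by_cases h0 : γ e = 0
    · apply h2'
      intro h0'
      apply he
      simp [h0, h0']
    · exact h2 e h0

private theorem Conn.edge {U : Finset (J M)} (e : Ed M) (h1 : Free U (src e).1)
    (h2 : Free U (tgt e).1) : Conn U (src e) (tgt e) := by
  refine ⟨Pi.single e 1, bd_single e, ?_⟩
  intro f hf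
  have : f = e := by
    by_contra hne
    exact hf (Pi.single_eq_of_ne hne _)
  subst this
  exact ⟨h1, h2⟩

private theorem Conn.col {U : Finset (J M)} {x : ZMod M} (hx : ∀ q ∈ U, q.1 ≠ x)
    (y y' : ZMod M) (i : Bool) : Conn U ((x, y), i) ((x, y'), i) := by
  have key : ∀ n : ℕ, Conn U ((x, y), i) ((x, y + n), i) := by
    intro n
    induction n with
    | zero => simpa using Conn.refl U ((x, y), i)
    | succ n ih =>
      refine ih.trans ?_
      have h := Conn.edge (U := U) ((x, y + n), some (false, i)) (Or.inl hx)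
        (Or.inl (by
          intro q hq
          simpa [tgt, dv] using hx q hq))
      have h2 : tgt (M := M) ((x, y + n), some (false, i)) = ((x, y + (n + 1 : ℕ)), i) := by
        simp [tgt, dv, add_assoc]
      rw [h2] at h
      exact h
  have h := key (y' - y).val
  rw [ZMod.natCast_zmod_val, add_sub_cancel] at h
  exact h

private theorem Conn.row {U : Finset (J M)} {y : ZMod M} (hy : ∀ q ∈ U, q.2 ≠ y)
    (x x' : ZMod M) (i : Bool) : Conn U ((x, y), i) ((x', y), i) := by
  have key : ∀ n : ℕ, Conn U ((x, y), i) ((x + n, y), i) := by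
    intro n
    induction n with
    | zero => simpa using Conn.refl U ((x, y), i)
    | succ n ih =>
      refine ih.trans ?_
      have h := Conn.edge (U := U) ((x + n, y), some (true, i)) (Or.inr hy)
        (Or.inr (by
          intro q hq
          simpa [tgt, dv] using hy q hq))
      have h2 : tgt (M := M) ((x + n, y), some (true, i)) = ((x + (n + 1 : ℕ), y), i) := by
        simp [tgt, dv, add_assoc]
      rw [h2] at h
      exact h
  have h := key (x' - x).val
  rw [ZMod.natCast_zmod_val, add_sub_cancel] at h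
  exact h

/-- any two vertices over `Free U` are joined by a path over `Free U` -/
theorem exists_path (U : Finset (J M)) (hU : U.card < M) (s t : Vt M) (hs : Free U s.1)
    (ht : Free U t.1) : ∃ γ : Ed M → ZMod 2, bd γ = pt s + pt t ∧
      ∀ e, γ e ≠ 0 → Free U (src e).1 ∧ Free U (tgt e).1 := by
  obtain ⟨x0, hx0⟩ := exists_col U hU Prod.fst
  obtain ⟨y0, hy0⟩ := exists_col U hU Prod.snd
  have hub : ∀ r : Vt M, Free U r.1 → Conn U r ((x0, y0), r.2) := by
    rintro ⟨⟨x, y⟩, i⟩ (hr | hr)
    · exact (Conn.col hr y y0 i).trans (Conn.row hy0 x x0 i)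
    · exact (Conn.row hr x x0 i).trans (Conn.col hx0 y y0 i)
  have rung : Conn U ((x0, y0), false) ((x0, y0), true) :=
    Conn.edge (U := U) ((x0, y0), none) (Or.inl hx0) (Or.inl hx0)
  have hub2 : ∀ i j : Bool, Conn U ((x0, y0), i) ((x0, y0), j) := by
    intro i j
    cases i <;> cases j
    · exact Conn.refl _ _
    · exact rung
    · exact rung.symm
    · exact Conn.refl _ _
  exact ((hub s hs).trans (hub2 s.2 t.2)).trans (hub t ht).symm

/-- at most `9` edges have an endpoint over a given point -/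
theorem card_inc_le (U : Finset (J M)) : (univ.filter (fun e : Ed M => e ∈ inc U)).card ≤ 9 * U.card := by
  have hsub : (univ.filter (fun e : Ed M => e ∈ inc U)) ⊆ U.biUnion fun p =>
      insert ((p, none) : Ed M) ((univ : Finset (Bool × Bool)).image (fun s => ((p, some s) : Ed M)) ∪
        (univ : Finset (Bool × Bool)).image (fun s => ((p - dv M s.1, some s) : Ed M))) := by
    intro e he
    rw [mem_filter] at he
    rw [mem_biUnion]
    obtain ⟨p, o⟩ := e
    rcases he with ⟨_, he | he⟩
    · cases o with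
      | none => exact ⟨p, he, by simp⟩
      | some s => exact ⟨p, he, by simp⟩
    · cases o with
      | none => exact ⟨p, he, by simp⟩
      | some s =>
        obtain ⟨d, i⟩ := s
        refine ⟨p + dv M d, he, ?_⟩
        rw [mem_insert, mem_union]
        right; right
        rw [mem_image]
        exact ⟨(d, i), mem_univ _, by simp⟩
  refine le_trans (card_le_card hsub) ?_
  rw [mul_comm]
  refine card_biUnion_le_card_mul _ _ _ fun p _ => ?_
  refine le_trans (card_insert_le _ _) ?_
  have h1 := card_union_le ((univ : Finset (Bool × Bool)).image (fun s => ((p, some s) : Ed M)))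
    ((univ : Finset (Bool × Bool)).image (fun s => ((p - dv M s.1, some s) : Ed M)))
  have h2 : ((univ : Finset (Bool × Bool)).image (fun s => ((p, some s) : Ed M))).card ≤ 4 :=
    le_trans card_image_le (by simp)
  have h3 : ((univ : Finset (Bool × Bool)).image
      (fun s => ((p - dv M s.1, some s) : Ed M))).card ≤ 4 :=
    le_trans card_image_le (by simp)
  omega

end

end Fr56
end

section

/-!
Base graph: faces, stars.
-/

set_option linter.unusedSectionVars false

namespace Fr56

open Finset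
open scoped Classical

section
variable {M : ℕ} [NeZero M]

theorem card_Nb (p : J M) : (Nb p).card ≤ 5 := by
  unfold Nb
  refine (Finset.card_insert_le _ _).trans ?_
  have h : (univ.image (nb p)).card ≤ 4 := by
    refine Finset.card_image_le.trans ?_
    simp
  omega

theorem src_sedge (p : J M) (δ : Bool × Bool) (i : Bool) :
    src (sedge p δ i) = if δ.2 then (p, i) else (nb p δ, i) := by
  obtain ⟨d, b⟩ := δ
  cases b <;> simp [sedge, src, nb]

theorem tgt_sedge (p : J M) (δ : Bool × Bool) (i : Bool) :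
    tgt (sedge p δ i) = if δ.2 then (nb p δ, i) else (p, i) := by
  obtain ⟨d, b⟩ := δ
  cases b <;> simp [sedge, tgt, nb]

theorem pt_add_self (v : Vt M) : pt v + pt v = 0 := by
  funext w
  simp only [Pi.add_apply, Pi.zero_apply]
  exact CharTwo.add_self_eq_zero _

theorem bd_face (p : J M) (δ : Bool × Bool) : bd (face p δ) = 0 := by
  unfold face
  rw [bd_add, bd_add, bd_add, bd_single, bd_single, bd_single, bd_single]
  rw [src_sedge, tgt_sedge, src_sedge, tgt_sedge]
  have h1 := pt_add_self ((p, false) : Vt M)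
  have h2 := pt_add_self ((p, true) : Vt M)
  have h3 := pt_add_self ((nb p δ, false) : Vt M)
  have h4 := pt_add_self ((nb p δ, true) : Vt M)
  obtain ⟨d, b⟩ := δ
  have key : ∀ a b c e : Vt M → ZMod 2, a + a = 0 → b + b = 0 → c + c = 0 → e + e = 0 →
      (a + b) + (c + e) + (a + c) + (b + e) = 0 := by
    intro a b c e ha hb hc he
    calc (a + b) + (c + e) + (a + c) + (b + e) = (a + a) + (b + b) + (c + c) + (e + e) := by ring
      _ = 0 := by rw [ha, hb, hc, he]; simp
  cases b
  · simp only [src, tgt, Bool.false_eq_true, if_false]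
    have := key _ _ _ _ h1 h2 h3 h4
    calc _ = pt (p, false) + pt (p, true) + (pt (nb p (d, false), false) + pt (nb p (d, false), true)) +
        (pt (p, false) + pt (nb p (d, false), false)) + (pt (p, true) + pt (nb p (d, false), true)) := by ring
      _ = 0 := this
  · simp only [src, tgt, if_true]
    exact key _ _ _ _ h1 h2 h3 h4

theorem bd_Dcl (p : J M) (σ : Finset (Bool × Bool)) : bd (Dcl p σ) = 0 := by
  unfold Dcl
  rw [bd_sum]
  exact Finset.sum_eq_zero fun δ _ => bd_face p δ

theorem face_supp (p : J M) (δ : Bool × Bool) (e : Ed M) (he : face p δ e ≠ 0) :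
    e = (p, none) ∨ e = (nb p δ, none) ∨ ∃ i, e = sedge p δ i := by
  by_contra hcon
  push Not at hcon
  obtain ⟨h1, h2, h3⟩ := hcon
  apply he
  unfold face
  simp only [Pi.add_apply]
  rw [Pi.single_eq_of_ne h1, Pi.single_eq_of_ne h2, Pi.single_eq_of_ne (h3 false),
    Pi.single_eq_of_ne (h3 true)]
  simp

/-- the support of `Dcl p σ` lies over `{p} ∪ {nb p δ : δ ∈ σ}` -/
theorem Dcl_supp (p : J M) (σ : Finset (Bool × Bool)) (e : Ed M) (he : Dcl p σ e ≠ 0) :
    ((src e).1 = p ∨ ∃ δ ∈ σ, (src e).1 = nb p δ) ∧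
    ((tgt e).1 = p ∨ ∃ δ ∈ σ, (tgt e).1 = nb p δ) := by
  unfold Dcl at he
  rw [Finset.sum_apply] at he
  obtain ⟨δ, hδ, hne⟩ := Finset.exists_ne_zero_of_sum_ne_zero he
  rcases face_supp p δ e hne with h | h | ⟨i, h⟩
  · subst h
    exact ⟨Or.inl rfl, Or.inl rfl⟩
  · subst h
    exact ⟨Or.inr ⟨δ, hδ, rfl⟩, Or.inr ⟨δ, hδ, rfl⟩⟩
  · subst h
    rw [src_sedge, tgt_sedge]
    by_cases hb : δ.2 = true
    · rw [if_pos hb, if_pos hb]
      exact ⟨Or.inl rfl, Or.inr ⟨δ, hδ, rfl⟩⟩
    · rw [if_neg hb, if_neg hb]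
      exact ⟨Or.inr ⟨δ, hδ, rfl⟩, Or.inl rfl⟩

/-- edges at the vertex `(p, i)` -/
theorem inci_iff (e : Ed M) (p : J M) (i : Bool) :
    Inci e (p, i) ↔ e = (p, none) ∨ ∃ δ, e = sedge p δ i := by
  constructor
  · intro h
    obtain ⟨q, o⟩ := e
    cases o with
    | none =>
      left
      rcases h with h | h
      · simp only [src, Prod.mk.injEq] at h
        rw [h.1]
      · simp only [tgt, Prod.mk.injEq] at h
        rw [h.1]
    | some dj =>
      obtain ⟨d, j⟩ := dj
      right
      rcases h with h | h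
      · simp only [src, Prod.mk.injEq] at h
        exact ⟨(d, true), by simp [sedge, h.1, h.2]⟩
      · simp only [tgt, Prod.mk.injEq] at h
        refine ⟨(d, false), ?_⟩
        have hq : q = p - dv M d := by rw [← h.1]; simp
        simp [sedge, hq, h.2]
  · rintro (h | ⟨δ, h⟩)
    · subst h
      cases i
      · left; rfl
      · right; rfl
    · subst h
      unfold Inci
      rw [src_sedge, tgt_sedge]
      by_cases hb : δ.2 = true
      · rw [if_pos hb, if_pos hb]; left; trivial
      · rw [if_neg hb, if_neg hb]; right; trivial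

theorem dv_ne_zero (hM : 2 ≤ M) (d : Bool) : dv M d ≠ 0 := by
  have : Fact (1 < M) := ⟨by omega⟩
  have h1 : (1 : ZMod M) ≠ 0 := one_ne_zero
  cases d
  · intro h
    have := congrArg Prod.snd h
    simp [dv] at this
  · intro h
    have := congrArg Prod.fst h
    simp [dv] at this

theorem nb_ne (hM : 2 ≤ M) (p : J M) (δ : Bool × Bool) : nb p δ ≠ p := by
  obtain ⟨d, b⟩ := δ
  have := dv_ne_zero hM d
  cases b
  · simp only [nb, Bool.false_eq_true, if_false]
    intro h
    exact this (by simpa using h)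
  · simp only [nb, if_true]
    intro h
    exact this (by simpa using h)

theorem sedge_inj (hM : 2 ≤ M) (p : J M) (δ δ' : Bool × Bool) (i j : Bool)
    (h : sedge p δ i = sedge p δ' j) : δ = δ' ∧ i = j := by
  obtain ⟨d, b⟩ := δ
  obtain ⟨d', b'⟩ := δ'
  have h2 := congrArg Prod.snd h
  have h1 := congrArg Prod.fst h
  have hd := dv_ne_zero hM d
  have hd' := dv_ne_zero hM d'
  cases b <;> cases b' <;>
    simp only [sedge, if_true, Bool.false_eq_true, if_false, Option.some.injEq,
      Prod.mk.injEq] at h1 h2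
  · exact ⟨by rw [h2.1], h2.2⟩
  · exact absurd (by simpa using h1) hd
  · exact absurd (by simpa using h1.symm) hd'
  · exact ⟨by rw [h2.1], h2.2⟩

theorem face_sedge (hM : 2 ≤ M) (p : J M) (δ δ' : Bool × Bool) (i : Bool) :
    face p δ' (sedge p δ i) = if δ' = δ then 1 else 0 := by
  unfold face
  simp only [Pi.add_apply]
  have hs : (sedge p δ i).2 ≠ none := by
    obtain ⟨d, b⟩ := δ
    cases b <;> simp [sedge]
  rw [Pi.single_eq_of_ne (fun h => hs (by rw [h])), Pi.single_eq_of_ne (fun h => hs (by rw [h]))]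
  by_cases hδ : δ' = δ
  · subst hδ
    rw [if_pos rfl]
    cases i
    · rw [Pi.single_eq_same, Pi.single_eq_of_ne]
      · simp
      · intro h
        have := (sedge_inj hM _ _ _ _ _ h).2
        simp at this
    · rw [Pi.single_eq_same, Pi.single_eq_of_ne]
      · simp
      · intro h
        have := (sedge_inj hM _ _ _ _ _ h).2
        simp at this
  · rw [if_neg hδ, Pi.single_eq_of_ne, Pi.single_eq_of_ne]
    · simp
    · intro h
      exact hδ (sedge_inj hM _ _ _ _ _ h).1.symm
    · intro h
      exact hδ (sedge_inj hM _ _ _ _ _ h).1.symm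

theorem face_rung (hM : 2 ≤ M) (p : J M) (δ : Bool × Bool) : face p δ (p, none) = 1 := by
  unfold face
  simp only [Pi.add_apply]
  have hs : ∀ i, (sedge p δ i).2 ≠ none := by
    intro i
    obtain ⟨d, b⟩ := δ
    cases b <;> simp [sedge]
  rw [Pi.single_eq_same, Pi.single_eq_of_ne, Pi.single_eq_of_ne, Pi.single_eq_of_ne]
  · simp
  · intro h
    exact hs true (by rw [← h])
  · intro h
    exact hs false (by rw [← h])
  · intro h
    exact nb_ne hM p δ (congrArg Prod.fst h).symm

theorem sum_ite_pair {A : Type} [Fintype A] [DecidableEq A] (F : A → ZMod 2) (a : A) (b c : Bool) :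
    ∑ x, (if x = a ∧ b = c then F x else 0) = if b = c then F a else 0 := by
  by_cases h : b = c
  · simp [h]
  · simp [h]

theorem bd_at (d : Ed M → ZMod 2) (p : J M) (i : Bool) :
    bd d (p, i) = d (p, none) + ∑ δ, d (sedge p δ i) := by
  unfold bd
  have hsplit : ∀ F : Ed M → ZMod 2, ∑ e, F e = ∑ q, F (q, none) + (∑ q, F (q, some (true, true)) +
      ∑ q, F (q, some (true, false)) + (∑ q, F (q, some (false, true)) +
      ∑ q, F (q, some (false, false)))) := by
    intro F
    rw [show (∑ e : Ed M, F e) = ∑ q : J M, ∑ o, F (q, o) from Fintype.sum_prod_type _]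
    simp only [Fintype.sum_option]
    rw [Finset.sum_add_distrib]
    congr 1
    rw [← Finset.sum_add_distrib, ← Finset.sum_add_distrib, ← Finset.sum_add_distrib]
    refine Finset.sum_congr rfl fun q _ => ?_
    rw [show (∑ x : Bool × Bool, F (q, some x)) = ∑ a : Bool, ∑ b : Bool, F (q, some (a, b)) from
      Fintype.sum_prod_type _]
    simp only [Fintype.sum_bool]
  rw [hsplit]
  simp only [src, tgt, Prod.mk.injEq]
  have e1 : ∀ q : J M, ∀ b : Bool, (q + dv M b = p) ↔ (q = p - dv M b) := fun q b =>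
    ⟨fun h => by rw [← h]; simp, fun h => by rw [h]; simp⟩
  simp only [e1, Finset.sum_add_distrib, sum_ite_pair]
  rw [show (∑ δ, d (sedge p δ i)) = ∑ a : Bool, ∑ b : Bool, d (sedge p (a, b) i) from
      Fintype.sum_prod_type _]
  simp only [Fintype.sum_bool]
  cases i <;> simp [sedge]

theorem zmod2_ne_zero {a : ZMod 2} (h : a ≠ 0) : a = 1 := by
  revert h
  revert a
  decide

/-- a cycle agrees at the vertex `(p, i)` with a sum of faces -/
theorem closed_star (hM : 4 ≤ M) (d : Ed M → ZMod 2) (p : J M) (i : Bool)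
    (hd : bd d (p, i) = 0) (e : Ed M) (he : Inci e (p, i)) :
    Dcl p (univ.filter fun δ => d (sedge p δ i) ≠ 0) e = d e := by
  have hM2 : 2 ≤ M := by omega
  rw [inci_iff] at he
  unfold Dcl
  rw [Finset.sum_apply]
  rcases he with h | ⟨δ, h⟩
  · subst h
    rw [Finset.sum_congr rfl (fun δ _ => face_rung hM2 p δ)]
    rw [bd_at] at hd
    have h1 : ∑ δ, d (sedge p δ i) = ∑ δ ∈ univ.filter fun δ => d (sedge p δ i) ≠ 0, (1 : ZMod 2) := by
      rw [Finset.sum_filter]
      refine Finset.sum_congr rfl fun δ _ => ?_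
      by_cases h0 : d (sedge p δ i) = 0
      · simp [h0]
      · rw [if_pos h0]
        exact zmod2_ne_zero h0
    rw [← h1]
    have h2 : d (p, none) = - ∑ δ, d (sedge p δ i) := eq_neg_of_add_eq_zero_left hd
    rw [h2]
    rw [CharTwo.neg_eq]
  · subst h
    rw [Finset.sum_congr rfl (fun δ' _ => face_sedge hM2 p δ δ' i)]
    rw [Finset.sum_ite_eq']
    by_cases h0 : d (sedge p δ i) = 0
    · simp [h0]
    · rw [if_pos (by simp [h0])]
      exact (zmod2_ne_zero h0).symm

/-- the colouring of the vertices for `M` even -/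
noncomputable def col (hM : 2 ∣ M) (v : Vt M) : ZMod 2 :=
  ZMod.castHom hM (ZMod 2) v.1.1 + ZMod.castHom hM (ZMod 2) v.1.2 + if v.2 then 1 else 0

theorem col_tgt (hM : 2 ∣ M) (e : Ed M) : col hM (tgt e) = col hM (src e) + 1 := by
  obtain ⟨q, o⟩ := e
  cases o with
  | none => simp [col, tgt, src]
  | some dj =>
    obtain ⟨d, j⟩ := dj
    have key1 : ∀ a b c : ZMod 2, a + 0 + (b + 1) + c = a + b + c + 1 := by decide
    have key2 : ∀ a b c : ZMod 2, a + 1 + (b + 0) + c = a + b + c + 1 := by decide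
    cases d
    · simp only [col, tgt, src, dv, Prod.fst_add, Prod.snd_add, map_add, map_zero, map_one]
      exact key1 _ _ _
    · simp only [col, tgt, src, dv, Prod.fst_add, Prod.snd_add, map_add, map_zero, map_one]
      exact key2 _ _ _

theorem col_inci (hM : 2 ∣ M) (e : Ed M) (u w : Vt M) (hu : Inci e u) (hw : Inci e w)
    (huw : u ≠ w) : col hM u = col hM w + 1 := by
  have h11 : (1 : ZMod 2) + 1 = 0 := by decide
  rcases hu with rfl | rfl <;> rcases hw with rfl | rfl
  · exact absurd rfl huw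
  · rw [col_tgt, add_assoc, h11, add_zero]
  · rw [col_tgt]
  · exact absurd rfl huw

theorem exists_common {e f : Ed M} (h : ¬ VDisj e f) : ∃ v, Inci e v ∧ Inci f v := by
  unfold VDisj at h
  by_contra hcon
  push Not at hcon
  apply h
  refine ⟨?_, ?_, ?_, ?_⟩
  · intro h'
    exact hcon (src e) (Or.inl rfl) (Or.inl h'.symm)
  · intro h'
    exact hcon (src e) (Or.inl rfl) (Or.inr h'.symm)
  · intro h'
    exact hcon (tgt e) (Or.inr rfl) (Or.inl h'.symm)
  · intro h'
    exact hcon (tgt e) (Or.inr rfl) (Or.inr h'.symm)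

/-- `M` even: pairwise intersecting edges form a star -/
theorem star_lemma (hM : Even M) (Λ : Set (Ed M)) (h : ∀ e ∈ Λ, ∀ f ∈ Λ, ¬ VDisj e f) :
    ∃ v : Vt M, ∀ e ∈ Λ, Inci e v := by
  have hM2 : 2 ∣ M := hM.two_dvd
  by_cases hne : ∃ e, e ∈ Λ
  swap
  · exact ⟨((0, 0), false), fun e he => absurd ⟨e, he⟩ hne⟩
  obtain ⟨e, he⟩ := hne
  by_contra hcon
  push Not at hcon
  obtain ⟨f, hf, hfs⟩ := hcon (src e)
  obtain ⟨g, hg, hgt⟩ := hcon (tgt e)
  have hft : Inci f (tgt e) := by
    obtain ⟨v, hv1, hv2⟩ := exists_common (h e he f hf)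
    rcases hv1 with rfl | rfl
    · exact absurd hv2 hfs
    · exact hv2
  have hgs : Inci g (src e) := by
    obtain ⟨v, hv1, hv2⟩ := exists_common (h e he g hg)
    rcases hv1 with rfl | rfl
    · exact hv2
    · exact absurd hv2 hgt
  obtain ⟨w, hw1, hw2⟩ := exists_common (h f hf g hg)
  have hwt : w ≠ tgt e := fun h' => hgt (h' ▸ hw2)
  have hws : w ≠ src e := fun h' => hfs (h' ▸ hw1)
  have c1 := col_inci hM2 f w (tgt e) hw1 hft hwt
  have c2 := col_inci hM2 g w (src e) hw2 hgs hws
  have c3 := col_tgt hM2 e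
  rw [c2, c3] at c1
  have := add_right_cancel c1
  have h01 : (0 : ZMod 2) = 1 := by
    calc (0 : ZMod 2) = col hM2 (src e) - col hM2 (src e) := by ring
      _ = (col hM2 (src e) + 1) - col hM2 (src e) := by rw [← this]
      _ = 1 := by ring
  exact absurd h01 (by decide)

/-- the five displacement vectors -/
def dsp : List (ℤ × ℤ) := [(0, 0), (1, 0), (-1, 0), (0, 1), (0, -1)]

theorem mem_Nb_dsp (p r : J M) (h : r ∈ Nb p) :
    ∃ a ∈ dsp, r = p + (((a.1 : ℤ) : ZMod M), ((a.2 : ℤ) : ZMod M)) := by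
  unfold Nb at h
  rw [Finset.mem_insert, Finset.mem_image] at h
  rcases h with h | ⟨⟨d, b⟩, _, h⟩
  · exact ⟨(0, 0), by simp [dsp], by subst h; ext <;> simp⟩
  · subst h
    cases d <;> cases b
    · exact ⟨(0, -1), by simp [dsp], by ext <;> simp [nb, dv, sub_eq_add_neg]⟩
    · exact ⟨(0, 1), by simp [dsp], by ext <;> simp [nb, dv]⟩
    · exact ⟨(-1, 0), by simp [dsp], by ext <;> simp [nb, dv, sub_eq_add_neg]⟩
    · exact ⟨(1, 0), by simp [dsp], by ext <;> simp [nb, dv]⟩

theorem cls_add_dsp (hM : 4 ∣ M) (p : J M) (a : ℤ × ℤ) :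
    cls (p + (((a.1 : ℤ) : ZMod M), ((a.2 : ℤ) : ZMod M))) =
      cls p + (((a.1 : ℤ) : ZMod 4), ((a.2 : ℤ) : ZMod 4)) := by
  have e1 : ∀ x : J M, cls x = (ZMod.castHom hM (ZMod 4) x.1, ZMod.castHom hM (ZMod 4) x.2) :=
    fun x => rfl
  rw [e1, e1]
  simp only [Prod.fst_add, Prod.snd_add, map_add, map_intCast, Prod.mk_add_mk]

/-- for `4 ∣ M`: neighbourhoods of distinct points of the same class are disjoint -/
theorem Nb_disjoint (hM : 4 ∣ M) {p q : J M} (hpq : p ≠ q) (h : cls p = cls q) :
    Disjoint (Nb p) (Nb q) := by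
  rw [Finset.disjoint_left]
  intro r hrp hrq
  obtain ⟨a, ha, har⟩ := mem_Nb_dsp p r hrp
  obtain ⟨b, hb, hbr⟩ := mem_Nb_dsp q r hrq
  have hc : cls p + (((a.1 : ℤ) : ZMod 4), ((a.2 : ℤ) : ZMod 4)) =
      cls q + (((b.1 : ℤ) : ZMod 4), ((b.2 : ℤ) : ZMod 4)) := by
    rw [← cls_add_dsp hM, ← cls_add_dsp hM, ← har, ← hbr]
  rw [h] at hc
  have hc' := add_left_cancel hc
  have hab : a = b := by
    clear har hbr hc
    revert hc'
    revert a b
    decide
  subst hab
  rw [har] at hbr
  exact hpq (add_right_cancel hbr)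

end

end Fr56
end

section

/-!
Host graph: boundary map, lifts, connectivity.
-/

set_option linter.unusedSectionVars false

namespace Fr56

open Finset
open scoped Classical

theorem Pth_add {M D : ℕ} (a : Vt M → A D) (y z : Ed M → ZMod 2) :
    Pth a (y + z) = Pth a y + Pth a z := by
  funext x
  simp only [Pth, Pi.add_apply]
  split_ifs <;> simp

theorem Pth_zero {M D : ℕ} (a : Vt M → A D) : Pth a (0 : Ed M → ZMod 2) = 0 := by
  funext x
  simp [Pth]

theorem mix_zero {D : ℕ} (a b : A D) : mix 0 a b = a := by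
  funext k
  simp [mix]

theorem mix_full {D : ℕ} (a b : A D) : mix D a b = b := by
  funext k
  simp [mix, k.isLt]

theorem mix_succ {D : ℕ} (i : Fin D) (a b : A D) :
    mix i a b + Pi.single i (a i + b i) = mix (i + 1) a b := by
  funext k
  rw [Pi.add_apply]
  by_cases hk : k = i
  · subst hk
    simp only [mix, lt_irrefl, if_false, Pi.single_eq_same, Nat.lt_succ_self, if_true]
    rw [← add_assoc, CharTwo.add_self_eq_zero, zero_add]
  · rw [Pi.single_eq_of_ne hk, add_zero]
    have hk' : k.val ≠ i.val := fun h => hk (Fin.ext h)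
    simp only [mix]
    exact if_congr (by omega) rfl rfl

theorem hv_zero {M D : ℕ} (e : Ed M) (w : A D) : hv e 0 w = .cen (src e) w := by
  simp [hv]

theorem hv_full {M D : ℕ} (hD : 0 < D) (e : Ed M) (w : A D) : hv e D w = .cen (tgt e) w := by
  unfold hv
  rw [if_neg (by omega), dif_neg (lt_irrefl _)]

theorem telescope_two (T : ℕ → ZMod 2) (n : ℕ) :
    ∑ i ∈ Finset.range n, (T i + T (i + 1)) = T 0 + T n := by
  induction n with
  | zero => rw [Finset.range_zero, Finset.sum_empty, CharTwo.add_self_eq_zero]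
  | succ n ih =>
    rw [Finset.sum_range_succ, ih]
    have := CharTwo.add_self_eq_zero (T n)
    linear_combination this

section
variable {M D : ℕ} [NeZero M]

theorem hbd_add (x z : Xt M D → ZMod 2) : hbd (x + z) = hbd x + hbd z := by
  funext h
  simp only [hbd, Pi.add_apply]
  rw [← Finset.sum_add_distrib]
  refine Finset.sum_congr rfl fun u _ => ?_
  split_ifs <;> ring

theorem hbd_zero : hbd (0 : Xt M D → ZMod 2) = 0 := by
  funext h
  simp [hbd]

/-- boundary of a lift -/
theorem hbd_Pth (hD : 0 < D) (a : Vt M → A D) (y : Ed M → ZMod 2) :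
    hbd (Pth a y) = fun h => ∑ v, bd y v * hpt (ctr a v) h := by
  funext h
  -- the right hand side
  have hR : ∑ v, bd y v * hpt (ctr a v) h =
      ∑ e : Ed M, y e * (hpt (ctr a (src e)) h + hpt (ctr a (tgt e)) h) := by
    simp only [bd, Finset.sum_mul]
    rw [Finset.sum_comm]
    refine Finset.sum_congr rfl fun e _ => ?_
    simp only [add_mul, Finset.sum_add_distrib, ite_mul, zero_mul, Finset.sum_ite_eq,
      Finset.mem_univ, if_true]
    ring
  rw [hR]
  unfold hbd
  rw [← Equiv.sum_comp (Xt.equiv M D), Fintype.sum_prod_type]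
  refine Finset.sum_congr rfl fun e _ => ?_
  rw [Fintype.sum_prod_type]
  set a1 := a (src e) with ha1
  set a2 := a (tgt e) with ha2
  let T : ℕ → ZMod 2 := fun n => if hv e n (mix n a1 a2) = h then 1 else 0
  have hstep : ∀ i : Fin D, ∑ q : A D × ZMod 2,
      ((if hsrc (Xt.equiv M D (e, i, q)) = h then Pth a y (Xt.equiv M D (e, i, q)) else 0) +
        (if htgt (Xt.equiv M D (e, i, q)) = h then Pth a y (Xt.equiv M D (e, i, q)) else 0)) =
      y e * (T i + T (i + 1)) := by
    intro i
    rw [Finset.sum_eq_single (mix i a1 a2, a1 i + a2 i)]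
    · have hl : live a (Xt.equiv M D (e, i, mix i a1 a2, a1 i + a2 i)) := ⟨rfl, rfl⟩
      have h1 : Pth a y (Xt.equiv M D (e, i, mix i a1 a2, a1 i + a2 i)) = y e := by
        unfold Pth
        rw [if_pos hl]
        rfl
      have h2 : hsrc (Xt.equiv M D (e, i, mix i a1 a2, a1 i + a2 i)) = hv e i (mix i a1 a2) := rfl
      have h3 : htgt (Xt.equiv M D (e, i, mix i a1 a2, a1 i + a2 i)) =
          hv e (i + 1) (mix (i + 1) a1 a2) := by
        rw [← mix_succ]
        rfl
      rw [h1, h2, h3]
      simp only [T]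
      split_ifs <;> ring
    · rintro ⟨w, d⟩ _ hne
      have hl : ¬ live a (Xt.equiv M D (e, i, w, d)) := by
        rintro ⟨h1, h2⟩
        apply hne
        exact Prod.ext h1 h2
      have h1 : Pth a y (Xt.equiv M D (e, i, w, d)) = 0 := by
        unfold Pth
        rw [if_neg hl]
      rw [h1]
      simp
    · intro h'
      exact absurd (Finset.mem_univ _) h'
  rw [Finset.sum_congr rfl fun i _ => hstep i, ← Finset.mul_sum]
  congr 1
  rw [Fin.sum_univ_eq_sum_range (fun i => T i + T (i + 1)) D, telescope_two]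
  simp only [T]
  rw [hv_zero, hv_full hD, mix_zero, mix_full]
  simp only [hpt, ctr, Pi.single_apply]
  congr 1
  · exact if_congr eq_comm rfl rfl
  · exact if_congr eq_comm rfl rfl

theorem hbd_Pth_closed (hD : 0 < D) (a : Vt M → A D) (y : Ed M → ZMod 2) (hy : bd y = 0) :
    hbd (Pth a y) = 0 := by
  rw [hbd_Pth hD, hy]
  funext h
  simp

theorem hbd_Pth_path (hD : 0 < D) (a : Vt M → A D) (y : Ed M → ZMod 2) (s t : Vt M)
    (hy : bd y = pt s + pt t) :
    hbd (Pth a y) = hpt (ctr a s) + hpt (ctr a t) := by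
  rw [hbd_Pth hD, hy]
  funext h
  simp only [Pi.add_apply, add_mul, Finset.sum_add_distrib, pt, Pi.single_apply, ite_mul, one_mul,
    zero_mul, Finset.sum_ite_eq', Finset.mem_univ, if_true]

/-- handshake: the total boundary vanishes -/
theorem sum_hbd (x : Xt M D → ZMod 2) : ∑ h, hbd x h = 0 := by
  unfold hbd
  rw [Finset.sum_comm]
  refine Finset.sum_eq_zero fun u _ => ?_
  simp only [Finset.sum_add_distrib, Finset.sum_ite_eq, Finset.mem_univ, if_true]
  exact CharTwo.add_self_eq_zero _

theorem exists_hbd_ne (hD : 0 < D) {v v' : Vt M} (hne : v ≠ v') (w w' : A D) :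
    ∃ x : Xt M D → ZMod 2, hbd x = hpt (HV.cen v w) + hpt (HV.cen v' w') := by
  have hM : 0 < M := Nat.pos_of_ne_zero (NeZero.ne M)
  obtain ⟨γ, hγ, -⟩ := exists_path (∅ : Finset (J M)) (by rw [Finset.card_empty]; exact hM) v v'
    (Or.inl fun q hq => absurd hq (Finset.notMem_empty q))
    (Or.inl fun q hq => absurd hq (Finset.notMem_empty q))
  refine ⟨Pth (fun u => if u = v then w else w') γ, ?_⟩
  rw [hbd_Pth_path hD _ γ v v' hγ]
  simp only [ctr, if_true, if_neg hne.symm]

/-- the host graph is connected: every pair of centers is the boundary of some chain -/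
theorem exists_hbd (hD : 0 < D) (v v' : Vt M) (w w' : A D) :
    ∃ x : Xt M D → ZMod 2, hbd x = hpt (HV.cen v w) + hpt (HV.cen v' w') := by
  by_cases hne : v = v'
  · subst hne
    have h1 : v ≠ (v.1, !v.2) := by
      intro h
      have := congrArg Prod.snd h
      simp at this
    obtain ⟨x1, hx1⟩ := exists_hbd_ne hD h1 w w
    obtain ⟨x2, hx2⟩ := exists_hbd_ne hD h1.symm w w'
    refine ⟨x1 + x2, ?_⟩
    rw [hbd_add, hx1, hx2]
    funext h
    simp only [Pi.add_apply]
    have := CharTwo.add_self_eq_zero (hpt (HV.cen (v.1, !v.2) w) h)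
    linear_combination this
  · exact exists_hbd_ne hD hne w w'

end

end Fr56
end

section

/-!
Local semantics: states can be moved; quietness and values persist.
-/

set_option linter.unusedSectionVars false

namespace Fr56

open Finset
open scoped Classical

section
variable {M D : ℕ} [NeZero M]

/-- the restricted fragment depends only on its live edges -/
theorem ev_congr_live (α : Xt M D → ZMod 2) (a : Vt M → A D) (R : Fm (Xt M D ⊕ Bool))
    (y y' : Ed M → ZMod 2) (h : ∀ e ∈ Live a R, y e = y' e) (z : Bool → Bool) :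
    ev (α + Pth a y) z R = ev (α + Pth a y') z R := by
  unfold ev
  apply Fm.eval_congr
  intro v hv
  cases v with
  | inr b => rfl
  | inl u =>
    simp only [Sum.elim_inl, Pi.add_apply, Pth]
    by_cases hl : live a u
    · rw [if_pos hl, if_pos hl, h u.e ⟨u, hv, rfl, hl⟩]
    · rw [if_neg hl, if_neg hl]

theorem Ok.mono {v0 : Vt M} {U U' : Finset (J M)} (h : U ⊆ U') {y : Ed M → ZMod 2}
    (hy : Ok v0 U' y) : Ok v0 U y := by
  obtain ⟨t, ht, hf⟩ := hy
  exact ⟨t, ht, hf.mono h⟩

theorem inc_mono {U U' : Finset (J M)} (h : U ⊆ U') : inc U ⊆ inc U' := by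
  intro e he
  rcases he with he | he
  · exact Or.inl (h he)
  · exact Or.inr (h he)

theorem Agree.refl (U : Finset (J M)) (y : Ed M → ZMod 2) : Agree U y y := fun _ _ => rfl

theorem Agree.trans {U : Finset (J M)} {y y' y'' : Ed M → ZMod 2} (h : Agree U y y')
    (h' : Agree U y' y'') : Agree U y y'' := fun e he => (h e he).trans (h' e he)

theorem Agree.symm {U : Finset (J M)} {y y' : Ed M → ZMod 2} (h : Agree U y y') :
    Agree U y' y := fun e he => (h e he).symm

theorem Agree.mono {U U' : Finset (J M)} (h : U ⊆ U') {y y' : Ed M → ZMod 2}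
    (hy : Agree U' y y') : Agree U y y' := fun e he => hy e (inc_mono h he)

theorem locA_add_self {β : Type} (f : β → ZMod 2) : f + f = 0 := by
  funext b
  exact CharTwo.add_self_eq_zero (f b)

theorem exists_ok (v0 : Vt M) : ∃ y, Ok v0 ∅ y := by
  refine ⟨0, v0, ?_, Or.inl ?_⟩
  · rw [bd_zero, locA_add_self]
  · intro q hq
    simp at hq

/-- moving the violated vertex: from a state over `S` to a state over a larger set `S'`, changing
only edges with both ends over free points of `S` -/
theorem exists_move (v0 : Vt M) (S S' : Finset (J M)) (hS : S ⊆ S') (hcard : S'.card < M)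
    (y : Ed M → ZMod 2) (hy : Ok v0 S y) :
    ∃ y', Ok v0 S' y' ∧ ∀ e, y' e ≠ y e → Free S (src e).1 ∧ Free S (tgt e).1 := by
  obtain ⟨t, ht, hf⟩ := hy
  obtain ⟨p, hp⟩ := exists_free S' hcard
  have hSM : S.card < M := lt_of_le_of_lt (card_le_card hS) hcard
  obtain ⟨γ, hγ, hsupp⟩ := exists_path S hSM t (p, false) hf (hp.mono hS)
  refine ⟨y + γ, ⟨(p, false), ?_, hp⟩, ?_⟩
  · rw [bd_add, ht, hγ]
    calc pt v0 + pt t + (pt t + pt (p, false)) = pt v0 + (pt t + pt t) + pt (p, false) := by
          abel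
      _ = pt v0 + pt (p, false) := by rw [locA_add_self, add_zero]
  · intro e he
    apply hsupp
    intro h0
    apply he
    simp [h0]

/-- edges with both ends over free points do not touch the set -/
theorem not_inc_of_free {S : Finset (J M)} {e : Ed M} (h : Free S (src e).1 ∧ Free S (tgt e).1) :
    e ∉ inc S := by
  rintro (he | he)
  · exact not_free_of_mem he h.1
  · exact not_free_of_mem he h.2

/-- edges of `Lam` have their coarse points in `cLam` -/
theorem not_lam_of_free {a : Vt M → A D} {U : Finset (J M)} {R : Fm (Xt M D ⊕ Bool)} {e : Ed M}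
    (h : Free (U ∪ cLam a U R) (src e).1) : e ∉ Lam a U R := by
  intro he
  refine not_free_of_mem (mem_union_right _ ?_) h
  unfold cLam
  rw [mem_filter]
  exact ⟨mem_univ _, e, he, by simp [crs]⟩

theorem Lam_anti {a : Vt M → A D} {U U' : Finset (J M)} (h : U ⊆ U') (R : Fm (Xt M D ⊕ Bool)) :
    Lam a U' R ⊆ Lam a U R := by
  rintro e ⟨h1, h2⟩
  exact ⟨h1, fun h3 => h2 (inc_mono h h3)⟩

theorem locA_cLam_anti {a : Vt M → A D} {U U' : Finset (J M)} (h : U ⊆ U') (R : Fm (Xt M D ⊕ Bool)) :
    cLam a U' R ⊆ cLam a U R := by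
  intro p hp
  unfold cLam at hp ⊢
  rw [mem_filter] at hp ⊢
  obtain ⟨_, e, he, hpe⟩ := hp
  exact ⟨mem_univ _, e, Lam_anti h R he, hpe⟩

theorem locA_crs_sub_Nb {e : Ed M} {v : Vt M} (h : Inci e v) : crs e ⊆ Nb v.1 := by
  obtain ⟨p, i⟩ := v
  rw [inci_iff] at h
  intro q hq
  unfold crs at hq
  rw [mem_insert, mem_singleton] at hq
  unfold Nb
  rw [mem_insert, mem_image]
  rcases h with rfl | ⟨δ, rfl⟩
  · left
    rcases hq with rfl | rfl <;> rfl
  · obtain ⟨d, s⟩ := δ
    cases s
    · simp only [sedge, Bool.false_eq_true, if_false, src, tgt] at hq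
      rcases hq with rfl | rfl
      · right
        exact ⟨(d, false), mem_univ _, by simp [nb]⟩
      · left
        exact sub_add_cancel _ _
    · simp only [sedge, if_true, src, tgt] at hq
      rcases hq with rfl | rfl
      · left; rfl
      · right
        exact ⟨(d, true), mem_univ _, by simp [nb]⟩

/-- if the live edges form a star then they lie over at most `5` points -/
theorem card_cLam (hM : Even M) (a : Vt M → A D) (U : Finset (J M)) (R : Fm (Xt M D ⊕ Bool))
    (h : ∀ e ∈ Lam a U R, ∀ f ∈ Lam a U R, ¬ VDisj e f) : (cLam a U R).card ≤ 5 := by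
  obtain ⟨v, hv⟩ := star_lemma hM (Lam a U R) h
  refine le_trans (card_le_card ?_) (card_Nb v.1)
  intro p hp
  unfold cLam at hp
  rw [mem_filter] at hp
  obtain ⟨_, e, he, hpe⟩ := hp
  exact locA_crs_sub_Nb (hv e he) hpe

/-- a state over `U' ∪ cLam a U' R` can be moved to a state over `U' ∪ cLam a U R` without changing
the edges at `U'` and the live edges -/
theorem locA_move_aux (hM : Even M) (v0 : Vt M) (α : Xt M D → ZMod 2) (a : Vt M → A D)
    (R : Fm (Xt M D ⊕ Bool)) (U U' : Finset (J M)) (hU : U ⊆ U')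
    (hcard : U'.card + 10 < M) (hstar : ∀ e ∈ Lam a U R, ∀ f ∈ Lam a U R, ¬ VDisj e f)
    (y1 : Ed M → ZMod 2) (hok : Ok v0 (U' ∪ cLam a U' R) y1) :
    ∃ y2, Ok v0 (U' ∪ cLam a U R) y2 ∧ Agree U' y1 y2 ∧
      ∀ z, ev (α + Pth a y1) z R = ev (α + Pth a y2) z R := by
  have hc : (U' ∪ cLam a U R).card < M := by
    have h1 := card_union_le U' (cLam a U R)
    have h2 := card_cLam hM a U R hstar
    omega
  have hsub : U' ∪ cLam a U' R ⊆ U' ∪ cLam a U R := union_subset_union_right (locA_cLam_anti hU R)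
  obtain ⟨y2, hy2, hch⟩ := exists_move v0 _ _ hsub hc y1 hok
  have hU'ch : ∀ e, y2 e ≠ y1 e → e ∉ inc U' := by
    intro e he hi
    have := not_inc_of_free (hch e he)
    exact this (inc_mono subset_union_left hi)
  refine ⟨y2, hy2, ?_, ?_⟩
  · intro e he
    by_contra hne
    exact hU'ch e (fun h => hne h.symm) he
  · intro z
    apply ev_congr_live
    intro e he
    by_contra hne
    have hne' : y2 e ≠ y1 e := fun h => hne h.symm
    have h1 := hU'ch e hne'
    exact not_lam_of_free (hch e hne').1 ⟨he, h1⟩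

/-- quietness and local values of a fragment persist -/
theorem quietR_mono (hM : Even M) (v0 : Vt M) (α : Xt M D → ZMod 2) (a : Vt M → A D)
    (R : Fm (Xt M D ⊕ Bool)) (U U' : Finset (J M)) (y y' : Ed M → ZMod 2) (hU : U ⊆ U')
    (hcard : U'.card + 10 < M) (hq : QuietR v0 α a R U y) (hag : Agree U y y')
    (hok : Ok v0 U' y') :
    QuietR v0 α a R U' y' ∧ cval v0 α a U' y' R = cval v0 α a U y R := by
  obtain ⟨hstar, hq2⟩ := hq
  -- transfer of tests
  have key : ∀ y1, Test v0 a U' y' R y1 → ∃ y2, Test v0 a U y R y2 ∧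
      ∀ z, ev (α + Pth a y1) z R = ev (α + Pth a y2) z R := by
    rintro y1 ⟨h1, h2⟩
    obtain ⟨y2, hy2, hag2, hev⟩ := locA_move_aux hM v0 α a R U U' hU hcard hstar y1 h2
    refine ⟨y2, ⟨?_, ?_⟩, hev⟩
    · exact hag.trans ((h1.trans hag2).mono hU)
    · exact hy2.mono (union_subset_union_left hU)
  have hstar' : ∀ e ∈ Lam a U' R, ∀ f ∈ Lam a U' R, ¬ VDisj e f :=
    fun e he f hf => hstar e (Lam_anti hU R he) f (Lam_anti hU R hf)
  refine ⟨⟨hstar', ?_⟩, ?_⟩
  · intro y1 y2 h1 h2 z
    obtain ⟨w1, hw1, he1⟩ := key y1 h1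
    obtain ⟨w2, hw2, he2⟩ := key y2 h2
    rw [he1, he2]
    exact hq2 w1 w2 hw1 hw2 z
  · -- a test at `(U', y')` exists
    obtain ⟨y1, hy1⟩ : ∃ y1, Test v0 a U' y' R y1 := by
      have hc : (U' ∪ cLam a U' R).card < M := by
        have h1 := card_union_le U' (cLam a U' R)
        have h2 := card_cLam hM a U' R hstar'
        omega
      obtain ⟨y1, hy1, hch⟩ := exists_move v0 U' (U' ∪ cLam a U' R) subset_union_left hc y' hok
      refine ⟨y1, ?_, hy1⟩
      intro e he
      by_contra hne
      exact not_inc_of_free (hch e (fun h => hne h.symm)) he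
    obtain ⟨w1, hw1, he1⟩ := key y1 hy1
    funext z
    unfold cval
    rw [decide_eq_decide]
    constructor
    · rintro ⟨y2, hy2, hv⟩
      obtain ⟨w2, hw2, he2⟩ := key y2 hy2
      exact ⟨w2, hw2, by rw [← he2, hv]⟩
    · rintro ⟨w2, hw2, hv⟩
      refine ⟨y1, hy1, ?_⟩
      rw [he1, hq2 w1 w2 hw1 hw2, hv]

theorem quiet_mono (hM : Even M) (l : ℕ) (v0 : Vt M) (α : Xt M D → ZMod 2) (a : Vt M → A D)
    (f : Fm (Xt M D)) (U U' : Finset (J M)) (y y' : Ed M → ZMod 2) (hU : U ⊆ U')
    (hcard : U'.card + 10 < M) (hq : Quiet l v0 α a f U y) (hag : Agree U y y')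
    (hok : Ok v0 U' y') :
    Quiet l v0 α a f U' y' ∧ val l v0 α a f U' y' = val l v0 α a f U y := by
  refine ⟨fun R hR => (quietR_mono hM v0 α a R U U' y y' hU hcard (hq R hR) hag hok).1, ?_⟩
  unfold val
  apply fval_congr
  intro R hR
  exact (quietR_mono hM v0 α a R U U' y y' hU hcard (hq R hR) hag hok).2

end

end Fr56
end

section

/-!
Tseitin CNF: semantics.
-/

set_option linter.unusedSectionVars false

namespace Fr56

open Finset
open scoped Classical

private theorem disj_vars {V : Type} (d : Fm V) (l : List (Fm V)) (hl : l ≠ []) (v : V) :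
    v ∈ (Fm.disj d l).vars ↔ ∃ f ∈ l, v ∈ f.vars := by
  induction l with
  | nil => exact absurd rfl hl
  | cons f l ih =>
    cases l with
    | nil => simp [Fm.disj]
    | cons g l =>
      have h := ih (by simp)
      simp only [Fm.disj, Fm.vars, Set.mem_union]
      rw [h]
      simp

private theorem disj_eval {V : Type} (d : Fm V) (l : List (Fm V)) (hl : l ≠ []) (x : V → Bool) :
    (Fm.disj d l).eval x = true ↔ ∃ f ∈ l, f.eval x = true := by
  induction l with
  | nil => exact absurd rfl hl
  | cons f l ih =>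
    cases l with
    | nil => simp [Fm.disj]
    | cons g l =>
      have h := ih (by simp)
      simp only [Fm.disj, Fm.eval, Bool.or_eq_true]
      rw [h]
      simp

private theorem conj_eval {V : Type} (d : Fm V) (l : List (Fm V)) (hl : l ≠ []) (x : V → Bool) :
    (Fm.conj d l).eval x = true ↔ ∀ f ∈ l, f.eval x = true := by
  induction l with
  | nil => exact absurd rfl hl
  | cons f l ih =>
    cases l with
    | nil => simp [Fm.conj]
    | cons g l =>
      have h := ih (by simp)
      simp only [Fm.conj, Fm.eval, Bool.and_eq_true]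
      rw [h]
      simp

private theorem conj_ind {V : Type} (d F : Fm V) (P : Fm V → Prop) (l : List (Fm V)) (hl : l ≠ [])
    (hs : Fm.conj d l ∈ F.subs) (h1 : ∀ f ∈ l, f ∈ F.subs → P f)
    (h2 : ∀ f g, P f → P g → Fm.and f g ∈ F.subs → P (Fm.and f g)) : P (Fm.conj d l) := by
  induction l with
  | nil => exact absurd rfl hl
  | cons f l ih =>
    cases l with
    | nil => exact h1 f (by simp) hs
    | cons g l =>
      have hf : f ∈ F.subs := Fm.subs_trans (by
        simp only [Fm.conj, Fm.subs, List.mem_cons, List.mem_append]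
        exact Or.inr (Or.inl (Fm.self_mem_subs f))) hs
      have hg : Fm.conj d (g :: l) ∈ F.subs := Fm.subs_trans (by
        simp only [Fm.conj, Fm.subs, List.mem_cons, List.mem_append]
        exact Or.inr (Or.inr (Fm.self_mem_subs _))) hs
      exact h2 _ _ (h1 f (by simp) hf)
        (ih (by simp) hg fun f' hf' => h1 f' (List.mem_cons_of_mem _ hf')) hs

variable {M D : ℕ} [NeZero M]

/-- the variables of a clause at `h` are the edges at `h` -/
theorem clause_vars (u0 : Xt M D) (h : HV M D) (T : Finset (Xt M D)) (hh : (star h).Nonempty)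
    (u : Xt M D) : u ∈ (clause u0 h T).vars ↔ u ∈ star h := by
  unfold clause
  rw [disj_vars]
  · simp only [List.mem_map, Finset.mem_toList]
    constructor
    · rintro ⟨f, ⟨w, hw, rfl⟩, hu⟩
      split_ifs at hu
      · have : u = w := hu
        rw [this]; exact hw
      · have : u = w := hu
        rw [this]; exact hw
    · intro hu
      refine ⟨_, ⟨u, hu, rfl⟩, ?_⟩
      split_ifs
      · exact rfl
      · exact rfl
  · obtain ⟨w, hw⟩ := hh
    intro hnil
    rw [List.map_eq_nil_iff, Finset.toList_eq_nil] at hnil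
    rw [hnil] at hw
    simp at hw

private theorem clause_eval (u0 : Xt M D) (h : HV M D) (T : Finset (Xt M D))
    (hh : (star h).Nonempty) (x : Xt M D → Bool) :
    (clause u0 h T).eval x = true ↔ ∃ u ∈ star h, ¬ (u ∈ T ↔ x u = true) := by
  unfold clause
  rw [disj_eval]
  · simp only [List.mem_map, Finset.mem_toList]
    constructor
    · rintro ⟨f, ⟨w, hw, rfl⟩, hu⟩
      refine ⟨w, hw, ?_⟩
      split_ifs at hu with h1
      · simp only [Fm.eval, Bool.not_eq_true'] at hu
        rw [hu]
        simp [h1]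
      · simp only [Fm.eval] at hu
        rw [hu]
        simp [h1]
    · rintro ⟨w, hw, hn⟩
      refine ⟨_, ⟨w, hw, rfl⟩, ?_⟩
      split_ifs with h1
      · simp only [Fm.eval, Bool.not_eq_true']
        by_contra hc
        rw [Bool.not_eq_false] at hc
        exact hn (by simp [h1, hc])
      · simp only [Fm.eval]
        by_contra hc
        exact hn (by simp [h1, hc])
  · obtain ⟨w, hw⟩ := hh
    intro hnil
    rw [List.map_eq_nil_iff, Finset.toList_eq_nil] at hnil
    rw [hnil] at hw
    simp at hw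

private theorem hsrc_ne_htgt (hD : 2 ≤ D) (u : Xt M D) : hsrc u ≠ htgt u := by
  unfold hsrc htgt hv
  have hi := u.i.isLt
  by_cases h0 : (u.i : ℕ) = 0
  · rw [if_pos h0, if_neg (by omega), dif_pos (by omega)]
    exact fun h => by cases h
  · rw [if_neg h0, dif_pos hi, if_neg (by omega)]
    by_cases h1 : (u.i : ℕ) + 1 < D
    · rw [dif_pos h1]
      intro h
      injection h with h2 h3 h4
      have := congrArg Fin.val h3
      simp at this
    · rw [dif_neg h1]
      exact fun h => by cases h

private theorem hbd_eq (hD : 2 ≤ D) (x : Xt M D → ZMod 2) (h : HV M D) :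
    hbd x h = ∑ u ∈ star h, x u := by
  unfold hbd star
  rw [Finset.sum_filter]
  refine Finset.sum_congr rfl fun u _ => ?_
  have := hsrc_ne_htgt hD u
  by_cases h1 : hsrc u = h
  · have h2 : htgt u ≠ h := fun h2 => this (h1.trans h2.symm)
    simp [h1, h2]
  · simp [h1]

private theorem zmod2_cases (c : ZMod 2) : c = 0 ∨ c = 1 := by
  revert c; decide

private theorem hbd_eq_card (hD : 2 ≤ D) (x : Xt M D → ZMod 2) (h : HV M D) :
    hbd x h = (((star h).filter fun u => x u ≠ 0).card : ZMod 2) := by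
  rw [hbd_eq hD, Finset.card_filter, Nat.cast_sum]
  refine Finset.sum_congr rfl fun u _ => ?_
  rcases zmod2_cases (x u) with hu | hu
  · simp [hu]
  · simp [hu]

/-- a clause at `h` holds whenever the parity constraint at `h` does -/
theorem clause_true (hD : 2 ≤ D) (u0 : Xt M D) (h0 : HV M D) (p : HV M D × Finset (Xt M D))
    (hp : p ∈ clauses h0) (x : Xt M D → ZMod 2) (hx : hbd x p.1 = chg h0 p.1) :
    (clause u0 p.1 p.2).eval (fun u => tb (x u)) = true := by
  unfold clauses at hp
  rw [Finset.mem_filter] at hp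
  obtain ⟨_, hsub, hne, hcard⟩ := hp
  rw [clause_eval _ _ _ hne]
  by_contra hcon
  push Not at hcon
  apply hcard
  rw [← hx, hbd_eq_card hD]
  congr 2
  ext u
  rw [Finset.mem_filter]
  constructor
  · intro hu
    refine ⟨hsub hu, ?_⟩
    have := (hcon u (hsub hu)).1 hu
    simpa [tb] using this
  · rintro ⟨hu1, hu2⟩
    exact (hcon u hu1).2 (by simpa [tb] using hu2)

private theorem clauses_ne (h0 : HV M D) (h : (star h0).Nonempty) (u0 : Xt M D) :
    ((clauses h0).toList.map fun p => clause u0 p.1 p.2) ≠ [] := by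
  intro hnil
  rw [List.map_eq_nil_iff, Finset.toList_eq_nil] at hnil
  have : ((h0, ∅) : HV M D × Finset (Xt M D)) ∈ clauses h0 := by
    unfold clauses
    rw [Finset.mem_filter]
    refine ⟨Finset.mem_univ _, Finset.empty_subset _, h, ?_⟩
    simp [chg]
  rw [hnil] at this
  simp at this

theorem Fts_unsat (hD : 2 ≤ D) (u0 : Xt M D) (h0 : HV M D) (h : (star h0).Nonempty) :
    (Fts u0 h0).Unsat := by
  intro x
  by_contra hne
  rw [Bool.not_eq_false] at hne
  unfold Fts at hne
  rw [conj_eval _ _ (clauses_ne h0 h u0)] at hne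
  let x' : Xt M D → ZMod 2 := fun u => if x u = true then 1 else 0
  have hx' : ∀ u, x' u ≠ 0 ↔ x u = true := by
    intro u
    by_cases hu : x u = true
    · simp [x', hu]
    · simp [x', hu]
  have key : ∀ h' : HV M D, hbd x' h' = chg h0 h' := by
    intro h'
    by_cases hs : (star h').Nonempty
    · rw [hbd_eq_card hD]
      by_contra hcard
      have hmem : ((h', (star h').filter fun u => x' u ≠ 0) : HV M D × Finset (Xt M D)) ∈
          clauses h0 := by
        unfold clauses
        rw [Finset.mem_filter]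
        exact ⟨Finset.mem_univ _, Finset.filter_subset _ _, hs, hcard⟩
      have hev := hne _ (List.mem_map.2 ⟨_, Finset.mem_toList.2 hmem, rfl⟩)
      rw [clause_eval _ _ _ hs] at hev
      obtain ⟨u, hu, hn⟩ := hev
      apply hn
      rw [Finset.mem_filter, hx']
      exact ⟨fun hh => hh.2, fun hh => ⟨hu, hh⟩⟩
    · rw [hbd_eq hD]
      rw [Finset.not_nonempty_iff_eq_empty] at hs
      rw [hs, Finset.sum_empty]
      have : h' ≠ h0 := by
        rintro rfl
        rw [hs] at h
        simp at h
      simp [chg, this]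
  have hsum := sum_hbd x'
  rw [Finset.sum_congr rfl fun h' _ => key h'] at hsum
  simp [chg] at hsum

/-- conjunctions: a property inherited by conjunctions holds for `Fts` if it holds for clauses -/
theorem Fts_induction (u0 : Xt M D) (h0 : HV M D) (h : (star h0).Nonempty)
    (P : Fm (Xt M D) → Prop)
    (hcl : ∀ p ∈ clauses h0, clause u0 p.1 p.2 ∈ (Fts u0 h0).subs → P (clause u0 p.1 p.2)) (hand : ∀ f g, P f → P g →
      Fm.and f g ∈ (Fts u0 h0).subs → P (Fm.and f g)) :
    P (Fts u0 h0) := by
  refine conj_ind (.var u0) (Fts u0 h0) P _ (clauses_ne h0 h u0) (Fm.self_mem_subs _) ?_ hand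
  intro f hf hs
  obtain ⟨p, hp, rfl⟩ := List.mem_map.1 hf
  exact hcl p (Finset.mem_toList.1 hp) hs

end Fr56
end
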