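import Pool.Agent.Lib.MP_51bb46_lc.B.LocalB
import Pool.Agent.Lib.MP_51bb46_lc.B.TseitinA
import Pool.Agent.Lib.MP_51bb46_lc.B.Sens
import Pool.Agent.Lib.MP_51bb46_lc.B.SensB
import Pool.Agent.Lib.MP_51bb46_lc.B.Sound
import Pool.Agent.Lib.MP_51bb46_lc.B.Numeric

section

/-!
The weights of M-steps and S-steps.
-/

set_option linter.unusedSectionVars false

namespace Fr56

open Finset
open scoped Classical

/-- the number of variables of a fragment is at most the number of its variable leaves -/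
theorem card_vars_le {X : Type} [Fintype X] (R : Fm (X ⊕ Bool)) :
    (univ.filter fun u : X => Sum.inl u ∈ R.vars).card ≤ vl2 R := by
  induction R with
  | var v =>
    cases v with
    | inl x =>
      have : (univ.filter fun u : X => (Sum.inl u : X ⊕ Bool) ∈ (Fm.var (Sum.inl x)).vars) ⊆ {x} := by
        intro u hu
        simp only [Fm.vars, Set.mem_singleton_iff, Sum.inl.injEq, mem_filter, mem_univ,
          true_and] at hu
        simp [hu]
      exact (card_le_card this).trans (by simp [vl2])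
    | inr b =>
      have : (univ.filter fun u : X => (Sum.inl u : X ⊕ Bool) ∈ (Fm.var (Sum.inr b)).vars) = ∅ := by
        ext u
        simp [Fm.vars]
      rw [this]
      simp
  | neg f ih => exact ih
  | and f g ihf ihg =>
    have : (univ.filter fun u : X => (Sum.inl u : X ⊕ Bool) ∈ (Fm.and f g).vars) ⊆
        (univ.filter fun u : X => Sum.inl u ∈ f.vars) ∪
        (univ.filter fun u : X => Sum.inl u ∈ g.vars) := by
      intro u hu
      simpa [Fm.vars] using hu
    refine (card_le_card this).trans ((card_union_le _ _).trans ?_)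
    simp only [vl2]
    omega
  | or f g ihf ihg =>
    have : (univ.filter fun u : X => (Sum.inl u : X ⊕ Bool) ∈ (Fm.or f g).vars) ⊆
        (univ.filter fun u : X => Sum.inl u ∈ f.vars) ∪
        (univ.filter fun u : X => Sum.inl u ∈ g.vars) := by
      intro u hu
      simpa [Fm.vars] using hu
    refine (card_le_card this).trans ((card_union_le _ _).trans ?_)
    simp only [vl2]
    omega

section
variable {M D : ℕ} [NeZero M]

theorem mWt_le (hM : 2 ≤ M) (R : Fm (Xt M D ⊕ Bool)) : mWt R ≤ ((vl2 R : ℝ) / 2 ^ D) ^ 2 := by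
  set S : Finset (Xt M D) := univ.filter fun u => Sum.inl u ∈ R.vars with hS
  have hcard : (S.card : ℝ) ≤ vl2 R := by exact_mod_cast card_vars_le R
  have key : ∀ e f : Ed M, (if VDisj e f then
      pr (fun a : Vt M → A D => e ∈ Live a R ∧ f ∈ Live a R) else 0) ≤
      ∑ u ∈ S, ∑ u' ∈ S, if u.e = e ∧ u'.e = f then (1 / 2 ^ D : ℝ) * (1 / 2 ^ D) else 0 := by
    intro e f
    split_ifs with hef
    · have h1 : pr (fun a : Vt M → A D => e ∈ Live a R ∧ f ∈ Live a R) ≤
          pr (fun a : Vt M → A D => ∃ q ∈ S ×ˢ S, (q.1.e = e ∧ q.2.e = f) ∧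
            (live a q.1 ∧ live a q.2)) := by
        apply pr_mono
        rintro a ⟨⟨u, hu, hue, hul⟩, ⟨u', hu', hue', hul'⟩⟩
        refine ⟨(u, u'), ?_, ⟨hue, hue'⟩, hul, hul'⟩
        simp [hS, hu, hu']
      refine h1.trans ((pr_exists_le _ _).trans ?_)
      rw [Finset.sum_product]
      refine Finset.sum_le_sum fun u _ => Finset.sum_le_sum fun u' _ => ?_
      by_cases hc : u.e = e ∧ u'.e = f
      · rw [if_pos hc]
        have hvd : VDisj u.e u'.e := by rw [hc.1, hc.2]; exact hef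
        refine (pr_mono ?_).trans (pr_live_live hM u u' hvd)
        rintro a ⟨_, h⟩
        exact h
      · rw [if_neg hc]
        have : pr (fun a : Vt M → A D => (u.e = e ∧ u'.e = f) ∧ (live a u ∧ live a u')) =
            pr (fun _ : Vt M → A D => False) := pr_congr fun a => by simp [hc]
        have h2 := this
        rw [pr_false] at h2
        exact h2.le
    · exact Finset.sum_nonneg fun u _ => Finset.sum_nonneg fun u' _ => by
        split_ifs <;> positivity
  have h2 : mWt R ≤ ∑ e : Ed M, ∑ f : Ed M, ∑ u ∈ S, ∑ u' ∈ S,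
      if u.e = e ∧ u'.e = f then (1 / 2 ^ D : ℝ) * (1 / 2 ^ D) else 0 := by
    unfold mWt
    exact Finset.sum_le_sum fun e _ => Finset.sum_le_sum fun f _ => key e f
  refine h2.trans ?_
  have h3 : ∑ e : Ed M, ∑ f : Ed M, ∑ u ∈ S, ∑ u' ∈ S,
      (if u.e = e ∧ u'.e = f then (1 / 2 ^ D : ℝ) * (1 / 2 ^ D) else 0) =
      ∑ u ∈ S, ∑ u' ∈ S, ∑ e : Ed M, ∑ f : Ed M,
      (if u.e = e ∧ u'.e = f then (1 / 2 ^ D : ℝ) * (1 / 2 ^ D) else 0) := by
    rw [Finset.sum_congr rfl fun e _ => Finset.sum_comm (s := univ) (t := S)]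
    rw [Finset.sum_comm (s := univ) (t := S)]
    refine Finset.sum_congr rfl fun u _ => ?_
    rw [Finset.sum_congr rfl fun e _ => Finset.sum_comm (s := univ) (t := S)]
    rw [Finset.sum_comm (s := univ) (t := S)]
  rw [h3]
  have h4 : ∀ u u' : Xt M D, ∑ e : Ed M, ∑ f : Ed M,
      (if u.e = e ∧ u'.e = f then (1 / 2 ^ D : ℝ) * (1 / 2 ^ D) else 0) =
      (1 / 2 ^ D : ℝ) * (1 / 2 ^ D) := by
    intro u u'
    rw [Finset.sum_eq_single u.e]
    · rw [Finset.sum_eq_single u'.e]
      · simp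
      · intro f _ hf
        rw [if_neg]
        rintro ⟨_, h⟩
        exact hf h.symm
      · simp
    · intro e _ he
      apply Finset.sum_eq_zero
      intro f _
      rw [if_neg]
      rintro ⟨h, _⟩
      exact he h.symm
    · simp
  simp only [h4, Finset.sum_const, nsmul_eq_mul]
  have h5 : (S.card : ℝ) * (S.card * (1 / 2 ^ D * (1 / 2 ^ D))) = (S.card / 2 ^ D) ^ 2 := by
    field_simp
  rw [h5]
  gcongr

/-- index set of the translated stars in one class -/
abbrev Ix (M D : ℕ) [NeZero M] (c : ZMod 4 × ZMod 4) := {p : J M // cls p = c} × A D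

/-- the translated stars -/
noncomputable def mst (s : Vt M → A D) (σ : Finset (Bool × Bool)) (c : ZMod 4 × ZMod 4)
    (i : Ix M D c) : Xt M D → ZMod 2 := Pth (fun v => i.2 + s v) (Dcl i.1.1 σ)

/-- the supports of the translated stars are disjoint -/
theorem mst_disj (hM : 4 ∣ M) (s : Vt M → A D) (σ : Finset (Bool × Bool))
    (c : ZMod 4 × ZMod 4) (i i' : Ix M D c) (x : Xt M D) (h : mst s σ c i x ≠ 0)
    (h' : mst s σ c i' x ≠ 0) : i = i' := by
  obtain ⟨⟨p, hp⟩, j⟩ := i
  obtain ⟨⟨p', hp'⟩, j'⟩ := i'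
  simp only [mst, Pth, ne_eq, ite_eq_right_iff, Classical.not_imp] at h h'
  obtain ⟨hl, hd⟩ := h
  obtain ⟨hl', hd'⟩ := h'
  have mem : ∀ q : J M, Dcl q σ x.e ≠ 0 → (src x.e).1 ∈ Nb q := by
    intro q hq
    rcases (Dcl_supp q σ x.e hq).1 with h1 | ⟨δ, _, h1⟩
    · rw [h1]; simp [Nb]
    · rw [h1]; simp [Nb]
  have hpp : p = p' := by
    by_contra hne
    exact (Finset.disjoint_left.1 (Nb_disjoint hM hne (hp.trans hp'.symm))) (mem p hd) (mem p' hd')
  subst hpp
  have hjj : j = j' := live_translate s j j' x hl hl'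
  subst hjj
  rfl

/-- sum of the stars selected by `y` -/
noncomputable def shf (s : Vt M → A D) (σ : Finset (Bool × Bool)) (c : ZMod 4 × ZMod 4)
    (y : Ix M D c → Bool) : Xt M D → ZMod 2 := ∑ i, if y i then mst s σ c i else 0

theorem hbd_mst (hD : 0 < D) (s : Vt M → A D) (σ : Finset (Bool × Bool)) (c : ZMod 4 × ZMod 4)
    (i : Ix M D c) : hbd (mst s σ c i) = 0 := hbd_Pth_closed hD _ _ (bd_Dcl _ _)

theorem hbd_shf (hD : 0 < D) (s : Vt M → A D) (σ : Finset (Bool × Bool)) (c : ZMod 4 × ZMod 4)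
    (y : Ix M D c → Bool) : hbd (shf s σ c y) = 0 := by
  unfold shf
  have : ∀ S : Finset (Ix M D c), hbd (∑ i ∈ S, if y i then mst s σ c i else 0) = 0 := by
    intro S
    induction S using Finset.induction_on with
    | empty => simp [hbd_zero]
    | insert i S hi ih =>
      rw [Finset.sum_insert hi, hbd_add, ih, add_zero]
      split_ifs
      · exact hbd_mst hD s σ c i
      · exact hbd_zero
  exact this univ

theorem add_self_fun {X : Type} (f : X → ZMod 2) : f + f = 0 := by
  funext x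
  exact CharTwo.add_self_eq_zero _

theorem shf_flip (s : Vt M → A D) (σ : Finset (Bool × Bool)) (c : ZMod 4 × ZMod 4)
    (y : Ix M D c → Bool) (i : Ix M D c) :
    shf s σ c (flip i y) = shf s σ c y + mst s σ c i := by
  unfold shf
  rw [← Finset.add_sum_erase _ _ (Finset.mem_univ i),
    ← Finset.add_sum_erase univ (fun i => if y i then mst s σ c i else 0) (Finset.mem_univ i)]
  have h1 : ∑ x ∈ univ.erase i, (if flip i y x = true then mst s σ c x else 0) =
      ∑ x ∈ univ.erase i, (if y x = true then mst s σ c x else 0) := by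
    refine Finset.sum_congr rfl fun x hx => ?_
    have hxi : x ≠ i := Finset.ne_of_mem_erase hx
    simp [flip, Function.update_of_ne hxi]
  rw [h1]
  have h2 : flip i y i = !(y i) := by simp [flip]
  rw [h2]
  cases hy : y i
  · simp only [Bool.not_false, if_true]
    simp
    abel
  · simp only [Bool.not_true, if_true]
    have := add_self_fun (mst s σ c i)
    simp only [Bool.false_eq_true, if_false, zero_add]
    calc _ = (mst s σ c i + mst s σ c i) +
          ∑ x ∈ univ.erase i, (if y x = true then mst s σ c x else 0) := by rw [this, zero_add]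
      _ = _ := by abel

/-- value of the shift at a host edge -/
theorem shf_apply (hM : 4 ∣ M) (s : Vt M → A D) (σ : Finset (Bool × Bool))
    (c : ZMod 4 × ZMod 4) (x : Xt M D) :
    ∃ m : Option (Ix M D c), ∀ (y : Ix M D c → Bool) (β : Xt M D → ZMod 2),
      tb ((β + shf s σ c y) x) =
        xor (tb (β x)) (match m with | some i => y i | none => false) := by
  by_cases h : ∃ i, mst s σ c i x ≠ 0
  · obtain ⟨i, hi⟩ := h
    refine ⟨some i, fun y β => ?_⟩
    have h1 : shf s σ c y x = if y i then 1 else 0 := by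
      unfold shf
      rw [Finset.sum_apply, Finset.sum_eq_single i]
      · split_ifs with hy
        · have : ∀ t : ZMod 2, t ≠ 0 → t = 1 := by decide
          exact this _ hi
        · rfl
      · intro i' _ hii'
        split_ifs
        · by_contra hne
          exact hii' (mst_disj hM s σ c i' i x hne hi)
        · rfl
      · simp
    rw [Pi.add_apply, h1]
    have h2 : ∀ (t : ZMod 2) (b : Bool), tb (t + if b then 1 else 0) = xor (tb t) b := by
      unfold tb
      decide
    exact h2 _ _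
  · push Not at h
    refine ⟨none, fun y β => ?_⟩
    have h1 : shf s σ c y x = 0 := by
      unfold shf
      rw [Finset.sum_apply]
      apply Finset.sum_eq_zero
      intro i _
      split_ifs
      · exact h i
      · rfl
    rw [Pi.add_apply, h1]
    simp

/-- the number of translated stars that change the value of the fragment -/
noncomputable def hct (z : Bool → Bool) (R : Fm (Xt M D ⊕ Bool)) (σ : Finset (Bool × Bool))
    (c : ZMod 4 × ZMod 4) (β : Xt M D → ZMod 2) (s : Vt M → A D) : ℕ :=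
  (univ.filter fun i : Ix M D c => ev β z R ≠ ev (β + mst s σ c i) z R).card

/-- `hct` along the shifts is the sensitivity of a small formula -/
theorem hct_eq_sens (hM : 4 ∣ M) (z : Bool → Bool) (R : Fm (Xt M D ⊕ Bool))
    (σ : Finset (Bool × Bool)) (c : ZMod 4 × ZMod 4) (β : Xt M D → ZMod 2) (s : Vt M → A D) :
    ∃ g : SF (Ix M D c), g.leaves ≤ vl2 R ∧
      ∀ y : Ix M D c → Bool, g.sens y = hct z R σ c (β + shf s σ c y) s := by
  choose m hm using shf_apply hM s σ c
  obtain ⟨g, hg1, hg2⟩ := exists_sf R (fun x => tb (β x)) z m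
  refine ⟨g, hg1, fun y => ?_⟩
  have hev : ∀ y, g.eval y = ev (β + shf s σ c y) z R := by
    intro y
    rw [hg2 y]
    unfold ev
    congr 1
    congr 1
    funext x
    rw [hm x y β]
    cases m x <;> rfl
  unfold SF.sens sensf hct
  congr 1
  ext i
  simp only [mem_filter, mem_univ, true_and]
  rw [hev, hev, shf_flip, ← add_assoc]
  exact ne_comm

theorem sum_exp_hct (hM : 4 ∣ M) (hD : 0 < D) (κ : HV M D → ZMod 2) (R : Fm (Xt M D ⊕ Bool))
    (L : ℕ) (hR : vl2 R ≤ L) (lam T : ℝ)
    (hST : ∀ (I : Type) [Fintype I] [DecidableEq I] (g : SF I), g.leaves ≤ L →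
      ∑ y : I → Bool, Real.exp (lam * (g.sens y : ℝ)) ≤
        2 ^ Fintype.card I * Real.exp (lam * T))
    (z : Bool → Bool) (σ : Finset (Bool × Bool)) (c : ZMod 4 × ZMod 4) (s : Vt M → A D) :
    ∑ β : Coset κ, Real.exp (lam * (hct z R σ c β.1 s : ℝ)) ≤
      Real.exp (lam * T) * Fintype.card (Coset κ) := by
  have hshift : ∀ y : Ix M D c → Bool,
      ∑ β : Coset κ, Real.exp (lam * (hct z R σ c (β.1 + shf s σ c y) s : ℝ)) =
      ∑ β : Coset κ, Real.exp (lam * (hct z R σ c β.1 s : ℝ)) := by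
    intro y
    have hmem : ∀ β : Coset κ, hbd (β.1 + shf s σ c y) = κ := by
      intro β
      rw [hbd_add, hbd_shf hD, add_zero]
      exact β.2
    have hinv : Function.Involutive
        (fun β : Coset κ => (⟨β.1 + shf s σ c y, hmem β⟩ : Coset κ)) := by
      intro β
      apply Subtype.ext
      simp only [add_assoc, add_self_fun, add_zero]
    exact Equiv.sum_comp (Function.Involutive.toPerm _ hinv)
      (fun β : Coset κ => Real.exp (lam * (hct z R σ c β.1 s : ℝ)))
  have hpos : (0 : ℝ) < 2 ^ Fintype.card (Ix M D c) := by positivity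
  have h1 : (2 : ℝ) ^ Fintype.card (Ix M D c) *
      ∑ β : Coset κ, Real.exp (lam * (hct z R σ c β.1 s : ℝ)) =
      ∑ β : Coset κ, ∑ y : Ix M D c → Bool,
        Real.exp (lam * (hct z R σ c (β.1 + shf s σ c y) s : ℝ)) := by
    rw [Finset.sum_comm]
    simp only [hshift, Finset.sum_const, nsmul_eq_mul, Finset.card_univ, Fintype.card_fun,
      Fintype.card_bool]
    push_cast
    ring
  have h2 : ∀ β : Coset κ, ∑ y : Ix M D c → Bool,
        Real.exp (lam * (hct z R σ c (β.1 + shf s σ c y) s : ℝ)) ≤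
        2 ^ Fintype.card (Ix M D c) * Real.exp (lam * T) := by
    intro β
    obtain ⟨g, hg1, hg2⟩ := hct_eq_sens hM z R σ c β.1 s
    have := hST (Ix M D c) g (hg1.trans hR)
    simp only [hg2] at this
    exact this
  have h3 := Finset.sum_le_sum fun (β : Coset κ) (_ : β ∈ univ) => h2 β
  rw [← h1] at h3
  simp only [Finset.sum_const, nsmul_eq_mul, Finset.card_univ] at h3
  have h4 : (2 : ℝ) ^ Fintype.card (Ix M D c) *
      ∑ β : Coset κ, Real.exp (lam * (hct z R σ c β.1 s : ℝ)) ≤
      2 ^ Fintype.card (Ix M D c) * (Real.exp (lam * T) * Fintype.card (Coset κ)) := by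
    refine h3.trans (le_of_eq ?_)
    ring
  exact le_of_mul_le_mul_left h4 hpos

/-- weight of the S-steps of one kind -/
noncomputable def sW1 (β : Xt M D → ZMod 2) (R : Fm (Xt M D ⊕ Bool))
    (q : Finset (Bool × Bool) × (Bool → Bool) × (ZMod 4 × ZMod 4)) : ℝ :=
  ∑ p : {p : J M // cls p = q.2.2},
    pr (fun a : Vt M → A D => ev β q.2.1 R ≠ ev (β + Pth a (Dcl p.1 q.1)) q.2.1 R)

theorem sWt_eq (β : Xt M D → ZMod 2) (R : Fm (Xt M D ⊕ Bool)) :
    sWt β R = ∑ q, sW1 β R q := by
  unfold sWt sW1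
  rw [Finset.sum_comm, Fintype.sum_prod_type]
  refine Finset.sum_congr rfl fun σ _ => ?_
  rw [Finset.sum_comm, Fintype.sum_prod_type]
  refine Finset.sum_congr rfl fun z _ => ?_
  simp only
  rw [← Finset.sum_fiberwise univ (fun p : J M => cls p)]
  refine Finset.sum_congr rfl fun c _ => ?_
  exact Finset.sum_subtype (univ.filter fun p : J M => cls p = c) (by simp)
    (fun p => pr (fun a : Vt M → A D => ev β z R ≠ ev (β + Pth a (Dcl p σ)) z R))

theorem avg_hct (β : Xt M D → ZMod 2) (R : Fm (Xt M D ⊕ Bool)) (σ : Finset (Bool × Bool))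
    (z : Bool → Bool) (c : ZMod 4 × ZMod 4) :
    (∑ s : Vt M → A D, (hct z R σ c β s : ℝ)) / Fintype.card (Vt M → A D) =
      2 ^ D * sW1 β R (σ, z, c) := by
  have h1 : ∀ s : Vt M → A D, (hct z R σ c β s : ℝ) =
      ∑ p : {p : J M // cls p = c}, ∑ j : A D,
        if ev β z R ≠ ev (β + Pth (fun v => j + s v) (Dcl p.1 σ)) z R then (1 : ℝ) else 0 := by
    intro s
    unfold hct mst
    rw [← Fintype.sum_prod_type
      (f := fun i : Ix M D c => if ev β z R ≠ ev (β + Pth (fun v => i.2 + s v) (Dcl i.1.1 σ)) z R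
        then (1 : ℝ) else 0)]
    rw [Finset.sum_boole]
  have h2 : ∀ (p : J M) (j : A D), ∑ s : Vt M → A D,
      (if ev β z R ≠ ev (β + Pth (fun v => j + s v) (Dcl p σ)) z R then (1 : ℝ) else 0) =
      Fintype.card (Vt M → A D) *
        pr (fun a : Vt M → A D => ev β z R ≠ ev (β + Pth a (Dcl p σ)) z R) := by
    intro p j
    have h3 := Equiv.sum_comp (Equiv.addLeft (fun _ : Vt M => j))
      (fun a : Vt M → A D => if ev β z R ≠ ev (β + Pth a (Dcl p σ)) z R then (1 : ℝ) else 0)
    have h4 : ∀ s : Vt M → A D, (Equiv.addLeft (fun _ : Vt M => j)) s = fun v => j + s v := by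
      intro s
      rfl
    simp only [h4] at h3
    rw [h3, Finset.sum_boole]
    unfold pr
    have hpos : (0 : ℝ) < Fintype.card (Vt M → A D) := by exact_mod_cast Fintype.card_pos
    field_simp
    congr!
  simp only [h1]
  rw [Finset.sum_comm]
  have hpos : (0 : ℝ) < Fintype.card (Vt M → A D) := by exact_mod_cast Fintype.card_pos
  rw [div_eq_iff hpos.ne']
  have h5 : ∀ p : {p : J M // cls p = c}, ∑ s : Vt M → A D, ∑ j : A D,
      (if ev β z R ≠ ev (β + Pth (fun v => j + s v) (Dcl p.1 σ)) z R then (1 : ℝ) else 0) =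
      2 ^ D * (Fintype.card (Vt M → A D) *
        pr (fun a : Vt M → A D => ev β z R ≠ ev (β + Pth a (Dcl p.1 σ)) z R)) := by
    intro p
    rw [Finset.sum_comm, Finset.sum_congr rfl fun j _ => h2 p.1 j]
    rw [Finset.sum_const, Finset.card_univ, nsmul_eq_mul]
    congr 1
    simp [Fintype.card_pi, ZMod.card]
  rw [Finset.sum_congr rfl fun p _ => h5 p, ← Finset.mul_sum, ← Finset.mul_sum]
  unfold sW1
  ring

/-- tail bound for the S-steps of one kind -/
theorem sW1_tail (hM : 4 ∣ M) (hD : 0 < D) (κ : HV M D → ZMod 2) (R : Fm (Xt M D ⊕ Bool)) (L : ℕ)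
    (hR : vl2 R ≤ L) (lam T : ℝ) (hlam : 0 ≤ lam)
    (hST : ∀ (I : Type) [Fintype I] [DecidableEq I] (g : SF I), g.leaves ≤ L →
      ∑ y : I → Bool, Real.exp (lam * (g.sens y : ℝ)) ≤
        2 ^ Fintype.card I * Real.exp (lam * T))
    (q : Finset (Bool × Bool) × (Bool → Bool) × (ZMod 4 × ZMod 4)) :
    pr (fun β : Coset κ => 2 * T / 2 ^ D < sW1 β.1 R q) ≤ Real.exp (- lam * T) := by
  obtain ⟨σ, z, c⟩ := q
  have h1 := jensen_markov (Bt := Coset κ) (St := Vt M → A D)
    (fun β s => (hct z R σ c β.1 s : ℝ)) lam (2 * T) (Real.exp (lam * T)) hlam (Real.exp_pos _).le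
    (sum_exp_hct hM hD κ R L hR lam T hST z σ c)
  have h2 : Real.exp (lam * T) * Real.exp (-lam * (2 * T)) = Real.exp (-lam * T) := by
    rw [← Real.exp_add]
    congr 1
    ring
  rw [h2] at h1
  refine le_trans (pr_mono ?_) h1
  intro β hβ
  simp only [avg_hct]
  have h2D : (0 : ℝ) < 2 ^ D := by positivity
  rw [div_lt_iff₀ h2D] at hβ
  linarith [mul_comm (2 ^ D) (sW1 β.1 R (σ, z, c))]

/-- for most `β` in a coset the weight of S-steps is small -/
theorem sWt_tail (hM : 4 ∣ M) (hD : 0 < D) (κ : HV M D → ZMod 2) (R : Fm (Xt M D ⊕ Bool)) (L : ℕ)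
    (hR : vl2 R ≤ L) (lam T : ℝ) (hlam : 0 ≤ lam) (hT : 0 ≤ T)
    (hST : ∀ (I : Type) [Fintype I] [DecidableEq I] (g : SF I), g.leaves ≤ L →
      ∑ y : I → Bool, Real.exp (lam * (g.sens y : ℝ)) ≤
        2 ^ Fintype.card I * Real.exp (lam * T)) :
    pr (fun β : Coset κ => 1024 * (2 * T / 2 ^ D) < sWt β.1 R) ≤ 1024 * Real.exp (- lam * T) := by
  have hcard : (univ : Finset (Finset (Bool × Bool) × (Bool → Bool) × (ZMod 4 × ZMod 4))).card =
      1024 := by
    rw [Finset.card_univ]
    simp [Fintype.card_prod, Fintype.card_finset, ZMod.card]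
  have h1 : pr (fun β : Coset κ => 1024 * (2 * T / 2 ^ D) < sWt β.1 R) ≤
      pr (fun β : Coset κ => ∃ q ∈ (univ : Finset (Finset (Bool × Bool) × (Bool → Bool) ×
        (ZMod 4 × ZMod 4))), 2 * T / 2 ^ D < sW1 β.1 R q) := by
    apply pr_mono
    intro β hβ
    by_contra hcon
    push Not at hcon
    have h2 := Finset.sum_le_sum fun q hq => hcon q hq
    rw [Finset.sum_const, hcard, ← sWt_eq] at h2
    simp only [nsmul_eq_mul] at h2
    push_cast at h2
    linarith
  refine h1.trans ((pr_exists_le _ _).trans ?_)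
  refine (Finset.sum_le_sum fun q _ => sW1_tail hM hD κ R L hR lam T hlam hST q).trans ?_
  rw [Finset.sum_const, hcard]
  simp

end

end Fr56
end

section

/-!
Existence of a restriction without long chains.
-/

set_option linter.unusedSectionVars false

namespace Fr56

open Finset
open scoped Classical

/-! ### auxiliary facts -/

theorem pr_equiv_cc {Ω Ω' : Type} [Fintype Ω] [Fintype Ω'] (e : Ω ≃ Ω') (P : Ω' → Prop) :
    pr (fun ω => P (e ω)) = pr P := by
  unfold pr
  rw [Fintype.card_congr e]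
  congr 2
  rw [← Fintype.card_subtype, ← Fintype.card_subtype]
  exact Fintype.card_congr (e.subtypeEquiv fun a => Iff.rfl)

theorem card_filter_eq_pr_cc {Ω : Type} [Fintype Ω] [Nonempty Ω] (P : Ω → Prop)
    [i : DecidablePred P] :
    ((univ.filter P).card : ℝ) = pr P * Fintype.card Ω := by
  unfold pr
  have h : (0 : ℝ) < Fintype.card Ω := by exact_mod_cast Fintype.card_pos
  rw [Subsingleton.elim i (fun a => Classical.propDecidable (P a))]
  field_simp

theorem DepOn.mono_cc {I A : Type} {S T : Set I} (h : S ⊆ T) {P : (I → A) → Prop}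
    (hP : DepOn S P) : DepOn T P :=
  fun a b hab => hP a b fun i hi => hab i (h hi)

/-- number of small subsets -/
theorem card_small_cc {α : Type} [Fintype α] (n : ℕ) :
    (univ.filter fun W : Finset α => W.card ≤ n).card ≤ (Fintype.card α + 1) ^ n := by
  induction n with
  | zero =>
    rw [pow_zero, Finset.card_le_one]
    intro a ha b hb
    simp only [mem_filter, mem_univ, true_and, Nat.le_zero, Finset.card_eq_zero] at ha hb
    rw [ha, hb]
  | succ n ih =>
    have hsub : (univ.filter fun W : Finset α => W.card ≤ n + 1) ⊆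
        ((univ.filter fun W : Finset α => W.card ≤ n) ×ˢ (univ : Finset (Option α))).image
          (fun p => match p.2 with | none => p.1 | some x => insert x p.1) := by
      intro W hW
      simp only [mem_filter, mem_univ, true_and] at hW
      simp only [mem_image, mem_product, mem_filter, mem_univ, true_and, and_true, Prod.exists]
      rcases Nat.lt_or_ge n W.card with h | h
      · have hne : W.Nonempty := by
          rw [← Finset.card_pos]; omega
        obtain ⟨x, hx⟩ := hne
        refine ⟨W.erase x, some x, ?_, ?_⟩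
        · rw [Finset.card_erase_of_mem hx]; omega
        · simp only [Finset.insert_erase hx]
      · exact ⟨W, none, h, rfl⟩
    calc _ ≤ _ := Finset.card_le_card hsub
      _ ≤ _ := Finset.card_image_le
      _ = (univ.filter fun W : Finset α => W.card ≤ n).card * (Fintype.card α + 1) := by
        rw [Finset.card_product, Finset.card_univ, Fintype.card_option]
      _ ≤ _ := by
        rw [pow_succ]
        exact Nat.mul_le_mul_right _ ih

theorem pr_inst_cc {Ω : Type} (i j : Fintype Ω) (P : Ω → Prop) : @pr Ω i P = @pr Ω j P := by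
  rw [Subsingleton.elim i j]

theorem pr_coord_cc {I A : Type} [Fintype I] [DecidableEq I] [Fintype A] [Nonempty A]
    (t : I) (w : A) : pr (fun a : I → A => a t = w) = 1 / Fintype.card A := by
  rw [← pr_coord t w]
  exact pr_inst_cc _ _ _

/-- an event fixing one coordinate is independent of an event not looking at it -/
theorem pr_coord_indep_cc {I A : Type} [Fintype I] [DecidableEq I] [Fintype A] [Nonempty A]
    (t : I) (w : A) (P : (I → A) → Prop) (hP : DepOn {v | v ≠ t} P) :
    pr (fun a : I → A => a t = w ∧ P a) = 1 / Fintype.card A * pr P := by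
  have h : @pr (I → A) (@Pi.instFintype _ _ (fun a b => Classical.propDecidable (a = b)) _ _)
      (fun a : I → A => a t = w ∧ P a) =
      @pr (I → A) (@Pi.instFintype _ _ (fun a b => Classical.propDecidable (a = b)) _ _)
        (fun a => a t = w) *
      @pr (I → A) (@Pi.instFintype _ _ (fun a b => Classical.propDecidable (a = b)) _ _) P := by
    apply pr_indep (S := ({t} : Set I)) (T := {v | v ≠ t}) _ _ hP
    · rw [Set.disjoint_left]
      intro v hv hv'
      exact hv' hv
    · intro a b hab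
      show a t = w ↔ b t = w
      rw [hab t rfl]
  rw [pr_coord] at h
  rw [pr_inst_cc _ _ (fun a : I → A => a t = w ∧ P a), h, pr_inst_cc _ _ P]

/-- slicing -/
def sliceEquiv_cc {Bt I A : Type} (t : I) (F : Bt → A → Prop) (E : Bt → (I → A) → Prop) :
    {q : {q : Bt × (I → A) // F q.1 (q.2 t)} // E q.1.1 q.1.2} ≃
      Σ w : A, Σ β : {β : Bt // F β w}, {a : I → A // a t = w ∧ E β.1 a} where
  toFun q := ⟨q.1.1.2 t, ⟨q.1.1.1, q.1.2⟩, ⟨q.1.1.2, rfl, q.2⟩⟩
  invFun s := ⟨⟨(s.2.1.1, s.2.2.1), by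
    have h1 := s.2.1.2
    have h2 := s.2.2.2.1
    show F s.2.1.1 (s.2.2.1 t)
    rw [h2]; exact h1⟩, s.2.2.2.2⟩
  left_inv q := rfl
  right_inv s := by
    obtain ⟨w, ⟨β, hβ⟩, ⟨a, ha, hE⟩⟩ := s
    subst ha
    rfl

/-- slicing -/
def slice0Equiv_cc {Bt I A : Type} (t : I) (F : Bt → A → Prop) :
    {q : Bt × (I → A) // F q.1 (q.2 t)} ≃
      Σ w : A, {β : Bt // F β w} × {a : I → A // a t = w} where
  toFun q := ⟨q.1.2 t, ⟨q.1.1, q.2⟩, ⟨q.1.2, rfl⟩⟩
  invFun s := ⟨(s.2.1.1, s.2.2.1), by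
    have h1 := s.2.1.2
    have h2 := s.2.2.2
    show F s.2.1.1 (s.2.2.1 t)
    rw [h2]; exact h1⟩
  left_inv q := rfl
  right_inv s := by
    obtain ⟨w, ⟨β, hβ⟩, ⟨a, ha⟩⟩ := s
    subst ha
    rfl

theorem card_slice0_cc {Bt I A : Type} [Fintype Bt] [Fintype I] [DecidableEq I] [Fintype A]
    [Nonempty A] (t : I)
    (F : Bt → A → Prop)
    [i1 : Fintype {q : Bt × (I → A) // F q.1 (q.2 t)}] [i2 : ∀ w, Fintype {β : Bt // F β w}]
    (Z : ℕ) (hZ : ∀ w, Fintype.card {β // F β w} = Z) :
    ((Fintype.card {q : Bt × (I → A) // F q.1 (q.2 t)} : ℕ) : ℝ) =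
      ((Fintype.card (I → A) : ℕ) : ℝ) * Z := by
  have h1 : Fintype.card {q : Bt × (I → A) // F q.1 (q.2 t)} =
      ∑ w : A, Z * Fintype.card {a : I → A // a t = w} := by
    rw [Fintype.card_congr (slice0Equiv_cc t F), Fintype.card_sigma]
    apply Finset.sum_congr rfl
    intro w _
    rw [Fintype.card_prod, hZ w]
  have h2 : ∀ w : A, ((Fintype.card {a : I → A // a t = w} : ℕ) : ℝ) =
      1 / Fintype.card A * ((Fintype.card (I → A) : ℕ) : ℝ) := by
    intro w
    rw [Fintype.card_subtype, card_filter_eq_pr_cc, pr_coord_cc]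
  rw [h1]
  push_cast
  have h3 : (0 : ℝ) < Fintype.card A := by exact_mod_cast Fintype.card_pos
  rw [Finset.sum_congr rfl fun w _ => by rw [h2 w], Finset.sum_const, Finset.card_univ,
    nsmul_eq_mul]
  field_simp

theorem card_slice_cc {Bt I A : Type} [Fintype Bt] [Fintype I] [DecidableEq I] [Fintype A]
    [Nonempty A] (t : I)
    (F : Bt → A → Prop) (E : Bt → (I → A) → Prop)
    [i1 : Fintype {q : Bt × (I → A) // F q.1 (q.2 t)}] [i2 : ∀ w, Fintype {β : Bt // F β w}] :
    ((Fintype.card {q : {q : Bt × (I → A) // F q.1 (q.2 t)} // E q.1.1 q.1.2} : ℕ) : ℝ) =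
      ∑ w : A, ∑ β : {β : Bt // F β w},
        pr (fun a : I → A => a t = w ∧ E β.1 a) * ((Fintype.card (I → A) : ℕ) : ℝ) := by
  rw [Fintype.card_congr (sliceEquiv_cc t F E), Fintype.card_sigma]
  push_cast
  apply Finset.sum_congr rfl
  intro w _
  rw [Fintype.card_sigma]
  push_cast
  apply Finset.sum_congr rfl
  intro β _
  rw [Fintype.card_subtype, card_filter_eq_pr_cc]

theorem slice_abs_cc {Bt I A : Type} [Fintype Bt] [Fintype I] [DecidableEq I] [Fintype A]
    [Nonempty A] (t : I)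
    (F : Bt → A → Prop) (E : Bt → (I → A) → Prop) (Good : Bt → Prop) (q ε : ℝ)
    [i1 : Fintype {q : Bt × (I → A) // F q.1 (q.2 t)}] [i2 : ∀ w, Fintype {β : Bt // F β w}]
    (hE : ∀ β, DepOn {v | v ≠ t} (E β)) (hgood : ∀ β, Good β → pr (E β) ≤ q) (hq0 : 0 ≤ q)
    (Z : ℕ) (hZ : ∀ w, Fintype.card {β // F β w} = Z) (hZpos : 0 < Z)
    (hbad : ∀ w, pr (fun β : {β // F β w} => ¬ Good β.1) ≤ ε) :
    pr (fun q : {q : Bt × (I → A) // F q.1 (q.2 t)} => E q.1.1 q.1.2) ≤ q + ε := by
  have hcard := card_slice0_cc t F Z hZ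
  obtain ⟨N, hN⟩ : ∃ N : ℝ, ((Fintype.card (I → A) : ℕ) : ℝ) = N := ⟨_, rfl⟩
  obtain ⟨nA, hnA⟩ : ∃ N : ℝ, ((Fintype.card A : ℕ) : ℝ) = N := ⟨_, rfl⟩
  have hNpos : 0 < N := by
    rw [← hN]
    exact_mod_cast Fintype.card_pos
  have hnApos : 0 < nA := by
    rw [← hnA]
    exact_mod_cast Fintype.card_pos
  have hZpos' : (0 : ℝ) < Z := by exact_mod_cast hZpos
  rw [hN] at hcard
  have hev : ((Fintype.card {q : {q : Bt × (I → A) // F q.1 (q.2 t)} // E q.1.1 q.1.2} : ℕ) : ℝ) ≤
      N * Z * (q + ε) := by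
    rw [card_slice_cc t F E]
    have h3 : ∀ w : A, ∀ β : {β : Bt // F β w},
        pr (fun a : I → A => a t = w ∧ E β.1 a) * ((Fintype.card (I → A) : ℕ) : ℝ) ≤
          N / nA * (q + if ¬ Good β.1 then 1 else 0) := by
      intro w β
      rw [pr_coord_indep_cc t w (E β.1) (hE β.1), hnA, hN]
      have h4 : pr (E β.1) ≤ q + if ¬ Good β.1 then 1 else 0 := by
        by_cases hg : Good β.1
        · simp only [hg, not_true_eq_false, if_false, add_zero]
          exact hgood _ hg
        · simp only [hg, not_false_eq_true, if_true]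
          have := pr_le_one (E β.1)
          linarith
      calc 1 / nA * pr (E β.1) * N = N / nA * pr (E β.1) := by ring
        _ ≤ _ := by
          apply mul_le_mul_of_nonneg_left h4
          positivity
    have h5 : ∀ w : A, ∑ β : {β : Bt // F β w},
        pr (fun a : I → A => a t = w ∧ E β.1 a) * ((Fintype.card (I → A) : ℕ) : ℝ) ≤
          N / nA * (Z * (q + ε)) := by
      intro w
      have hne : Nonempty {β : Bt // F β w} := by
        rw [← Fintype.card_pos_iff, hZ w]
        exact hZpos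
      calc _ ≤ ∑ β : {β : Bt // F β w},
            N / nA * (q + if ¬ Good β.1 then 1 else 0) := Finset.sum_le_sum fun β _ => h3 w β
        _ = N / nA * (Z * q + ((univ.filter fun β : {β : Bt // F β w} =>
              ¬ Good β.1).card : ℝ)) := by
          rw [← Finset.mul_sum, Finset.sum_add_distrib, Finset.sum_const, Finset.card_univ,
            nsmul_eq_mul, hZ w, Finset.sum_boole]
        _ ≤ _ := by
          apply mul_le_mul_of_nonneg_left _ (by positivity)
          rw [card_filter_eq_pr_cc, hZ w]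
          have := mul_le_mul_of_nonneg_right (hbad w) hZpos'.le
          nlinarith
    calc _ ≤ ∑ w : A, N / nA * (Z * (q + ε)) := Finset.sum_le_sum fun w _ => h5 w
      _ = _ := by
        rw [Finset.sum_const, Finset.card_univ, nsmul_eq_mul, hnA]
        field_simp
  have hpr : pr (fun q : {q : Bt × (I → A) // F q.1 (q.2 t)} => E q.1.1 q.1.2) =
      ((Fintype.card {q : {q : Bt × (I → A) // F q.1 (q.2 t)} // E q.1.1 q.1.2} : ℕ) : ℝ) /
      ((Fintype.card {q : Bt × (I → A) // F q.1 (q.2 t)} : ℕ) : ℝ) := by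
    unfold pr
    rw [← Fintype.card_subtype]
  rw [hpr, hcard, div_le_iff₀ (by positivity)]
  calc _ ≤ _ := hev
    _ = _ := by ring

section
variable {M D : ℕ} [NeZero M]

/-- the sample space: `α` with boundary `h0 + ctr a t` and `a` -/
abbrev Om (h0 : HV M D) (t : Vt M) :=
  {q : (Xt M D → ZMod 2) × (Vt M → A D) // hbd q.1 = hpt h0 + hpt (ctr q.2 t)}

theorem char2_cc {ι : Type} (x : ι → ZMod 2) : x + x = 0 := by
  funext i
  exact CharTwo.add_self_eq_zero (x i)

/-- adding the lift of a path from `v0` to `t` is a bijection of sample spaces -/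
theorem pr_Om_shift (hD : 0 < D) (h0 : HV M D) (v0 t : Vt M) (y : Ed M → ZMod 2)
    (hy : bd y = pt v0 + pt t) (E : (Xt M D → ZMod 2) → (Vt M → A D) → Prop) :
    pr (fun q : Om h0 v0 => E (q.1.1 + Pth q.1.2 y) q.1.2) = pr (fun q : Om h0 t => E q.1.1 q.1.2) := by
  have hb := fun a : Vt M → A D => hbd_Pth_path hD a y v0 t hy
  let e : Om h0 v0 ≃ Om h0 t :=
    { toFun := fun q => ⟨(q.1.1 + Pth q.1.2 y, q.1.2), by
        show hbd (q.1.1 + Pth q.1.2 y) = hpt h0 + hpt (ctr q.1.2 t)
        rw [hbd_add, q.2, hb, add_assoc, ← add_assoc (hpt (ctr q.1.2 v0)), char2_cc, zero_add]⟩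
      invFun := fun q => ⟨(q.1.1 + Pth q.1.2 y, q.1.2), by
        show hbd (q.1.1 + Pth q.1.2 y) = hpt h0 + hpt (ctr q.1.2 v0)
        rw [hbd_add, q.2, hb, add_assoc, add_comm (hpt (ctr q.1.2 v0)) (hpt (ctr q.1.2 t)),
          ← add_assoc (hpt (ctr q.1.2 t)), char2_cc, zero_add]⟩
      left_inv := fun q => by
        apply Subtype.ext
        apply Prod.ext
        · show q.1.1 + Pth q.1.2 y + Pth q.1.2 y = q.1.1
          rw [add_assoc, char2_cc, add_zero]
        · rfl
      right_inv := fun q => by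
        apply Subtype.ext
        apply Prod.ext
        · show q.1.1 + Pth q.1.2 y + Pth q.1.2 y = q.1.1
          rw [add_assoc, char2_cc, add_zero]
        · rfl }
  exact pr_equiv_cc e (fun q : Om h0 t => E q.1.1 q.1.2)

theorem card_coset_eq_cc (hD : 0 < D) (h0 : HV M D) (t : Vt M) (w w' : A D) :
    Fintype.card (Coset (hpt h0 + hpt (HV.cen t w))) =
      Fintype.card (Coset (hpt h0 + hpt (HV.cen t w'))) := by
  obtain ⟨x, hx⟩ := exists_hbd (M := M) hD t t w w'
  apply Fintype.card_congr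
  exact
    { toFun := fun β => ⟨β.1 + x, by
        rw [hbd_add, β.2, hx, add_assoc, ← add_assoc (hpt (HV.cen t w)), char2_cc, zero_add]⟩
      invFun := fun β => ⟨β.1 + x, by
        rw [hbd_add, β.2, hx, add_assoc, add_comm (hpt (HV.cen t w)) (hpt (HV.cen t w')),
          ← add_assoc (hpt (HV.cen t w')), char2_cc, zero_add]⟩
      left_inv := fun β => by
        apply Subtype.ext
        show β.1 + x + x = β.1
        rw [add_assoc, char2_cc, add_zero]
      right_inv := fun β => by
        apply Subtype.ext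
        show β.1 + x + x = β.1
        rw [add_assoc, char2_cc, add_zero] }

/-- an event that does not look at `a t` and is unlikely over `a` for most `β` in each coset is
unlikely over the sample space -/
theorem pr_Om_le (hD : 0 < D) (v0 : Vt M) (w0 : A D) (t : Vt M)
    (E : (Xt M D → ZMod 2) → (Vt M → A D) → Prop) (Good : (Xt M D → ZMod 2) → Prop) (q ε : ℝ)
    (hq0 : 0 ≤ q)
    (hE : ∀ β, DepOn {v | v ≠ t} (E β)) (hgood : ∀ β, Good β → pr (E β) ≤ q)
    (hbad : ∀ κ, pr (fun β : Coset κ => ¬ Good β.1) ≤ ε) :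
    pr (fun q : Om (HV.cen v0 w0) t => E q.1.1 q.1.2) ≤ q + ε := by
  refine slice_abs_cc t (fun (β : Xt M D → ZMod 2) (w : A D) =>
    hbd β = hpt (HV.cen v0 w0) + hpt (HV.cen t w)) E Good q ε
    (i2 := fun w => (inferInstance : Fintype (Coset (hpt (HV.cen v0 w0) + hpt (HV.cen t w)))))
    hE hgood hq0
    (Fintype.card (Coset (hpt (HV.cen v0 w0) + hpt (HV.cen t (0 : A D))))) ?_ ?_ ?_
  · intro w
    exact card_coset_eq_cc hD (HV.cen v0 w0) t w 0
  · rw [Fintype.card_pos_iff]
    obtain ⟨x, hx⟩ := exists_hbd (M := M) hD v0 t w0 (0 : A D)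
    exact ⟨⟨x, hx⟩⟩
  · intro w
    exact hbad _

/-- the bound for one fixed pattern -/
theorem pr_pattern_cc (hM : 4 ∣ M) (hD : 0 < D) (l k m : ℕ) (hl : 2 ≤ l) (lam T : ℝ)
    (hlam : 0 ≤ lam) (hT : 0 ≤ T)
    (hST : ∀ (I : Type) [Fintype I] [DecidableEq I] (g : SF I), g.leaves ≤ 2 * l →
      ∑ y : I → Bool, Real.exp (lam * (g.sens y : ℝ)) ≤
        2 ^ Fintype.card I * Real.exp (lam * T))
    (f : Fm (Xt M D)) (hf : (pcs l f).length + 1 ≤ m)
    (v0 : Vt M) (w0 : A D) (W : Finset (J M)) (t : Vt M) (φ : Finset (Ed M)) :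
    pr (fun q : Om (HV.cen v0 w0) v0 => ∃ y : Ed M → ZMod 2, (bd y = pt v0 + pt t ∧ Free W t.1 ∧
      (∀ e ∈ inc W, (y e ≠ 0 ↔ e ∈ φ))) ∧ LChain (frags l f).toFinset q.1.2 q.1.1 y k ∅ W) ≤
      (m * ((2 * l / 2 ^ D) ^ 2 + 1024 * (2 * T / 2 ^ D))) ^ k +
        m * (1024 * Real.exp (- lam * T)) := by
  set η : ℝ := m * ((2 * l / 2 ^ D) ^ 2 + 1024 * (2 * T / 2 ^ D)) with hη
  have hη0 : 0 ≤ η := by rw [hη]; positivity
  set Rs := (frags l f).toFinset with hRs
  have hRm : (Rs.card : ℝ) ≤ m := by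
    have h1 : Rs.card ≤ (frags l f).length := List.toFinset_card_le _
    have h2 : (frags l f).length = (pcs l f).length + 1 := by simp [frags]
    exact_mod_cast (by omega : Rs.card ≤ m)
  have hM2 : 2 ≤ M := by
    have := NeZero.ne M
    omega
  by_cases hex : ∃ y : Ed M → ZMod 2, bd y = pt v0 + pt t ∧ Free W t.1 ∧
      (∀ e ∈ inc W, (y e ≠ 0 ↔ e ∈ φ))
  · obtain ⟨y, hy, hfree, hpat⟩ := hex
    calc _ ≤ pr (fun q : Om (HV.cen v0 w0) v0 =>
          (fun β a => Chain Rs a β k ∅ W) (q.1.1 + Pth q.1.2 y) q.1.2) := by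
          apply pr_mono
          rintro q ⟨y', ⟨hy', _, hpat'⟩, hch⟩
          have hag : Agree W y' y := by
            intro e he
            have h1 := hpat e he
            have h2 := hpat' e he
            have h3 : (y' e ≠ 0 ↔ y e ≠ 0) := h2.trans h1.symm
            revert h3
            generalize y' e = u
            generalize y e = v
            revert u v
            decide
          exact (hch.congr hag).toChain
      _ = pr (fun q : Om (HV.cen v0 w0) t => Chain Rs q.1.2 q.1.1 k ∅ W) :=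
          pr_Om_shift hD (HV.cen v0 w0) v0 t y hy (fun β a => Chain Rs a β k ∅ W)
      _ ≤ η ^ k + m * (1024 * Real.exp (- lam * T)) := by
          apply pr_Om_le hD v0 w0 t (fun β a => Chain Rs a β k ∅ W)
            (fun β => ∑ R ∈ Rs, (mWt R + sWt β R) ≤ η)
          · exact pow_nonneg hη0 k
          · intro β
            apply DepOn.mono_cc _ (Chain.depOn Rs β k ∅ W)
            intro v hv hvt
            rw [Set.mem_ofPred_eq] at hv
            rw [hvt] at hv
            exact not_free_of_mem hv hfree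
          · intro β hβ
            exact pr_chain_le Rs β η hβ k ∅ W
          · intro κ
            calc _ ≤ pr (fun β : Coset κ => ∃ R ∈ Rs, 1024 * (2 * T / 2 ^ D) < sWt β.1 R) := by
                  apply pr_mono
                  intro β hβ
                  by_contra hcon
                  push Not at hcon
                  apply hβ
                  calc ∑ R ∈ Rs, (mWt R + sWt β.1 R) ≤
                        ∑ R ∈ Rs, ((2 * l / 2 ^ D) ^ 2 + 1024 * (2 * T / 2 ^ D) : ℝ) := by
                        apply Finset.sum_le_sum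
                        intro R hR
                        apply add_le_add _ (hcon R hR)
                        have h1 := vl2_le l hl f R (by rw [hRs] at hR; exact List.mem_toFinset.1 hR)
                        calc mWt R ≤ ((vl2 R : ℝ) / 2 ^ D) ^ 2 := mWt_le hM2 R
                          _ ≤ (2 * l / 2 ^ D) ^ 2 := by
                            have h2 : (vl2 R : ℝ) ≤ 2 * l := by exact_mod_cast h1
                            gcongr
                    _ = Rs.card * ((2 * l / 2 ^ D) ^ 2 + 1024 * (2 * T / 2 ^ D) : ℝ) := by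
                        rw [Finset.sum_const, nsmul_eq_mul]
                    _ ≤ η := by
                        rw [hη]
                        apply mul_le_mul_of_nonneg_right hRm
                        positivity
              _ ≤ ∑ R ∈ Rs, pr (fun β : Coset κ => 1024 * (2 * T / 2 ^ D) < sWt β.1 R) :=
                  pr_exists_le Rs _
              _ ≤ ∑ R ∈ Rs, 1024 * Real.exp (- lam * T) := by
                  apply Finset.sum_le_sum
                  intro R hR
                  exact sWt_tail hM hD κ R (2 * l)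
                    (vl2_le l hl f R (by rw [hRs] at hR; exact List.mem_toFinset.1 hR))
                    lam T hlam hT hST
              _ = Rs.card * (1024 * Real.exp (- lam * T)) := by
                  rw [Finset.sum_const, nsmul_eq_mul]
              _ ≤ _ := by
                  apply mul_le_mul_of_nonneg_right hRm
                  positivity
  · have h0 : pr (fun q : Om (HV.cen v0 w0) v0 => ∃ y : Ed M → ZMod 2,
        (bd y = pt v0 + pt t ∧ Free W t.1 ∧
          (∀ e ∈ inc W, (y e ≠ 0 ↔ e ∈ φ))) ∧ LChain (frags l f).toFinset q.1.2 q.1.1 y k ∅ W) = 0 := by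
      rw [← pr_false (Ω := Om (HV.cen v0 w0) v0)]
      apply pr_congr
      intro q
      simp only [iff_false]
      rintro ⟨y, hy, _⟩
      exact hex ⟨y, hy⟩
    rw [h0]
    positivity

/-- **existence of a restriction without long chains** -/
theorem exists_restriction (hM : 4 ∣ M) (hD : 0 < D) (l k m : ℕ) (hl : 2 ≤ l) (lam T : ℝ)
    (hlam : 0 ≤ lam) (hT : 0 ≤ T)
    (hST : ∀ (I : Type) [Fintype I] [DecidableEq I] (g : SF I), g.leaves ≤ 2 * l →
      ∑ y : I → Bool, Real.exp (lam * (g.sens y : ℝ)) ≤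
        2 ^ Fintype.card I * Real.exp (lam * T))
    (Fs : Finset (Fm (Xt M D))) (hFs : ∀ f ∈ Fs, (pcs l f).length + 1 ≤ m)
    (v0 : Vt M) (w0 : A D)
    (hnum : (Fs.card : ℝ) * (((M : ℝ) ^ 2 + 1) ^ (5 * k) * 2 ^ (45 * k) * (2 * (M : ℝ) ^ 2)) *
      ((m * ((2 * l / 2 ^ D) ^ 2 + 1024 * (2 * T / 2 ^ D))) ^ k +
        m * (1024 * Real.exp (- lam * T))) < 1) :
    ∃ (α : Xt M D → ZMod 2) (a : Vt M → A D),
      hbd α = hpt (HV.cen v0 w0) + hpt (ctr a v0) ∧ ∀ f ∈ Fs, NoChain l k v0 α a f := by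
  set B : ℝ := (m * ((2 * l / 2 ^ D) ^ 2 + 1024 * (2 * T / 2 ^ D))) ^ k +
        m * (1024 * Real.exp (- lam * T)) with hB
  have hB0 : 0 ≤ B := by rw [hB]; positivity
  have : Nonempty (Om (M := M) (D := D) (HV.cen v0 w0) v0) := by
    refine ⟨⟨(0, fun _ => w0), ?_⟩⟩
    show hbd (0 : Xt M D → ZMod 2) = hpt (HV.cen v0 w0) + hpt (HV.cen v0 w0)
    rw [hbd_zero, char2_cc]
  set Ws : Finset (Finset (J M)) := univ.filter fun W : Finset (J M) => W.card ≤ 5 * k with hWs
  -- the bad event for (f, W, t, φ)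
  let Bad : Fm (Xt M D) → Finset (J M) → Vt M → Finset (Ed M) →
      Om (M := M) (D := D) (HV.cen v0 w0) v0 → Prop := fun f W t φ q =>
    ∃ y : Ed M → ZMod 2, (bd y = pt v0 + pt t ∧ Free W t.1 ∧
      (∀ e ∈ inc W, (y e ≠ 0 ↔ e ∈ φ))) ∧ LChain (frags l f).toFinset q.1.2 q.1.1 y k ∅ W
  let Pow : Finset (J M) → Finset (Finset (Ed M)) := fun W =>
    (univ.filter (fun e : Ed M => e ∈ inc W)).powerset
  have hpr : pr (fun q : Om (M := M) (D := D) (HV.cen v0 w0) v0 =>
      ∃ f ∈ Fs, ∃ W ∈ Ws, ∃ t ∈ (univ : Finset (Vt M)), ∃ φ ∈ Pow W, Bad f W t φ q) < 1 := by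
    refine lt_of_le_of_lt ?_ hnum
    calc _ ≤ ∑ f ∈ Fs, pr (fun q : Om (M := M) (D := D) (HV.cen v0 w0) v0 =>
          ∃ W ∈ Ws, ∃ t ∈ (univ : Finset (Vt M)), ∃ φ ∈ Pow W, Bad f W t φ q) := pr_exists_le Fs _
      _ ≤ ∑ f ∈ Fs, ∑ W ∈ Ws, pr (fun q : Om (M := M) (D := D) (HV.cen v0 w0) v0 =>
          ∃ t ∈ (univ : Finset (Vt M)), ∃ φ ∈ Pow W, Bad f W t φ q) :=
          Finset.sum_le_sum fun f _ => pr_exists_le Ws _
      _ ≤ ∑ f ∈ Fs, ∑ W ∈ Ws, ∑ t : Vt M,
            pr (fun q : Om (M := M) (D := D) (HV.cen v0 w0) v0 => ∃ φ ∈ Pow W, Bad f W t φ q) :=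
          Finset.sum_le_sum fun f _ => Finset.sum_le_sum fun W _ => pr_exists_le univ _
      _ ≤ ∑ f ∈ Fs, ∑ W ∈ Ws, ∑ t : Vt M, ∑ φ ∈ Pow W, pr (Bad f W t φ) :=
          Finset.sum_le_sum fun f _ => Finset.sum_le_sum fun W _ => Finset.sum_le_sum fun t _ =>
            pr_exists_le (Pow W) _
      _ ≤ ∑ f ∈ Fs, ∑ W ∈ Ws, ∑ t : Vt M, ∑ φ ∈ Pow W, B :=
          Finset.sum_le_sum fun f hf => Finset.sum_le_sum fun W _ => Finset.sum_le_sum fun t _ =>
            Finset.sum_le_sum fun φ _ =>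
              pr_pattern_cc hM hD l k m hl lam T hlam hT hST f (hFs f hf) v0 w0 W t φ
      _ ≤ ∑ f ∈ Fs, ∑ W ∈ Ws, ∑ t : Vt M, (2 : ℝ) ^ (45 * k) * B := by
          apply Finset.sum_le_sum; intro f _
          apply Finset.sum_le_sum; intro W hW
          apply Finset.sum_le_sum; intro t _
          rw [Finset.sum_const, nsmul_eq_mul]
          apply mul_le_mul_of_nonneg_right _ hB0
          have h1 : (Pow W).card = 2 ^ (univ.filter (fun e : Ed M => e ∈ inc W)).card :=
            Finset.card_powerset _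
          rw [h1]
          have h2 := card_inc_le W
          have h3 : W.card ≤ 5 * k := (Finset.mem_filter.1 hW).2
          push_cast
          apply pow_le_pow_right₀ (by norm_num)
          omega
      _ = Fs.card * (Ws.card * (2 * (M : ℝ) ^ 2 * (2 ^ (45 * k) * B))) := by
          simp only [Finset.sum_const, nsmul_eq_mul, Finset.card_univ]
          have h1 : (Fintype.card (Vt M) : ℝ) = 2 * (M : ℝ) ^ 2 := by
            rw [Fintype.card_prod, Fintype.card_prod, ZMod.card, Fintype.card_bool]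
            push_cast
            ring
          rw [h1]
      _ ≤ Fs.card * (((M : ℝ) ^ 2 + 1) ^ (5 * k) * (2 * (M : ℝ) ^ 2 * (2 ^ (45 * k) * B))) := by
          apply mul_le_mul_of_nonneg_left _ (by positivity)
          apply mul_le_mul_of_nonneg_right _ (by positivity)
          have h1 := card_small_cc (α := J M) (5 * k)
          have h2 : Fintype.card (J M) = M ^ 2 := by
            rw [Fintype.card_prod, ZMod.card, sq]
          rw [h2] at h1
          exact_mod_cast h1
      _ = _ := by ring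
  obtain ⟨q, hq⟩ := exists_of_pr_lt_one hpr
  refine ⟨q.1.1, q.1.2, q.2, ?_⟩
  intro f hf W y hok hch
  apply hq
  obtain ⟨t, hy, hfree⟩ := hok
  refine ⟨f, hf, W, ?_, t, mem_univ _, univ.filter (fun e : Ed M => e ∈ inc W ∧ y e ≠ 0), ?_,
    y, ⟨hy, hfree, ?_⟩, hch⟩
  · rw [hWs, Finset.mem_filter]
    refine ⟨mem_univ _, ?_⟩
    have := hch.card
    simpa using this
  · rw [Finset.mem_powerset]
    intro e he
    rw [Finset.mem_filter] at he ⊢
    exact ⟨he.1, he.2.1⟩
  · intro e he
    rw [Finset.mem_filter]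
    constructor
    · intro h
      exact ⟨mem_univ _, he, h⟩
    · intro h
      exact h.2.2

end

end Fr56
end

section

/-!
The combinatorial main theorem: no short refutation with small lines.
-/

set_option linter.unusedSectionVars false

namespace Fr56

open Finset
open scoped Classical

section
variable {M D : ℕ} [NeZero M]

theorem even_of_four_dvd (hM : 4 ∣ M) : Even M := by
  obtain ⟨c, rfl⟩ := hM
  exact ⟨2 * c, by ring⟩

theorem ok_of_mem (v0 : Vt M) (S S' : Finset (J M)) (y : Ed M → ZMod 2)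
    (h : ∀ x, x ∈ S ↔ x ∈ S') (hS : Ok v0 S y) : Ok v0 S' y := by
  rw [← Finset.ext h]; exact hS

/-- the local semantics given by a restriction -/
noncomputable def locSem (hM : 4 ∣ M) (h25 : 25 < M) (l k : ℕ) (v0 : Vt M)
    (α : Xt M D → ZMod 2) (a : Vt M → A D) : Sem (Xt M D) (J M) (Ed M → ZMod 2) where
  Agree := Agree
  Ok := Ok v0
  Quiet := Quiet l v0 α a
  val := val l v0 α a
  cap := M - 25
  w := 5 * k
  good := {f | NoChain l k v0 α a f}
  agree_refl := Agree.refl
  agree_trans := fun _ _ _ _ h h' => h.trans h'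
  agree_mono := fun _ _ _ _ h h' => h'.mono h
  ok_mono := fun _ _ _ h h' => h'.mono h
  ok_empty := exists_ok v0
  mono := fun f U U' y y' hU hcard hq hag hok =>
    quiet_mono (even_of_four_dvd hM) l v0 α a f U U' y y' hU (by omega) hq hag hok
  val_neg := fun f U y hcard hok hq hn =>
    val_neg (even_of_four_dvd hM) l v0 α a f U y (by omega) hok hq hn
  val_and := fun f g U y hcard hok hf hg hn =>
    val_and (even_of_four_dvd hM) l v0 α a f g U y (by omega) hok hf hg hn
  val_or := fun f g U y hcard hok hf hg hn =>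
    val_or (even_of_four_dvd hM) l v0 α a f g U y (by omega) hok hf hg hn
  extend := fun f hf U y hcard hok => by
    obtain ⟨W, y', h1, h2, h3, h4⟩ := extend hM l k v0 α a f hf U y (by omega) hok
    exact ⟨W, y', h1, h2, h3, ok_of_mem v0 _ _ y' (fun x => by simp only [Finset.mem_union]) h4⟩

/-- number of pieces of a formula of size at most `s` -/
theorem length_pcs_le {X : Type} (l m s : ℕ) (hl : 0 < l) (hm : 2 * s + l ≤ m * l) (f : Fm X)
    (hf : f.size ≤ s) : (pcs l f).length + 1 ≤ m := by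
  have h1 := length_pcs l f
  have h2 := f.leaves_le_size
  have h3 : l * ((pcs l f).length + 1) ≤ l * m := by
    calc l * ((pcs l f).length + 1) = l * (pcs l f).length + l := by ring
      _ ≤ 2 * s + l := by omega
      _ ≤ m * l := hm
      _ = l * m := by ring
  exact Nat.le_of_mul_le_mul_left h3 hl

/-- **combinatorial main theorem** -/
theorem no_short_refutation (hM : 4 ∣ M) (hD : 2 ≤ D) (l k m s N C : ℕ) (hl : 10 < l)
    (lam T : ℝ) (hlam : 0 ≤ lam) (hT : 0 ≤ T)
    (hST : ∀ (I : Type) [Fintype I] [DecidableEq I] (g : SF I), g.leaves ≤ 2 * l →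
      ∑ y : I → Bool, Real.exp (lam * (g.sens y : ℝ)) ≤
        2 ^ Fintype.card I * Real.exp (lam * T))
    (v0 : Vt M) (w0 : A D) (hstar : (star (HV.cen v0 w0 : HV M D)).Nonempty) (u0 : Xt M D)
    (R : List Rule) (hR : ∀ r ∈ R, r.Sound) (b : Fm ℕ) (hb : b.Unsat)
    (hC : ∀ r ∈ R, r.nodes + 1 ≤ C) (hCb : b.size + 1 ≤ C) (hC4 : 4 ≤ C)
    (hcap : C * (5 * k) + 25 < M)
    (π : List (Fm (Xt M D))) (hπ : IsDerivation R (Fts u0 (HV.cen v0 w0)) π) (τ : ℕ → Xt M D)
    (hlast : b.map τ ∈ π) (hs : ∀ A ∈ π, A.size ≤ s) (hsF : (Fts u0 (HV.cen v0 w0)).size ≤ s)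
    (hN : (π.length + 1) * s ≤ N) (hm : 2 * s + l ≤ m * l)
    (hnum : (N : ℝ) * (((M : ℝ) ^ 2 + 1) ^ (5 * k) * 2 ^ (45 * k) * (2 * (M : ℝ) ^ 2)) *
      ((m * ((2 * l / 2 ^ D) ^ 2 + 1024 * (2 * T / 2 ^ D))) ^ k +
        m * (1024 * Real.exp (- lam * T))) < 1) : False := by
  set F := Fts u0 (HV.cen v0 w0 : HV M D) with hF
  -- all subformulas
  set Fs : Finset (Fm (Xt M D)) := ((F :: π).flatMap Fm.subs).toFinset with hFs
  have hmem : ∀ A ∈ F :: π, ∀ B ∈ A.subs, B ∈ Fs := by
    intro A hA B hB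
    rw [hFs, List.mem_toFinset, List.mem_flatMap]
    exact ⟨A, hA, hB⟩
  have hsize : ∀ A ∈ F :: π, A.size ≤ s := by
    intro A hA
    rcases List.mem_cons.1 hA with rfl | hA
    · exact hsF
    · exact hs A hA
  have hcard : Fs.card ≤ N := by
    refine le_trans ?_ hN
    refine (List.toFinset_card_le _).trans ?_
    rw [List.length_flatMap]
    have : ∀ L : List (Fm (Xt M D)), (∀ A ∈ L, A.size ≤ s) →
        (L.map (fun A => (Fm.subs A).length)).sum ≤ L.length * s := by
      intro L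
      induction L with
      | nil => intro _; simp
      | cons A L ih =>
        intro h
        have h1 := h A (by simp)
        have h2 := ih (fun B hB => h B (by simp [hB]))
        simp only [List.map_cons, List.sum_cons, List.length_cons, Fm.length_subs]
        simp only [Fm.length_subs] at h2
        nlinarith
    have h3 := this (F :: π) hsize
    simpa using h3
  have hpcs : ∀ f ∈ Fs, (pcs l f).length + 1 ≤ m := by
    intro f hf
    rw [hFs, List.mem_toFinset, List.mem_flatMap] at hf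
    obtain ⟨A, hA, hfA⟩ := hf
    exact length_pcs_le l m s (by omega) hm f
      ((Fm.size_le_of_mem_subs hfA).trans (hsize A hA))
  have hM25 : 25 < M := by omega
  have hnum' : (Fs.card : ℝ) * (((M : ℝ) ^ 2 + 1) ^ (5 * k) * 2 ^ (45 * k) * (2 * (M : ℝ) ^ 2)) *
      ((m * ((2 * l / 2 ^ D) ^ 2 + 1024 * (2 * T / 2 ^ D))) ^ k +
        m * (1024 * Real.exp (- lam * T))) < 1 := by
    refine lt_of_le_of_lt ?_ hnum
    have h1 : (Fs.card : ℝ) ≤ N := by exact_mod_cast hcard
    gcongr
  obtain ⟨α, a, hα, hno⟩ := exists_restriction hM (by omega) l k m (by omega) lam T hlam hT hST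
    Fs hpcs v0 w0 hnum'
  set S := locSem hM hM25 l k v0 α a with hS
  have hgood : ∀ A ∈ F :: π, ∀ B ∈ A.subs, B ∈ S.good := fun A hA B hB =>
    hno B (hmem A hA B hB)
  have hCk : ∀ c, c ≤ C → c * S.w ≤ S.cap := by
    intro c hc
    have h1 : c * (5 * k) ≤ C * (5 * k) := Nat.mul_le_mul_right _ hc
    show c * (5 * k) ≤ M - 25
    omega
  -- `F` is locally true
  have hFtrue : S.True' F := by
    have hsub : F ∈ F.subs := F.self_mem_subs
    refine (Fts_induction u0 (HV.cen v0 w0) hstar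
      (fun G => G ∈ S.good → S.True' G) ?_ ?_) (hgood F (by simp) F hsub)
    · intro p hp hps _ U y hU hok hq
      have h5 : U.card + 20 < M := by
        have h1 : U.card ≤ 5 * k := hU
        have h2 : 1 * (5 * k) ≤ C * (5 * k) := Nat.mul_le_mul_right _ (by omega)
        omega
      exact clause_good (even_of_four_dvd hM) hD l hl v0 (HV.cen v0 w0) u0 α a hα p hp U y h5
        hok hq
    · intro f g hf hg hfg hfgood
      have h1 : f ∈ F.subs := Fm.subs_trans (by simp [Fm.subs, Fm.self_mem_subs]) hfg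
      have h2 : g ∈ F.subs := Fm.subs_trans (by simp [Fm.subs, Fm.self_mem_subs]) hfg
      have h3 := hgood F (by simp) f h1
      have h4 := hgood F (by simp) g h2
      exact S.and_true (hCk 4 hC4) f g h3 h4 hfgood (hf h3) (hg h4)
  exact S.no_refutation R hR F hFtrue b hb τ π hπ hlast
    (fun A hA => hgood A (List.mem_cons_of_mem _ hA))
    (fun r hr => hCk _ (hC r hr)) (hCk _ hCb)

end

end Fr56
end

section

/-!
The final theorem.
-/

set_option linter.unusedSectionVars false

namespace Fr56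

open Finset
open scoped Classical

theorem Fm.map_map {U V W : Type} (g : V → W) (f : U → V) (F : Fm U) :
    (F.map f).map g = F.map (g ∘ f) := by
  induction F with
  | var v => rfl
  | neg f ih => simp [Fm.map, ih]
  | and f g ihf ihg => simp [Fm.map, ihf, ihg]
  | or f g ihf ihg => simp [Fm.map, ihf, ihg]

theorem Fm.map_id' {V : Type} (g : V → V) (hg : ∀ v, g v = v) (F : Fm V) : F.map g = F := by
  induction F with
  | var v => simp [Fm.map, hg]
  | neg f ih => simp [Fm.map, ih]
  | and f g ihf ihg => simp [Fm.map, ihf, ihg]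
  | or f g ihf ihg => simp [Fm.map, ihf, ihg]

theorem Fm.map_subst {U V W : Type} (g : V → W) (σ : U → Fm V) (F : Fm U) :
    (F.subst σ).map g = F.subst (fun v => (σ v).map g) := by
  induction F with
  | var v => rfl
  | neg f ih => simp [Fm.map, Fm.subst, ih]
  | and f g ihf ihg => simp [Fm.map, Fm.subst, ihf, ihg]
  | or f g ihf ihg => simp [Fm.map, Fm.subst, ihf, ihg]

theorem Fm.IsClause.map {V W : Type} (g : V → W) {k : ℕ} {F : Fm V} (h : F.IsClause k) :
    (F.map g).IsClause k := by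
  induction h with
  | pos v => exact .pos _
  | neg v => exact .neg _
  | or hf hg ihf ihg => exact .or ihf ihg

theorem Fm.IsCNF.map {V W : Type} (g : V → W) {k : ℕ} {F : Fm V} (h : F.IsCNF k) :
    (F.map g).IsCNF k := by
  induction h with
  | clause hm hf => exact .clause hm (hf.map g)
  | and hf hg ihf ihg => exact .and ihf ihg

/-- derivations are preserved under renaming of variables -/
theorem IsDerivation.map {V W : Type} (g : V → W) {R : List Rule} {F : Fm V} {π : List (Fm V)}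
    (h : IsDerivation R F π) : IsDerivation R (F.map g) (π.map (Fm.map g)) := by
  intro i hi
  have hi' : i < π.length := by simpa using hi
  rw [List.getElem_map]
  rcases h i hi' with h1 | ⟨r, hr, σ, h1, h2⟩
  · left; rw [h1]
  · right
    refine ⟨r, hr, fun v => (σ v).map g, by rw [h1, Fm.map_subst], fun A hA => ?_⟩
    obtain ⟨j, hj, h3⟩ := h2 A hA
    refine ⟨j, hj, ?_⟩
    rw [List.getElem_map, h3, Fm.map_subst]

theorem two_pow_mono {a b : ℕ} (h : a ≤ b) : 2 ^ a ≤ 2 ^ b := Nat.pow_le_pow_right (by norm_num) h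

theorem cap_aux (C X : ℕ) (h : 1 ≤ X) : C * (5 * X) + 25 ≤ (5 * C + 25) * X := by nlinarith

section family

/-- parameters of the family -/
instance (n : ℕ) : NeZero (4 ^ n) := ⟨by positivity⟩

variable (n : ℕ)

/-- a host edge -/
def u00 : Xt (4 ^ (n + 1)) (4000 * (n + 1)) :=
  ⟨((0, 0), none), ⟨0, by omega⟩, 0, 0⟩

/-- the charged base vertex -/
def v00 : Vt (4 ^ (n + 1)) := ((0, 0), false)

/-- the family of formulas, over host edges -/
noncomputable def FX : Fm (Xt (4 ^ (n + 1)) (4000 * (n + 1))) := Fts (u00 n) (HV.cen (v00 n) 0)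

/-- numbering of the host edges -/
noncomputable def enc (x : Xt (4 ^ (n + 1)) (4000 * (n + 1))) : ℕ :=
  (Fintype.equivFin (Xt (4 ^ (n + 1)) (4000 * (n + 1))) x).val

/-- inverse numbering -/
noncomputable def dec (k : ℕ) : Xt (4 ^ (n + 1)) (4000 * (n + 1)) :=
  if h : k < Fintype.card (Xt (4 ^ (n + 1)) (4000 * (n + 1))) then
    (Fintype.equivFin (Xt (4 ^ (n + 1)) (4000 * (n + 1)))).symm ⟨k, h⟩ else u00 n

theorem dec_enc (x : Xt (4 ^ (n + 1)) (4000 * (n + 1))) : dec n (enc n x) = x := by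
  unfold dec enc
  rw [dif_pos (Fin.is_lt _)]
  simp

/-- the family of formulas -/
noncomputable def FF : Fm ℕ := (FX n).map (enc n)

theorem FF_dec : (FF n).map (dec n) = FX n := by
  rw [FF, Fm.map_map]
  exact Fm.map_id' _ (fun v => dec_enc n v) _

theorem star_nonempty : (star (HV.cen (v00 n) 0 :
    HV (4 ^ (n + 1)) (4000 * (n + 1)))).Nonempty := by
  refine ⟨u00 n, ?_⟩
  simp [star, hsrc, hv, u00, v00, src]

theorem FF_unsat : (FF n).Unsat := by
  intro x
  rw [FF, Fm.eval_map]
  exact Fts_unsat (by omega) (u00 n) _ (star_nonempty n) _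

theorem FF_cnf : (FF n).IsCNF 10 :=
  (Fts_cnf (by omega) (u00 n) _ (star_nonempty n)).map _

theorem FF_size_le : (FF n).size ≤ 2 ^ (4040 * (n + 1)) := by
  rw [FF, Fm.size_map]
  refine (Fts_size (by omega) (u00 n) _ (star_nonempty n)).trans ?_
  have h1 : n + 1 ≤ 2 ^ (n + 1) := Nat.lt_two_pow_self.le
  have h2 : 4000 * (n + 1) ≤ 2 ^ (12 + (n + 1)) := by
    rw [pow_add]; exact Nat.mul_le_mul (by norm_num) h1
  have h3 : (4 ^ (n + 1)) ^ 2 = 2 ^ (4 * (n + 1)) := by
    rw [show (4 : ℕ) = 2 ^ 2 by norm_num, ← pow_mul, ← pow_mul]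
    congr 1; ring
  rw [h3]
  calc 2 ^ 20 * (4000 * (n + 1)) * 2 ^ (4 * (n + 1)) * 2 ^ (4000 * (n + 1))
      ≤ 2 ^ 20 * 2 ^ (12 + (n + 1)) * 2 ^ (4 * (n + 1)) * 2 ^ (4000 * (n + 1)) := by gcongr
    _ = 2 ^ (20 + (12 + (n + 1)) + 4 * (n + 1) + 4000 * (n + 1)) := by
        rw [pow_add 2 (20 + (12 + (n + 1)) + 4 * (n + 1)), pow_add 2 (20 + (12 + (n + 1))),
          pow_add 2 20]
    _ ≤ 2 ^ (4040 * (n + 1)) := two_pow_mono (by clear * -; omega)

theorem le_FF_size : n ≤ (FF n).size := by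
  rw [FF, Fm.size_map]
  refine le_trans ?_ (le_Fts_size (by omega) (u00 n) _)
  calc n ≤ 4000 * (n + 1) := by omega
    _ ≤ 2 ^ (4000 * (n + 1)) := Nat.lt_two_pow_self.le

end family

/-- the sensitivity bound with the parameters of the family -/
theorem hST_n (n : ℕ) : ∀ (I : Type) [Fintype I] [DecidableEq I] (g : SF I),
    g.leaves ≤ 2 * 2 ^ (3200 * (n + 1)) →
      ∑ y : I → Bool, Real.exp (ll (n + 1) * (g.sens y : ℝ)) ≤
        2 ^ Fintype.card I * Real.exp (ll (n + 1) * TT (n + 1)) := by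
  intro I _ _ g hg
  have hh : 9 ≤ 2 ^ (400 * (n + 1)) := by
    calc 9 ≤ 2 ^ 4 := by norm_num
      _ ≤ 2 ^ (400 * (n + 1)) := two_pow_mono (by clear * -; omega)
  refine (claim_final (2240 * (n + 1)) (2 ^ (400 * (n + 1))) hh I g).trans ?_
  have hg' : (g.leaves : ℝ) ≤ 2 * ((2 ^ (3200 * (n + 1)) : ℕ) : ℝ) := by exact_mod_cast hg
  have hl : 0 ≤ ll (n + 1) := by unfold ll; positivity
  unfold ll at hl ⊢
  unfold TT
  gcongr

/-- **Exponential lower bound for Frege refutations with lines of superlinear size and unbounded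
depth.** -/
theorem final : ∃ F : ℕ → Fm ℕ, (∀ n, (F n).Unsat ∧ (F n).IsCNF 10 ∧ n ≤ (F n).size) ∧
    ∀ R : List Rule, (∀ r ∈ R, r.Sound) → ∀ b : Fm ℕ, b.Unsat →
      ∃ n0, ∀ n ≥ n0, ∀ π : List (Fm ℕ), IsDerivation R (F n) π → b ∈ π →
        (∀ A ∈ π, (A.size : ℝ) ≤ ((F n).size : ℝ) ^ (1 + 1 / 20 : ℝ)) →
        (2 : ℝ) ^ (((F n).size : ℝ) ^ (1 / 5000 : ℝ)) ≤ π.length := by
  refine ⟨FF, fun n => ⟨FF_unsat n, FF_cnf n, le_FF_size n⟩, fun R hR b hb => ?_⟩
  obtain ⟨n1, hn1⟩ := numeric
  -- size of the rules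
  obtain ⟨C, hC, hCb, hC4⟩ : ∃ C, (∀ r ∈ R, r.nodes + 1 ≤ C) ∧ b.size + 1 ≤ C ∧ 4 ≤ C := by
    refine ⟨(R.map fun r => r.nodes + 1).sum + (b.size + 1) + 4, fun r hr => ?_, by omega,
      by omega⟩
    have := List.single_le_sum (l := R.map fun r => r.nodes + 1) (by simp) _
      (List.mem_map_of_mem hr)
    omega
  refine ⟨n1 + 5 * C + 25, fun n hn π hπ hbπ hs => ?_⟩
  by_contra hlt
  push Not at hlt
  have hnn : n + 1 ≥ n1 := by omega
  have hnum := hn1 (n + 1) hnn
  have hFsize : ((FF n).size : ℝ) ≤ 2 ^ (4040 * (n + 1)) := by exact_mod_cast FF_size_le n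
  have hF0 : (0 : ℝ) ≤ (FF n).size := by positivity
  -- number of lines
  have hlen : π.length ≤ 2 ^ (2 ^ (n + 1)) := by
    have h1 : ((FF n).size : ℝ) ^ (1 / 5000 : ℝ) ≤ 2 ^ (n + 1) := by
      calc ((FF n).size : ℝ) ^ (1 / 5000 : ℝ)
          ≤ ((2 : ℝ) ^ (4040 * (n + 1))) ^ (1 / 5000 : ℝ) := by gcongr
        _ ≤ ((2 : ℝ) ^ (5000 * (n + 1))) ^ (1 / 5000 : ℝ) := by
            gcongr
            · norm_num
            · norm_num
        _ = 2 ^ (n + 1) := by
            rw [mul_comm, pow_mul, ← Real.rpow_natCast (((2 : ℝ) ^ (n + 1))) 5000,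
              ← Real.rpow_mul (by positivity)]
            norm_num
    have h2 : (π.length : ℝ) ≤ (2 : ℝ) ^ ((2 ^ (n + 1) : ℕ) : ℝ) := by
      refine hlt.le.trans ?_
      apply Real.rpow_le_rpow_of_exponent_le (by norm_num)
      push_cast
      exact h1
    rw [Real.rpow_natCast] at h2
    exact_mod_cast h2
  -- sizes of the lines
  have hsl : ∀ A ∈ π, A.size ≤ 2 ^ (4280 * (n + 1)) := by
    intro A hA
    have h1 := hs A hA
    have h2 : ((FF n).size : ℝ) ^ (1 + 1 / 20 : ℝ) ≤ 2 ^ (4280 * (n + 1)) := by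
      calc ((FF n).size : ℝ) ^ (1 + 1 / 20 : ℝ)
          ≤ ((2 : ℝ) ^ (4040 * (n + 1))) ^ (1 + 1 / 20 : ℝ) := by gcongr
        _ = 2 ^ (4242 * (n + 1)) := by
            rw [show 4040 * (n + 1) = (202 * (n + 1)) * 20 by ring, pow_mul,
              ← Real.rpow_natCast (((2 : ℝ) ^ (202 * (n + 1)))) 20,
              ← Real.rpow_mul (by positivity)]
            have : ((20 : ℕ) : ℝ) * (1 + 1 / 20) = ((21 : ℕ) : ℝ) := by norm_num
            rw [this, Real.rpow_natCast, ← pow_mul,
              show 202 * (n + 1) * 21 = 4242 * (n + 1) by ring]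
        _ ≤ 2 ^ (4280 * (n + 1)) := by
            gcongr
            · norm_num
            · norm_num
    exact_mod_cast h1.trans h2
  have hsF : (FX n).size ≤ 2 ^ (4280 * (n + 1)) := by
    have h1 := FF_size_le n
    rw [FF, Fm.size_map] at h1
    exact h1.trans (two_pow_mono (by clear * -; omega))
  have hl : 10 < 2 ^ (3200 * (n + 1)) := by
    calc 10 < 2 ^ 4 := by norm_num
      _ ≤ 2 ^ (3200 * (n + 1)) := two_pow_mono (by clear * -; omega)
  have hll : 0 ≤ ll (n + 1) := by unfold ll; positivity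
  have hTT : 0 ≤ TT (n + 1) := by unfold TT; positivity
  have h4 : (4 : ℕ) ∣ 4 ^ (n + 1) := dvd_pow_self 4 (by omega)
  have hcap : C * (5 * 2 ^ (n + 1)) + 25 < 4 ^ (n + 1) := by
    have h1 : n + 1 < 2 ^ (n + 1) := Nat.lt_two_pow_self
    have h2 : (4 : ℕ) ^ (n + 1) = 2 ^ (n + 1) * 2 ^ (n + 1) := by
      rw [← mul_pow]; norm_num
    have h3 : 1 ≤ 2 ^ (n + 1) := Nat.one_le_two_pow
    have h5 : 5 * C + 25 < 2 ^ (n + 1) := by omega
    rw [h2]
    calc C * (5 * 2 ^ (n + 1)) + 25 ≤ (5 * C + 25) * 2 ^ (n + 1) := cap_aux C _ h3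
      _ < 2 ^ (n + 1) * 2 ^ (n + 1) := by
          exact Nat.mul_lt_mul_of_pos_right h5 (by positivity)
  have hm : 2 * 2 ^ (4280 * (n + 1)) + 2 ^ (3200 * (n + 1)) ≤
      2 ^ (1080 * (n + 1) + 2) * 2 ^ (3200 * (n + 1)) := by
    have h1 : 2 ^ (1080 * (n + 1) + 2) * 2 ^ (3200 * (n + 1)) = 4 * 2 ^ (4280 * (n + 1)) := by
      rw [← pow_add, show 1080 * (n + 1) + 2 + 3200 * (n + 1) = 2 + 4280 * (n + 1) by ring,
        pow_add]
      norm_num
    have h2 : 2 ^ (3200 * (n + 1)) ≤ 2 ^ (4280 * (n + 1)) := two_pow_mono (by clear * -; omega)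
    rw [h1]
    generalize 2 ^ (3200 * (n + 1)) = x at h2 ⊢
    generalize 2 ^ (4280 * (n + 1)) = y at h2 ⊢
    omega
  refine no_short_refutation (M := 4 ^ (n + 1)) (D := 4000 * (n + 1)) h4 (by omega)
    (2 ^ (3200 * (n + 1))) (2 ^ (n + 1)) (2 ^ (1080 * (n + 1) + 2)) (2 ^ (4280 * (n + 1)))
    ((2 ^ (2 ^ (n + 1)) + 1) * 2 ^ (4280 * (n + 1))) C hl (ll (n + 1)) (TT (n + 1)) hll hTT
    (hST_n n) (v00 n) 0 (star_nonempty n) (u00 n) R hR b hb hC hCb hC4 hcap
    (π.map (Fm.map (dec n))) ?_ (dec n) ?_ ?_ hsF ?_ hm hnum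
  · have := hπ.map (dec n)
    rw [FF_dec] at this
    exact this
  · exact List.mem_map_of_mem hbπ
  · intro A hA
    obtain ⟨B, hB, rfl⟩ := List.mem_map.1 hA
    rw [Fm.size_map]
    exact hsl B hB
  · rw [List.length_map]
    exact Nat.mul_le_mul_right _ (by omega)

end Fr56
end
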