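import Mathlib

/-!
The base graph: two layers of a discrete torus `(Z/M)²` joined by rungs.
-/

set_option linter.unusedSectionVars false

namespace Fr56

open Finset
open scoped Classical

/-- coarse points -/
abbrev J (M : ℕ) := ZMod M × ZMod M

/-- vertices of the base graph -/
abbrev Vt (M : ℕ) := J M × Bool

/-- edges of the base graph: `(p, none)` is the rung at `p`, joining `(p, false)` and `(p, true)`;
`(p, some (d, i))` joins `(p, i)` and `(p + dv d, i)` -/
abbrev Ed (M : ℕ) := J M × Option (Bool × Bool)

/-- the two directions -/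
def dv (M : ℕ) : Bool → J M
  | true => (1, 0)
  | false => (0, 1)

/-- first endpoint -/
def src {M : ℕ} : Ed M → Vt M
  | (p, none) => (p, false)
  | (p, some (_, i)) => (p, i)

/-- second endpoint -/
def tgt {M : ℕ} : Ed M → Vt M
  | (p, none) => (p, true)
  | (p, some (d, i)) => (p + dv M d, i)

/-- vertex-disjoint edges -/
def VDisj {M : ℕ} (e f : Ed M) : Prop :=
  src e ≠ src f ∧ src e ≠ tgt f ∧ tgt e ≠ src f ∧ tgt e ≠ tgt f

/-- incidence -/
def Inci {M : ℕ} (e : Ed M) (v : Vt M) : Prop := src e = v ∨ tgt e = v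

/-- edges with an endpoint over `U` -/
def inc {M : ℕ} (U : Finset (J M)) : Set (Ed M) := {e | (src e).1 ∈ U ∨ (tgt e).1 ∈ U}

/-- points whose row or column contains no point of `U` -/
def Free {M : ℕ} (U : Finset (J M)) (p : J M) : Prop :=
  (∀ q ∈ U, q.1 ≠ p.1) ∨ (∀ q ∈ U, q.2 ≠ p.2)

/-- the two coarse endpoints of an edge -/
noncomputable def crs {M : ℕ} (e : Ed M) : Finset (J M) := {(src e).1, (tgt e).1}

section
variable {M : ℕ} [NeZero M]

/-- boundary map -/
noncomputable def bd (y : Ed M → ZMod 2) (v : Vt M) : ZMod 2 :=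
  ∑ e, ((if src e = v then y e else 0) + (if tgt e = v then y e else 0))

/-- indicator of a vertex -/
noncomputable def pt (v : Vt M) : Vt M → ZMod 2 := Pi.single v 1

/-- neighbour of `p` in direction `δ = (d, sign)` -/
def nb (p : J M) (δ : Bool × Bool) : J M := if δ.2 then p + dv M δ.1 else p - dv M δ.1

/-- the edge in layer `i` from `p` in direction `δ` -/
def sedge (p : J M) (δ : Bool × Bool) (i : Bool) : Ed M :=
  if δ.2 then (p, some (δ.1, i)) else (p - dv M δ.1, some (δ.1, i))

/-- the four edges of the face over `p, nb p δ` -/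
noncomputable def face (p : J M) (δ : Bool × Bool) : Ed M → ZMod 2 :=
  Pi.single (p, none) 1 + Pi.single (nb p δ, none) 1 + Pi.single (sedge p δ false) 1 +
    Pi.single (sedge p δ true) 1

/-- sum of faces at `p` -/
noncomputable def Dcl (p : J M) (σ : Finset (Bool × Bool)) : Ed M → ZMod 2 := ∑ δ ∈ σ, face p δ

/-- `p` together with its four neighbours -/
noncomputable def Nb (p : J M) : Finset (J M) := insert p (univ.image (nb p))

/-- class of a point mod 4 -/
def cls (p : J M) : ZMod 4 × ZMod 4 := (p.1.cast, p.2.cast)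

end

end Fr56
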