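import Pool.Agent.Lib.MP_51bb46_lc.B.Host
import Pool.Agent.Lib.MP_51bb46_lc.B.Prob
import Pool.Agent.Lib.MP_51bb46_lc.B.Local
import Pool.Agent.Lib.MP_51bb46_lc.B.TseitinA
import Pool.Agent.Lib.MP_51bb46_lc.B.Tseitin
import Pool.Agent.Lib.MP_51bb46_lc.B.SensB

section

section

/-!
Host graph: liveness probabilities, translations.
-/

set_option linter.unusedSectionVars false

namespace Fr56

open Finset
open scoped Classical

section
variable {M D : ℕ} [NeZero M]

/-- base edges are not loops -/
theorem src_ne_tgt_B (hM : 2 ≤ M) (e : Ed M) : src e ≠ tgt e := by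
  have : Fact (1 < M) := ⟨hM⟩
  obtain ⟨p, o⟩ := e
  rcases o with _ | ⟨d, i⟩
  · intro h
    have h2 := congrArg Prod.snd h
    simp [src, tgt] at h2
  · intro h
    have h2 := congrArg Prod.fst h
    simp only [src, tgt] at h2
    cases d
    · have h3 := congrArg Prod.snd h2
      simp [dv] at h3
    · have h3 := congrArg Prod.fst h2
      simp [dv] at h3

theorem pr_inst_B {Ω : Type} (i1 i2 : Fintype Ω) (P : Ω → Prop) : @pr Ω i1 P = @pr Ω i2 P := by
  rw [Subsingleton.elim i1 i2]

theorem mix_mix_B (i : ℕ) (b c : A D) : mix i (mix i b c) (mix i c b) = b := by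
  funext k
  simp only [mix]
  split_ifs <;> rfl

/-- probability of the weakened liveness event -/
theorem pr_weak_live_B (i : ℕ) (w : A D) (s t : Vt M) (hst : s ≠ t) :
    pr (fun a : Vt M → A D => w = mix i (a s) (a t)) = 1 / 2 ^ D := by
  let φ : (Vt M → A D) → (Vt M → A D) := fun a v =>
    if v = s then mix i (a s) (a t) else if v = t then mix i (a t) (a s) else a v
  have hφs : ∀ a, φ a s = mix i (a s) (a t) := by
    intro a
    simp only [φ, if_true]
  have hφt : ∀ a, φ a t = mix i (a t) (a s) := by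
    intro a
    simp only [φ, if_neg (Ne.symm hst), if_true]
  have hφ : ∀ a, φ (φ a) = a := by
    intro a
    funext v
    by_cases h1 : v = s
    · rw [h1, hφs, hφs, hφt]
      exact mix_mix_B i (a s) (a t)
    · by_cases h2 : v = t
      · rw [h2, hφt, hφs, hφt]
        exact mix_mix_B i (a t) (a s)
      · have e1 : ∀ b : Vt M → A D, φ b v = b v := by
          intro b
          simp only [φ, if_neg h1, if_neg h2]
        rw [e1, e1]
  have hcard : (univ.filter (fun a : Vt M → A D => w = mix i (a s) (a t))).card =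
      (univ.filter (fun a : Vt M → A D => a s = w)).card := by
    apply Finset.card_bij' (fun a _ => φ a) (fun a _ => φ a)
    · intro a ha
      rw [Finset.mem_filter] at ha ⊢
      refine ⟨Finset.mem_univ _, ?_⟩
      rw [hφs]
      exact ha.2.symm
    · intro a ha
      rw [Finset.mem_filter] at ha ⊢
      refine ⟨Finset.mem_univ _, ?_⟩
      rw [← hφs (φ a), hφ]
      exact ha.2.symm
    · intro a _
      exact hφ a
    · intro a _
      exact hφ a
  have h1 : pr (fun a : Vt M → A D => w = mix i (a s) (a t)) =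
      pr (fun a : Vt M → A D => a s = w) := by
    rw [pr_eq (fun a : Vt M → A D => w = mix i (a s) (a t)),
      pr_eq (fun a : Vt M → A D => a s = w), hcard]
  have h2 := pr_coord (I := Vt M) (A := A D) s w
  rw [h1, pr_inst_B _ _ _, h2]
  congr 1
  rw [Fintype.card_fun, ZMod.card, Fintype.card_fin]
  push_cast
  rfl

/-- host edges over two vertex-disjoint base edges are both live with probability at most the
product `2^(-D) * 2^(-D)` -/
theorem pr_live_live (hM : 2 ≤ M) (x x' : Xt M D) (h : VDisj x.e x'.e) :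
    pr (fun a : Vt M → A D => live a x ∧ live a x') ≤ (1 / 2 ^ D) * (1 / 2 ^ D) := by
  have h1 : pr (fun a : Vt M → A D => live a x ∧ live a x') ≤
      pr (fun a : Vt M → A D => x.w = mix x.i (a (src x.e)) (a (tgt x.e)) ∧
        x'.w = mix x'.i (a (src x'.e)) (a (tgt x'.e))) :=
    pr_mono fun a ha => ⟨ha.1.1, ha.2.1⟩
  refine h1.trans (le_of_eq ?_)
  have hd : Disjoint ({src x.e, tgt x.e} : Set (Vt M)) {src x'.e, tgt x'.e} := by
    obtain ⟨a1, a2, a3, a4⟩ := h
    rw [Set.disjoint_left]
    intro v hv hv'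
    simp only [Set.mem_insert_iff, Set.mem_singleton_iff] at hv hv'
    rcases hv with rfl | rfl <;> rcases hv' with h5 | h5
    · exact a1 h5
    · exact a2 h5
    · exact a3 h5
    · exact a4 h5
  have hdep : ∀ y : Xt M D, DepOn ({src y.e, tgt y.e} : Set (Vt M))
      (fun a : Vt M → A D => y.w = mix y.i (a (src y.e)) (a (tgt y.e))) := by
    intro y a b hab
    have e1 := hab (src y.e) (by simp)
    have e2 := hab (tgt y.e) (by simp)
    simp only [e1, e2]
  have h2 := pr_indep hd (hdep x) (hdep x')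
  have h3 := pr_weak_live_B (D := D) x.i x.w _ _ (src_ne_tgt_B hM x.e)
  have h4 := pr_weak_live_B (D := D) x'.i x'.w _ _ (src_ne_tgt_B hM x'.e)
  refine (pr_inst_B _ _ _).trans (h2.trans ?_)
  exact congrArg₂ (· * ·) ((pr_inst_B _ _ _).trans h3) ((pr_inst_B _ _ _).trans h4)

/-- translating `a` by a constant moves each path off itself -/
theorem live_translate (a : Vt M → A D) (j j' : A D) (x : Xt M D)
    (h : live (fun v => j + a v) x) (h' : live (fun v => j' + a v) x) : j = j' := by
  have h1 := h.1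
  have h2 := h'.1
  rw [h1] at h2
  funext k
  have h3 := congrFun h2 k
  simp only [mix, Pi.add_apply] at h3
  split_ifs at h3
  · exact add_right_cancel h3
  · exact add_right_cancel h3

/-- liveness depends only on the two endpoints -/
theorem live_congr {a b : Vt M → A D} {x : Xt M D} (h1 : a (src x.e) = b (src x.e))
    (h2 : a (tgt x.e) = b (tgt x.e)) : live a x ↔ live b x := by
  unfold live
  rw [h1, h2]

end

end Fr56
end

section

/-!
Probability of long chains for a fixed host assignment.
-/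

set_option linter.unusedSectionVars false

namespace Fr56

open Finset
open scoped Classical

/-- `pr_indep` for an arbitrary `Fintype` instance on the function type -/
theorem pr_indep' {I A : Type} [Fintype I] [Fintype A] [Nonempty A] [inst : Fintype (I → A)]
    {S T : Set I} (hST : Disjoint S T) {P Q : (I → A) → Prop} (hP : DepOn S P) (hQ : DepOn T Q) :
    pr (fun a => P a ∧ Q a) = pr P * pr Q := by
  have h := pr_indep hST hP hQ
  have e : inst = Pi.instFintype := Subsingleton.elim _ _
  rw [e]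
  exact h

section
variable {M D : ℕ} [NeZero M]

/-- total probability weight of M-steps by `R` -/
noncomputable def mWt (R : Fm (Xt M D ⊕ Bool)) : ℝ :=
  ∑ e : Ed M, ∑ f : Ed M,
    if VDisj e f then pr (fun a : Vt M → A D => e ∈ Live a R ∧ f ∈ Live a R) else 0

/-- total probability weight of S-steps by `R` at `β` -/
noncomputable def sWt (β : Xt M D → ZMod 2) (R : Fm (Xt M D ⊕ Bool)) : ℝ :=
  ∑ p : J M, ∑ σ : Finset (Bool × Bool), ∑ z : Bool → Bool,
    pr (fun a : Vt M → A D => ev β z R ≠ ev (β + Pth a (Dcl p σ)) z R)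

/-- liveness of a base edge depends only on its two endpoints -/
theorem mem_Live_congr {a b : Vt M → A D} {R : Fm (Xt M D ⊕ Bool)} {e : Ed M}
    (h1 : a (src e) = b (src e)) (h2 : a (tgt e) = b (tgt e)) :
    e ∈ Live a R ↔ e ∈ Live b R := by
  constructor
  · rintro ⟨u, hu, rfl, hl⟩
    exact ⟨u, hu, rfl, (live_congr h1 h2).1 hl⟩
  · rintro ⟨u, hu, rfl, hl⟩
    exact ⟨u, hu, rfl, (live_congr h1 h2).2 hl⟩

/-- the lift of `y` depends only on the endpoints of the support of `y` -/
theorem Pth_congr {a b : Vt M → A D} {y : Ed M → ZMod 2}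
    (h : ∀ e, y e ≠ 0 → a (src e) = b (src e) ∧ a (tgt e) = b (tgt e)) : Pth a y = Pth b y := by
  funext x
  unfold Pth
  by_cases hy : y x.e = 0
  · simp [hy]
  · rw [if_congr (live_congr (h _ hy).1 (h _ hy).2) rfl rfl]

/-- the vertices that an M-step by `e, f` depends on -/
theorem mem_crs_src (e : Ed M) : (src e).1 ∈ crs e := by simp [crs]

theorem mem_crs_tgt (e : Ed M) : (tgt e).1 ∈ crs e := by simp [crs]

theorem mem_Nb_self (p : J M) : p ∈ Nb p := by simp [Nb]

theorem mem_Nb_nb (p : J M) (δ : Bool × Bool) : nb p δ ∈ Nb p := by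
  unfold Nb
  exact Finset.mem_insert_of_mem (Finset.mem_image_of_mem _ (Finset.mem_univ _))

/-- the lift of a sum of faces depends only on `a` over the faces -/
theorem Pth_Dcl_congr {a b : Vt M → A D} {p : J M} {σ : Finset (Bool × Bool)}
    (h : ∀ v : Vt M, (v.1 = p ∨ ∃ δ ∈ σ, v.1 = nb p δ) → a v = b v) :
    Pth a (Dcl p σ) = Pth b (Dcl p σ) :=
  Pth_congr fun e he => ⟨h _ (Dcl_supp p σ e he).1, h _ (Dcl_supp p σ e he).2⟩

theorem StepM.subset_A {a : Vt M → A D} {R : Fm (Xt M D ⊕ Bool)} {U U' : Finset (J M)}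
    (h : StepM a R U U') : U ⊆ U' := by
  obtain ⟨e, _, f, _, _, _, _, rfl⟩ := h
  exact Finset.subset_union_left

theorem StepS.subset_A {a : Vt M → A D} {β : Xt M D → ZMod 2} {R : Fm (Xt M D ⊕ Bool)}
    {U U' : Finset (J M)} (h : StepS a β R U U') : U ⊆ U' := by
  obtain ⟨p, σ, z, _, _, rfl, _⟩ := h
  exact Finset.subset_union_left

theorem Chain.subset {Rs : Finset (Fm (Xt M D ⊕ Bool))} {a : Vt M → A D} {β : Xt M D → ZMod 2}
    {k : ℕ} {U W : Finset (J M)} (h : Chain Rs a β k U W) : U ⊆ W := by
  induction k generalizing U with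
  | zero =>
    have h' : U = W := h
    rw [h']
  | succ k ih =>
    obtain ⟨R, _, U', hs, hc⟩ := h
    have h1 : U ⊆ U' := by
      rcases hs with hs | hs
      · exact hs.subset_A
      · exact hs.subset_A
    exact h1.trans (ih hc)

theorem StepM.congr_compl {a b : Vt M → A D} {R : Fm (Xt M D ⊕ Bool)} {U U' : Finset (J M)}
    (hab : ∀ v : Vt M, v.1 ∉ U → a v = b v) (h : StepM a R U U') : StepM b R U U' := by
  obtain ⟨e, he, f, hf, hd, heU, hfU, hU'⟩ := h
  have he' := heU
  have hf' := hfU
  simp only [inc, Set.mem_ofPred_eq, not_or] at he' hf'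
  exact ⟨e, (mem_Live_congr (hab _ he'.1) (hab _ he'.2)).1 he, f,
    (mem_Live_congr (hab _ hf'.1) (hab _ hf'.2)).1 hf, hd, heU, hfU, hU'⟩

theorem StepS.congr_compl {a b : Vt M → A D} {β : Xt M D → ZMod 2} {R : Fm (Xt M D ⊕ Bool)}
    {U U' : Finset (J M)} (hab : ∀ v : Vt M, v.1 ∉ U → a v = b v) (h : StepS a β R U U') :
    StepS b β R U U' := by
  obtain ⟨p, σ, z, hp, hσ, hU', hev⟩ := h
  refine ⟨p, σ, z, hp, hσ, hU', ?_⟩
  rwa [← Pth_Dcl_congr (a := a) (b := b) (p := p) (σ := σ)]
  rintro v (hv | ⟨δ, hδ, hv⟩)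
  · exact hab v (by rw [hv]; exact hp)
  · exact hab v (by rw [hv]; exact hσ δ hδ)

theorem Chain.congr_compl {Rs : Finset (Fm (Xt M D ⊕ Bool))} {a b : Vt M → A D}
    {β : Xt M D → ZMod 2} {k : ℕ} {U W : Finset (J M)}
    (hab : ∀ v : Vt M, v.1 ∉ U → a v = b v) (h : Chain Rs a β k U W) : Chain Rs b β k U W := by
  induction k generalizing U with
  | zero => exact h
  | succ k ih =>
    obtain ⟨R, hR, U', hs, hc⟩ := h
    have h1 : U ⊆ U' := by
      rcases hs with hs | hs
      · exact hs.subset_A
      · exact hs.subset_A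
    refine ⟨R, hR, U', ?_, ih (fun v hv => hab v fun h => hv (h1 h)) hc⟩
    rcases hs with hs | hs
    · exact Or.inl (hs.congr_compl hab)
    · exact Or.inr (hs.congr_compl hab)

/-- a chain from `U` depends only on `a` outside `U` -/
theorem Chain.depOn_compl (Rs : Finset (Fm (Xt M D ⊕ Bool))) (β : Xt M D → ZMod 2) (k : ℕ)
    (U W : Finset (J M)) :
    DepOn {v : Vt M | v.1 ∉ U} (fun a : Vt M → A D => Chain Rs a β k U W) := by
  intro a b hab
  exact ⟨fun h => h.congr_compl hab, fun h => h.congr_compl fun v hv => (hab v hv).symm⟩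

theorem StepM.congr_mem {a b : Vt M → A D} {R : Fm (Xt M D ⊕ Bool)} {U U' : Finset (J M)}
    (hab : ∀ v : Vt M, v.1 ∈ U' → a v = b v) (h : StepM a R U U') : StepM b R U U' := by
  obtain ⟨e, he, f, hf, hd, heU, hfU, rfl⟩ := h
  have h1 : ∀ p ∈ crs e, p ∈ U ∪ (crs e ∪ crs f) := fun p hp =>
    Finset.mem_union_right _ (Finset.mem_union_left _ hp)
  have h2 : ∀ p ∈ crs f, p ∈ U ∪ (crs e ∪ crs f) := fun p hp =>
    Finset.mem_union_right _ (Finset.mem_union_right _ hp)
  exact ⟨e, (mem_Live_congr (hab _ (h1 _ (mem_crs_src e))) (hab _ (h1 _ (mem_crs_tgt e)))).1 he, f,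
    (mem_Live_congr (hab _ (h2 _ (mem_crs_src f))) (hab _ (h2 _ (mem_crs_tgt f)))).1 hf,
    hd, heU, hfU, rfl⟩

theorem StepS.congr_mem {a b : Vt M → A D} {β : Xt M D → ZMod 2} {R : Fm (Xt M D ⊕ Bool)}
    {U U' : Finset (J M)} (hab : ∀ v : Vt M, v.1 ∈ U' → a v = b v) (h : StepS a β R U U') :
    StepS b β R U U' := by
  obtain ⟨p, σ, z, hp, hσ, rfl, hev⟩ := h
  refine ⟨p, σ, z, hp, hσ, rfl, ?_⟩
  rwa [← Pth_Dcl_congr (a := a) (b := b) (p := p) (σ := σ)]
  rintro v (hv | ⟨δ, hδ, hv⟩)
  · exact hab v (by rw [hv]; exact Finset.mem_union_right _ (mem_Nb_self p))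
  · exact hab v (by rw [hv]; exact Finset.mem_union_right _ (mem_Nb_nb p δ))

theorem Chain.congr_mem {Rs : Finset (Fm (Xt M D ⊕ Bool))} {a b : Vt M → A D}
    {β : Xt M D → ZMod 2} {k : ℕ} {U W : Finset (J M)}
    (hab : ∀ v : Vt M, v.1 ∈ W → a v = b v) (h : Chain Rs a β k U W) : Chain Rs b β k U W := by
  induction k generalizing U with
  | zero => exact h
  | succ k ih =>
    obtain ⟨R, hR, U', hs, hc⟩ := h
    have h1 : U' ⊆ W := hc.subset
    refine ⟨R, hR, U', ?_, ih hc⟩
    rcases hs with hs | hs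
    · exact Or.inl (hs.congr_mem fun v hv => hab v (h1 hv))
    · exact Or.inr (hs.congr_mem fun v hv => hab v (h1 hv))

/-- a chain to `W` depends only on `a` over `W` -/
theorem Chain.depOn (Rs : Finset (Fm (Xt M D ⊕ Bool))) (β : Xt M D → ZMod 2) (k : ℕ)
    (U W : Finset (J M)) :
    DepOn {v : Vt M | v.1 ∈ W} (fun a : Vt M → A D => Chain Rs a β k U W) := by
  intro a b hab
  exact ⟨fun h => h.congr_mem hab, fun h => h.congr_mem fun v hv => (hab v hv).symm⟩

theorem mWt_nonneg (R : Fm (Xt M D ⊕ Bool)) : 0 ≤ mWt R := by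
  unfold mWt
  refine Finset.sum_nonneg fun e _ => Finset.sum_nonneg fun f _ => ?_
  split_ifs
  · exact pr_nonneg _
  · exact le_rfl

theorem sWt_nonneg (β : Xt M D → ZMod 2) (R : Fm (Xt M D ⊕ Bool)) : 0 ≤ sWt β R := by
  unfold sWt
  exact Finset.sum_nonneg fun p _ => Finset.sum_nonneg fun σ _ => Finset.sum_nonneg fun z _ =>
    pr_nonneg _

/-- one M-step followed by a chain: a single term of the union bound -/
theorem pr_stepM_term (Rs : Finset (Fm (Xt M D ⊕ Bool))) (β : Xt M D → ZMod 2) (c : ℝ) (hc : 0 ≤ c)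
    (k : ℕ) (W : Finset (J M))
    (ih : ∀ U, pr (fun a : Vt M → A D => Chain Rs a β k U W) ≤ c)
    (R : Fm (Xt M D ⊕ Bool)) (U : Finset (J M)) (e f : Ed M) :
    pr (fun a : Vt M → A D => (VDisj e f ∧ e ∉ inc U ∧ f ∉ inc U) ∧
      (e ∈ Live a R ∧ f ∈ Live a R) ∧ Chain Rs a β k (U ∪ (crs e ∪ crs f)) W) ≤
    (if VDisj e f then pr (fun a : Vt M → A D => e ∈ Live a R ∧ f ∈ Live a R) else 0) * c := by
  by_cases hP : VDisj e f ∧ e ∉ inc U ∧ f ∉ inc U
  · rw [if_pos hP.1]
    have hS : pr (fun a : Vt M → A D => (e ∈ Live a R ∧ f ∈ Live a R) ∧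
        Chain Rs a β k (U ∪ (crs e ∪ crs f)) W) =
        pr (fun a : Vt M → A D => e ∈ Live a R ∧ f ∈ Live a R) *
          pr (fun a : Vt M → A D => Chain Rs a β k (U ∪ (crs e ∪ crs f)) W) := by
      refine pr_indep' (S := {v : Vt M | v.1 ∈ U ∪ (crs e ∪ crs f)})
        (T := {v : Vt M | v.1 ∉ U ∪ (crs e ∪ crs f)}) ?_ ?_ (Chain.depOn_compl Rs β k _ W)
      · rw [Set.disjoint_left]
        intro v hv hv'
        exact hv' hv
      · intro a b hab
        have h1 : ∀ p ∈ crs e, p ∈ U ∪ (crs e ∪ crs f) := fun p hp =>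
          Finset.mem_union_right _ (Finset.mem_union_left _ hp)
        have h2 : ∀ p ∈ crs f, p ∈ U ∪ (crs e ∪ crs f) := fun p hp =>
          Finset.mem_union_right _ (Finset.mem_union_right _ hp)
        exact and_congr
          (mem_Live_congr (hab _ (h1 _ (mem_crs_src e))) (hab _ (h1 _ (mem_crs_tgt e))))
          (mem_Live_congr (hab _ (h2 _ (mem_crs_src f))) (hab _ (h2 _ (mem_crs_tgt f))))
    refine (pr_mono (Q := fun a : Vt M → A D => (e ∈ Live a R ∧ f ∈ Live a R) ∧
      Chain Rs a β k (U ∪ (crs e ∪ crs f)) W) fun a h => h.2).trans ?_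
    rw [hS]
    exact mul_le_mul_of_nonneg_left (ih _) (pr_nonneg _)
  · have h0 : pr (fun a : Vt M → A D => (VDisj e f ∧ e ∉ inc U ∧ f ∉ inc U) ∧
          (e ∈ Live a R ∧ f ∈ Live a R) ∧ Chain Rs a β k (U ∪ (crs e ∪ crs f)) W) = 0 := by
      rw [← pr_false (Ω := Vt M → A D)]
      exact pr_congr fun a => ⟨fun h => hP h.1, fun h => h.elim⟩
    rw [h0]
    refine mul_nonneg ?_ hc
    split_ifs
    · exact pr_nonneg _
    · exact le_rfl

/-- one M-step followed by a chain -/
theorem pr_stepM_le (Rs : Finset (Fm (Xt M D ⊕ Bool))) (β : Xt M D → ZMod 2) (c : ℝ) (hc : 0 ≤ c)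
    (k : ℕ) (W : Finset (J M))
    (ih : ∀ U, pr (fun a : Vt M → A D => Chain Rs a β k U W) ≤ c)
    (R : Fm (Xt M D ⊕ Bool)) (U : Finset (J M)) :
    pr (fun a : Vt M → A D => ∃ U', StepM a R U U' ∧ Chain Rs a β k U' W) ≤ mWt R * c := by
  have h1 : pr (fun a : Vt M → A D => ∃ U', StepM a R U U' ∧ Chain Rs a β k U' W) ≤
      pr (fun a : Vt M → A D => ∃ q ∈ (univ : Finset (Ed M × Ed M)),
        (VDisj q.1 q.2 ∧ q.1 ∉ inc U ∧ q.2 ∉ inc U) ∧ (q.1 ∈ Live a R ∧ q.2 ∈ Live a R) ∧
          Chain Rs a β k (U ∪ (crs q.1 ∪ crs q.2)) W) := by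
    apply pr_mono
    rintro a ⟨U', ⟨e, he, f, hf, hd, heU, hfU, rfl⟩, hch⟩
    exact ⟨(e, f), Finset.mem_univ _, ⟨hd, heU, hfU⟩, ⟨he, hf⟩, hch⟩
  refine h1.trans ((pr_exists_le _ _).trans ?_)
  refine (Finset.sum_le_sum fun q _ => pr_stepM_term Rs β c hc k W ih R U q.1 q.2).trans ?_
  rw [← Finset.sum_mul, Fintype.sum_prod_type]
  exact le_rfl

/-- one S-step followed by a chain: a single term of the union bound -/
theorem pr_stepS_term (Rs : Finset (Fm (Xt M D ⊕ Bool))) (β : Xt M D → ZMod 2) (c : ℝ) (hc : 0 ≤ c)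
    (k : ℕ) (W : Finset (J M))
    (ih : ∀ U, pr (fun a : Vt M → A D => Chain Rs a β k U W) ≤ c)
    (R : Fm (Xt M D ⊕ Bool)) (U : Finset (J M)) (p : J M) (σ : Finset (Bool × Bool))
    (z : Bool → Bool) :
    pr (fun a : Vt M → A D => (p ∉ U ∧ ∀ δ ∈ σ, nb p δ ∉ U) ∧
          ev β z R ≠ ev (β + Pth a (Dcl p σ)) z R ∧ Chain Rs a β k (U ∪ Nb p) W) ≤
      pr (fun a : Vt M → A D => ev β z R ≠ ev (β + Pth a (Dcl p σ)) z R) * c := by
  by_cases hP : p ∉ U ∧ ∀ δ ∈ σ, nb p δ ∉ U
  · have hS : pr (fun a : Vt M → A D => ev β z R ≠ ev (β + Pth a (Dcl p σ)) z R ∧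
        Chain Rs a β k (U ∪ Nb p) W) =
        pr (fun a : Vt M → A D => ev β z R ≠ ev (β + Pth a (Dcl p σ)) z R) *
          pr (fun a : Vt M → A D => Chain Rs a β k (U ∪ Nb p) W) := by
      refine pr_indep' (S := {v : Vt M | v.1 ∈ U ∪ Nb p})
        (T := {v : Vt M | v.1 ∉ U ∪ Nb p}) ?_ ?_ (Chain.depOn_compl Rs β k _ W)
      · rw [Set.disjoint_left]
        intro v hv hv'
        exact hv' hv
      · intro a b hab
        have h2 : Pth a (Dcl p σ) = Pth b (Dcl p σ) := by
          apply Pth_Dcl_congr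
          rintro v (hv | ⟨δ, hδ, hv⟩)
          · refine hab v ?_
            show v.1 ∈ U ∪ Nb p
            rw [hv]; exact Finset.mem_union_right _ (mem_Nb_self p)
          · refine hab v ?_
            show v.1 ∈ U ∪ Nb p
            rw [hv]; exact Finset.mem_union_right _ (mem_Nb_nb p δ)
        show (ev β z R ≠ ev (β + Pth a (Dcl p σ)) z R) ↔ (ev β z R ≠ ev (β + Pth b (Dcl p σ)) z R)
        rw [h2]
    refine (pr_mono (Q := fun a : Vt M → A D => ev β z R ≠ ev (β + Pth a (Dcl p σ)) z R ∧
      Chain Rs a β k (U ∪ Nb p) W) fun a h => h.2).trans ?_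
    rw [hS]
    exact mul_le_mul_of_nonneg_left (ih _) (pr_nonneg _)
  · have h0 : pr (fun a : Vt M → A D => (p ∉ U ∧ ∀ δ ∈ σ, nb p δ ∉ U) ∧
          ev β z R ≠ ev (β + Pth a (Dcl p σ)) z R ∧ Chain Rs a β k (U ∪ Nb p) W) = 0 := by
      rw [← pr_false (Ω := Vt M → A D)]
      exact pr_congr fun a => ⟨fun h => hP h.1, fun h => h.elim⟩
    rw [h0]
    exact mul_nonneg (pr_nonneg _) hc

/-- one S-step followed by a chain -/
theorem pr_stepS_le (Rs : Finset (Fm (Xt M D ⊕ Bool))) (β : Xt M D → ZMod 2) (c : ℝ) (hc : 0 ≤ c)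
    (k : ℕ) (W : Finset (J M))
    (ih : ∀ U, pr (fun a : Vt M → A D => Chain Rs a β k U W) ≤ c)
    (R : Fm (Xt M D ⊕ Bool)) (U : Finset (J M)) :
    pr (fun a : Vt M → A D => ∃ U', StepS a β R U U' ∧ Chain Rs a β k U' W) ≤ sWt β R * c := by
  have h1 : pr (fun a : Vt M → A D => ∃ U', StepS a β R U U' ∧ Chain Rs a β k U' W) ≤
      pr (fun a : Vt M → A D =>
        ∃ q ∈ (univ : Finset (J M × (Finset (Bool × Bool) × (Bool → Bool)))),
        (q.1 ∉ U ∧ ∀ δ ∈ q.2.1, nb q.1 δ ∉ U) ∧
          ev β q.2.2 R ≠ ev (β + Pth a (Dcl q.1 q.2.1)) q.2.2 R ∧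
          Chain Rs a β k (U ∪ Nb q.1) W) := by
    apply pr_mono
    rintro a ⟨U', ⟨p, σ, z, hp, hσ, rfl, hev⟩, hch⟩
    exact ⟨(p, σ, z), Finset.mem_univ _, ⟨hp, hσ⟩, hev, hch⟩
  refine h1.trans ((pr_exists_le _ _).trans ?_)
  refine (Finset.sum_le_sum fun q _ =>
    pr_stepS_term Rs β c hc k W ih R U q.1 q.2.1 q.2.2).trans ?_
  rw [← Finset.sum_mul]
  refine le_of_eq (congrArg (· * c) ?_)
  rw [Fintype.sum_prod_type]
  refine Finset.sum_congr rfl fun p _ => ?_
  rw [Fintype.sum_prod_type]

/-- long chains are unlikely -/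
theorem pr_chain_le (Rs : Finset (Fm (Xt M D ⊕ Bool))) (β : Xt M D → ZMod 2) (η : ℝ)
    (hη : ∑ R ∈ Rs, (mWt R + sWt β R) ≤ η) (k : ℕ) (U W : Finset (J M)) :
    pr (fun a : Vt M → A D => Chain Rs a β k U W) ≤ η ^ k := by
  have hη0 : 0 ≤ η := le_trans (Finset.sum_nonneg fun R _ =>
    add_nonneg (mWt_nonneg R) (sWt_nonneg β R)) hη
  induction k generalizing U with
  | zero => rw [pow_zero]; exact pr_le_one _
  | succ k ih =>
    have hc : 0 ≤ η ^ k := pow_nonneg hη0 k
    have h1 : pr (fun a : Vt M → A D => Chain Rs a β (k + 1) U W) ≤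
        pr (fun a : Vt M → A D => ∃ R ∈ Rs,
          (∃ U', StepM a R U U' ∧ Chain Rs a β k U' W) ∨
          (∃ U', StepS a β R U U' ∧ Chain Rs a β k U' W)) := by
      apply pr_mono
      rintro a ⟨R, hR, U', hs | hs, hch⟩
      · exact ⟨R, hR, Or.inl ⟨U', hs, hch⟩⟩
      · exact ⟨R, hR, Or.inr ⟨U', hs, hch⟩⟩
    refine h1.trans ((pr_exists_le _ _).trans ?_)
    calc ∑ R ∈ Rs, pr (fun a : Vt M → A D =>
          (∃ U', StepM a R U U' ∧ Chain Rs a β k U' W) ∨
          (∃ U', StepS a β R U U' ∧ Chain Rs a β k U' W))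
        ≤ ∑ R ∈ Rs, (mWt R + sWt β R) * η ^ k := by
          refine Finset.sum_le_sum fun R _ => ?_
          refine (pr_or_le _ _).trans ?_
          rw [add_mul]
          exact add_le_add (pr_stepM_le Rs β _ hc k W ih R U) (pr_stepS_le Rs β _ hc k W ih R U)
      _ = (∑ R ∈ Rs, (mWt R + sWt β R)) * η ^ k := by rw [Finset.sum_mul]
      _ ≤ η * η ^ k := mul_le_mul_of_nonneg_right hη hc
      _ = η ^ (k + 1) := by rw [pow_succ]; ring

end

end Fr56
end

section

/-!
Local semantics: chains, and the extension lemma.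
-/

set_option linter.unusedSectionVars false

namespace Fr56

open Finset
open scoped Classical

section
variable {M D : ℕ} [NeZero M]

theorem crs_card (e : Ed M) : (crs e).card ≤ 2 := Finset.card_le_two

theorem StepM.subset {R : Fm (Xt M D ⊕ Bool)} {a : Vt M → A D} {U U' : Finset (J M)}
    (h : StepM a R U U') : U ⊆ U' := by
  obtain ⟨e, _, f, _, _, _, _, rfl⟩ := h
  exact Finset.subset_union_left

theorem StepM.card {R : Fm (Xt M D ⊕ Bool)} {a : Vt M → A D} {U U' : Finset (J M)}
    (h : StepM a R U U') : U'.card ≤ U.card + 5 := by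
  obtain ⟨e, _, f, _, _, _, _, rfl⟩ := h
  have h1 := Finset.card_union_le U (crs e ∪ crs f)
  have h2 := Finset.card_union_le (crs e) (crs f)
  have h3 := crs_card e
  have h4 := crs_card f
  omega

theorem StepS.subset {R : Fm (Xt M D ⊕ Bool)} {a : Vt M → A D} {β : Xt M D → ZMod 2}
    {U U' : Finset (J M)} (h : StepS a β R U U') : U ⊆ U' := by
  obtain ⟨p, σ, z, _, _, rfl, _⟩ := h
  exact Finset.subset_union_left

theorem StepS.card {R : Fm (Xt M D ⊕ Bool)} {a : Vt M → A D} {β : Xt M D → ZMod 2}
    {U U' : Finset (J M)} (h : StepS a β R U U') : U'.card ≤ U.card + 5 := by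
  obtain ⟨p, σ, z, _, _, rfl, _⟩ := h
  have h1 := Finset.card_union_le U (Nb p)
  have h2 := card_Nb p
  omega

theorem LChain.subset {Rs : Finset (Fm (Xt M D ⊕ Bool))} {a : Vt M → A D}
    {α : Xt M D → ZMod 2} {y : Ed M → ZMod 2} {k : ℕ} {U W : Finset (J M)}
    (h : LChain Rs a α y k U W) : U ⊆ W := by
  induction k generalizing U with
  | zero =>
    have h' : U = W := h
    exact h'.subset
  | succ k ih =>
    obtain ⟨R, _, U', hs, hc⟩ := h
    refine Finset.Subset.trans ?_ (ih hc)
    rcases hs with hs | ⟨hs, _⟩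
    · exact hs.subset
    · exact hs.subset

theorem LChain.card {Rs : Finset (Fm (Xt M D ⊕ Bool))} {a : Vt M → A D}
    {α : Xt M D → ZMod 2} {y : Ed M → ZMod 2} {k : ℕ} {U W : Finset (J M)}
    (h : LChain Rs a α y k U W) : W.card ≤ U.card + 5 * k := by
  induction k generalizing U with
  | zero =>
    have h' : U = W := h
    rw [h']
    omega
  | succ k ih =>
    obtain ⟨R, _, U', hs, hc⟩ := h
    have h1 := ih hc
    have h2 : U'.card ≤ U.card + 5 := by
      rcases hs with hs | ⟨hs, _⟩
      · exact hs.card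
      · exact hs.card
    omega

/-- a chain depends only on the base assignment near its final set -/
theorem LChain.congr {Rs : Finset (Fm (Xt M D ⊕ Bool))} {a : Vt M → A D}
    {α : Xt M D → ZMod 2} {y y' : Ed M → ZMod 2} {k : ℕ} {U W : Finset (J M)}
    (h : LChain Rs a α y k U W) (hy : Agree W y y') : LChain Rs a α y' k U W := by
  induction k generalizing U with
  | zero => exact h
  | succ k ih =>
    obtain ⟨R, hR, U', hs, hc⟩ := h
    refine ⟨R, hR, U', ?_, ih hc⟩
    rcases hs with hs | ⟨hs, hl⟩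
    · exact Or.inl hs
    · refine Or.inr ⟨?_, hl⟩
      have hUW : U' ⊆ W := hc.subset
      have hlive : ∀ e ∈ Live a R, y e = y' e := fun e he => hy e (inc_mono hUW (hl he))
      obtain ⟨p, σ, z, h1, h2, h3, h4⟩ := hs
      refine ⟨p, σ, z, h1, h2, h3, ?_⟩
      rw [add_assoc, ← Pth_add] at h4 ⊢
      rw [← ev_congr_live α a R y y' hlive z,
        ← ev_congr_live α a R (y + Dcl p σ) (y' + Dcl p σ) (fun e he => by
          rw [Pi.add_apply, Pi.add_apply, hlive e he]) z]
      exact h4

theorem LChain.toChain {Rs : Finset (Fm (Xt M D ⊕ Bool))} {a : Vt M → A D}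
    {α : Xt M D → ZMod 2} {y : Ed M → ZMod 2} {k : ℕ} {U W : Finset (J M)}
    (h : LChain Rs a α y k U W) : Chain Rs a (α + Pth a y) k U W := by
  induction k generalizing U with
  | zero => exact h
  | succ k ih =>
    obtain ⟨R, hR, U', hs, hc⟩ := h
    refine ⟨R, hR, U', ?_, ih hc⟩
    rcases hs with hs | ⟨hs, _⟩
    · exact Or.inl hs
    · exact Or.inr hs

theorem LChain.snoc {Rs : Finset (Fm (Xt M D ⊕ Bool))} {a : Vt M → A D}
    {α : Xt M D → ZMod 2} {y : Ed M → ZMod 2} {k : ℕ} {U W W' : Finset (J M)}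
    (h : LChain Rs a α y k U W) {R : Fm (Xt M D ⊕ Bool)} (hR : R ∈ Rs)
    (hs : StepM a R W W' ∨ (StepS a (α + Pth a y) R W W' ∧ Live a R ⊆ inc W')) :
    LChain Rs a α y (k + 1) U W' := by
  induction k generalizing U with
  | zero =>
    have h' : U = W := h
    subst h'
    exact ⟨R, hR, W', hs, rfl⟩
  | succ k ih =>
    obtain ⟨R', hR', U', hs', hc⟩ := h
    exact ⟨R', hR', U', hs', ih hc⟩

theorem agree_of_move {S : Finset (J M)} {y y' : Ed M → ZMod 2}
    (h : ∀ e, y' e ≠ y e → Free S (src e).1 ∧ Free S (tgt e).1) : Agree S y y' := by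
  intro e he
  by_contra hne
  exact not_inc_of_free (h e fun h' => hne h'.symm) he

theorem sedge_ends (p : J M) (δ : Bool × Bool) (i : Bool) :
    ((src (sedge p δ i)).1 = p ∨ (src (sedge p δ i)).1 = nb p δ) ∧
    ((tgt (sedge p δ i)).1 = p ∨ (tgt (sedge p δ i)).1 = nb p δ) ∧
    ((src (sedge p δ i)).1 = nb p δ ∨ (tgt (sedge p δ i)).1 = nb p δ) := by
  obtain ⟨d, s⟩ := δ
  cases s
  · simp [sedge, nb, src, tgt]
  · simp [sedge, nb, src, tgt]

theorem crs_subset_Nb {e : Ed M} {p : J M} {i : Bool} (h : Inci e (p, i)) : crs e ⊆ Nb p := by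
  intro q hq
  unfold crs at hq
  unfold Nb
  rw [Finset.mem_insert, Finset.mem_singleton] at hq
  rw [Finset.mem_insert, Finset.mem_image]
  rw [inci_iff] at h
  rcases h with rfl | ⟨δ, rfl⟩
  · left
    rcases hq with rfl | rfl <;> rfl
  · obtain ⟨h1, h2, _⟩ := sedge_ends p δ i
    rcases hq with rfl | rfl
    · rcases h1 with h1 | h1
      · exact Or.inl h1
      · exact Or.inr ⟨δ, Finset.mem_univ _, h1.symm⟩
    · rcases h2 with h2 | h2
      · exact Or.inl h2
      · exact Or.inr ⟨δ, Finset.mem_univ _, h2.symm⟩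

/-- **S-lemma**: a fragment with star-shaped live set that is not constant on its test assignments
is sensitive at the state to a sum of faces -/
theorem exists_stepS (hM : 4 ∣ M) (v0 : Vt M) (α : Xt M D → ZMod 2) (a : Vt M → A D)
    (R : Fm (Xt M D ⊕ Bool)) (U V : Finset (J M)) (y : Ed M → ZMod 2)
    (hcard : (U ∪ V).card + 5 < M) (hok : Ok v0 (U ∪ V) y)
    (h1 : ∀ e ∈ Lam a V R, ∀ f ∈ Lam a V R, ¬ VDisj e f) (h2 : ¬ QuietR v0 α a R V y) :
    ∃ V' y', StepS a (α + Pth a y') R V V' ∧ Live a R ⊆ inc V' ∧ V'.card ≤ V.card + 5 ∧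
      Agree (U ∪ V) y y' ∧ Ok v0 (U ∪ V') y' := by
  have hMe : Even M := by
    obtain ⟨m, hm⟩ := hM
    exact ⟨2 * m, by omega⟩
  have hM4 : 4 ≤ M := Nat.le_of_dvd (Nat.pos_of_ne_zero (NeZero.ne M)) hM
  obtain ⟨⟨p, i⟩, hv⟩ := star_lemma hMe (Lam a V R) h1
  -- two test assignments with different values
  obtain ⟨y1, y2, z, ht1, ht2, hne⟩ : ∃ y1 y2 z, Test v0 a V y R y1 ∧ Test v0 a V y R y2 ∧
      ev (α + Pth a y1) z R ≠ ev (α + Pth a y2) z R := by
    by_contra hcon
    push Not at hcon
    exact h2 ⟨h1, fun y1 y2 ht1 ht2 z => hcon y1 y2 z ht1 ht2⟩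
  -- `Lam` is not empty
  obtain ⟨e0, he0⟩ : ∃ e0, e0 ∈ Lam a V R := by
    by_contra hcon
    push Not at hcon
    apply hne
    refine ev_congr_live α a R y1 y2 (fun e he => ?_) z
    have hi : e ∈ inc V := by
      by_contra hi
      exact hcon e ⟨he, hi⟩
    exact (ht1.1 e hi).symm.trans (ht2.1 e hi)
  have hpV : p ∉ V := by
    intro hp
    apply he0.2
    rcases hv e0 he0 with h | h
    · left
      rw [h]; exact hp
    · right
      rw [h]; exact hp
  have hNc := card_Nb p
  have hS' : U ∪ V ⊆ U ∪ (V ∪ Nb p) :=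
    Finset.union_subset_union_right Finset.subset_union_left
  have hcard' : (U ∪ (V ∪ Nb p)).card < M := by
    have h3 : U ∪ (V ∪ Nb p) = (U ∪ V) ∪ Nb p := (Finset.union_assoc _ _ _).symm
    rw [h3]
    have h4 := Finset.card_union_le (U ∪ V) (Nb p)
    omega
  obtain ⟨y', hok', hmv⟩ := exists_move v0 (U ∪ V) (U ∪ (V ∪ Nb p)) hS' hcard' y hok
  have hag : Agree (U ∪ V) y y' := agree_of_move hmv
  have hagV : Agree V y y' := hag.mono Finset.subset_union_right
  -- one of the two differs from `y'`
  obtain ⟨y2, ht2, hne⟩ : ∃ y2, Test v0 a V y R y2 ∧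
      ev (α + Pth a y') z R ≠ ev (α + Pth a y2) z R := by
    by_cases h3 : ev (α + Pth a y') z R = ev (α + Pth a y1) z R
    · exact ⟨y2, ht2, by rw [h3]; exact hne⟩
    · exact ⟨y1, ht1, h3⟩
  have hcN : cLam a V R ⊆ Nb p := by
    intro q hq
    unfold cLam at hq
    rw [Finset.mem_filter] at hq
    obtain ⟨_, e, he, hqe⟩ := hq
    exact crs_subset_Nb (hv e he) hqe
  have hsub : V ∪ cLam a V R ⊆ U ∪ (V ∪ Nb p) :=
    Finset.Subset.trans (Finset.union_subset_union_right hcN) Finset.subset_union_right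
  obtain ⟨t', hbd', hft'⟩ := hok'
  obtain ⟨t2, hbd2, hft2⟩ := ht2.2
  obtain ⟨γ, hγb, hγ⟩ := exists_path (V ∪ cLam a V R)
    ((Finset.card_le_card hsub).trans_lt hcard') t' t2 (Free.mono hsub hft') hft2
  obtain ⟨d, hd⟩ : ∃ d, d = y' + y2 + γ := ⟨_, rfl⟩
  have two : ∀ u : ZMod 2, u + u = 0 := CharTwo.add_self_eq_zero
  have hbd : bd d = 0 := by
    rw [hd, bd_add, bd_add, hbd', hbd2, hγb]
    funext v
    simp only [Pi.add_apply, Pi.zero_apply]
    have := two (pt v0 v)
    have h3 := two (pt t' v)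
    have h4 := two (pt t2 v)
    linear_combination this + h3 + h4
  have hγV : ∀ e ∈ inc V, γ e = 0 := by
    intro e he
    by_contra hne0
    obtain ⟨h3, h4⟩ := hγ e hne0
    exact not_inc_of_free (S := V) ⟨Free.mono Finset.subset_union_left h3,
      Free.mono Finset.subset_union_left h4⟩ he
  have hγL : ∀ e ∈ Lam a V R, γ e = 0 := by
    intro e he
    by_contra hne0
    obtain ⟨h3, _⟩ := hγ e hne0
    exact not_lam_of_free h3 he
  have hyy : ∀ e ∈ inc V, y' e = y2 e := fun e he => (hagV e he).symm.trans (ht2.1 e he)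
  have hdV : ∀ e ∈ inc V, d e = 0 := by
    intro e he
    rw [hd, Pi.add_apply, Pi.add_apply, hyy e he, hγV e he, two, add_zero]
  have hdL : ∀ e ∈ Lam a V R, d e = y' e + y2 e := by
    intro e he
    rw [hd, Pi.add_apply, Pi.add_apply, hγL e he, add_zero]
  obtain ⟨σ, hσ⟩ : ∃ σ, σ = univ.filter fun δ => d (sedge p δ i) ≠ 0 := ⟨_, rfl⟩
  have hstar : ∀ e, Inci e (p, i) → Dcl p σ e = d e := by
    intro e he
    rw [hσ]
    exact closed_star hM4 d p i (by rw [hbd]; rfl) e he
  have hσV : ∀ δ ∈ σ, nb p δ ∉ V := by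
    intro δ hδ hn
    rw [hσ, Finset.mem_filter] at hδ
    apply hδ.2
    apply hdV
    obtain ⟨_, _, h3⟩ := sedge_ends p δ i
    rcases h3 with h3 | h3
    · left; rw [h3]; exact hn
    · right; rw [h3]; exact hn
  have hDV : ∀ e ∈ inc V, Dcl p σ e = 0 := by
    intro e he
    by_contra hne0
    obtain ⟨h3, h4⟩ := Dcl_supp p σ e hne0
    rcases he with he | he
    · rcases h3 with h3 | ⟨δ, hδ, h3⟩
      · rw [h3] at he; exact hpV he
      · rw [h3] at he; exact hσV δ hδ he
    · rcases h4 with h4 | ⟨δ, hδ, h4⟩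
      · rw [h4] at he; exact hpV he
      · rw [h4] at he; exact hσV δ hδ he
  have hfin : ∀ e ∈ Live a R, (y' + Dcl p σ) e = y2 e := by
    intro e he
    rw [Pi.add_apply]
    by_cases hi : e ∈ inc V
    · rw [hDV e hi, add_zero, hyy e hi]
    · have heL : e ∈ Lam a V R := ⟨he, hi⟩
      rw [hstar e (hv e heL), hdL e heL, ← add_assoc, two, zero_add]
  refine ⟨V ∪ Nb p, y', ⟨p, σ, z, hpV, hσV, rfl, ?_⟩, ?_, ?_, hag, ⟨t', hbd', hft'⟩⟩
  · rw [add_assoc, ← Pth_add, ev_congr_live α a R (y' + Dcl p σ) y2 hfin z]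
    exact hne
  · intro e he
    by_cases hi : e ∈ inc V
    · exact inc_mono Finset.subset_union_left hi
    · have hpm : p ∈ V ∪ Nb p := Finset.mem_union_right _ (Finset.mem_insert_self _ _)
      rcases hv e ⟨he, hi⟩ with h | h
      · left; rw [h]; exact hpm
      · right; rw [h]; exact hpm
  · have h3 := Finset.card_union_le V (Nb p)
    omega

theorem exists_stepM (v0 : Vt M) (a : Vt M → A D)
    (R : Fm (Xt M D ⊕ Bool)) (U V : Finset (J M)) (y : Ed M → ZMod 2)
    (hcard : (U ∪ V).card + 5 < M) (hok : Ok v0 (U ∪ V) y)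
    (h1 : ¬ ∀ e ∈ Lam a V R, ∀ f ∈ Lam a V R, ¬ VDisj e f) :
    ∃ V' y', StepM a R V V' ∧ V'.card ≤ V.card + 5 ∧
      Agree (U ∪ V) y y' ∧ Ok v0 (U ∪ V') y' := by
  push Not at h1
  obtain ⟨e, he, f, hf, hef⟩ := h1
  have hs : StepM a R V (V ∪ (crs e ∪ crs f)) := ⟨e, he.1, f, hf.1, hef, he.2, hf.2, rfl⟩
  have hS' : U ∪ V ⊆ U ∪ (V ∪ (crs e ∪ crs f)) :=
    Finset.union_subset_union_right Finset.subset_union_left
  have hcard' : (U ∪ (V ∪ (crs e ∪ crs f))).card < M := by
    have h3 : U ∪ (V ∪ (crs e ∪ crs f)) = (U ∪ V) ∪ (crs e ∪ crs f) :=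
      (Finset.union_assoc _ _ _).symm
    rw [h3]
    have h4 := Finset.card_union_le (U ∪ V) (crs e ∪ crs f)
    have h5 := Finset.card_union_le (crs e) (crs f)
    have h6 := crs_card e
    have h7 := crs_card f
    omega
  obtain ⟨y', hok', hmv⟩ := exists_move v0 (U ∪ V) (U ∪ (V ∪ (crs e ∪ crs f))) hS' hcard' y hok
  exact ⟨_, y', hs, hs.card, agree_of_move hmv, hok'⟩

/-- **extension lemma** -/
theorem extend (hM : 4 ∣ M) (l k : ℕ) (v0 : Vt M) (α : Xt M D → ZMod 2) (a : Vt M → A D)
    (f : Fm (Xt M D)) (hno : NoChain l k v0 α a f) (U : Finset (J M)) (y : Ed M → ZMod 2)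
    (hcard : U.card + 5 * k + 5 < M) (hok : Ok v0 U y) :
    ∃ W y', W.card ≤ 5 * k ∧ Quiet l v0 α a f W y' ∧ Agree U y y' ∧ Ok v0 (U ∪ W) y' := by
  by_contra hcon
  push Not at hcon
  have key : ∀ j ≤ k, ∃ V y', LChain (frags l f).toFinset a α y' j ∅ V ∧ V.card ≤ 5 * j ∧
      Agree U y y' ∧ Ok v0 (U ∪ V) y' := by
    intro j
    induction j with
    | zero =>
      intro _
      exact ⟨∅, y, rfl, by simp, Agree.refl U y, by rw [Finset.union_empty]; exact hok⟩
    | succ j ih =>
      intro hj
      obtain ⟨V, y1, hch, hVc, hag, hok1⟩ := ih (by omega)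
      have hnq : ¬ Quiet l v0 α a f V y1 := fun hq => hcon V y1 (by omega) hq hag hok1
      unfold Quiet at hnq
      push Not at hnq
      obtain ⟨R, hR, hnR⟩ := hnq
      have hR' : R ∈ (frags l f).toFinset := List.mem_toFinset.mpr hR
      have hc : (U ∪ V).card + 5 < M := by
        have := Finset.card_union_le U V
        omega
      by_cases h1 : ∀ e ∈ Lam a V R, ∀ f ∈ Lam a V R, ¬ VDisj e f
      · obtain ⟨V', y2, hs, hl, hVc', hag', hok'⟩ := exists_stepS hM v0 α a R U V y1 hc hok1 h1 hnR
        refine ⟨V', y2, ?_, by omega, hag.trans (hag'.mono Finset.subset_union_left), hok'⟩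
        exact (hch.congr (hag'.mono Finset.subset_union_right)).snoc hR' (Or.inr ⟨hs, hl⟩)
      · obtain ⟨V', y2, hs, hVc', hag', hok'⟩ := exists_stepM v0 a R U V y1 hc hok1 h1
        refine ⟨V', y2, ?_, by omega, hag.trans (hag'.mono Finset.subset_union_left), hok'⟩
        exact (hch.congr (hag'.mono Finset.subset_union_right)).snoc hR' (Or.inl hs)
  obtain ⟨V, y1, hch, _, _, hok1⟩ := key k le_rfl
  exact hno V y1 (hok1.mono Finset.subset_union_right) hch

end

end Fr56
end
end

section

section

/-!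
Tseitin CNF: size and width.
-/

set_option linter.unusedSectionVars false

namespace Fr56

open Finset
open scoped Classical

namespace Fm

variable {V : Type}

private theorem leaves_disj_le (d : Fm V) (hd : d.leaves = 1) (l : List (Fm V))
    (hl : ∀ f ∈ l, f.leaves = 1) (n : ℕ) (hn : 1 ≤ n) (hln : l.length ≤ n) :
    (disj d l).leaves ≤ n := by
  induction l generalizing n with
  | nil => simpa [disj, hd] using hn
  | cons f l ih =>
    cases l with
    | nil => simpa [disj, hl f (by simp)] using hn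
    | cons g l =>
      have h1 := ih (fun f hf => hl f (List.mem_cons_of_mem _ hf)) (n - 1)
        (by simp only [List.length_cons] at hln; omega)
        (by simp only [List.length_cons] at hln ⊢; omega)
      have h2 := hl f (by simp)
      simp only [disj, leaves, h2]
      simp only [List.length_cons] at hln
      omega

private theorem isClause_disj (d : Fm V) (l : List (Fm V)) (hne : l ≠ [])
    (hl : ∀ f ∈ l, IsClause 1 f) : IsClause l.length (disj d l) := by
  induction l with
  | nil => exact absurd rfl hne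
  | cons f l ih =>
    cases l with
    | nil => simpa [disj] using hl f (by simp)
    | cons g l =>
      have h1 := ih (by simp) (fun f hf => hl f (List.mem_cons_of_mem _ hf))
      have h2 := IsClause.or (hl f (by simp)) h1
      have h3 : (f :: g :: l).length = 1 + (g :: l).length := by
        simp only [List.length_cons]; omega
      rw [h3]
      simpa [disj] using h2

private theorem size_disj_le (d : Fm V) (l : List (Fm V)) (hne : l ≠ [])
    (hl : ∀ f ∈ l, f.size ≤ 2) : (disj d l).size + 1 ≤ 3 * l.length := by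
  induction l with
  | nil => exact absurd rfl hne
  | cons f l ih =>
    cases l with
    | nil =>
      have := hl f (by simp)
      simp only [disj, List.length_cons, List.length_nil]; omega
    | cons g l =>
      have h1 := ih (by simp) (fun f hf => hl f (List.mem_cons_of_mem _ hf))
      have h2 := hl f (by simp)
      simp only [disj, size, List.length_cons] at h1 ⊢
      omega

private theorem isCNF_conj (k : ℕ) (d : Fm V) (l : List (Fm V)) (hne : l ≠ [])
    (hl : ∀ f ∈ l, IsCNF k f) : IsCNF k (conj d l) := by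
  induction l with
  | nil => exact absurd rfl hne
  | cons f l ih =>
    cases l with
    | nil => simpa [conj] using hl f (by simp)
    | cons g l =>
      have h1 := ih (by simp) (fun f hf => hl f (List.mem_cons_of_mem _ hf))
      simpa [conj] using IsCNF.and (hl f (by simp)) h1

private theorem size_conj_le (s : ℕ) (d : Fm V) (l : List (Fm V)) (hne : l ≠ [])
    (hl : ∀ f ∈ l, f.size ≤ s) : (conj d l).size + 1 ≤ (s + 1) * l.length := by
  induction l with
  | nil => exact absurd rfl hne
  | cons f l ih =>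
    cases l with
    | nil =>
      have := hl f (by simp)
      simp only [conj, List.length_cons, List.length_nil]; omega
    | cons g l =>
      have h1 := ih (by simp) (fun f hf => hl f (List.mem_cons_of_mem _ hf))
      have h2 := hl f (by simp)
      simp only [conj, size, List.length_cons] at h1 ⊢
      nlinarith

private theorem one_le_size (f : Fm V) : 1 ≤ f.size := (leaves_pos f).trans (leaves_le_size f)

private theorem le_size_conj (d : Fm V) (l : List (Fm V)) : l.length ≤ (conj d l).size := by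
  induction l with
  | nil => simp
  | cons f l ih =>
    cases l with
    | nil => simpa [conj] using one_le_size f
    | cons g l =>
      simp only [conj, size, List.length_cons] at ih ⊢
      omega

end Fm

variable {M D : ℕ} [NeZero M]

private theorem mem_star (h : HV M D) (u : Xt M D) : u ∈ star h ↔ hsrc u = h ∨ htgt u = h := by
  simp [star]

/-- the edges with a given first endpoint -/
private noncomputable def eout (v : Vt M) : Finset (Ed M) := univ.filter fun e => src e = v

/-- the edges with a given second endpoint -/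
private noncomputable def ein (v : Vt M) : Finset (Ed M) := univ.filter fun e => tgt e = v

private theorem card_eout_add (v : Vt M) : (eout v).card + (ein v).card ≤ 5 := by
  obtain ⟨p, b⟩ := v
  cases b with
  | false =>
    have h1 : eout (p, false) ⊆ {(p, none), (p, some (false, false)), (p, some (true, false))} := by
      intro e he
      obtain ⟨q, o⟩ := e
      simp only [eout, mem_filter, mem_univ, true_and] at he
      rcases o with _ | ⟨d, i⟩
      · simp only [src, Prod.mk.injEq] at he
        simp [he.1]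
      · simp only [src, Prod.mk.injEq] at he
        cases d <;> simp [he.1, he.2]
    have h2 : ein (p, false) ⊆
        {(p - dv M false, some (false, false)), (p - dv M true, some (true, false))} := by
      intro e he
      obtain ⟨q, o⟩ := e
      simp only [ein, mem_filter, mem_univ, true_and] at he
      rcases o with _ | ⟨d, i⟩
      · simp [tgt] at he
      · simp only [tgt, Prod.mk.injEq] at he
        have : q = p - dv M d := by rw [← he.1]; simp
        cases d <;> simp [this, he.2]
    have h3 := (card_le_card h1).trans card_le_three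
    have h4 := (card_le_card h2).trans card_le_two
    omega
  | true =>
    have h1 : eout (p, true) ⊆ {(p, some (false, true)), (p, some (true, true))} := by
      intro e he
      obtain ⟨q, o⟩ := e
      simp only [eout, mem_filter, mem_univ, true_and] at he
      rcases o with _ | ⟨d, i⟩
      · simp [src] at he
      · simp only [src, Prod.mk.injEq] at he
        cases d <;> simp [he.1, he.2]
    have h2 : ein (p, true) ⊆
        {(p, none), (p - dv M false, some (false, true)), (p - dv M true, some (true, true))} := by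
      intro e he
      obtain ⟨q, o⟩ := e
      simp only [ein, mem_filter, mem_univ, true_and] at he
      rcases o with _ | ⟨d, i⟩
      · simp only [tgt, Prod.mk.injEq] at he
        simp [he.1]
      · simp only [tgt, Prod.mk.injEq] at he
        have : q = p - dv M d := by rw [← he.1]; simp
        cases d <;> simp [this, he.2]
    have h3 := (card_le_card h1).trans card_le_two
    have h4 := (card_le_card h2).trans card_le_three
    omega

private theorem hv_bot (e : Ed M) {i : ℕ} (h0 : i = 0) (w : A D) :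
    (hv e i w : HV M D) = .cen (src e) w := by
  unfold hv; rw [if_pos h0]

private theorem hv_mid (e : Ed M) {i : ℕ} (h0 : i ≠ 0) (h : i < D) (w : A D) :
    (hv e i w : HV M D) = .mid e ⟨i, h⟩ w := by
  unfold hv; rw [if_neg h0, dif_pos h]

private theorem hv_top (e : Ed M) {i : ℕ} (h0 : i ≠ 0) (h : ¬ i < D) (w : A D) :
    (hv e i w : HV M D) = .cen (tgt e) w := by
  unfold hv; rw [if_neg h0, dif_neg h]

theorem card_star (hD : 2 ≤ D) (h : HV M D) : (star h).card ≤ 10 := by
  cases h with
  | cen v w =>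
    set i0 : Fin D := ⟨0, by omega⟩ with hi0
    set i1 : Fin D := ⟨D - 1, by omega⟩ with hi1
    have hsub : star (HV.cen v w) ⊆
        ((eout v) ×ˢ (univ : Finset (ZMod 2))).image (fun q => (⟨q.1, i0, w, q.2⟩ : Xt M D)) ∪
        ((ein v) ×ˢ (univ : Finset (ZMod 2))).image
          (fun q => (⟨q.1, i1, w - Pi.single i1 q.2, q.2⟩ : Xt M D)) := by
      intro u hu
      rw [mem_star] at hu
      rw [mem_union, mem_image, mem_image]
      rcases hu with hu | hu
      · left
        unfold hsrc at hu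
        by_cases c1 : (u.i : ℕ) = 0
        · rw [hv_bot _ c1] at hu
          simp only [HV.cen.injEq] at hu
          refine ⟨(u.e, u.d), by simp [eout, hu.1], ?_⟩
          have h5 : i0 = u.i := by apply Fin.ext; simp [hi0, c1]
          ext1
          · rfl
          · exact h5
          · exact hu.2.symm
          · rfl
        · rw [hv_mid _ c1 u.i.2] at hu
          simp at hu
      · right
        unfold htgt at hu
        by_cases c1 : (u.i : ℕ) + 1 < D
        · rw [hv_mid _ (by omega) c1] at hu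
          simp at hu
        · rw [hv_top _ (by omega) c1] at hu
          simp only [HV.cen.injEq] at hu
          refine ⟨(u.e, u.d), by simp [ein, hu.1], ?_⟩
          have h5 : i1 = u.i := by
            apply Fin.ext
            have := u.i.2
            simp only [hi1]
            omega
          ext1
          · rfl
          · exact h5
          · simp only [h5, ← hu.2]; simp
          · rfl
    have h1 := card_le_card hsub
    have h2 := (h1.trans (card_union_le _ _)).trans
      (add_le_add (card_image_le) (card_image_le))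
    simp only [card_product] at h2
    have h3 : (univ : Finset (ZMod 2)).card = 2 := rfl
    rw [h3] at h2
    have := card_eout_add v
    omega
  | mid e i w =>
    have hi : i.1 - 1 < D := by omega
    have hsub : star (HV.mid e i w) ⊆
        (univ : Finset (ZMod 2)).image (fun q => (⟨e, i, w, q⟩ : Xt M D)) ∪
        (univ : Finset (ZMod 2)).image
          (fun q => (⟨e, ⟨i.1 - 1, hi⟩, w - Pi.single ⟨i.1 - 1, hi⟩ q, q⟩ : Xt M D)) := by
      intro u hu
      rw [mem_star] at hu
      rw [mem_union, mem_image, mem_image]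
      rcases hu with hu | hu
      · left
        refine ⟨u.d, mem_univ _, ?_⟩
        unfold hsrc at hu
        by_cases c1 : (u.i : ℕ) = 0
        · rw [hv_bot _ c1] at hu
          simp at hu
        · rw [hv_mid _ c1 u.i.2] at hu
          simp only [HV.mid.injEq] at hu
          obtain ⟨h1, h2, h3⟩ := hu
          ext1
          · exact h1.symm
          · exact h2.symm
          · exact h3.symm
          · rfl
      · right
        refine ⟨u.d, mem_univ _, ?_⟩
        unfold htgt at hu
        by_cases c1 : (u.i : ℕ) + 1 < D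
        · rw [hv_mid _ (by omega) c1] at hu
          simp only [HV.mid.injEq] at hu
          obtain ⟨h1, h2, h3⟩ := hu
          have h5 : (⟨i.1 - 1, hi⟩ : Fin D) = u.i := by
            apply Fin.ext
            simp only [← h2]
            omega
          ext1
          · exact h1.symm
          · exact h5
          · simp only [h5, ← h3]; simp
          · rfl
        · rw [hv_top _ (by omega) c1] at hu
          simp at hu
    have h1 := card_le_card hsub
    have h2 := (h1.trans (card_union_le _ _)).trans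
      (add_le_add (card_image_le) (card_image_le))
    have h3 : (univ : Finset (ZMod 2)).card = 2 := rfl
    rw [h3] at h2
    omega

theorem leaves_clause (hD : 2 ≤ D) (u0 : Xt M D) (h : HV M D) (T : Finset (Xt M D)) :
    (clause u0 h T).leaves ≤ 10 := by
  unfold clause
  apply Fm.leaves_disj_le _ rfl
  · intro f hf
    rw [List.mem_map] at hf
    obtain ⟨u, _, rfl⟩ := hf
    split_ifs <;> rfl
  · norm_num
  · rw [List.length_map, length_toList]
    exact card_star hD h

private theorem clause_isClause (u0 : Xt M D) (h : HV M D) (T : Finset (Xt M D))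
    (hh : (star h).Nonempty) : Fm.IsClause (star h).card (clause u0 h T) := by
  have h1 : ((star h).toList.map fun u => if u ∈ T then Fm.neg (.var u) else Fm.var u) ≠ [] := by
    intro h0
    rw [List.map_eq_nil_iff, Finset.toList_eq_nil] at h0
    exact hh.ne_empty h0
  have h2 := Fm.isClause_disj (.var u0) _ h1 (by
    intro f hf
    rw [List.mem_map] at hf
    obtain ⟨u, _, rfl⟩ := hf
    split_ifs
    · exact Fm.IsClause.neg u
    · exact Fm.IsClause.pos u)
  rw [List.length_map, length_toList] at h2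
  exact h2

private theorem clause_size (hD : 2 ≤ D) (u0 : Xt M D) (h : HV M D) (T : Finset (Xt M D))
    (hh : (star h).Nonempty) : (clause u0 h T).size ≤ 29 := by
  have h1 : ((star h).toList.map fun u => if u ∈ T then Fm.neg (.var u) else Fm.var u) ≠ [] := by
    intro h0
    rw [List.map_eq_nil_iff, Finset.toList_eq_nil] at h0
    exact hh.ne_empty h0
  have h2 := Fm.size_disj_le (.var u0) _ h1 (by
    intro f hf
    rw [List.mem_map] at hf
    obtain ⟨u, _, rfl⟩ := hf
    split_ifs
    · simp [Fm.size]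
    · simp [Fm.size])
  rw [List.length_map, length_toList] at h2
  have h3 := card_star hD h
  unfold clause
  omega

private theorem clauses_ne (h0 : HV M D) (h : (star h0).Nonempty) : (h0, (∅ : Finset (Xt M D))) ∈ clauses h0 := by
  unfold clauses
  simp [h, chg]

private theorem clauses_list_ne (u0 : Xt M D) (h0 : HV M D) (h : (star h0).Nonempty) :
    ((clauses h0).toList.map fun p => clause u0 p.1 p.2) ≠ [] := by
  intro h1
  rw [List.map_eq_nil_iff, Finset.toList_eq_nil] at h1
  have := clauses_ne h0 h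
  rw [h1] at this
  simp at this

theorem Fts_cnf (hD : 2 ≤ D) (u0 : Xt M D) (h0 : HV M D) (h : (star h0).Nonempty) :
    (Fts u0 h0).IsCNF 10 := by
  unfold Fts
  apply Fm.isCNF_conj _ _ _ (clauses_list_ne u0 h0 h)
  intro f hf
  rw [List.mem_map] at hf
  obtain ⟨p, hp, rfl⟩ := hf
  rw [mem_toList] at hp
  unfold clauses at hp
  simp only [mem_filter, mem_univ, true_and] at hp
  exact Fm.IsCNF.clause (card_star hD p.1) (clause_isClause u0 p.1 p.2 hp.2.1)

private theorem card_HV : Fintype.card (HV M D) = 2 * M ^ 2 * 2 ^ D + 5 * M ^ 2 * D * 2 ^ D := by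
  rw [← Fintype.card_congr (HV.equiv M D)]
  simp only [Fintype.card_sum, Fintype.card_prod, Fintype.card_fun, ZMod.card, Fintype.card_fin,
    Fintype.card_bool, Fintype.card_option]
  ring

private theorem card_clauses (hD : 2 ≤ D) (h0 : HV M D) :
    (clauses h0).card ≤ Fintype.card (HV M D) * 2 ^ 10 := by
  have h1 : (clauses h0) ⊆ (univ : Finset (HV M D)).biUnion
      (fun h => (star h).powerset.image (fun T => (h, T))) := by
    intro p hp
    unfold clauses at hp
    simp only [mem_filter, mem_univ, true_and] at hp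
    simp only [mem_biUnion, mem_univ, true_and, mem_image, mem_powerset]
    exact ⟨p.1, p.2, hp.1, rfl⟩
  refine (card_le_card h1).trans ?_
  refine (card_biUnion_le_card_mul _ _ (2 ^ 10) ?_).trans (by rw [card_univ])
  intro h _
  refine card_image_le.trans ?_
  rw [card_powerset]
  exact Nat.pow_le_pow_right (by norm_num) (card_star hD h)

theorem Fts_size (hD : 2 ≤ D) (u0 : Xt M D) (h0 : HV M D) (h : (star h0).Nonempty) :
    (Fts u0 h0).size ≤ 2 ^ 20 * D * M ^ 2 * 2 ^ D := by
  have h1 := Fm.size_conj_le 29 (.var u0) _ (clauses_list_ne u0 h0 h) (by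
    intro f hf
    rw [List.mem_map] at hf
    obtain ⟨p, hp, rfl⟩ := hf
    rw [mem_toList] at hp
    unfold clauses at hp
    simp only [mem_filter, mem_univ, true_and] at hp
    exact clause_size hD u0 p.1 p.2 hp.2.1)
  rw [List.length_map, length_toList] at h1
  have h2 := card_clauses hD h0
  rw [card_HV] at h2
  have h3 : (Fts u0 h0).size ≤ (29 + 1) * ((2 * M ^ 2 * 2 ^ D + 5 * M ^ 2 * D * 2 ^ D) * 2 ^ 10) := by
    refine le_trans ?_ (Nat.mul_le_mul_left _ h2)
    unfold Fts
    omega
  refine h3.trans ?_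
  have h4 : 2 * M ^ 2 * 2 ^ D + 5 * M ^ 2 * D * 2 ^ D ≤ 6 * (D * M ^ 2 * 2 ^ D) := by
    have : 2 * M ^ 2 * 2 ^ D ≤ D * (M ^ 2 * 2 ^ D) := by
      rw [mul_assoc]
      exact Nat.mul_le_mul_right _ hD
    nlinarith
  calc (29 + 1) * ((2 * M ^ 2 * 2 ^ D + 5 * M ^ 2 * D * 2 ^ D) * 2 ^ 10)
      ≤ (29 + 1) * ((6 * (D * M ^ 2 * 2 ^ D)) * 2 ^ 10) := by gcongr
    _ = 184320 * (D * M ^ 2 * 2 ^ D) := by ring
    _ ≤ 2 ^ 20 * (D * M ^ 2 * 2 ^ D) := by
        apply Nat.mul_le_mul_right; norm_num
    _ = _ := by ring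

theorem le_Fts_size (hD : 2 ≤ D) (u0 : Xt M D) (h0 : HV M D) :
    2 ^ D ≤ (Fts u0 h0).size := by
  have h1 := Fm.le_size_conj (.var u0) ((clauses h0).toList.map fun p => clause u0 p.1 p.2)
  rw [List.length_map, length_toList] at h1
  refine le_trans ?_ h1
  set i0 : Fin D := ⟨0, by omega⟩ with hi0
  set uw : A D → Xt M D := fun w => ⟨((0 : J M), none), i0, w, 0⟩ with huw
  set v0 : Vt M := ((0 : J M), false) with hv0
  have hst : ∀ w, uw w ∈ star (HV.cen v0 w : HV M D) := by
    intro w
    rw [mem_star]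
    left
    simp [huw, hsrc, hv, hi0, src, hv0]
  have hcard : (univ : Finset (A D)).card = 2 ^ D := by
    rw [card_univ, Fintype.card_fun, ZMod.card, Fintype.card_fin]
  rw [← hcard]
  refine card_le_card_of_injOn (fun w => ((HV.cen v0 w : HV M D),
    if chg h0 (HV.cen v0 w) = 0 then ({uw w} : Finset (Xt M D)) else ∅)) ?_ ?_
  · intro w _
    simp only [clauses, coe_filter, mem_univ, true_and, Set.mem_ofPred_eq]
    refine ⟨?_, ⟨_, hst w⟩, ?_⟩
    · split_ifs
      · simpa using hst w
      · simp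
    · split_ifs with hc
      · rw [hc]; simp
      · simpa using fun h => hc h.symm
  · intro w _ w' _ hww
    simp only [Prod.mk.injEq, HV.cen.injEq, true_and] at hww
    exact hww.1

end Fr56
end

section

/-!
Local semantics: local values respect the connectives; the clauses are locally true.
-/

set_option linter.unusedSectionVars false

namespace Fr56

open Finset
open scoped Classical

section
variable {M D : ℕ} [NeZero M]

/-- for a quiet fragment the local value is the value at any test assignment -/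
theorem cval_eq (v0 : Vt M) (α : Xt M D → ZMod 2) (a : Vt M → A D) (R : Fm (Xt M D ⊕ Bool))
    (U : Finset (J M)) (y y' : Ed M → ZMod 2) (hq : QuietR v0 α a R U y)
    (ht : Test v0 a U y R y') (z : Bool → Bool) :
    cval v0 α a U y R z = ev (α + Pth a y') z R := by
  unfold cval
  by_cases h : ev (α + Pth a y') z R = true
  · rw [h]
    exact decide_eq_true ⟨y', ht, h⟩
  · rw [Bool.not_eq_true] at h
    rw [h]
    apply decide_eq_false
    rintro ⟨y'', ht'', h''⟩
    rw [hq.2 y'' y' ht'' ht z, h] at h''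
    exact Bool.noConfusion h''

/-- four fragments with star-shaped live sets have a common test assignment -/
theorem exists_common_test (hM : Even M) (v0 : Vt M) (a : Vt M → A D)
    (Rs : List (Fm (Xt M D ⊕ Bool))) (hlen : Rs.length ≤ 4) (U : Finset (J M))
    (y : Ed M → ZMod 2) (hcard : U.card + 20 < M) (hok : Ok v0 U y)
    (h1 : ∀ R ∈ Rs, ∀ e ∈ Lam a U R, ∀ f ∈ Lam a U R, ¬ VDisj e f) :
    ∃ y', ∀ R ∈ Rs, Test v0 a U y R y' := by
  have hc : (Rs.toFinset.biUnion (cLam a U)).card ≤ Rs.toFinset.card * 5 := by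
    apply Finset.card_biUnion_le_card_mul
    intro R hR
    exact card_cLam hM a U R (h1 R (List.mem_toFinset.1 hR))
  have hc2 : Rs.toFinset.card ≤ 4 := (List.toFinset_card_le Rs).trans hlen
  have hS' : (U ∪ Rs.toFinset.biUnion (cLam a U)).card < M := by
    have := Finset.card_union_le U (Rs.toFinset.biUnion (cLam a U))
    omega
  obtain ⟨y', hy', hch⟩ := exists_move v0 U _ Finset.subset_union_left hS' y hok
  refine ⟨y', fun R hR => ⟨?_, ?_⟩⟩
  · intro e he
    by_contra hne
    exact not_inc_of_free (hch e (Ne.symm hne)) he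
  · refine Ok.mono ?_ hy'
    apply Finset.union_subset_union_right
    intro p hp
    exact Finset.mem_biUnion.2 ⟨R, List.mem_toFinset.2 hR, hp⟩

theorem locAt_of_test {v0 : Vt M} {α : Xt M D → ZMod 2} {a : Vt M → A D}
    {R : Fm (Xt M D ⊕ Bool)} {U : Finset (J M)} {y y' : Ed M → ZMod 2}
    (hq : QuietR v0 α a R U y) (ht : Test v0 a U y R y') :
    LocAt (cval v0 α a U y) (fun v => tb ((α + Pth a y') v)) R :=
  fun z => cval_eq v0 α a R U y y' hq ht z

theorem val_neg (hM : Even M) (l : ℕ) (v0 : Vt M) (α : Xt M D → ZMod 2) (a : Vt M → A D)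
    (f : Fm (Xt M D)) (U : Finset (J M)) (y : Ed M → ZMod 2) (hcard : U.card + 20 < M)
    (hok : Ok v0 U y) (hf : Quiet l v0 α a f U y) (hn : Quiet l v0 α a (.neg f) U y) :
    val l v0 α a (.neg f) U y = !(val l v0 α a f U y) := by
  have q1 := hf (lab false (top l f)) (by simp [frags])
  have q2 := hn (lab false (top l (.neg f))) (by simp [frags])
  obtain ⟨y', hy'⟩ := exists_common_test hM v0 a
    [lab false (top l f), lab false (top l (.neg f))] (by simp) U y hcard hok (by
      intro R hR
      simp only [List.mem_cons, List.not_mem_nil, or_false] at hR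
      rcases hR with rfl | rfl
      · exact q1.1
      · exact q2.1)
  exact fval_neg l _ (fun v => tb ((α + Pth a y') v)) f
    (locAt_of_test q1 (hy' _ (by simp))) (locAt_of_test q2 (hy' _ (by simp)))

theorem val_and (hM : Even M) (l : ℕ) (v0 : Vt M) (α : Xt M D → ZMod 2) (a : Vt M → A D)
    (f g : Fm (Xt M D)) (U : Finset (J M)) (y : Ed M → ZMod 2) (hcard : U.card + 20 < M)
    (hok : Ok v0 U y) (hf : Quiet l v0 α a f U y) (hg : Quiet l v0 α a g U y)
    (hn : Quiet l v0 α a (.and f g) U y) :
    val l v0 α a (.and f g) U y = (val l v0 α a f U y && val l v0 α a g U y) := by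
  have q1 := hf (lab false (top l f)) (by simp [frags])
  have q2 := hg (lab false (top l g)) (by simp [frags])
  have q3 := hn (lab false (top l (.and f g))) (by simp [frags])
  by_cases hcut : cut l (top l f) (top l g) = true
  · have q4 := hn (Fm.and (lab false (top l f)) (lab true (top l g))) (by
      simp [frags, pcs, hcut])
    obtain ⟨y', hy'⟩ := exists_common_test hM v0 a
      [lab false (top l f), lab false (top l g), lab false (top l (.and f g)),
        Fm.and (lab false (top l f)) (lab true (top l g))] (by simp) U y hcard hok (by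
        intro R hR
        simp only [List.mem_cons, List.not_mem_nil, or_false] at hR
        rcases hR with rfl | rfl | rfl | rfl
        · exact q1.1
        · exact q2.1
        · exact q3.1
        · exact q4.1)
    exact fval_and l _ (fun v => tb ((α + Pth a y') v)) f g
      (locAt_of_test q1 (hy' _ (by simp))) (locAt_of_test q2 (hy' _ (by simp)))
      (locAt_of_test q3 (hy' _ (by simp))) (fun _ => locAt_of_test q4 (hy' _ (by simp)))
  · obtain ⟨y', hy'⟩ := exists_common_test hM v0 a
      [lab false (top l f), lab false (top l g), lab false (top l (.and f g))]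
      (by simp) U y hcard hok (by
        intro R hR
        simp only [List.mem_cons, List.not_mem_nil, or_false] at hR
        rcases hR with rfl | rfl | rfl
        · exact q1.1
        · exact q2.1
        · exact q3.1)
    exact fval_and l _ (fun v => tb ((α + Pth a y') v)) f g
      (locAt_of_test q1 (hy' _ (by simp))) (locAt_of_test q2 (hy' _ (by simp)))
      (locAt_of_test q3 (hy' _ (by simp))) (fun h => absurd h hcut)

theorem val_or (hM : Even M) (l : ℕ) (v0 : Vt M) (α : Xt M D → ZMod 2) (a : Vt M → A D)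
    (f g : Fm (Xt M D)) (U : Finset (J M)) (y : Ed M → ZMod 2) (hcard : U.card + 20 < M)
    (hok : Ok v0 U y) (hf : Quiet l v0 α a f U y) (hg : Quiet l v0 α a g U y)
    (hn : Quiet l v0 α a (.or f g) U y) :
    val l v0 α a (.or f g) U y = (val l v0 α a f U y || val l v0 α a g U y) := by
  have q1 := hf (lab false (top l f)) (by simp [frags])
  have q2 := hg (lab false (top l g)) (by simp [frags])
  have q3 := hn (lab false (top l (.or f g))) (by simp [frags])
  by_cases hcut : cut l (top l f) (top l g) = true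
  · have q4 := hn (Fm.or (lab false (top l f)) (lab true (top l g))) (by
      simp [frags, pcs, hcut])
    obtain ⟨y', hy'⟩ := exists_common_test hM v0 a
      [lab false (top l f), lab false (top l g), lab false (top l (.or f g)),
        Fm.or (lab false (top l f)) (lab true (top l g))] (by simp) U y hcard hok (by
        intro R hR
        simp only [List.mem_cons, List.not_mem_nil, or_false] at hR
        rcases hR with rfl | rfl | rfl | rfl
        · exact q1.1
        · exact q2.1
        · exact q3.1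
        · exact q4.1)
    exact fval_or l _ (fun v => tb ((α + Pth a y') v)) f g
      (locAt_of_test q1 (hy' _ (by simp))) (locAt_of_test q2 (hy' _ (by simp)))
      (locAt_of_test q3 (hy' _ (by simp))) (fun _ => locAt_of_test q4 (hy' _ (by simp)))
  · obtain ⟨y', hy'⟩ := exists_common_test hM v0 a
      [lab false (top l f), lab false (top l g), lab false (top l (.or f g))]
      (by simp) U y hcard hok (by
        intro R hR
        simp only [List.mem_cons, List.not_mem_nil, or_false] at hR
        rcases hR with rfl | rfl | rfl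
        · exact q1.1
        · exact q2.1
        · exact q3.1)
    exact fval_or l _ (fun v => tb ((α + Pth a y') v)) f g
      (locAt_of_test q1 (hy' _ (by simp))) (locAt_of_test q2 (hy' _ (by simp)))
      (locAt_of_test q3 (hy' _ (by simp))) (fun h => absurd h hcut)

theorem mem_vars_map {V W : Type} (σ : V → W) (f : Fm V) (v : V) (hv : v ∈ f.vars) :
    σ v ∈ (f.map σ).vars := by
  induction f with
  | var w =>
    simp only [Fm.vars, Set.mem_singleton_iff] at hv
    subst hv
    simp [Fm.map, Fm.vars]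
  | neg f ih => exact ih hv
  | and f g ihf ihg =>
    rcases hv with hv | hv
    · exact Or.inl (ihf hv)
    · exact Or.inr (ihg hv)
  | or f g ihf ihg =>
    rcases hv with hv | hv
    · exact Or.inl (ihf hv)
    · exact Or.inr (ihg hv)

theorem inl_mem_vars_lab {X : Type} (b : Bool) (f : Fm (Option X)) (x : X)
    (hx : some x ∈ f.vars) : Sum.inl x ∈ (lab b f).vars := by
  induction f with
  | var w =>
    simp only [Fm.vars, Set.mem_singleton_iff] at hx
    subst hx
    simp [lab, Fm.map, Fm.vars]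
  | neg f ih => exact ih hx
  | and f g ihf ihg =>
    rcases hx with hx | hx
    · exact Or.inl (ihf hx)
    · exact Or.inr (ihg hx)
  | or f g ihf ihg =>
    rcases hx with hx | hx
    · exact Or.inl (ihf hx)
    · exact Or.inr (ihg hx)

/-- the first host edge of the path of `e` -/
theorem exists_live_src (hD : 0 < D) (a : Vt M → A D) (e : Ed M) :
    ∃ u : Xt M D, u.e = e ∧ live a u ∧ hsrc u = ctr a (src e) := by
  refine ⟨⟨e, ⟨0, hD⟩, mix 0 (a (src e)) (a (tgt e)), a (src e) ⟨0, hD⟩ + a (tgt e) ⟨0, hD⟩⟩,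
    rfl, ⟨rfl, rfl⟩, ?_⟩
  have hm : mix 0 (a (src e)) (a (tgt e)) = a (src e) := by
    funext k
    simp [mix]
  simp only [hsrc, hv, ctr, if_true]
  rw [hm]

/-- the last host edge of the path of `e` -/
theorem exists_live_tgt (hD : 0 < D) (a : Vt M → A D) (e : Ed M) :
    ∃ u : Xt M D, u.e = e ∧ live a u ∧ htgt u = ctr a (tgt e) := by
  have hlt : D - 1 < D := by omega
  refine ⟨⟨e, ⟨D - 1, hlt⟩, mix (D - 1) (a (src e)) (a (tgt e)),
    a (src e) ⟨D - 1, hlt⟩ + a (tgt e) ⟨D - 1, hlt⟩⟩, rfl, ⟨rfl, rfl⟩, ?_⟩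
  have h1 : ¬ (D - 1 + 1 = 0) := by omega
  have h2 : ¬ (D - 1 + 1 < D) := by omega
  simp only [htgt, hv, ctr, h1, h2, if_false, dite_false]
  congr 1
  funext k
  by_cases hk : k = ⟨D - 1, hlt⟩
  · subst hk
    simp only [mix, lt_irrefl, if_false, Pi.add_apply, Pi.single_eq_same]
    rw [← add_assoc, CharTwo.add_self_eq_zero, zero_add]
  · have hk' : k.val < D - 1 := by
      have h3 := k.isLt
      have h4 : k.val ≠ D - 1 := fun h => hk (Fin.ext h)
      omega
    simp [mix, hk', Pi.single_eq_of_ne hk]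

/-- the clauses of the Tseitin formula are locally true -/
theorem clause_good (hM : Even M) (hD : 2 ≤ D) (l : ℕ) (hl : 10 < l) (v0 : Vt M) (h0 u0)
    (α : Xt M D → ZMod 2) (a : Vt M → A D) (hα : hbd α = hpt h0 + hpt (ctr a v0))
    (p : HV M D × Finset (Xt M D)) (hp : p ∈ clauses h0) (U : Finset (J M))
    (y : Ed M → ZMod 2) (hcard : U.card + 20 < M) (hok : Ok v0 U y)
    (hq : Quiet l v0 α a (clause u0 p.1 p.2) U y) :
    val l v0 α a (clause u0 p.1 p.2) U y = true := by
  have hleaves : (clause u0 p.1 p.2).leaves < l :=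
    lt_of_le_of_lt (leaves_clause hD u0 p.1 p.2) hl
  have htop := (top_small l _ hleaves).1
  have q1 := hq (lab false (top l (clause u0 p.1 p.2))) (by simp [frags])
  obtain ⟨y', hy'⟩ := exists_common_test hM v0 a
    [lab false (top l (clause u0 p.1 p.2))] (by simp) U y hcard hok (by
      intro R hR
      simp only [List.mem_cons, List.not_mem_nil, or_false] at hR
      subst hR
      exact q1.1)
  have ht := hy' _ (List.mem_singleton.2 rfl)
  have hloc := locAt_of_test q1 ht
  have hval : val l v0 α a (clause u0 p.1 p.2) U y =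
      (clause u0 p.1 p.2).eval (fun v => tb ((α + Pth a y') v)) :=
    fval_small l _ _ _ hleaves hloc
  rw [hval]
  obtain ⟨-, t', hbd', hfree⟩ := ht
  apply clause_true hD u0 h0 p hp
  have hx : hbd (α + Pth a y') = hpt h0 + hpt (ctr a t') := by
    rw [hbd_add, hα, hbd_Pth_path (by omega) a y' v0 t' hbd']
    funext h
    simp only [Pi.add_apply]
    have h2 : hpt (ctr a v0) h + hpt (ctr a v0) h = 0 := CharTwo.add_self_eq_zero _
    calc hpt h0 h + hpt (ctr a v0) h + (hpt (ctr a v0) h + hpt (ctr a t') h)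
        = hpt h0 h + (hpt (ctr a v0) h + hpt (ctr a v0) h) + hpt (ctr a t') h := by ring
      _ = hpt h0 h + hpt (ctr a t') h := by rw [h2, add_zero]
  rw [hx]
  by_cases hpt' : p.1 = ctr a t'
  · exfalso
    have hstar : (star p.1).Nonempty := by
      simp only [clauses, Finset.mem_filter] at hp
      exact hp.2.2.1
    have hmem : ∃ u : Xt M D, u.e = (t'.1, none) ∧ live a u ∧ u ∈ star p.1 := by
      obtain ⟨q, b⟩ := t'
      cases b with
      | false =>
        obtain ⟨u, hu1, hu2, hu3⟩ := exists_live_src (D := D) (by omega) a (q, none)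
        refine ⟨u, hu1, hu2, ?_⟩
        simp only [star, Finset.mem_filter, Finset.mem_univ, true_and]
        left
        rw [hu3, hpt']
        rfl
      | true =>
        obtain ⟨u, hu1, hu2, hu3⟩ := exists_live_tgt (D := D) (by omega) a (q, none)
        refine ⟨u, hu1, hu2, ?_⟩
        simp only [star, Finset.mem_filter, Finset.mem_univ, true_and]
        right
        rw [hu3, hpt']
        rfl
    obtain ⟨u, hu1, hu2, hu3⟩ := hmem
    have hv1 : u ∈ (clause u0 p.1 p.2).vars := (clause_vars u0 p.1 p.2 hstar u).2 hu3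
    have hv2 : Sum.inl u ∈ (lab false (top l (clause u0 p.1 p.2))).vars := by
      rw [htop]
      exact inl_mem_vars_lab false _ u (mem_vars_map some _ u hv1)
    have hlive : ((t'.1, none) : Ed M) ∈ Live a (lab false (top l (clause u0 p.1 p.2))) :=
      ⟨u, hv2, hu1, hu2⟩
    have hsrc' : (src ((t'.1, none) : Ed M)).1 = t'.1 := rfl
    have htgt' : (tgt ((t'.1, none) : Ed M)).1 = t'.1 := rfl
    have hninc : ((t'.1, none) : Ed M) ∉ inc U := by
      intro hin
      have hmemU : t'.1 ∈ U := by
        rcases hin with hin | hin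
        · exact hin
        · exact hin
      exact not_free_of_mem (Finset.mem_union_left _ hmemU) hfree
    exact not_lam_of_free (e := (t'.1, none)) (by rw [hsrc']; exact hfree) ⟨hlive, hninc⟩
  · simp only [Pi.add_apply, hpt, chg, Pi.single_apply, hpt', if_false, add_zero]

end

end Fr56
end
end
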