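import Mathlib

/-!
De Morgan formulas in negation normal form over a finite set of variables: evaluation, restriction,
reduced formulas.
-/

set_option linter.unusedSectionVars false

namespace Fr56

open Finset

variable {X : Type} [DecidableEq X]

/-- formulas in negation normal form; `node true` is conjunction and `node false` disjunction -/
inductive NF (X : Type) : Type where
  | lit (x : X) (b : Bool) : NF X
  | node (o : Bool) (l r : NF X) : NF X

/-- `op true` is conjunction, `op false` is disjunction -/
def op (o a b : Bool) : Bool := if o then a && b else a || b

@[simp] theorem op_ctrl_left (o b : Bool) : op o (!o) b = !o := by cases o <;> cases b <;> rfl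
@[simp] theorem op_ctrl_right (o b : Bool) : op o b (!o) = !o := by cases o <;> cases b <;> rfl
@[simp] theorem op_id_left (o b : Bool) : op o o b = b := by cases o <;> cases b <;> rfl
@[simp] theorem op_id_right (o b : Bool) : op o b o = b := by cases o <;> cases b <;> rfl

namespace NF

/-- evaluation -/
def eval (α : X → Bool) : NF X → Bool
  | lit x b => α x == b
  | node o l r => op o (eval α l) (eval α r)

/-- number of leaves -/
def leaves : NF X → ℕ
  | lit _ _ => 1
  | node _ l r => leaves l + leaves r

/-- number of occurrences of a variable -/
def occ (x : X) : NF X → ℕ
  | lit y _ => if y = x then 1 else 0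
  | node _ l r => occ x l + occ x r

theorem leaves_pos (g : NF X) : 1 ≤ g.leaves := by
  induction g with
  | lit x b => simp [leaves]
  | node o l r ihl ihr => simp only [leaves]; omega

theorem sum_occ [Fintype X] (g : NF X) : ∑ x, g.occ x = g.leaves := by
  induction g with
  | lit y b => simp [occ, leaves]
  | node o l r ihl ihr => simp [occ, leaves, Finset.sum_add_distrib, ihl, ihr]

theorem eval_congr {g : NF X} {α β : X → Bool} (h : ∀ x, g.occ x ≠ 0 → α x = β x) :
    g.eval α = g.eval β := by
  induction g with
  | lit y b =>
    have := h y (by simp [occ])
    simp [eval, this]
  | node o l r ihl ihr =>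
    simp only [eval]
    rw [ihl (fun x hx => h x (by simp only [occ]; omega)),
      ihr (fun x hx => h x (by simp only [occ]; omega))]

end NF

/-- a formula or a constant -/
abbrev SF (X : Type) := Bool ⊕ NF X

namespace SF

/-- evaluation -/
def eval (α : X → Bool) : SF X → Bool
  | .inl c => c
  | .inr g => g.eval α

/-- number of leaves -/
def leaves : SF X → ℕ
  | .inl _ => 0
  | .inr g => g.leaves

/-- occurrences -/
def occ (x : X) : SF X → ℕ
  | .inl _ => 0
  | .inr g => g.occ x

theorem sum_occ [Fintype X] (g : SF X) : ∑ x, g.occ x = g.leaves := by
  cases g with
  | inl c => simp [occ, leaves]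
  | inr g => simpa [occ, leaves] using NF.sum_occ g

/-- simplifying node -/
def mk (o : Bool) : SF X → SF X → SF X
  | .inl c, r => if c = o then r else .inl (!o)
  | .inr l, .inl c => if c = o then .inr l else .inl (!o)
  | .inr l, .inr r => .inr (.node o l r)

theorem eval_mk (o : Bool) (l r : SF X) (α : X → Bool) :
    (mk o l r).eval α = op o (l.eval α) (r.eval α) := by
  cases l with
  | inl c =>
    cases c <;> cases o <;> simp [mk, eval, op]
  | inr l =>
    cases r with
    | inl c => cases c <;> cases o <;> simp [mk, eval, op]
    | inr r => simp [mk, eval, NF.eval]

theorem leaves_mk (o : Bool) (l r : SF X) : (mk o l r).leaves ≤ l.leaves + r.leaves := by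
  cases l with
  | inl c =>
    cases c <;> cases o <;> simp [mk, leaves]
  | inr l =>
    cases r with
    | inl c => cases c <;> cases o <;> simp [mk, leaves]
    | inr r => simp [mk, leaves, NF.leaves]

theorem occ_mk (o : Bool) (l r : SF X) (x : X) : (mk o l r).occ x ≤ l.occ x + r.occ x := by
  cases l with
  | inl c =>
    cases c <;> cases o <;> simp [mk, occ]
  | inr l =>
    cases r with
    | inl c => cases c <;> cases o <;> simp [mk, occ]
    | inr r => simp [mk, occ, NF.occ]

end SF

namespace NF

/-- restriction by a partial assignment -/
def res (ρ : X → Option Bool) : NF X → SF X
  | lit x b => match ρ x with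
    | none => .inr (lit x b)
    | some c => .inl (c == b)
  | node o l r => SF.mk o (res ρ l) (res ρ r)

theorem eval_res (ρ : X → Option Bool) (g : NF X) (β : X → Bool) :
    (g.res ρ).eval β = g.eval (fun x => (ρ x).getD (β x)) := by
  induction g with
  | lit x b =>
    simp only [res, eval]
    cases h : ρ x with
    | none => simp [SF.eval, eval]
    | some c => simp [SF.eval]
  | node o l r ihl ihr =>
    simp only [res, SF.eval_mk, ihl, ihr, eval]

theorem occ_res (ρ : X → Option Bool) (g : NF X) (x : X) :
    (g.res ρ).occ x ≤ if ρ x = none then g.occ x else 0 := by
  induction g with
  | lit y b =>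
    simp only [res, occ]
    cases h : ρ y with
    | none =>
      simp only [SF.occ, occ]
      by_cases hxy : y = x
      · subst hxy; simp [h]
      · simp [hxy]
    | some c => simp [SF.occ]
  | node o l r ihl ihr =>
    simp only [res, occ]
    refine (SF.occ_mk o _ _ x).trans ?_
    split_ifs with h
    · simp only [h, if_true] at ihl ihr; omega
    · simp only [h, if_false] at ihl ihr; omega

theorem occ_res_le (ρ : X → Option Bool) (g : NF X) (x : X) :
    (g.res ρ).occ x ≤ g.occ x := by
  refine (occ_res ρ g x).trans ?_
  split_ifs <;> simp

theorem leaves_res_add [Fintype X] (ρ : X → Option Bool) (g : NF X) (x : X) (hx : ρ x ≠ none) :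
    (g.res ρ).leaves + g.occ x ≤ g.leaves := by
  have e1 : (g.res ρ).leaves = (g.res ρ).occ x + ∑ y ∈ univ.erase x, (g.res ρ).occ y := by
    rw [← SF.sum_occ, Finset.add_sum_erase _ (fun y => (g.res ρ).occ y) (Finset.mem_univ x)]
  have e2 : g.leaves = g.occ x + ∑ y ∈ univ.erase x, g.occ y := by
    rw [← sum_occ, Finset.add_sum_erase _ (fun y => g.occ y) (Finset.mem_univ x)]
  have h0 : (g.res ρ).occ x = 0 := by
    have := occ_res ρ g x
    simpa [hx] using this
  have h1 : ∑ y ∈ univ.erase x, (g.res ρ).occ y ≤ ∑ y ∈ univ.erase x, g.occ y :=
    Finset.sum_le_sum fun y _ => occ_res_le ρ g y
  omega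

theorem leaves_res_le [Fintype X] (ρ : X → Option Bool) (g : NF X) :
    (g.res ρ).leaves ≤ g.leaves := by
  rw [← SF.sum_occ, ← sum_occ]
  exact Finset.sum_le_sum fun y _ => occ_res_le ρ g y

/-- no leaf's variable occurs in its sibling -/
def Reduced : NF X → Prop
  | lit _ _ => True
  | node _ l r => Reduced l ∧ Reduced r ∧ (∀ x b, l = lit x b → r.occ x = 0) ∧
      (∀ x b, r = lit x b → l.occ x = 0)

end NF

namespace SF

/-- a constant, or a reduced formula -/
def Reduced : SF X → Prop
  | .inl _ => True
  | .inr g => g.Reduced

end SF

theorem exists_reduced [Fintype X] (g : NF X) : ∃ s : SF X, (∀ α, s.eval α = g.eval α) ∧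
    (∀ x, s.occ x ≤ g.occ x) ∧ s.Reduced := by
  obtain ⟨n, hn⟩ : ∃ n, g.leaves = n := ⟨_, rfl⟩
  induction n using Nat.strong_induction_on generalizing g with
  | _ n ih =>
    cases g with
    | lit x b => exact ⟨.inr (.lit x b), fun _ => rfl, fun _ => le_rfl, trivial⟩
    | node o l r =>
      simp only [NF.leaves] at hn
      have hl1 := l.leaves_pos
      have hr1 := r.leaves_pos
      obtain ⟨sl, hsl1, hsl2, hsl3⟩ := ih l.leaves (by omega) l rfl
      obtain ⟨sr, hsr1, hsr2, hsr3⟩ := ih r.leaves (by omega) r rfl
      have leaves_le : ∀ (s : SF X) (g : NF X), (∀ x, s.occ x ≤ g.occ x) → s.leaves ≤ g.leaves := by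
        intro s g h
        rw [← SF.sum_occ, ← NF.sum_occ]
        exact Finset.sum_le_sum fun y _ => h y
      have hll := leaves_le sl l hsl2
      have hrl := leaves_le sr r hsr2
      cases sl with
      | inl c =>
        refine ⟨SF.mk o (.inl c) sr, fun α => ?_, fun x => ?_, ?_⟩
        · rw [SF.eval_mk, hsl1, hsr1]; rfl
        · refine (SF.occ_mk _ _ _ _).trans ?_
          have := hsl2 x; have := hsr2 x
          simp only [NF.occ]; omega
        · simp only [SF.mk]
          split_ifs
          · exact hsr3
          · trivial
      | inr l' =>
        cases sr with
        | inl c =>
          refine ⟨SF.mk o (.inr l') (.inl c), fun α => ?_, fun x => ?_, ?_⟩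
          · rw [SF.eval_mk, hsl1, hsr1]; rfl
          · refine (SF.occ_mk _ _ _ _).trans ?_
            have := hsl2 x; have := hsr2 x
            simp only [NF.occ]; omega
          · simp only [SF.mk]
            split_ifs
            · exact hsl3
            · trivial
        | inr r' =>
          simp only [SF.leaves] at hll hrl
          simp only [SF.occ] at hsl2 hsr2
          by_cases hA : ∃ x b, l' = NF.lit x b ∧ r'.occ x ≠ 0
          · obtain ⟨x, b, rfl, hx⟩ := hA
            set ρ : X → Option Bool := fun y => if y = x then some (b == o) else none with hρ
            have hlt := NF.leaves_res_add ρ r' x (by simp [hρ])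
            have hev : ∀ α, op o ((NF.lit x b).eval α) (r'.eval α) =
                op o ((NF.lit x b).eval α) ((r'.res ρ).eval α) := by
              intro α
              rw [NF.eval_res]
              by_cases hc : (NF.lit x b).eval α = o
              · rw [hc]
                simp only [op_id_left]
                congr 1
                funext y
                simp only [hρ]
                by_cases hy : y = x
                · subst hy
                  simp only [NF.eval] at hc
                  simp only [if_true, Option.getD_some]
                  cases h1 : α y <;> cases h2 : b <;> cases h3 : o <;> simp_all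
                · simp [hy]
              · have hc' : (NF.lit x b).eval α = !o := by
                  cases h1 : (NF.lit x b).eval α <;> cases h2 : o <;> simp_all
                rw [hc', op_ctrl_left, op_ctrl_left]
            cases hs : r'.res ρ with
            | inl c =>
              refine ⟨SF.mk o (.inr (NF.lit x b)) (.inl c), fun α => ?_, fun y => ?_, ?_⟩
              · rw [SF.eval_mk]
                have h1 := hev α
                rw [hs] at h1
                have h2 := hsl1 α
                have h3 := hsr1 α
                simp only [SF.eval] at h1 h2 h3 ⊢
                rw [← h1, h2, h3]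
                rfl
              · refine (SF.occ_mk _ _ _ _).trans ?_
                have := hsl2 y
                simp only [NF.occ, SF.occ] at this ⊢; omega
              · simp only [SF.mk]
                split_ifs <;> trivial
            | inr r2 =>
              rw [hs] at hlt
              simp only [SF.leaves] at hlt
              have hocc : ∀ y, r2.occ y ≤ r'.occ y := by
                intro y
                have := NF.occ_res_le ρ r' y
                rw [hs] at this
                exact this
              have hle : (NF.node o (NF.lit x b) r2).leaves < n := by
                simp only [NF.leaves] at hll ⊢; omega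
              obtain ⟨s, hs1, hs2, hs3⟩ := ih _ hle (NF.node o (NF.lit x b) r2) rfl
              refine ⟨s, fun α => ?_, fun y => ?_, hs3⟩
              · rw [hs1]
                have h1 := hev α
                rw [hs] at h1
                have h2 := hsl1 α
                have h3 := hsr1 α
                simp only [SF.eval, NF.eval] at h1 h2 h3 ⊢
                rw [← h1, h2, h3]
              · refine (hs2 y).trans ?_
                have := hsl2 y
                have := hsr2 y
                have := hocc y
                simp only [NF.occ] at *; omega
          · by_cases hB : ∃ x b, r' = NF.lit x b ∧ l'.occ x ≠ 0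
            · obtain ⟨x, b, rfl, hx⟩ := hB
              set ρ : X → Option Bool := fun y => if y = x then some (b == o) else none with hρ
              have hlt := NF.leaves_res_add ρ l' x (by simp [hρ])
              have hev : ∀ α, op o (l'.eval α) ((NF.lit x b).eval α) =
                  op o ((l'.res ρ).eval α) ((NF.lit x b).eval α) := by
                intro α
                rw [NF.eval_res]
                by_cases hc : (NF.lit x b).eval α = o
                · rw [hc]
                  simp only [op_id_right]
                  congr 1
                  funext y
                  simp only [hρ]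
                  by_cases hy : y = x
                  · subst hy
                    simp only [NF.eval] at hc
                    simp only [if_true, Option.getD_some]
                    cases h1 : α y <;> cases h2 : b <;> cases h3 : o <;> simp_all
                  · simp [hy]
                · have hc' : (NF.lit x b).eval α = !o := by
                    cases h1 : (NF.lit x b).eval α <;> cases h2 : o <;> simp_all
                  rw [hc', op_ctrl_right, op_ctrl_right]
              cases hs : l'.res ρ with
              | inl c =>
                refine ⟨SF.mk o (.inl c) (.inr (NF.lit x b)), fun α => ?_, fun y => ?_, ?_⟩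
                · rw [SF.eval_mk]
                  have h1 := hev α
                  rw [hs] at h1
                  have h2 := hsl1 α
                  have h3 := hsr1 α
                  simp only [SF.eval] at h1 h2 h3 ⊢
                  rw [← h1, h2, h3]
                  rfl
                · refine (SF.occ_mk _ _ _ _).trans ?_
                  have := hsr2 y
                  simp only [NF.occ, SF.occ] at this ⊢; omega
                · simp only [SF.mk]
                  split_ifs <;> trivial
              | inr l2 =>
                rw [hs] at hlt
                simp only [SF.leaves] at hlt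
                have hocc : ∀ y, l2.occ y ≤ l'.occ y := by
                  intro y
                  have := NF.occ_res_le ρ l' y
                  rw [hs] at this
                  exact this
                have hle : (NF.node o l2 (NF.lit x b)).leaves < n := by
                  simp only [NF.leaves] at hrl ⊢; omega
                obtain ⟨s, hs1, hs2, hs3⟩ := ih _ hle (NF.node o l2 (NF.lit x b)) rfl
                refine ⟨s, fun α => ?_, fun y => ?_, hs3⟩
                · rw [hs1]
                  have h1 := hev α
                  rw [hs] at h1
                  have h2 := hsl1 α
                  have h3 := hsr1 α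
                  simp only [SF.eval, NF.eval] at h1 h2 h3 ⊢
                  rw [← h1, h2, h3]
                · refine (hs2 y).trans ?_
                  have := hsl2 y
                  have := hsr2 y
                  have := hocc y
                  simp only [NF.occ] at *; omega
            · push Not at hA hB
              refine ⟨.inr (.node o l' r'), fun α => ?_, fun y => ?_, ?_⟩
              · have h2 := hsl1 α
                have h3 := hsr1 α
                simp only [SF.eval, NF.eval] at h2 h3 ⊢
                rw [h2, h3]
              · have := hsl2 y
                have := hsr2 y
                simp only [SF.occ, NF.occ] at *; omega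
              · exact ⟨hsl3, hsr3, hA, hB⟩

end Fr56
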