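import Pool.Agent.Lib.MP_51bb46_lc.B.Defs
import Pool.Agent.Lib.MP_51bb46_lc.B.NF

/-!
Decomposition of a formula into small pieces with at most two holes.
A formula with one kind of hole is `Fm (Option X)` (`none` is the hole); a piece with holes labelled
by `Bool` is `Fm (X ⊕ Bool)`.
-/

set_option linter.unusedSectionVars false

namespace Fr56

open Finset

variable {X : Type}

/-- number of leaves that are not holes -/
def vl : Fm (Option X) → ℕ
  | .var none => 0
  | .var (some _) => 1
  | .neg f => vl f
  | .and f g => vl f + vl g
  | .or f g => vl f + vl g

/-- is there a hole? -/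
def hasHole : Fm (Option X) → Bool
  | .var none => true
  | .var (some _) => false
  | .neg f => hasHole f
  | .and f g => hasHole f || hasHole g
  | .or f g => hasHole f || hasHole g

/-- cut criterion for a binary node with tops `s`, `t` -/
def cut (l : ℕ) (s t : Fm (Option X)) : Bool := (hasHole s && hasHole t) || decide (l ≤ vl s + vl t)

/-- the top fragment of a formula (with at most one hole) -/
def top (l : ℕ) : Fm X → Fm (Option X)
  | .var x => .var (some x)
  | .neg f => .neg (top l f)
  | .and f g => if cut l (top l f) (top l g) then .var none else .and (top l f) (top l g)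
  | .or f g => if cut l (top l f) (top l g) then .var none else .or (top l f) (top l g)

/-- label the hole by `b` -/
def lab (b : Bool) : Fm (Option X) → Fm (X ⊕ Bool) :=
  Fm.map fun | some x => Sum.inl x | none => Sum.inr b

/-- the pieces of the cut nodes -/
def pcs (l : ℕ) : Fm X → List (Fm (X ⊕ Bool))
  | .var _ => []
  | .neg f => pcs l f
  | .and f g => (if cut l (top l f) (top l g) then
      [Fm.and (lab false (top l f)) (lab true (top l g))] else []) ++ (pcs l f ++ pcs l g)
  | .or f g => (if cut l (top l f) (top l g) then
      [Fm.or (lab false (top l f)) (lab true (top l g))] else []) ++ (pcs l f ++ pcs l g)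

/-- all fragments of a formula: pieces of cut nodes, and the top -/
def frags (l : ℕ) (f : Fm X) : List (Fm (X ⊕ Bool)) := lab false (top l f) :: pcs l f

/-- number of leaves of a fragment that are not holes -/
def vl2 : Fm (X ⊕ Bool) → ℕ
  | .var (.inl _) => 1
  | .var (.inr _) => 0
  | .neg f => vl2 f
  | .and f g => vl2 f + vl2 g
  | .or f g => vl2 f + vl2 g

/-- value of the hole of the top, computed from the local values `c` of the pieces -/
def hval (l : ℕ) (c : Fm (X ⊕ Bool) → (Bool → Bool) → Bool) : Fm X → Bool
  | .var _ => false
  | .neg f => hval l c f
  | .and f g => if cut l (top l f) (top l g) then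
      c (Fm.and (lab false (top l f)) (lab true (top l g)))
        (fun b => if b then hval l c g else hval l c f)
      else if hasHole (top l f) then hval l c f else hval l c g
  | .or f g => if cut l (top l f) (top l g) then
      c (Fm.or (lab false (top l f)) (lab true (top l g)))
        (fun b => if b then hval l c g else hval l c f)
      else if hasHole (top l f) then hval l c f else hval l c g

/-- value of the formula computed from the local values of its fragments -/
def fval (l : ℕ) (c : Fm (X ⊕ Bool) → (Bool → Bool) → Bool) (f : Fm X) : Bool :=
  c (lab false (top l f)) (fun _ => hval l c f)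

/-- `c` agrees on `R` with the evaluation at `u` -/
def LocAt (c : Fm (X ⊕ Bool) → (Bool → Bool) → Bool) (u : X → Bool) (R : Fm (X ⊕ Bool)) : Prop :=
  ∀ z : Bool → Bool, c R z = R.eval (Sum.elim u z)

end Fr56
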